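import Mathlib

set_option autoImplicit false

open scoped BoundedContinuousFunction

namespace Pool.Agent.MPb9c6dd

/-- A positive element of a C*-algebra: an element of the form `g* g`. -/
def IsPos {A : Type} [CStarAlgebra A] (a : A) : Prop := ∃ g : A, a = star g * g

/-- `(ι, U)` is a model of the crossed product `B` of `A` by `α`: an injective
gauge invariant covariant pair which generates `B`. -/
structure CP {A B : Type} [CStarAlgebra A] [CStarAlgebra B] (α : A ≃⋆ₐ[ℂ] A)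
    (ι : A →⋆ₐ[ℂ] B) (U : unitary B) : Prop where
  inj : Function.Injective ι
  cov : ∀ a : A, (U : B) * ι a * star (U : B) = ι (α a)
  gen : (StarAlgebra.adjoin ℂ (Set.range (ι : A → B) ∪ {(U : B)})).topologicalClosure = ⊤
  gauge : ∀ z : ℂ, ‖z‖ = 1 →
    ∃ γ : B →⋆ₐ[ℂ] B, (∀ a : A, γ (ι a) = ι a) ∧ γ (U : B) = z • (U : B)

/-- The integer powers of the unitary, as elements of `B`. -/
noncomputable def upw {B : Type} [CStarAlgebra B] (U : unitary B) (k : ℤ) : B :=
  ((U ^ k : unitary B) : B)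

/-- A Laurent polynomial in `U` with coefficients in `A`, supported in `s`. -/
noncomputable def pol {A B : Type} [CStarAlgebra A] [CStarAlgebra B]
    (ι : A →⋆ₐ[ℂ] B) (U : unitary B) (s : Finset ℤ) (c : ℤ → A) : B :=
  ∑ k ∈ s, ι (c k) * upw U k

/-- The canonical conditional expectation. -/
structure IsEx {A B : Type} [CStarAlgebra A] [CStarAlgebra B] (α : A ≃⋆ₐ[ℂ] A)
    (ι : A →⋆ₐ[ℂ] B) (U : unitary B) (E : B →L[ℂ] A) : Prop where
  norm_le : ∀ b, ‖E b‖ ≤ ‖b‖
  ι_mul : ∀ a b, E (ι a * b) = a * E b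
  mul_ι : ∀ a b, E (b * ι a) = E b * a
  conj : ∀ b, E ((U : B) * b * star (U : B)) = α (E b)
  map_star : ∀ b, E (star b) = star (E b)
  pos : ∀ b, IsPos (E (star b * b))
  pw : ∀ k : ℤ, E (upw U k) = if k = 0 then 1 else 0

/-- Finite Rokhlin dimension with commuting towers, at most `d`. -/
def Rok {A : Type} [CStarAlgebra A] (α : A ≃⋆ₐ[ℂ] A) (d : ℕ) : Prop :=
  ∀ (F : Finset A) (ε : ℝ), 0 < ε → ∀ q : ℕ,
      ∃ f : Fin (d + 1) → Fin (q + 1) → A,
        (∀ l j, (∃ g : A, f l j = star g * g) ∧ ‖f l j‖ ≤ 1) ∧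
        (∀ l j k, j ≠ k → ‖f l j * f l k‖ < ε) ∧
        (∀ l j, ‖α (f l j) - f l (j + 1)‖ < ε) ∧
        ‖(∑ l, ∑ j, f l j) - 1‖ < ε ∧
        (∀ l j, ∀ a ∈ F, ‖f l j * a - a * f l j‖ < ε) ∧
        (∀ l m j k, ‖f l j * f m k - f m k * f l j‖ < ε)

/-- Exact commuting Rokhlin towers in a C*-algebra with a unitary `W`. -/
structure Tower {C : Type} [CStarAlgebra C] (W : unitary C) (d q : ℕ)
    (x : Fin (d + 1) → Fin (q + 1) → C) : Prop where
  pos : ∀ l j, IsPos (x l j)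
  norm_le : ∀ l j, ‖x l j‖ ≤ 1
  orth : ∀ l j k, j ≠ k → x l j * x l k = 0
  comm : ∀ l m j k, x l j * x m k = x m k * x l j
  shift : ∀ l j, (W : C) * x l j * star (W : C) = x l (j + 1)
  sum : ∑ l, ∑ j, x l j = 1

/-- Constant sequences. -/
noncomputable def cst {B : Type} [CStarAlgebra B] : B →⋆ₐ[ℂ] (ℕ →ᵇ B) where
  toFun b := BoundedContinuousFunction.const ℕ b
  map_one' := rfl
  map_mul' _ _ := rfl
  map_zero' := rfl
  map_add' _ _ := rfl
  commutes' _ := rfl
  map_star' _ := rfl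

theorem cst_apply {B : Type} [CStarAlgebra B] (b : B) (n : ℕ) : cst b n = b := rfl

/-- Evaluation at `n` of a bounded sequence. -/
noncomputable def evl {B : Type} [CStarAlgebra B] (n : ℕ) : (ℕ →ᵇ B) →⋆ₐ[ℂ] B where
  toFun X := X n
  map_one' := rfl
  map_mul' _ _ := rfl
  map_zero' := rfl
  map_add' _ _ := rfl
  commutes' _ := rfl
  map_star' _ := rfl

theorem evl_apply {B : Type} [CStarAlgebra B] (n : ℕ) (X : ℕ →ᵇ B) : evl n X = X n := rfl

/-- The map on bounded sequences induced by a `*`-homomorphism. -/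
noncomputable def seqMap {A B : Type} [CStarAlgebra A] [CStarAlgebra B]
    (ι : A →⋆ₐ[ℂ] B) : (ℕ →ᵇ A) →⋆ₐ[ℂ] (ℕ →ᵇ B) where
  toFun X := BoundedContinuousFunction.ofNormedAddCommGroup (fun n => ι (X n))
    continuous_of_discreteTopology ‖X‖
    (fun n => (NonUnitalStarAlgHom.norm_apply_le ι (X n)).trans (X.norm_coe_le_norm n))
  map_one' := by ext n; simp
  map_mul' X Y := by ext n; simp
  map_zero' := by ext n; simp
  map_add' X Y := by ext n; simp
  commutes' r := by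
    ext n
    simp [Algebra.algebraMap_eq_smul_one]
  map_star' X := by ext n; simp [map_star]

theorem seqMap_apply {A B : Type} [CStarAlgebra A] [CStarAlgebra B]
    (ι : A →⋆ₐ[ℂ] B) (X : ℕ →ᵇ A) (n : ℕ) : seqMap ι X n = ι (X n) := rfl

/-- `mk` is a model of the canonical map of the bounded sequences to the ultrapower
(up to completion: only density of the range is asked for). -/
structure IsUltra {B C : Type} [CStarAlgebra B] [CStarAlgebra C]
    (mk : (ℕ →ᵇ B) →⋆ₐ[ℂ] C) : Prop where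
  dense : DenseRange mk
  lt_of_norm : ∀ (X : ℕ →ᵇ B) (r : ℝ), ‖mk X‖ < r →
    ∀ᶠ n in (Filter.hyperfilter ℕ : Filter ℕ), ‖X n‖ < r
  norm_le : ∀ (X : ℕ →ᵇ B) (r : ℝ), 0 ≤ r →
    (∀ᶠ n in (Filter.hyperfilter ℕ : Filter ℕ), ‖X n‖ ≤ r) → ‖mk X‖ ≤ r

/-- The image of a unitary in the ultrapower. -/
noncomputable def uU {B C : Type} [CStarAlgebra B] [CStarAlgebra C]
    (mk : (ℕ →ᵇ B) →⋆ₐ[ℂ] C) (U : unitary B) : unitary C :=
  ⟨mk (cst (U : B)), by
    rw [Unitary.mem_iff]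
    constructor
    · rw [← map_star, ← map_star, ← map_mul, ← map_mul,
        Unitary.star_mul_self_of_mem U.2, map_one, map_one]
    · rw [← map_star, ← map_star, ← map_mul, ← map_mul,
        Unitary.mul_star_self_of_mem U.2, map_one, map_one]⟩

theorem uU_coe {B C : Type} [CStarAlgebra B] [CStarAlgebra C]
    (mk : (ℕ →ᵇ B) →⋆ₐ[ℂ] C) (U : unitary B) : ((uU mk U : unitary C) : C) = mk (cst (U : B)) := rfl

/-- The domination property. -/
def DP {A : Type} [CStarAlgebra A] (α : A ≃⋆ₐ[ℂ] A) : Prop :=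
  ∀ y : A, IsPos y → y ≠ 0 → ∃ (L : ℕ) (a b : Fin L → A),
    ∑ j : Fin L, a j * (α ^ (j : ℕ)) y * b j = 1

/-- The function which is `0` below `2δ` and `1` above `3δ`. -/
noncomputable def psi (δ s : ℝ) : ℝ := min 1 (max 0 ((s - 2 * δ) / δ))

/-- The function `s ↦ 1 / max s δ`. -/
noncomputable def rrf (δ s : ℝ) : ℝ := (max s δ)⁻¹

/-- The function `s ↦ (s - 3δ)₊`. -/
noncomputable def ptf (δ s : ℝ) : ℝ := max 0 (s - 3 * δ)

/-- `gam g j = ∏_l (1 - (g l j)²)`. -/
noncomputable def gam {R : Type} [Ring R] {D q : ℕ} (g : Fin D → Fin (q + 1) → R)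
    (j : Fin (q + 1)) : R := (List.ofFn fun l : Fin D => (1 - g l j * g l j)).prod

/-- `PP g n = ∏_{j < n} gam g j`. -/
noncomputable def PP {R : Type} [Ring R] {D q : ℕ} (g : Fin D → Fin (q + 1) → R) : ℕ → R
  | 0 => 1
  | n + 1 => PP g n * gam g (Fin.ofNat (q + 1) n)

/-- `GL(B)` closure. -/
def CL (B : Type) [CStarAlgebra B] : Set B := closure {x : B | IsUnit x}

end Pool.Agent.MPb9c6dd
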