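import Pool.Agent.Lib.MP_b9c6dd_an.Basic

set_option autoImplicit false

open scoped BoundedContinuousFunction

namespace Pool.Agent.MPb9c6dd

variable {A B : Type} [CStarAlgebra A] [CStarAlgebra B] {α : A ≃⋆ₐ[ℂ] A}
  {ι : A →⋆ₐ[ℂ] B} {U : unitary B}

theorem upw_zero (U : unitary B) : upw U 0 = 1 := by
  unfold upw
  rw [zpow_zero]
  rfl

theorem upw_add (U : unitary B) (j k : ℤ) : upw U (j + k) = upw U j * upw U k := by
  unfold upw
  rw [zpow_add]
  rfl

theorem upw_star (U : unitary B) (k : ℤ) : star (upw U k) = upw U (-k) := by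
  unfold upw
  rw [zpow_neg, ← Unitary.star_eq_inv]
  rfl

theorem upw_nat (U : unitary B) (n : ℕ) : upw U (n : ℤ) = (U : B) ^ n := by
  unfold upw
  rw [zpow_natCast]
  rfl

theorem aut_add (α : A ≃⋆ₐ[ℂ] A) (j k : ℤ) (a : A) : (α ^ (j + k)) a = (α ^ j) ((α ^ k) a) := by
  rw [zpow_add]
  rfl

private lemma cpbasic_upw_one (U : unitary B) : upw U 1 = (U : B) := by
  unfold upw
  rw [zpow_one]

private lemma cpbasic_star_mul (U : unitary B) : star (U : B) * (U : B) = 1 :=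
  Unitary.star_mul_self_of_mem U.2

private lemma cpbasic_mul_star (U : unitary B) : (U : B) * star (U : B) = 1 :=
  Unitary.mul_star_self_of_mem U.2

private lemma cpbasic_one (h : CP α ι U) (a : A) : (U : B) * ι a = ι (α a) * (U : B) := by
  rw [← h.cov a, mul_assoc, cpbasic_star_mul, mul_one]

private lemma cpbasic_neg (h : CP α ι U) (a : A) :
    star (U : B) * ι a = ι (α.symm a) * star (U : B) := by
  have h1 := h.cov (α.symm a)
  rw [StarAlgEquiv.apply_symm_apply] at h1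
  rw [← h1, ← mul_assoc, ← mul_assoc, cpbasic_star_mul, one_mul]

private lemma cpbasic_inv (α : A ≃⋆ₐ[ℂ] A) (a : A) : (α ^ (-1 : ℤ)) a = α.symm a := by
  rw [zpow_neg_one]
  rfl

theorem CP.upw_mul_ι (h : CP α ι U) (k : ℤ) (a : A) :
    upw U k * ι a = ι ((α ^ k) a) * upw U k := by
  induction k using Int.induction_on generalizing a with
  | zero =>
    rw [upw_zero, one_mul, mul_one, zpow_zero]
    rfl
  | succ k ih =>
    rw [upw_add, cpbasic_upw_one, mul_assoc, cpbasic_one h, ← mul_assoc, ih, mul_assoc, aut_add,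
      zpow_one]
  | pred k ih =>
    have e : (-(k : ℤ) - 1) = -(k : ℤ) + (-1) := by ring
    have e2 : upw U (-1) = star (U : B) := by
      rw [← upw_star, cpbasic_upw_one]
    rw [e, upw_add, e2, mul_assoc, cpbasic_neg h, ← mul_assoc, ih, mul_assoc, aut_add, cpbasic_inv]

/-- A product of two polynomials. -/
theorem CP.pol_mul (h : CP α ι U) (K L : ℕ) (c d : ℤ → A) :
    ∃ e : ℤ → A, pol ι U (Finset.Icc (-(K : ℤ)) K) c * pol ι U (Finset.Icc (-(L : ℤ)) L) d =
      pol ι U (Finset.Icc (-((K + L : ℕ) : ℤ)) ((K + L : ℕ) : ℤ)) e := by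
  classical
  set s : Finset (ℤ × ℤ) := Finset.Icc (-(K : ℤ)) K ×ˢ Finset.Icc (-(L : ℤ)) L with hs
  refine ⟨fun n => ∑ p ∈ s with p.1 + p.2 = n, c p.1 * (α ^ p.1) (d p.2), ?_⟩
  unfold pol
  rw [Finset.sum_mul_sum, ← Finset.sum_product']
  have h1 : ∀ p ∈ s, ι (c p.1) * upw U p.1 * (ι (d p.2) * upw U p.2) =
      ι (c p.1 * (α ^ p.1) (d p.2)) * upw U (p.1 + p.2) := by
    intro p _
    rw [map_mul, upw_add]
    calc ι (c p.1) * upw U p.1 * (ι (d p.2) * upw U p.2)
        = ι (c p.1) * (upw U p.1 * ι (d p.2)) * upw U p.2 := by simp only [mul_assoc]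
      _ = ι (c p.1) * (ι ((α ^ p.1) (d p.2)) * upw U p.1) * upw U p.2 := by rw [h.upw_mul_ι]
      _ = _ := by simp only [mul_assoc]
  rw [Finset.sum_congr rfl h1]
  have hmaps : ∀ p ∈ s, p.1 + p.2 ∈ Finset.Icc (-((K + L : ℕ) : ℤ)) ((K + L : ℕ) : ℤ) := by
    intro p hp
    rw [hs, Finset.mem_product, Finset.mem_Icc, Finset.mem_Icc] at hp
    rw [Finset.mem_Icc]
    push_cast
    omega
  rw [← Finset.sum_fiberwise_of_maps_to hmaps]
  refine Finset.sum_congr rfl fun n _ => ?_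
  rw [map_sum, Finset.sum_mul]
  refine Finset.sum_congr rfl fun p hp => ?_
  rw [(Finset.mem_filter.1 hp).2]

private lemma cpbasic_extend (ι : A →⋆ₐ[ℂ] B) (U : unitary B) (K K' : ℕ) (hK : K ≤ K') (c : ℤ → A) :
    ∃ c' : ℤ → A, pol ι U (Finset.Icc (-(K : ℤ)) K) c = pol ι U (Finset.Icc (-(K' : ℤ)) K') c' := by
  classical
  refine ⟨fun k => if k ∈ Finset.Icc (-(K : ℤ)) K then c k else 0, ?_⟩
  unfold pol
  have hsub : Finset.Icc (-(K : ℤ)) K ⊆ Finset.Icc (-(K' : ℤ)) K' := by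
    intro k hk
    rw [Finset.mem_Icc] at hk ⊢
    omega
  rw [← Finset.sum_subset hsub]
  · refine Finset.sum_congr rfl fun k hk => ?_
    beta_reduce
    rw [if_pos hk]
  · intro k _ hk
    beta_reduce
    rw [if_neg hk, map_zero, zero_mul]

private lemma cpbasic_add (ι : A →⋆ₐ[ℂ] B) (U : unitary B) (s : Finset ℤ) (c d : ℤ → A) :
    pol ι U s c + pol ι U s d = pol ι U s (fun k => c k + d k) := by
  unfold pol
  rw [← Finset.sum_add_distrib]
  refine Finset.sum_congr rfl fun k _ => ?_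
  rw [map_add, add_mul]

private lemma cpbasic_single (ι : A →⋆ₐ[ℂ] B) (U : unitary B) (K : ℕ) (a : A) (m : ℤ)
    (hm : m ∈ Finset.Icc (-(K : ℤ)) K) :
    ι a * upw U m = pol ι U (Finset.Icc (-(K : ℤ)) K) (fun k => if k = m then a else 0) := by
  classical
  unfold pol
  rw [Finset.sum_eq_single m]
  · beta_reduce
    rw [if_pos rfl]
  · intro k _ hk
    beta_reduce
    rw [if_neg hk, map_zero, zero_mul]
  · intro h
    exact absurd hm h

private lemma cpbasic_star (h : CP α ι U) (K : ℕ) (c : ℤ → A) :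
    star (pol ι U (Finset.Icc (-(K : ℤ)) K) c) =
      pol ι U (Finset.Icc (-(K : ℤ)) K) (fun k => (α ^ k) (star (c (-k)))) := by
  unfold pol
  rw [star_sum]
  have h1 : ∀ k ∈ Finset.Icc (-(K : ℤ)) K, star (ι (c k) * upw U k) =
      ι ((α ^ (-k)) (star (c (-(-k))))) * upw U (-k) := by
    intro k _
    rw [star_mul, upw_star, ← map_star, h.upw_mul_ι, neg_neg]
  rw [Finset.sum_congr rfl h1]
  refine Finset.sum_nbij' (fun k => -k) (fun k => -k) ?_ ?_ ?_ ?_ ?_
  · intro k hk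
    rw [Finset.mem_Icc] at hk ⊢
    omega
  · intro k hk
    rw [Finset.mem_Icc] at hk ⊢
    omega
  · intro k _
    exact neg_neg k
  · intro k _
    exact neg_neg k
  · intro k _
    rfl

private lemma cpbasic_algebraMap (ι : A →⋆ₐ[ℂ] B) (U : unitary B) (r : ℂ) :
    algebraMap ℂ B r = pol ι U (Finset.Icc (-((0 : ℕ) : ℤ)) ((0 : ℕ) : ℤ))
      (fun k => if k = 0 then algebraMap ℂ A r else 0) := by
  rw [← cpbasic_single ι U 0 (algebraMap ℂ A r) 0 (by simp), upw_zero, mul_one]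
  exact (AlgHomClass.commutes ι r).symm

/-- the star subalgebra of polynomials -/
private noncomputable def cpbasic_sub (h : CP α ι U) : StarSubalgebra ℂ B where
  carrier := {b | ∃ (K : ℕ) (c : ℤ → A), b = pol ι U (Finset.Icc (-(K : ℤ)) K) c}
  mul_mem' := by
    rintro _ _ ⟨K, c, rfl⟩ ⟨L, d, rfl⟩
    obtain ⟨e, he⟩ := h.pol_mul K L c d
    exact ⟨K + L, e, he⟩
  add_mem' := by
    rintro _ _ ⟨K, c, rfl⟩ ⟨L, d, rfl⟩
    obtain ⟨c', hc'⟩ := cpbasic_extend ι U K (max K L) (le_max_left _ _) c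
    obtain ⟨d', hd'⟩ := cpbasic_extend ι U L (max K L) (le_max_right _ _) d
    exact ⟨max K L, _, by rw [hc', hd', cpbasic_add]⟩
  algebraMap_mem' r := ⟨0, _, cpbasic_algebraMap ι U r⟩
  star_mem' := by
    rintro _ ⟨K, c, rfl⟩
    exact ⟨K, _, cpbasic_star h K c⟩

/-- The polynomials are dense. -/
theorem CP.pol_dense (h : CP α ι U) (b : B) (ε : ℝ) (hε : 0 < ε) :
    ∃ (K : ℕ) (c : ℤ → A), ‖b - pol ι U (Finset.Icc (-(K : ℤ)) K) c‖ < ε := by
  have h1 : StarAlgebra.adjoin ℂ (Set.range (ι : A → B) ∪ {(U : B)}) ≤ cpbasic_sub h := by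
    apply StarAlgebra.adjoin_le
    rintro x (⟨a, rfl⟩ | hx)
    · refine ⟨0, fun k => if k = 0 then a else 0, ?_⟩
      rw [← cpbasic_single ι U 0 a 0 (by simp), upw_zero, mul_one]
    · rw [Set.mem_singleton_iff] at hx
      subst hx
      refine ⟨1, fun k => if k = 1 then 1 else 0, ?_⟩
      rw [← cpbasic_single ι U 1 1 1 (by simp), cpbasic_upw_one, map_one, one_mul]
  have h2 := StarSubalgebra.topologicalClosure_mono h1
  rw [h.gen] at h2
  have h3 : b ∈ closure ((cpbasic_sub h : StarSubalgebra ℂ B) : Set B) := by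
    have := h2 (StarSubalgebra.mem_top (x := b))
    exact this
  obtain ⟨y, ⟨K, c, rfl⟩, hy⟩ := Metric.mem_closure_iff.1 h3 ε hε
  exact ⟨K, c, by rwa [← dist_eq_norm]⟩

end Pool.Agent.MPb9c6dd
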