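import Pool.Agent.Lib.MP_b9c6dd_an.Basic

set_option autoImplicit false

open scoped BoundedContinuousFunction

namespace Pool.Agent.MPb9c6dd

open Matrix

/-- A positive matrix over `A`: a matrix of the form `g* g`. -/
def MPos {A : Type} [CStarAlgebra A] {I : Type} [Fintype I] (y : Matrix I I A) : Prop :=
  ∃ g : Matrix I I A, y = gᴴ * g

/-- Cuntz subequivalence of matrices over `A`: `x` is a limit of `R* y R`. -/
def Cle {A : Type} [CStarAlgebra A] {I J : Type} [Fintype I] [Fintype J]
    (x : Matrix I I A) (y : Matrix J J A) : Prop :=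
  ∀ ε : ℝ, 0 < ε → ∃ R : Matrix J I A, ∀ i j, ‖(Rᴴ * y * R - x) i j‖ < ε

/-- Finite radius of comparison (in the algebraic form): there is a natural number `r` such that
`(n+1) x ⊕ (n r) 1 ≾ n y` for some `n ≥ 1` implies `x ≾ y`. -/
def FinRC (A : Type) [CStarAlgebra A] : Prop :=
  ∃ r : ℕ, ∀ n : ℕ, 1 ≤ n → ∀ (k l : ℕ) (x : Matrix (Fin k) (Fin k) A)
    (y : Matrix (Fin l) (Fin l) A), MPos x → MPos y →
    Cle (Matrix.fromBlocks (Matrix.blockDiagonal fun _ : Fin (n + 1) => x) 0 0
        (1 : Matrix (Fin (n * r)) (Fin (n * r)) A))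
      (Matrix.blockDiagonal fun _ : Fin n => y) →
    Cle x y

/-- The sequence comparison property at the unit: if `y n` are positive matrices over `A`
such that for a fixed `N` the unit is dominated by `N` copies of each `y n`,
then the unit is dominated by finitely many of the `y n`, each taken once. -/
def SeqComp (A : Type) [CStarAlgebra A] : Prop :=
  ∀ (N : ℕ) (k : ℕ → ℕ) (y : ∀ n, Matrix (Fin (k n)) (Fin (k n)) A), (∀ n, MPos (y n)) →
    (∀ n, ∃ r : Fin N → Fin (k n) → A, ∑ i, ∑ s, ∑ t, star (r i s) * y n s t * r i t = 1) →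
    ∃ (L : ℕ) (r : ∀ n : ℕ, Fin (k n) → A),
      ∑ n ∈ Finset.range L, ∑ s, ∑ t, star (r n s) * y n s t * r n t = 1

end Pool.Agent.MPb9c6dd
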