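import Pool.Agent.Lib.MP_b9c6dd_an.Basic

set_option autoImplicit false

open scoped BoundedContinuousFunction

namespace Pool.Agent.MPb9c6dd

/-- `1 - a` is a unit when `a * a = 0`. -/
private def cutAlg_unitSub {R : Type} [Ring R] (a : R) (h : a * a = 0) : Rˣ where
  val := 1 - a
  inv := 1 + a
  val_inv := by
    have : (1 - a) * (1 + a) = 1 - a * a := by noncomm_ring
    rw [this, h, sub_zero]
  inv_val := by
    have : (1 + a) * (1 - a) = 1 - a * a := by noncomm_ring
    rw [this, h, sub_zero]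

/-- `1 + a` is a unit when `a * a = 0`. -/
private def cutAlg_unitAdd {R : Type} [Ring R] (a : R) (h : a * a = 0) : Rˣ where
  val := 1 + a
  inv := 1 - a
  val_inv := by
    have : (1 + a) * (1 - a) = 1 - a * a := by noncomm_ring
    rw [this, h, sub_zero]
  inv_val := by
    have : (1 - a) * (1 + a) = 1 - a * a := by noncomm_ring
    rw [this, h, sub_zero]

private theorem cutAlg_list {R I : Type} [Ring R] (a b h : I → R) (f e : R) (p : I → Prop)
    (haa : ∀ x, a x * a x = 0) (hbb : ∀ x x', b x * b x' = 0)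
    (hab0 : ∀ x x', p x → p x' → x ≠ x' → a x * b x' = 0)
    (ha : ∀ x z, e * z = z → a x * z = 0)
    (hab : ∀ x z, p x → e * z = z → a x * (b x * z) = h x * z)
    (heh : ∀ x, e * h x = h x * e) (hef : e * f = f) (hfb : ∀ x, f * b x = 0) :
    ∀ xs : List I, xs.Nodup → (∀ x ∈ xs, p x) →
      ∃ (G : Rˣ) (r : R), (G : R) * f = ((xs.map (fun x => 1 - h x)).prod + r) * f ∧
        f * r = 0 ∧ (∀ x, b x * r = 0) ∧ (∀ x, p x → x ∉ xs → a x * r = 0) := by
  have hcomm : ∀ xs : List I, e * (xs.map (fun x => 1 - h x)).prod =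
      (xs.map (fun x => 1 - h x)).prod * e := by
    intro xs
    induction xs with
    | nil => simp
    | cons x xs ih =>
      rw [List.map_cons, List.prod_cons, mul_assoc, ← ih, ← mul_assoc, ← mul_assoc]
      congr 1
      rw [mul_sub, sub_mul, mul_one, one_mul, heh]
  intro xs
  induction xs with
  | nil =>
    intro _ _
    exact ⟨1, 0, by simp, by simp, by simp, by simp⟩
  | cons x xs ih =>
    intro hnd hp
    rw [List.nodup_cons] at hnd
    obtain ⟨G, r, h1, h2, h3, h4⟩ := ih hnd.2 (fun y hy => hp y (List.mem_cons_of_mem _ hy))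
    have hpx : p x := hp x List.mem_cons_self
    set C := (xs.map (fun x => 1 - h x)).prod with hC
    have hCf : e * (C * f) = C * f := by
      rw [← mul_assoc, hcomm xs, mul_assoc, hef]
    refine ⟨cutAlg_unitSub (a x) (haa x) * (cutAlg_unitAdd (b x) (hbb x x) * G), b x * C + r,
      ?_, ?_, ?_, ?_⟩
    · rw [Units.val_mul, Units.val_mul, mul_assoc, mul_assoc, h1, List.map_cons, List.prod_cons,
        ← hC]
      change (1 - a x) * ((1 + b x) * ((C + r) * f)) = _
      have e1 : a x * (C * f) = 0 := ha x _ hCf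
      have e2 : a x * (b x * (C * f)) = h x * (C * f) := hab x _ hpx hCf
      have e3 : b x * (r * f) = 0 := by rw [← mul_assoc, h3, zero_mul]
      have e4 : a x * (r * f) = 0 := by rw [← mul_assoc, h4 x hpx hnd.1, zero_mul]
      have e5 : (1 - a x) * ((1 + b x) * ((C + r) * f)) =
          C * f + r * f + b x * (C * f) + b x * (r * f) - a x * (C * f) - a x * (r * f)
            - a x * (b x * (C * f)) - a x * (b x * (r * f)) := by noncomm_ring
      rw [e5, e1, e2, e4, e3]
      noncomm_ring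
    · rw [mul_add, ← mul_assoc, hfb, zero_mul, h2, add_zero]
    · intro x'
      rw [mul_add, ← mul_assoc, hbb, zero_mul, h3, add_zero]
    · intro x' hpx' hx'
      rw [List.mem_cons, not_or] at hx'
      rw [mul_add, ← mul_assoc, hab0 x' x hpx' hpx hx'.1, zero_mul, h4 x' hpx' hx'.2, add_zero]

private theorem cutAlg_shift {R : Type} [Ring R] (W : Rˣ) (G : ℕ → R)
    (h : ∀ n, (W : R) * G n = G (n + 1) * (W : R)) (n j : ℕ) :
    (W : R) ^ n * G j = G (j + n) * (W : R) ^ n := by
  induction n with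
  | zero => simp
  | succ n ih =>
    rw [pow_succ', mul_assoc, ih, ← mul_assoc, h, mul_assoc]
    rfl

private theorem cutAlg_shift_inv {R : Type} [Ring R] (W : Rˣ) (G : ℕ → R)
    (h : ∀ n, (W : R) * G n = G (n + 1) * (W : R)) (n j : ℕ) :
    G j * ((W⁻¹ : Rˣ) : R) ^ n = ((W⁻¹ : Rˣ) : R) ^ n * G (j + n) := by
  have h1 := cutAlg_shift W G h n j
  have h2 : ((W⁻¹ : Rˣ) : R) ^ n * (W : R) ^ n = 1 := by
    rw [← Units.val_pow_eq_pow_val, ← Units.val_pow_eq_pow_val, ← Units.val_mul, inv_pow,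
      inv_mul_cancel, Units.val_one]
  have h3 : (W : R) ^ n * ((W⁻¹ : Rˣ) : R) ^ n = 1 := by
    rw [← Units.val_pow_eq_pow_val, ← Units.val_pow_eq_pow_val, ← Units.val_mul, inv_pow,
      mul_inv_cancel, Units.val_one]
  calc G j * ((W⁻¹ : Rˣ) : R) ^ n
      = ((W⁻¹ : Rˣ) : R) ^ n * ((W : R) ^ n * G j) * ((W⁻¹ : Rˣ) : R) ^ n := by
        rw [← mul_assoc, h2, one_mul]
    _ = ((W⁻¹ : Rˣ) : R) ^ n * (G (j + n) * (W : R) ^ n) * ((W⁻¹ : Rˣ) : R) ^ n := by rw [h1]
    _ = ((W⁻¹ : Rˣ) : R) ^ n * G (j + n) * ((W : R) ^ n * ((W⁻¹ : Rˣ) : R) ^ n) := by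
        simp only [mul_assoc]
    _ = _ := by rw [h3, mul_one]

private theorem cutAlg_expand {R : Type} [Ring R] {L : ℕ} (A B : Fin L → R) (g Y g' : R) :
    g * (∑ s, A s) * Y * (∑ s', B s') * g' = ∑ s, ∑ s', g * A s * Y * B s' * g' := by
  simp only [Finset.mul_sum, Finset.sum_mul]
  exact Finset.sum_comm

/-- The key computation: for `i, i' < K`. -/
private theorem cutAlg_key {R : Type} [Ring R] (W : Rˣ) (G : ℕ → R)
    (h : ∀ n, (W : R) * G n = G (n + 1) * (W : R)) (K L q : ℕ) (hq : K + K * L < q + 1)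
    (horth : ∀ m n, m < q + 1 → n < q + 1 → m ≠ n → G m * G n = 0)
    (y : R) (hyg : ∀ n, y * G n = G n * y)
    (dd dd' : ℕ → Fin L → R)
    (hdd : ∀ m, m ≤ K + K * L → ∀ s j, dd m s * G j = G j * dd m s)
    (hdd' : ∀ m, m ≤ K + K * L → ∀ s j, dd' m s * G j = G j * dd' m s)
    (i i' : ℕ) (hi : i < K) (hi' : i' < K) (s s' : Fin L) (hne : i ≠ i' ∨ s ≠ s') :
    G i * (dd' (K + i * (L - 1)) s * ((W⁻¹ : Rˣ) : R) ^ (K + i * (L - 1) + (s : ℕ))) *
      (y * y) * ((W : R) ^ (K + i' * (L - 1) + (s' : ℕ)) * dd (K + i' * (L - 1)) s') * G i'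
      = 0 := by
  obtain ⟨s, hs⟩ := s
  obtain ⟨s', hs'⟩ := s'
  obtain ⟨L, rfl⟩ : ∃ L', L = L' + 1 := ⟨L - 1, by omega⟩
  simp only [Nat.add_sub_cancel]
  have hm : ∀ j, j < K → K + j * L ≤ K + K * (L + 1) := by
    intro j hj
    have : j * L ≤ K * L := Nat.mul_le_mul_right _ hj.le
    have h2 : K * (L + 1) = K * L + K := by ring
    omega
  have hpos : ∀ j t, j < K → t < L + 1 → j + (K + j * L + t) < q + 1 := by
    intro j t hj ht
    have : (j + 1) * (L + 1) ≤ K * (L + 1) := Nat.mul_le_mul_right _ hj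
    have h2 : (j + 1) * (L + 1) = j * L + j + L + 1 := by ring
    omega
  have hneq : i + (K + i * L + s) ≠ i' + (K + i' * L + s') := by
    intro hEq
    have hEq' : (L + 1) * i + s = (L + 1) * i' + s' := by
      have h1 : (L + 1) * i = i * L + i := by ring
      have h2 : (L + 1) * i' = i' * L + i' := by ring
      omega
    have hss : s = s' := by
      have := congrArg (· % (L + 1)) hEq'
      simpa [Nat.mul_add_mod, Nat.mod_eq_of_lt hs, Nat.mod_eq_of_lt hs'] using this
    have hii : i = i' := by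
      subst hss
      have := Nat.add_right_cancel hEq'
      exact Nat.eq_of_mul_eq_mul_left (Nat.succ_pos L) this
    rcases hne with h | h
    · exact h hii
    · exact h (by simp [hss])
  have e1 := cutAlg_shift_inv W G h (K + i * L + s) i
  have e2 := cutAlg_shift W G h (K + i' * L + s') i'
  have e3 := horth _ _ (hpos i s hi hs) (hpos i' s' hi' hs') hneq
  have e4 := hdd' (K + i * L) (hm i hi) ⟨s, hs⟩ i
  have e5 := hdd (K + i' * L) (hm i' hi') ⟨s', hs'⟩ i'
  set n := K + i * L + s
  set n' := K + i' * L + s'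
  set V := ((W⁻¹ : Rˣ) : R)
  set D' := dd' (K + i * L) ⟨s, hs⟩
  set DD := dd (K + i' * L) ⟨s', hs'⟩
  calc G i * (D' * V ^ n) * (y * y) * ((W : R) ^ n' * DD) * G i'
      = (G i * D') * V ^ n * (y * y) * (W : R) ^ n' * (DD * G i') := by simp only [mul_assoc]
    _ = (D' * G i) * V ^ n * (y * y) * (W : R) ^ n' * (G i' * DD) := by rw [e4, e5]
    _ = D' * (G i * V ^ n) * (y * y) * ((W : R) ^ n' * G i') * DD := by simp only [mul_assoc]
    _ = D' * (V ^ n * G (i + n)) * (y * y) * (G (i' + n') * (W : R) ^ n') * DD := by rw [e1, e2]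
    _ = D' * V ^ n * ((G (i + n) * y) * y * G (i' + n')) * (W : R) ^ n' * DD := by
        simp only [mul_assoc]
    _ = D' * V ^ n * (y * y * (G (i + n) * G (i' + n'))) * (W : R) ^ n' * DD := by
        rw [← hyg, mul_assoc y (G (i + n)) y, ← hyg]
        simp only [mul_assoc]
    _ = 0 := by rw [e3]; simp

private theorem cutAlg_aux_nilp {R : Type} [Ring R] (W : Rˣ) {D q : ℕ} (g : Fin D → Fin (q + 1) → R)
    (hcomm : ∀ l m j k, g l j * g m k = g m k * g l j)
    (hshift : ∀ l j, (W : R) * g l j = g l (j + 1) * (W : R))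
    (hPP : PP g (q + 1) = 0) (K : ℕ)
    (c : ℕ → R) (hc : ∀ k l j, c k * g l j = g l j * c k)
    (f : R) (hf : f = ∑ k ∈ Finset.Icc 1 K, c k * (W : R) ^ k) :
    (PP g K * f) ^ (q + 1) = 0 := by
  classical
  let S : Set R := Set.range (fun x : Fin D × Fin (q + 1) => g x.1 x.2)
  have hSc : IsMulCommutative (Subring.closure S) := Subring.isMulCommutative_closure (by
    rintro _ ⟨x, rfl⟩ _ ⟨y, rfl⟩
    exact hcomm _ _ _ _)
  let _ : CommRing (Subring.closure S) :=
    { (inferInstance : Ring (Subring.closure S)) with mul_comm := hSc.is_comm.comm }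
  let φ : Subring.closure S →+* R := (Subring.closure S).subtype
  let g' : Fin D → Fin (q + 1) → Subring.closure S := fun l j =>
    ⟨g l j, Subring.subset_closure ⟨(l, j), rfl⟩⟩
  let w : ℕ → Subring.closure S := fun n => ∏ l : Fin D, (1 - g' l (Fin.ofNat (q + 1) n) *
    g' l (Fin.ofNat (q + 1) n))
  have hgam : ∀ n, φ (w n) = gam g (Fin.ofNat (q + 1) n) := by
    intro n
    have : w n = (List.ofFn fun l : Fin D => (1 - g' l (Fin.ofNat (q + 1) n) *
      g' l (Fin.ofNat (q + 1) n))).prod := by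
      rw [List.prod_ofFn]
    rw [this, map_list_prod, List.map_ofFn]
    rfl
  have hPPn : ∀ n, φ (∏ j ∈ Finset.range n, w j) = PP g n := by
    intro n
    induction n with
    | zero => simp [PP]
    | succ n ih => rw [Finset.prod_range_succ, map_mul, ih, hgam]; rfl
  have hofNat : ∀ n : ℕ, Fin.ofNat (q + 1) n + 1 = Fin.ofNat (q + 1) (n + 1) := by
    intro n
    apply Fin.ext
    simp [Fin.val_add, Nat.add_mod]
  have hWgam : ∀ j, (W : R) * gam g j = gam g (j + 1) * (W : R) := by
    intro j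
    have key : ∀ ls : List (Fin D), (W : R) * (ls.map (fun l => 1 - g l j * g l j)).prod =
        (ls.map (fun l => 1 - g l (j + 1) * g l (j + 1))).prod * (W : R) := by
      intro ls
      induction ls with
      | nil => simp
      | cons l ls ih =>
        rw [List.map_cons, List.prod_cons, List.map_cons, List.prod_cons, ← mul_assoc]
        have : (W : R) * (1 - g l j * g l j) = (1 - g l (j + 1) * g l (j + 1)) * (W : R) := by
          rw [mul_sub, sub_mul, mul_one, one_mul, ← mul_assoc, hshift, mul_assoc, hshift,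
            ← mul_assoc]
        rw [this, mul_assoc, ih, mul_assoc]
    have := key (List.finRange D)
    simpa [gam, List.ofFn_eq_map] using this
  have hWw : ∀ n, (W : R) * φ (w n) = φ (w (n + 1)) * (W : R) := by
    intro n
    rw [hgam, hgam, hWgam, hofNat]
  have hWprod : ∀ k n, (W : R) ^ k * φ (∏ j ∈ Finset.range n, w j) =
      φ (∏ j ∈ Finset.range n, w (j + k)) * (W : R) ^ k := by
    intro k n
    induction n with
    | zero => simp
    | succ n ih =>
      rw [Finset.prod_range_succ, Finset.prod_range_succ, map_mul, map_mul, ← mul_assoc, ih,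
        mul_assoc, cutAlg_shift W (fun n => φ (w n)) hWw k n, ← mul_assoc]
  have hcφ : ∀ k (z : Subring.closure S), c k * φ z = φ z * c k := by
    intro k z
    have hle : Subring.closure S ≤ Subring.centralizer {c k} := by
      rw [Subring.closure_le]
      rintro _ ⟨x, rfl⟩
      rw [SetLike.mem_coe, Subring.mem_centralizer_iff]
      intro y hy
      rw [Set.mem_singleton_iff.1 hy]
      exact hc k _ _
    have := hle z.2
    rw [Subring.mem_centralizer_iff] at this
    exact this (c k) rfl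
  have hdvd : ∀ k n, 1 ≤ k → k ≤ K → (∏ j ∈ Finset.range (n + 1), w j) ∣
      (∏ j ∈ Finset.range K, w j) * ∏ j ∈ Finset.range n, w (j + k) := by
    intro k n hk1 hkK
    by_cases hn : n + 1 ≤ K
    · exact Dvd.dvd.mul_right
        (Finset.prod_dvd_prod_of_subset _ _ _ (Finset.range_subset_range.2 hn)) _
    · have h1 : ∏ j ∈ Finset.range (n + 1), w j =
          (∏ j ∈ Finset.range K, w j) * ∏ j ∈ Finset.Ico K (n + 1), w j :=
        (Finset.prod_range_mul_prod_Ico _ (by omega)).symm
      have h2 : ∏ j ∈ Finset.range n, w (j + k) = ∏ j ∈ Finset.Ico k (n + k), w j := by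
        rw [Finset.range_eq_Ico, Finset.prod_Ico_add' w 0 n k, zero_add]
      rw [h1, h2]
      exact mul_dvd_mul_left _ (Finset.prod_dvd_prod_of_subset _ _ _
        (Finset.Ico_subset_Ico hkK (by omega)))
  have hstep : ∀ n, ∃ r, PP g K * f * φ (∏ j ∈ Finset.range n, w j) =
      φ (∏ j ∈ Finset.range (n + 1), w j) * r := by
    intro n
    choose t ht using fun k : ℕ => fun hk : 1 ≤ k ∧ k ≤ K => hdvd k n hk.1 hk.2
    refine ⟨∑ k ∈ (Finset.Icc 1 K).attach, φ (t k.1 (Finset.mem_Icc.1 k.2)) * (c k.1 *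
      (W : R) ^ k.1), ?_⟩
    rw [hf, ← hPPn K, Finset.mul_sum, Finset.sum_mul, Finset.mul_sum,
      ← Finset.sum_attach (Finset.Icc 1 K)]
    refine Finset.sum_congr rfl fun k _ => ?_
    have hk := ht k.1 (Finset.mem_Icc.1 k.2)
    calc φ (∏ j ∈ Finset.range K, w j) * (c k.1 * (W : R) ^ k.1) *
          φ (∏ j ∈ Finset.range n, w j)
        = φ (∏ j ∈ Finset.range K, w j) * (c k.1 * ((W : R) ^ k.1 *
            φ (∏ j ∈ Finset.range n, w j))) := by simp only [mul_assoc]
      _ = φ (∏ j ∈ Finset.range K, w j) * ((c k.1 * φ (∏ j ∈ Finset.range n, w (j + k.1))) *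
            (W : R) ^ k.1) := by rw [hWprod]; simp only [mul_assoc]
      _ = φ ((∏ j ∈ Finset.range K, w j) * (∏ j ∈ Finset.range n, w (j + k.1))) *
            (c k.1 * (W : R) ^ k.1) := by rw [hcφ, map_mul]; simp only [mul_assoc]
      _ = _ := by rw [hk, map_mul, mul_assoc]
  have hpow : ∀ n, ∃ r, (PP g K * f) ^ n = φ (∏ j ∈ Finset.range n, w j) * r := by
    intro n
    induction n with
    | zero => exact ⟨1, by simp⟩
    | succ n ih =>
      obtain ⟨r, hr⟩ := ih
      obtain ⟨r', hr'⟩ := hstep n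
      exact ⟨r' * r, by rw [pow_succ', hr, ← mul_assoc, hr', mul_assoc]⟩
  obtain ⟨r, hr⟩ := hpow (q + 1)
  rw [hr, hPPn, hPP, zero_mul]

/-- The main cut lemma (pure algebra). -/
theorem cut_nilpotent {R : Type} [Ring R] (W : Rˣ) {D q : ℕ} (g : Fin D → Fin (q + 1) → R)
    (hcomm : ∀ l m j k, g l j * g m k = g m k * g l j)
    (horth : ∀ l j k, j ≠ k → g l j * g l k = 0)
    (hshift : ∀ l j, (W : R) * g l j = g l (j + 1) * (W : R))
    (hPP : PP g (q + 1) = 0)
    (K L : ℕ) (hq : K + K * L < q + 1)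
    (c : ℕ → R) (hc : ∀ k l j, c k * g l j = g l j * c k)
    (f : R) (hf : f = ∑ k ∈ Finset.Icc 1 K, c k * (W : R) ^ k)
    (e : R) (y : Fin D → R) (he : ∀ l j, e * g l j = g l j * e)
    (hyg : ∀ l m j, y l * g m j = g m j * y l)
    (hef : e * f = f) (hey : ∀ l, e * y l = 0) (hye : ∀ l, y l * e = 0)
    (hyy : ∀ l m, l ≠ m → y l * y m = 0) (hfy : ∀ l, f * y l = 0)
    (dd dd' : Fin D → ℕ → Fin L → R)
    (hdd : ∀ l m, m ≤ K + K * L → ∀ s l' j, dd l m s * g l' j = g l' j * dd l m s)
    (hdd' : ∀ l m, m ≤ K + K * L → ∀ s l' j, dd' l m s * g l' j = g l' j * dd' l m s)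
    (hdom : ∀ (l : Fin D) (m : ℕ), m ≤ K + K * L → ∑ s : Fin L, dd' l m s *
      (((W⁻¹ : Rˣ) : R) ^ (m + (s : ℕ)) * (y l * y l) * (W : R) ^ (m + (s : ℕ))) *
        dd l m s = 1) :
    ∃ (G : Rˣ) (n : ℕ), ((G : R) * f) ^ n = 0 := by
  classical
  set V : R := ((W⁻¹ : Rˣ) : R) with hV
  let γ : Fin D → ℕ → R := fun l n => g l (Fin.ofNat (q + 1) n)
  have hofNat : ∀ n : ℕ, Fin.ofNat (q + 1) n + 1 = Fin.ofNat (q + 1) (n + 1) := by
    intro n
    apply Fin.ext
    simp [Fin.val_add, Nat.add_mod]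
  have hγ : ∀ l n, (W : R) * γ l n = γ l (n + 1) * (W : R) := by
    intro l n
    change (W : R) * g l _ = g l _ * (W : R)
    rw [hshift, hofNat]
  have hγo : ∀ l m n, m < q + 1 → n < q + 1 → m ≠ n → γ l m * γ l n = 0 := by
    intro l m n hm hn hmn
    apply horth
    intro hEq
    apply hmn
    have := congrArg Fin.val hEq
    simpa [Fin.ofNat, Nat.mod_eq_of_lt hm, Nat.mod_eq_of_lt hn] using this
  let M : ℕ → ℕ := fun i => K + i * (L - 1)
  have hM : ∀ i, i < K → M i ≤ K + K * L := by
    intro i hi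
    have h1 : i * (L - 1) ≤ K * L := Nat.mul_le_mul hi.le (Nat.sub_le _ _)
    change K + i * (L - 1) ≤ _
    omega
  let S : Fin D × ℕ → R := fun x => ∑ s : Fin L, (W : R) ^ (M x.2 + (s : ℕ)) * dd x.1 (M x.2) s
  let T : Fin D × ℕ → R := fun x => ∑ s : Fin L, dd' x.1 (M x.2) s * V ^ (M x.2 + (s : ℕ))
  let b : Fin D × ℕ → R := fun x => y x.1 * (S x * (γ x.1 x.2 * e))
  let a : Fin D × ℕ → R := fun x => e * (γ x.1 x.2 * (T x * y x.1))
  have hkey0 : ∀ l i i', i < K → i' < K → i ≠ i' →
      γ l i * T (l, i) * (y l * y l) * S (l, i') * γ l i' = 0 := by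
    intro l i i' hi hi' hne
    simp only [S, T]
    rw [cutAlg_expand]
    refine Finset.sum_eq_zero fun s _ => Finset.sum_eq_zero fun s' _ => ?_
    exact cutAlg_key W (γ l) (hγ l) K L q hq (hγo l) (y l) (fun n => hyg _ _ _) (dd l) (dd' l)
      (fun m hm s j => hdd l m hm s _ _) (fun m hm s j => hdd' l m hm s _ _) i i' hi hi' s s'
      (Or.inl hne)
  have hkey1 : ∀ l i, i < K →
      γ l i * T (l, i) * (y l * y l) * S (l, i) * γ l i = γ l i * γ l i := by
    intro l i hi
    have hd := hdom l (M i) (hM i hi)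
    calc γ l i * T (l, i) * (y l * y l) * S (l, i) * γ l i
        = ∑ s : Fin L, γ l i * (dd' l (M i) s *
          (V ^ (M i + (s : ℕ)) * (y l * y l) * (W : R) ^ (M i + (s : ℕ))) * dd l (M i) s) *
            γ l i := by
          simp only [S, T]
          rw [cutAlg_expand]
          refine Finset.sum_congr rfl fun s _ => ?_
          rw [Finset.sum_eq_single s]
          · simp only [mul_assoc]
          · intro s' _ hs'
            exact cutAlg_key W (γ l) (hγ l) K L q hq (hγo l) (y l) (fun n => hyg _ _ _) (dd l)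
              (dd' l) (fun m hm s j => hdd l m hm s _ _) (fun m hm s j => hdd' l m hm s _ _)
              i i hi hi s s' (Or.inr hs'.symm)
          · intro h
            exact absurd (Finset.mem_univ _) h
      _ = γ l i * (∑ s : Fin L, dd' l (M i) s *
          (V ^ (M i + (s : ℕ)) * (y l * y l) * (W : R) ^ (M i + (s : ℕ))) * dd l (M i) s) *
            γ l i := by
          rw [Finset.mul_sum, Finset.sum_mul]
      _ = γ l i * γ l i := by rw [hd, mul_one]
  have heγ : ∀ l n, e * γ l n = γ l n * e := fun l n => he _ _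
  let xs : ℕ → List (Fin D × ℕ) := fun n =>
    Nat.rec [] (fun n ih => ih ++ List.ofFn (fun l : Fin D => (l, n))) n
  have hxs0 : xs 0 = [] := rfl
  have hxs1 : ∀ n, xs (n + 1) = xs n ++ List.ofFn (fun l : Fin D => (l, n)) := fun n => rfl
  have hxsmem : ∀ n, ∀ x ∈ xs n, x.2 < n := by
    intro n
    induction n with
    | zero => intro x hx; rw [hxs0] at hx; exact absurd hx (by simp)
    | succ n ih =>
      intro x hx
      rw [hxs1, List.mem_append] at hx
      rcases hx with hx | hx
      · exact (ih x hx).trans (Nat.lt_succ_self n)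
      · rw [List.mem_ofFn] at hx
        obtain ⟨l, rfl⟩ := hx
        exact Nat.lt_succ_self n
  have hxsnd : ∀ n, (xs n).Nodup := by
    intro n
    induction n with
    | zero => rw [hxs0]; exact List.nodup_nil
    | succ n ih =>
      rw [hxs1, List.nodup_append]
      refine ⟨ih, ?_, ?_⟩
      · rw [List.nodup_ofFn]
        intro l l' h
        exact (Prod.mk.inj h).1
      · intro x hx x' hx' hEq
        rw [List.mem_ofFn] at hx'
        obtain ⟨l, rfl⟩ := hx'
        have := hxsmem n x hx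
        rw [hEq] at this
        exact lt_irrefl _ this
  have hxsprod : ∀ n, ((xs n).map (fun x => 1 - γ x.1 x.2 * γ x.1 x.2)).prod = PP g n := by
    intro n
    induction n with
    | zero => rw [hxs0]; simp [PP]
    | succ n ih =>
      rw [hxs1, List.map_append, List.prod_append, ih, List.map_ofFn]
      rfl
  obtain ⟨G, r, h1, h2, -, -⟩ := cutAlg_list a b (fun x => γ x.1 x.2 * γ x.1 x.2) f e
    (fun x => x.2 < K)
    (by
      intro x
      change e * (γ x.1 x.2 * (T x * y x.1)) * (e * (γ x.1 x.2 * (T x * y x.1))) = 0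
      have : e * (γ x.1 x.2 * (T x * y x.1)) * (e * (γ x.1 x.2 * (T x * y x.1))) =
        e * (γ x.1 x.2 * (T x * (y x.1 * e))) * (γ x.1 x.2 * (T x * y x.1)) := by
        simp only [mul_assoc]
      rw [this, hye]
      simp)
    (by
      intro x x'
      change y x.1 * (S x * (γ x.1 x.2 * e)) * (y x'.1 * (S x' * (γ x'.1 x'.2 * e))) = 0
      have : y x.1 * (S x * (γ x.1 x.2 * e)) * (y x'.1 * (S x' * (γ x'.1 x'.2 * e))) =
        y x.1 * (S x * (γ x.1 x.2 * (e * y x'.1))) * (S x' * (γ x'.1 x'.2 * e)) := by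
        simp only [mul_assoc]
      rw [this, hey]
      simp)
    (by
      rintro ⟨l, i⟩ ⟨l', i'⟩ hi hi' hne
      change e * (γ l i * (T (l, i) * y l)) * (y l' * (S (l', i') * (γ l' i' * e))) = 0
      by_cases hl : l = l'
      · subst hl
        have hii : i ≠ i' := fun h => hne (by rw [h])
        have : e * (γ l i * (T (l, i) * y l)) * (y l * (S (l, i') * (γ l i' * e))) =
          e * (γ l i * T (l, i) * (y l * y l) * S (l, i') * γ l i') * e := by
          simp only [mul_assoc]
        rw [this, hkey0 l i i' hi hi' hii]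
        simp
      · have : e * (γ l i * (T (l, i) * y l)) * (y l' * (S (l', i') * (γ l' i' * e))) =
          e * (γ l i * (T (l, i) * (y l * y l'))) * (S (l', i') * (γ l' i' * e)) := by
          simp only [mul_assoc]
        rw [this, hyy l l' hl]
        simp)
    (by
      intro x z hz
      change e * (γ x.1 x.2 * (T x * y x.1)) * z = 0
      have : e * (γ x.1 x.2 * (T x * y x.1)) * z =
        e * (γ x.1 x.2 * (T x * (y x.1 * z))) := by simp only [mul_assoc]
      rw [this, ← hz, ← mul_assoc (y x.1), hye]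
      simp)
    (by
      rintro ⟨l, i⟩ z hi hz
      change e * (γ l i * (T (l, i) * y l)) * (y l * (S (l, i) * (γ l i * e)) * z) =
        γ l i * γ l i * z
      have : e * (γ l i * (T (l, i) * y l)) * (y l * (S (l, i) * (γ l i * e)) * z) =
        e * (γ l i * T (l, i) * (y l * y l) * S (l, i) * γ l i) * (e * z) := by
        simp only [mul_assoc]
      rw [this, hz, hkey1 l i hi]
      have h1 : e * (γ l i * γ l i) = γ l i * γ l i * e := by
        rw [← mul_assoc, heγ, mul_assoc, heγ, mul_assoc]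
      rw [h1, mul_assoc, hz])
    (by
      intro x
      change e * (γ x.1 x.2 * γ x.1 x.2) = γ x.1 x.2 * γ x.1 x.2 * e
      rw [← mul_assoc, heγ, mul_assoc, heγ, mul_assoc])
    hef
    (by
      intro x
      change f * (y x.1 * (S x * (γ x.1 x.2 * e))) = 0
      rw [← mul_assoc, hfy, zero_mul])
    (xs K) (hxsnd K) (hxsmem K)
  rw [hxsprod K] at h1
  have hnil := cutAlg_aux_nilp W g hcomm hshift hPP K c hc f hf
  refine ⟨G, q + 2, ?_⟩
  rw [h1]
  have hf2 : ∀ n, f * ((PP g K + r) * f) ^ n = f * (PP g K * f) ^ n := by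
    intro n
    induction n with
    | zero => simp
    | succ n ih =>
      calc f * ((PP g K + r) * f) ^ (n + 1)
          = f * ((PP g K + r) * f * ((PP g K + r) * f) ^ n) := by rw [pow_succ']
        _ = f * PP g K * (f * ((PP g K + r) * f) ^ n) +
              f * r * (f * ((PP g K + r) * f) ^ n) := by noncomm_ring
        _ = f * PP g K * (f * (PP g K * f) ^ n) := by rw [h2, zero_mul, add_zero, ih]
        _ = f * (PP g K * f) ^ (n + 1) := by rw [pow_succ']; simp only [mul_assoc]
  rw [show q + 2 = (q + 1) + 1 from rfl, pow_succ', mul_assoc, hf2, hnil]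
  simp

end Pool.Agent.MPb9c6dd
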