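import Pool.Agent.Lib.MP_b9c6dd_an.CvDefs

set_option autoImplicit false

namespace Pool.Agent.MPb9c6dd

/-- One step of the elimination, in any ring. -/
private theorem cvCancel_step {A : Type} [Ring A] {J K T : Type} [Fintype J] [Fintype K]
    [DecidableEq K] [DecidableEq T] (y : J → A)
    (R1 : T → J → A) (S1 : J → T → A) (R2 : T → K → A) (S2 : K → T → A)
    (h : ∀ a b, ∑ j, R1 a j * y j * S1 j b + ∑ i, R2 a i * S2 i b = if a = b then 1 else 0)
    (a0 : T) (i0 : K) (ε ri ui : A) (hri : ri * (R2 a0 i0 + ε) = 1)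
    (hui : (1 + ε * S2 i0 a0) * ui = 1) :
    ∃ (R1' : {a // a ≠ a0} → J → A) (S1' : J → {a // a ≠ a0} → A)
      (R2' : {a // a ≠ a0} → {i // i ≠ i0} → A) (S2' : {i // i ≠ i0} → {a // a ≠ a0} → A),
      ∀ a b, ∑ j, R1' a j * y j * S1' j b + ∑ i, R2' a i * S2' i b = if a = b then 1 else 0 := by
  set P1 : J → T → A := fun j b => S1 j b - S1 j a0 * (ui * (ε * S2 i0 b)) with hP1
  set P2 : K → T → A := fun i b => S2 i b - S2 i a0 * (ui * (ε * S2 i0 b)) with hP2
  have hrow : ∀ a b, ∑ j, R1 a j * y j * P1 j b + ∑ i, R2 a i * P2 i b =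
      (if a = b then 1 else 0) - (if a = a0 then 1 else 0) * (ui * (ε * S2 i0 b)) := by
    intro a b
    have h1 : ∀ j, R1 a j * y j * P1 j b =
        R1 a j * y j * S1 j b - (R1 a j * y j * S1 j a0) * (ui * (ε * S2 i0 b)) := by
      intro j
      simp only [hP1]
      rw [mul_sub, mul_assoc (R1 a j * y j) (S1 j a0)]
    have h2 : ∀ i, R2 a i * P2 i b =
        R2 a i * S2 i b - (R2 a i * S2 i a0) * (ui * (ε * S2 i0 b)) := by
      intro i
      simp only [hP2]
      rw [mul_sub, mul_assoc (R2 a i) (S2 i a0)]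
    rw [Finset.sum_congr rfl fun j _ => h1 j, Finset.sum_congr rfl fun i _ => h2 i,
      Finset.sum_sub_distrib, Finset.sum_sub_distrib, ← Finset.sum_mul, ← Finset.sum_mul,
      ← h a b, ← h a a0, add_mul]
    abel
  have hsplit : ∀ (F : K → A), ∑ i, F i = F i0 + ∑ i : {i // i ≠ i0}, F i :=
    fun F => Fintype.sum_eq_add_sum_subtype_ne F i0
  refine ⟨fun a j => R1 a j - R2 a i0 * (ri * R1 a0 j), fun j b => P1 j b,
    fun a i => R2 a i - R2 a i0 * (ri * R2 a0 i), fun i b => P2 i b, ?_⟩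
  intro a b
  have ha : (a : T) ≠ a0 := a.2
  have hb : (b : T) ≠ a0 := b.2
  have F1 : ∑ j, R1 a j * y j * P1 j b + (R2 a i0 * P2 i0 b
      + ∑ i : {i // i ≠ i0}, R2 a i * P2 i b) = if a = b then 1 else 0 := by
    have h1 := hrow a b
    rw [hsplit, if_neg ha, zero_mul, sub_zero] at h1
    rw [h1]
    simp only [Subtype.ext_iff]
  have F2 : ∑ j, R1 a0 j * y j * P1 j b + ((R2 a0 i0 + ε) * P2 i0 b
      + ∑ i : {i // i ≠ i0}, R2 a0 i * P2 i b) = 0 := by
    have h1 := hrow a0 b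
    rw [hsplit, if_neg hb.symm, if_pos rfl, one_mul, zero_sub] at h1
    have h2 : ∑ j, R1 a0 j * y j * P1 j b + ((R2 a0 i0 + ε) * P2 i0 b
      + ∑ i : {i // i ≠ i0}, R2 a0 i * P2 i b) =
        (∑ j, R1 a0 j * y j * P1 j b + (R2 a0 i0 * P2 i0 b
      + ∑ i : {i // i ≠ i0}, R2 a0 i * P2 i b)) + ε * P2 i0 b := by
      rw [add_mul]
      abel
    rw [h2, h1]
    have h3 : ε * P2 i0 b = ε * S2 i0 b - (ε * S2 i0 a0) * (ui * (ε * S2 i0 b)) := by
      simp only [hP2]
      rw [mul_sub, mul_assoc]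
    have h4 : (ε * S2 i0 a0) * ui = 1 - ui := by
      rw [add_mul, one_mul] at hui
      exact eq_sub_of_add_eq' hui
    rw [h3, ← mul_assoc (ε * S2 i0 a0) ui, h4, sub_mul, one_mul]
    abel
  set X := ∑ j, R1 a0 j * y j * P1 j b with hX
  set Y := ∑ i : {i // i ≠ i0}, R2 a0 i * P2 i b with hY
  have h5 : X + Y = -((R2 a0 i0 + ε) * P2 i0 b) := by
    apply eq_neg_of_add_eq_zero_right
    rw [← F2]
    abel
  have e1 : ∑ j, (R1 a j - R2 a i0 * (ri * R1 a0 j)) * y j * P1 j b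
      = ∑ j, R1 a j * y j * P1 j b - R2 a i0 * (ri * X) := by
    rw [hX, Finset.mul_sum, Finset.mul_sum, ← Finset.sum_sub_distrib]
    refine Finset.sum_congr rfl fun j _ => ?_
    simp only [sub_mul, mul_assoc]
  have e2 : ∑ i : {i // i ≠ i0}, (R2 a i - R2 a i0 * (ri * R2 a0 i)) * P2 i b
      = ∑ i : {i // i ≠ i0}, R2 a i * P2 i b - R2 a i0 * (ri * Y) := by
    rw [hY, Finset.mul_sum, Finset.mul_sum, ← Finset.sum_sub_distrib]
    refine Finset.sum_congr rfl fun j _ => ?_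
    simp only [sub_mul, mul_assoc]
  have e3 : R2 a i0 * (ri * X) + R2 a i0 * (ri * Y) = -(R2 a i0 * P2 i0 b) := by
    rw [← mul_add, ← mul_add, h5, mul_neg, mul_neg, ← mul_assoc ri, hri, one_mul]
  calc ∑ j, (R1 a j - R2 a i0 * (ri * R1 a0 j)) * y j * P1 j b
      + ∑ i : {i // i ≠ i0}, (R2 a i - R2 a i0 * (ri * R2 a0 i)) * P2 i b
      = (∑ j, R1 a j * y j * P1 j b + ∑ i : {i // i ≠ i0}, R2 a i * P2 i b)
        - (R2 a i0 * (ri * X) + R2 a i0 * (ri * Y)) := by
        rw [e1, e2]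
        abel
    _ = ∑ j, R1 a j * y j * P1 j b + (R2 a i0 * P2 i0 b
      + ∑ i : {i // i ≠ i0}, R2 a i * P2 i b) := by
        rw [e3]
        abel
    _ = if a = b then 1 else 0 := F1

private theorem cvCancel_aux {A : Type} [CStarAlgebra A] (hd : Dense {x : A | IsUnit x})
    {J : Type} [Fintype J] (y : J → A) : ∀ (n : ℕ) (K T : Type) [Fintype K] [DecidableEq K]
    [Fintype T] [DecidableEq T] (_ : Fintype.card K = n) (_ : Fintype.card T = n + 1)
    (R1 : T → J → A) (S1 : J → T → A) (R2 : T → K → A) (S2 : K → T → A)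
    (_ : ∀ a b, ∑ j, R1 a j * y j * S1 j b + ∑ i, R2 a i * S2 i b = if a = b then 1 else 0),
    ∃ r s : J → A, ∑ j, r j * y j * s j = 1 := by
  intro n
  induction n with
  | zero =>
    intro K T _ _ _ _ hK hT R1 S1 R2 S2 h
    have hT0 : 0 < Fintype.card T := by omega
    obtain ⟨a⟩ := Fintype.card_pos_iff.1 hT0
    haveI : IsEmpty K := Fintype.card_eq_zero_iff.1 hK
    refine ⟨R1 a, fun j => S1 j a, ?_⟩
    have h1 := h a a
    have h2 : ∑ i : K, R2 a i * S2 i a = 0 := Fintype.sum_empty _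
    rw [if_pos rfl, h2, add_zero] at h1
    exact h1
  | succ n ih =>
    intro K T _ _ _ _ hK hT R1 S1 R2 S2 h
    have hT0 : 0 < Fintype.card T := by omega
    have hK0 : 0 < Fintype.card K := by omega
    obtain ⟨a0⟩ := Fintype.card_pos_iff.1 hT0
    obtain ⟨i0⟩ := Fintype.card_pos_iff.1 hK0
    have hpos : 0 < 1 / (‖S2 i0 a0‖ + 1) := by positivity
    obtain ⟨r, hr, hdist⟩ := hd.exists_dist_lt (R2 a0 i0) hpos
    obtain ⟨v, hv⟩ : IsUnit r := hr
    set ε : A := r - R2 a0 i0 with hε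
    have hnorm : ‖ε‖ < 1 / (‖S2 i0 a0‖ + 1) := by
      rw [hε, ← dist_eq_norm, dist_comm]
      exact hdist
    have hlt : ‖-(ε * S2 i0 a0)‖ < 1 := by
      rw [norm_neg]
      calc ‖ε * S2 i0 a0‖ ≤ ‖ε‖ * ‖S2 i0 a0‖ := norm_mul_le _ _
        _ ≤ 1 / (‖S2 i0 a0‖ + 1) * ‖S2 i0 a0‖ := by
            apply mul_le_mul_of_nonneg_right hnorm.le (norm_nonneg _)
        _ < 1 := by
            rw [one_div, inv_mul_lt_iff₀ (by positivity)]
            linarith
    have hu : IsUnit (1 + ε * S2 i0 a0) := by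
      have := isUnit_one_sub_of_norm_lt_one hlt
      rwa [sub_neg_eq_add] at this
    obtain ⟨w, hw⟩ := hu
    have hri : ((v⁻¹ : Aˣ) : A) * (R2 a0 i0 + ε) = 1 := by
      have : R2 a0 i0 + ε = (v : A) := by
        rw [hv, hε]
        abel
      rw [this]
      exact v.inv_mul
    have hui : (1 + ε * S2 i0 a0) * ((w⁻¹ : Aˣ) : A) = 1 := by
      rw [← hw]
      exact w.mul_inv
    obtain ⟨R1', S1', R2', S2', h1⟩ := cvCancel_step y R1 S1 R2 S2 h a0 i0 ε _ _ hri hui
    refine ih {i // i ≠ i0} {a // a ≠ a0} ?_ ?_ R1' S1' R2' S2' h1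
    · rw [Fintype.card_subtype_compl, Fintype.card_subtype_eq]
      omega
    · rw [Fintype.card_subtype_compl, Fintype.card_subtype_eq]
      omega

/-- Cancellation over a C*-algebra with dense invertibles: if `1 ⊕ 1_K` is dominated by
`diag(y) ⊕ 1_K`, then `1` is dominated by `diag(y)`. -/
theorem cancel_option {A : Type} [CStarAlgebra A] (hd : Dense {x : A | IsUnit x})
    {J K : Type} [Fintype J] [Fintype K] [DecidableEq K] (y : J → A)
    (R1 : Option K → J → A) (S1 : J → Option K → A) (R2 : Option K → K → A) (S2 : K → Option K → A)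
    (h : ∀ a b, ∑ j, R1 a j * y j * S1 j b + ∑ i, R2 a i * S2 i b = if a = b then 1 else 0) :
    ∃ r s : J → A, ∑ j, r j * y j * s j = 1 :=
  cvCancel_aux hd y (Fintype.card K) K (Option K) rfl (Fintype.card_option) R1 S1 R2 S2 h

end Pool.Agent.MPb9c6dd
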