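import Pool.Agent.Lib.MP_b9c6dd_an.CvAsmA
import Pool.Agent.Lib.MP_b9c6dd_an.CvCancel

set_option autoImplicit false

namespace Pool.Agent.MPb9c6dd

/-- Cancellation with a small error. -/
theorem cancel_approx {A : Type} [CStarAlgebra A] (hd : Dense {x : A | IsUnit x})
    {J K : Type} [Fintype J] [Fintype K] [DecidableEq K] (y : J → A)
    (R1 : Option K → J → A) (S1 : J → Option K → A) (R2 : Option K → K → A) (S2 : K → Option K → A)
    (err : Matrix (Option K) (Option K) A) (herr : cnorm err < 1)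
    (h : ∀ a b, ∑ j, R1 a j * y j * S1 j b + ∑ i, R2 a i * S2 i b =
      (if a = b then 1 else 0) - err a b) :
    ∃ r s : J → A, ∑ j, r j * y j * s j = 1 := by
  obtain ⟨N, hN⟩ := cnorm_inv err herr
  refine cancel_option hd y R1 (fun j b => ∑ b', S1 j b' * N b' b) R2
    (fun i b => ∑ b', S2 i b' * N b' b) ?_
  intro a b
  have h1 : ∑ j, R1 a j * y j * (∑ b', S1 j b' * N b' b) =
      ∑ b', (∑ j, R1 a j * y j * S1 j b') * N b' b := by
    simp_rw [Finset.mul_sum, Finset.sum_mul]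
    rw [Finset.sum_comm]
    refine Finset.sum_congr rfl fun x _ => Finset.sum_congr rfl fun z _ => ?_
    simp only [mul_assoc]
  have h2 : ∑ i, R2 a i * (∑ b', S2 i b' * N b' b) =
      ∑ b', (∑ i, R2 a i * S2 i b') * N b' b := by
    simp_rw [Finset.mul_sum, Finset.sum_mul]
    rw [Finset.sum_comm]
    refine Finset.sum_congr rfl fun x _ => Finset.sum_congr rfl fun z _ => ?_
    simp only [mul_assoc]
  have h3 : ((1 - err) * N) a b = if a = b then 1 else 0 := by
    rw [hN, Matrix.one_apply]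
  rw [h1, h2, ← Finset.sum_add_distrib, ← h3, Matrix.mul_apply]
  refine Finset.sum_congr rfl fun b' _ => ?_
  rw [← add_mul, h a b', Matrix.sub_apply, Matrix.one_apply]

private theorem cvAsm_sum {κ A : Type} [Fintype κ] [AddCommMonoid A] (N : ℕ)
    (g : κ × ℕ → A) :
    ∑ k ∈ (Finset.univ : Finset κ) ×ˢ Finset.range N, g k =
      ∑ k : κ × Fin N, g (k.1, (k.2 : ℕ)) := by
  rw [Finset.sum_product, Fintype.sum_prod_type]
  refine Finset.sum_congr rfl fun x _ => ?_
  rw [Finset.sum_range]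

private theorem cvAsm_PPF {κ A : Type} [Ring A] [Fintype κ] (N : ℕ) (Ψ Φ : EE κ A)
    (i j : κ × ℕ) :
    cf (Ψ * PJ (fun i => i.2 < N) * Φ) i j =
      ∑ k : κ × Fin N, cf Ψ i (k.1, (k.2 : ℕ)) * cf Φ (k.1, (k.2 : ℕ)) j := by
  classical
  rw [mul_assoc, cf_mul Ψ _ i j ((Finset.univ : Finset κ) ×ˢ Finset.range N) ?_, cvAsm_sum]
  · refine Finset.sum_congr rfl fun k _ => ?_
    rw [cf_PJ_mul, if_pos k.2.2]
  · intro k hk
    rw [cf_PJ_mul, if_neg]
    intro h
    exact hk (Finset.mem_product.2 ⟨Finset.mem_univ _, Finset.mem_range.2 h⟩)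

private theorem cvAsm_XYX {κ A : Type} [Ring A] [Fintype κ] [DecidableEq κ] (k1 : κ)
    (y : ℕ → A) (c : ℕ → ℕ → A) (K : ℕ) (X1 X1' Y : EE κ A) (bX1' : Band K X1')
    (hY : ∀ i j, cf Y i j = if i.1 = k1 ∧ j.1 = k1 ∧ i.2 < K ∧ j.2 < K then
      y i.2 * c i.2 j.2 * y j.2 else 0) (i j : κ × ℕ) :
    cf (X1 * Y * X1') i j = ∑ s : Fin K, cf X1 i (k1, (s : ℕ)) * y s *
      ∑ r : Fin K, c s r * y r * cf X1' (k1, (r : ℕ)) j := by
  classical
  have hinj : Set.InjOn (fun s : ℕ => (k1, s)) (Finset.range K : Set ℕ) := by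
    intro a _ b _ hab
    exact (Prod.mk.inj hab).2
  have hYX : ∀ k : κ × ℕ, cf (Y * X1') k j =
      if k.1 = k1 ∧ k.2 < K then
        y k.2 * ∑ r : Fin K, c k.2 r * y r * cf X1' (k1, (r : ℕ)) j else 0 := by
    intro k
    rw [cf_mul Y X1' k j (Finset.image (fun s : ℕ => (k1, s)) (Finset.range K) ∪
      (Finset.univ : Finset κ) ×ˢ Finset.range (j.2 + K + 1)) ?_]
    · rw [← Finset.sum_subset (Finset.subset_union_left (s₂ := (Finset.univ : Finset κ) ×ˢ
        Finset.range (j.2 + K + 1))) ?_]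
      · rw [Finset.sum_image hinj, Finset.sum_range]
        by_cases hk : k.1 = k1 ∧ k.2 < K
        · rw [if_pos hk, Finset.mul_sum]
          refine Finset.sum_congr rfl fun r _ => ?_
          rw [hY, if_pos ⟨hk.1, rfl, hk.2, r.2⟩]
          simp only [mul_assoc]
        · rw [if_neg hk]
          refine Finset.sum_eq_zero fun r _ => ?_
          rw [hY, if_neg (fun h => hk ⟨h.1, h.2.2.1⟩), zero_mul]
      · intro l _ hl
        rw [hY, if_neg, zero_mul]
        rintro ⟨_, h2, _, h4⟩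
        apply hl
        rw [Finset.mem_image]
        exact ⟨l.2, Finset.mem_range.2 h4, Prod.ext h2.symm rfl⟩
    · intro l hl
      by_contra hne
      apply hl
      rw [Finset.mem_union]
      right
      refine Finset.mem_product.2 ⟨Finset.mem_univ _, Finset.mem_range.2 ?_⟩
      have := (bX1' l j hne).1
      omega
  rw [mul_assoc, cf_mul X1 (Y * X1') i j (Finset.image (fun s : ℕ => (k1, s))
    (Finset.range K)) ?_]
  · rw [Finset.sum_image hinj, Finset.sum_range]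
    refine Finset.sum_congr rfl fun s _ => ?_
    rw [hYX, if_pos ⟨rfl, s.2⟩]
    simp only [mul_assoc]
  · intro k hk
    rw [hYX, if_neg]
    rintro ⟨h3, h4⟩
    apply hk
    rw [Finset.mem_image]
    exact ⟨k.2, Finset.mem_range.2 h4, Prod.ext h3.symm rfl⟩

/-- The index argument: `G` is the Toeplitz operator of `diag(U, 1, …, 1)`, `D` and `D'` those of
an element of `1 + yBy` and its inverse, `X1, X2` are invertible, and `G = X1 D X2` up to a finite
matrix and a small one. -/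
theorem asm {A κ : Type} [CStarAlgebra A] [Fintype κ] [DecidableEq κ]
    (hd : Dense {x : A | IsUnit x}) (k0 k1 : κ) (y : ℕ → A) (c : ℕ → ℕ → A) (K : ℕ)
    (X1 X1' X2 X2' D D' G G' F0 F1' s0 s1 s1' Y : EE κ A) (C ε : ℝ) (hC : 1 ≤ C) (hε : 0 < ε)
    (hCε : 3 * C ^ 4 * ε < 1)
    (bX1 : Band K X1) (bX1' : Band K X1') (bX2 : Band K X2) (bX2' : Band K X2')
    (bD : Band K D) (bD' : Band K D') (bs0 : Band K s0) (bs1 : Band K s1) (bs1' : Band K s1')
    (cX1 : Bd C X1) (cX1' : Bd C X1') (cX2 : Bd C X2) (cX2' : Bd C X2')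
    (cD' : Bd C D') (cG' : Bd C G')
    (h1 : X1 * X1' = 1) (h1' : X1' * X1 = 1) (h2 : X2 * X2' = 1) (h2' : X2' * X2 = 1)
    (hG : ∀ i j, cf G i j =
      if i.1 = j.1 ∧ i.2 = j.2 + (if j.1 = k0 then 1 else 0) then 1 else 0)
    (hG' : ∀ i j, cf G' i j =
      if j.1 = i.1 ∧ j.2 = i.2 + (if i.1 = k0 then 1 else 0) then 1 else 0)
    (hk : G - X1 * D * X2 = F0 + s0) (hF0 : IsFin K F0) (hs0 : Bd ε s0)
    (hδ : 1 - D * D' = s1 + Y) (hs1 : Bd ε s1)
    (hY : ∀ i j, cf Y i j = if i.1 = k1 ∧ j.1 = k1 ∧ i.2 < K ∧ j.2 < K then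
      y i.2 * c i.2 j.2 * y j.2 else 0)
    (hδ' : 1 - D' * D = s1' + F1') (hF1' : IsFin K F1') (hs1' : Bd ε s1') :
    ∃ r s : Fin K → A, ∑ j, r j * y j * s j = 1 := by
  obtain ⟨N, L, Ψ, Φ, Err, _, _, _, _, cErr, hid⟩ := asm_alg k0 K X1 X1' X2 X2' D D' G G' F0 F1'
    s0 s1 s1' Y C ε hC hε hCε bX1 bX1' bX2 bX2' bD bD' bs0 bs1 bs1' cX1 cX1' cX2 cX2' cD' cG'
    h1 h1' h2 h2' hG hG' hk hF0 hs0 hδ hs1 hδ' hF1' hs1'
  obtain ⟨f, hf0, hf1⟩ : ∃ f : Option (κ × Fin N) → κ × ℕ, f none = (k0, N) ∧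
      ∀ k : κ × Fin N, f (some k) = (k.1, (k.2 : ℕ)) :=
    ⟨fun o => o.elim (k0, N) fun k => (k.1, (k.2 : ℕ)), rfl, fun k => rfl⟩
  have hinj : Function.Injective f := by
    intro a b hab
    rcases a with _ | a
    · rcases b with _ | b
      · rfl
      · rw [hf0, hf1] at hab
        have h3 := (Prod.mk.inj hab).2
        have h4 := b.2.2
        omega
    · rcases b with _ | b
      · rw [hf0, hf1] at hab
        have h3 := (Prod.mk.inj hab).2
        have h4 := a.2.2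
        omega
      · rw [hf1, hf1] at hab
        have h3 := Prod.mk.inj hab
        exact congrArg some (Prod.ext h3.1 (Fin.ext h3.2))
  have hpp : ∀ a, (f a).2 < N + (if (f a).1 = k0 then 1 else 0) := by
    intro a
    rcases a with _ | a
    · rw [hf0]
      simp
    · rw [hf1]
      have h4 := a.2.2
      exact lt_of_lt_of_le h4 (Nat.le_add_right _ _)
  refine cancel_approx hd (fun s : Fin K => y s)
    (fun a s => cf X1 (f a) (k1, (s : ℕ)))
    (fun s b => ∑ r : Fin K, c s r * y r * cf X1' (k1, (r : ℕ)) (f b))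
    (fun a (k : κ × Fin N) => cf Ψ (f a) (k.1, (k.2 : ℕ)))
    (fun (k : κ × Fin N) b => cf Φ (k.1, (k.2 : ℕ)) (f b))
    (Matrix.of fun a b => cf Err (f a) (f b)) (lt_of_le_of_lt (cErr.corner f hinj) hCε) ?_
  intro a b
  have key := congrArg (fun M => cf M (f a) (f b)) hid
  rw [cf_mul_PJ, if_pos (hpp b), cf_PJ_mul, if_pos (hpp a), cf_add, cvAsm_PPF,
    cvAsm_XYX k1 y c K X1 X1' Y bX1' hY, cf_sub, cf_mul_PJ, if_pos (hpp b), cf_PJ_mul,
    if_pos (hpp a), cf_PJ] at key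
  simp only [Matrix.of_apply]
  rw [add_comm, key]
  congr 1
  by_cases hab : a = b
  · subst hab
    rw [if_pos ⟨rfl, hpp a⟩, if_pos rfl]
  · rw [if_neg fun h => hab (hinj h.1), if_neg hab]

end Pool.Agent.MPb9c6dd
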