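import Pool.Agent.Lib.MP_b9c6dd_an.CvBd

set_option autoImplicit false

namespace Pool.Agent.MPb9c6dd

section algebra

variable {A κ : Type} [Ring A] [Fintype κ] [DecidableEq κ]

private theorem cvAsmA_PGQ (k0 : κ) (N : ℕ) (G : EE κ A)
    (hG : ∀ i j, cf G i j =
      if i.1 = j.1 ∧ i.2 = j.2 + (if j.1 = k0 then 1 else 0) then 1 else 0) :
    PJ (fun i => i.2 < N + (if i.1 = k0 then 1 else 0)) * G * PJ (fun i => ¬ i.2 < N) = 0 := by
  apply EE_ext
  intro i j
  rw [cf_mul_PJ, cf_PJ_mul, cf_zero]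
  by_cases h1 : ¬ j.2 < N
  · rw [if_pos h1]
    by_cases h2 : i.2 < N + (if i.1 = k0 then 1 else 0)
    · rw [if_pos h2, hG, if_neg]
      rintro ⟨h3, h4⟩
      rw [h3] at h2
      omega
    · rw [if_neg h2]
  · rw [if_neg h1]

private theorem cvAsmA_FQ (K N : ℕ) (F : EE κ A) (hF : IsFin K F) (hKN : K ≤ N) :
    F * PJ (fun i => ¬ i.2 < N) = 0 := by
  apply EE_ext
  intro i j
  rw [cf_mul_PJ, cf_zero]
  by_cases h1 : ¬ j.2 < N
  · rw [if_pos h1]
    by_contra h2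
    have := (hF i j h2).2
    omega
  · rw [if_neg h1]

private theorem cvAsmA_QF (K N : ℕ) (F : EE κ A) (hF : IsFin K F) (hKN : K ≤ N) :
    PJ (fun i => ¬ i.2 < N) * F = 0 := by
  apply EE_ext
  intro i j
  rw [cf_PJ_mul, cf_zero]
  by_cases h1 : ¬ i.2 < N
  · rw [if_pos h1]
    by_contra h2
    have := (hF i j h2).1
    omega
  · rw [if_neg h1]

private theorem cvAsmA_QGP (k0 : κ) (N : ℕ) (G' : EE κ A)
    (hG' : ∀ i j, cf G' i j =
      if j.1 = i.1 ∧ j.2 = i.2 + (if i.1 = k0 then 1 else 0) then 1 else 0) :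
    PJ (fun i => ¬ i.2 < N) * G' * PJ (fun i => i.2 < N + (if i.1 = k0 then 1 else 0)) = 0 := by
  apply EE_ext
  intro i j
  rw [cf_mul_PJ, cf_PJ_mul, cf_zero]
  by_cases h1 : j.2 < N + (if j.1 = k0 then 1 else 0)
  · rw [if_pos h1]
    by_cases h2 : ¬ i.2 < N
    · rw [if_pos h2, hG', if_neg]
      rintro ⟨h3, h4⟩
      rw [h3] at h1
      omega
    · rw [if_neg h2]
  · rw [if_neg h1]

private theorem cvAsmA_Qe (k0 : κ) (L N : ℕ) (F : EE κ A) (hF : Band L F) (hLN : L < N) :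
    PJ (fun i => ¬ i.2 < N) * F * PJ (fun i => i = (k0, 0)) = 0 := by
  apply EE_ext
  intro i j
  rw [cf_mul_PJ, cf_PJ_mul, cf_zero]
  by_cases h1 : j = (k0, 0)
  · rw [if_pos h1]
    by_cases h2 : ¬ i.2 < N
    · rw [if_pos h2]
      by_contra h3
      have h4 := (hF i j h3).1
      rw [h1] at h4
      simp only at h4
      omega
    · rw [if_neg h2]
  · rw [if_neg h1]

private theorem cvAsmA_GG (k0 : κ) (G G' : EE κ A)
    (hG : ∀ i j, cf G i j =
      if i.1 = j.1 ∧ i.2 = j.2 + (if j.1 = k0 then 1 else 0) then 1 else 0)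
    (hG' : ∀ i j, cf G' i j =
      if j.1 = i.1 ∧ j.2 = i.2 + (if i.1 = k0 then 1 else 0) then 1 else 0) :
    G * G' + PJ (fun i => i = (k0, 0)) = 1 := by
  apply EE_ext
  rintro ⟨a, m⟩ ⟨b, n⟩
  rw [cf_add, cf_one, cf_PJ,
    cf_mul G G' (a, m) (b, n) {(b, n - (if b = k0 then 1 else 0))} ?_]
  · rw [Finset.sum_singleton, hG, hG']
    simp only [Prod.mk.injEq]
    by_cases hb : b = k0
    · subst hb
      simp only [if_true, true_and]
      rcases Nat.eq_zero_or_pos n with hn | hn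
      · subst hn
        by_cases ha : a = b
        · subst ha
          by_cases hm : m = 0
          · subst hm
            simp
          · simp [hm]
        · simp [ha]
      · have h1 : n = n - 1 + 1 := by omega
        have h2 : n ≠ 0 := by omega
        rw [← h1]
        by_cases ha : a = b
        · subst ha
          by_cases hm : m = n
          · subst hm
            simp [h2]
          · simp [hm]
        · simp [ha]
    · simp only [hb, if_false, Nat.sub_zero, add_zero, and_self, if_true, mul_one]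
      by_cases ha : a = b
      · subst ha
        simp [hb]
      · simp only [ha, false_and, if_false, zero_add]
  · rintro ⟨c, l⟩ hk
    rw [hG', if_neg]
    rintro ⟨h3, h4⟩
    simp only at h3 h4
    apply hk
    rw [Finset.mem_singleton, Prod.mk.injEq]
    subst h3
    exact ⟨rfl, by omega⟩

private theorem cvAsmA_PQ (N : ℕ) :
    (PJ (fun i => i.2 < N) + PJ (fun i => ¬ i.2 < N) : EE κ A) = 1 := by
  apply EE_ext
  intro i j
  rw [cf_add, cf_PJ, cf_PJ, cf_one]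
  by_cases h : i = j
  · by_cases h2 : i.2 < N
    · simp [h2]
    · simp [h2]
  · simp [h]

private theorem cvAsmA_QQ (p : κ × ℕ → Prop) : (PJ p * PJ p : EE κ A) = PJ p := by
  apply EE_ext
  intro i j
  rw [cf_PJ_mul, cf_PJ]
  by_cases h : p i
  · simp [h]
  · simp [h]

private theorem cvAsmA_bG (k0 : κ) (G' : EE κ A)
    (hG' : ∀ i j, cf G' i j =
      if j.1 = i.1 ∧ j.2 = i.2 + (if i.1 = k0 then 1 else 0) then 1 else 0) :
    Band 1 G' := by
  intro i j hij
  rw [hG'] at hij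
  by_cases h : j.1 = i.1 ∧ j.2 = i.2 + (if i.1 = k0 then 1 else 0)
  · have h2 := h.2
    split_ifs at h2 <;> omega
  · rw [if_neg h] at hij
    exact absurd rfl hij

/-- the purely algebraic part -/
private theorem cvAsmA_ring {R : Type} [Ring R]
    (X1 X1' X2 X2' D D' G G' F0 F1' s0 s1 s1' Y Pp P Q e : R)
    (h1' : X1' * X1 = 1) (h1 : X1 * X1' = 1) (h2 : X2 * X2' = 1) (h2' : X2' * X2 = 1)
    (hk : G - X1 * D * X2 = F0 + s0)
    (hδ : 1 - D * D' = s1 + Y) (hδ' : 1 - D' * D = s1' + F1')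
    (hPQ : P + Q = 1) (hQQ : Q * Q = Q) (hPP : Pp * Pp = Pp)
    (hGG : G * G' + e = 1)
    (a1 : Pp * G * Q = 0) (a2 : F0 * Q = 0)
    (a3 : Q * (-(X2' * F1' * X2) + X2' * D' * X1' * F0) = 0)
    (a4 : Q * G' * Pp = 0) (a5 : Q * (X2' * D' * X1') * e = 0) :
    Pp * ((X1 * D * X2) * P * (X2' * D' * X1') + X1 * Y * X1') * Pp =
      Pp - Pp * (X1 * s1 * X1' -
        s0 * Q * (-(X2' * s1' * X2) + X2' * D' * X1' * s0) * G') * Pp := by
  have hΨ : X1 * D * X2 = G - F0 - s0 := by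
    have : X1 * D * X2 = G - (G - X1 * D * X2) := by abel
    rw [this, hk]
    abel
  have hDD : D * D' = 1 - s1 - Y := by
    have : D * D' = 1 - (1 - D * D') := by abel
    rw [this, hδ]
    abel
  have hDD' : D' * D = 1 - s1' - F1' := by
    have : D' * D = 1 - (1 - D' * D) := by abel
    rw [this, hδ']
    abel
  have hP : P = 1 - Q := by
    rw [← hPQ]
    abel
  have hΨΦ : (X1 * D * X2) * (X2' * D' * X1') = 1 - X1 * s1 * X1' - X1 * Y * X1' := by
    have e1 : (X1 * D * X2) * (X2' * D' * X1') = X1 * (D * ((X2 * X2') * D')) * X1' := by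
      noncomm_ring
    rw [e1, h2, one_mul, hDD]
    have e2 : X1 * (1 - s1 - Y) * X1' = X1 * X1' - X1 * s1 * X1' - X1 * Y * X1' := by
      noncomm_ring
    rw [e2, h1]
  have b1 : Pp * (X1 * D * X2) * Q = -(Pp * s0 * Q) := by
    rw [hΨ]
    have e1 : Pp * (G - F0 - s0) * Q = Pp * G * Q - Pp * (F0 * Q) - Pp * s0 * Q := by
      noncomm_ring
    rw [e1, a1, a2, mul_zero]
    abel
  have hΦG : (X2' * D' * X1') * G = 1 + (-(X2' * F1' * X2) + X2' * D' * X1' * F0) +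
      (-(X2' * s1' * X2) + X2' * D' * X1' * s0) := by
    have e0 : G = X1 * D * X2 + F0 + s0 := by
      rw [hΨ]
      abel
    have e1 : (X2' * D' * X1') * (X1 * D * X2 + F0 + s0) =
        X2' * (D' * ((X1' * X1) * D)) * X2 + X2' * D' * X1' * F0 + X2' * D' * X1' * s0 := by
      noncomm_ring
    rw [e0, e1, h1', one_mul, hDD']
    have e2 : X2' * (1 - s1' - F1') * X2 = X2' * X2 - X2' * s1' * X2 - X2' * F1' * X2 := by
      noncomm_ring
    rw [e2, h2']
    abel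
  have b2 : Q * (X2' * D' * X1') * Pp =
      Q * (-(X2' * s1' * X2) + X2' * D' * X1' * s0) * G' * Pp := by
    have e1 : Q * (X2' * D' * X1') * Pp = Q * (X2' * D' * X1') * (G * G' + e) * Pp := by
      rw [hGG, mul_one]
    have e2 : Q * (X2' * D' * X1') * (G * G' + e) * Pp =
        Q * ((X2' * D' * X1') * G) * G' * Pp + (Q * (X2' * D' * X1') * e) * Pp := by
      generalize X2' * D' * X1' = Φ
      noncomm_ring
    rw [e1, e2, a5, zero_mul, add_zero, hΦG]
    generalize hσ : (-(X2' * s1' * X2) + X2' * D' * X1' * s0) = σ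
    generalize hF : (-(X2' * F1' * X2) + X2' * D' * X1' * F0) = F
    rw [hF] at a3
    have e3 : Q * (1 + F + σ) * G' * Pp = Q * G' * Pp + (Q * F) * G' * Pp + Q * σ * G' * Pp := by
      noncomm_ring
    rw [e3, a3, a4, zero_mul, zero_mul, zero_add, zero_add]
  have c1 : Pp * ((X1 * D * X2) * P * (X2' * D' * X1') + X1 * Y * X1') * Pp =
      Pp * ((X1 * D * X2) * (X2' * D' * X1') + X1 * Y * X1') * Pp -
        (Pp * (X1 * D * X2) * Q) * (Q * (X2' * D' * X1') * Pp) := by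
    have c2 : (Pp * (X1 * D * X2) * Q) * (Q * (X2' * D' * X1') * Pp) =
        Pp * (X1 * D * X2) * (Q * Q) * (X2' * D' * X1') * Pp := by
      generalize X1 * D * X2 = Ψ
      generalize X2' * D' * X1' = Φ
      noncomm_ring
    rw [c2, hQQ, hP]
    generalize X1 * D * X2 = Ψ
    generalize X2' * D' * X1' = Φ
    generalize X1 * Y * X1' = Z
    noncomm_ring
  rw [c1, b1, b2, hΨΦ]
  generalize hσ : (-(X2' * s1' * X2) + X2' * D' * X1' * s0) = σ
  have c3 : -(Pp * s0 * Q) * (Q * σ * G' * Pp) = - (Pp * s0 * (Q * Q) * σ * G' * Pp) := by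
    noncomm_ring
  rw [c3, hQQ]
  generalize X1 * s1 * X1' = Z
  generalize X1 * Y * X1' = Z'
  have c4 : Pp * (1 - Z - Z' + Z') * Pp - -(Pp * s0 * Q * σ * G' * Pp) =
      Pp * Pp - Pp * (Z - s0 * Q * σ * G') * Pp := by
    noncomm_ring
  rw [c4, hPP]

end algebra

/-- The index argument, operator form: `G` is the Toeplitz operator of `diag(U, 1, …, 1)`, `D` and
`D'` those of an element of `1 + yBy` and its inverse, `X1, X2` are invertible, and `G = X1 D X2` up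
to a finite matrix and a small one. -/
theorem asm_alg {A κ : Type} [CStarAlgebra A] [Fintype κ] [DecidableEq κ]
    (k0 : κ) (K : ℕ)
    (X1 X1' X2 X2' D D' G G' F0 F1' s0 s1 s1' Y : EE κ A) (C ε : ℝ) (hC : 1 ≤ C) (hε : 0 < ε)
    (hCε : 3 * C ^ 4 * ε < 1)
    (bX1 : Band K X1) (bX1' : Band K X1') (bX2 : Band K X2) (bX2' : Band K X2')
    (bD : Band K D) (bD' : Band K D') (bs0 : Band K s0) (bs1 : Band K s1) (bs1' : Band K s1')
    (cX1 : Bd C X1) (cX1' : Bd C X1') (cX2 : Bd C X2) (cX2' : Bd C X2')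
    (cD' : Bd C D') (cG' : Bd C G')
    (h1 : X1 * X1' = 1) (h1' : X1' * X1 = 1) (h2 : X2 * X2' = 1) (h2' : X2' * X2 = 1)
    (hG : ∀ i j, cf G i j =
      if i.1 = j.1 ∧ i.2 = j.2 + (if j.1 = k0 then 1 else 0) then 1 else 0)
    (hG' : ∀ i j, cf G' i j =
      if j.1 = i.1 ∧ j.2 = i.2 + (if i.1 = k0 then 1 else 0) then 1 else 0)
    (hk : G - X1 * D * X2 = F0 + s0) (hF0 : IsFin K F0) (hs0 : Bd ε s0)
    (hδ : 1 - D * D' = s1 + Y) (hs1 : Bd ε s1)
    (hδ' : 1 - D' * D = s1' + F1') (hF1' : IsFin K F1') (hs1' : Bd ε s1') :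
    ∃ (N L : ℕ) (Ψ Φ Err : EE κ A), K ≤ N ∧ Band L Ψ ∧ Band L Φ ∧ Band L Err ∧
      Bd (3 * C ^ 4 * ε) Err ∧
      PJ (fun i => i.2 < N + (if i.1 = k0 then 1 else 0)) *
          (Ψ * PJ (fun i => i.2 < N) * Φ + X1 * Y * X1') *
          PJ (fun i => i.2 < N + (if i.1 = k0 then 1 else 0)) =
        PJ (fun i => i.2 < N + (if i.1 = k0 then 1 else 0)) -
          PJ (fun i => i.2 < N + (if i.1 = k0 then 1 else 0)) * Err *
            PJ (fun i => i.2 < N + (if i.1 = k0 then 1 else 0)) := by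
  have bΦ : Band (K + K + K) (X2' * D' * X1') := (bX2'.mul bD').mul bX1'
  have bΨ : Band (K + K + K) (X1 * D * X2) := (bX1.mul bD).mul bX2
  have bG' : Band 1 G' := cvAsmA_bG k0 G' hG'
  have bt1 : Band (K + K + K) (X2' * s1' * X2) := (bX2'.mul bs1').mul bX2
  have bt2 : Band (K + K + K + K) (X2' * D' * X1' * s0) := bΦ.mul bs0
  have bσ : Band (K + K + K + K) (-(X2' * s1' * X2) + X2' * D' * X1' * s0) :=
    (bt1.mono (by omega)).neg.add bt2
  have bE1 : Band (K + K + K) (X1 * s1 * X1') := (bX1.mul bs1).mul bX1'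
  have bE2 : Band (K + 0 + (K + K + K + K) + 1)
      (s0 * PJ (fun i => ¬ i.2 < 10 * K + 10) *
        (-(X2' * s1' * X2) + X2' * D' * X1' * s0) * G') :=
    ((bs0.mul (Band.PJ _)).mul bσ).mul bG'
  have fF : IsFin (4 * K) (-(X2' * F1' * X2) + X2' * D' * X1' * F0) := by
    have f1 : IsFin (K + K + K) (X2' * F1' * X2) := (bX2'.mul_fin hF1').mul_band bX2
    have f2 : IsFin (K + K + K + K) (X2' * D' * X1' * F0) := bΦ.mul_fin hF0
    exact (f1.mono (by omega)).neg.add (f2.mono (by omega))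
  refine ⟨10 * K + 10, 6 * K + 1, X1 * D * X2, X2' * D' * X1',
    X1 * s1 * X1' - s0 * PJ (fun i => ¬ i.2 < 10 * K + 10) *
      (-(X2' * s1' * X2) + X2' * D' * X1' * s0) * G', by omega, bΨ.mono (by omega),
    bΦ.mono (by omega), (bE1.mono (by omega)).sub (bE2.mono (by omega)), ?_, ?_⟩
  · have c1 : Bd (C * ε * C) (X1 * s1 * X1') := (cX1.mul hs1 bs1).mul cX1' bX1'
    have c2 : Bd (C * ε * C) (X2' * s1' * X2) := (cX2'.mul hs1' bs1').mul cX2 bX2
    have c3 : Bd (C * C * C * ε) (X2' * D' * X1' * s0) :=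
      ((cX2'.mul cD' bD').mul cX1' bX1').mul hs0 bs0
    have c4 : Bd (C * ε * C + C * C * C * ε) (-(X2' * s1' * X2) + X2' * D' * X1' * s0) :=
      c2.neg.add c3
    have c5 := ((hs0.mul (Bd.PJ (A := A) (fun i : κ × ℕ => ¬ i.2 < 10 * K + 10))
      (Band.PJ _)).mul c4 bσ).mul cG' bG'
    refine (c1.sub c5).mono ?_
    have hC0 : 0 < C := by linarith
    have hCC : 1 ≤ C ^ 2 := by nlinarith
    have hC34 : C ^ 3 ≤ C ^ 4 := by
      have : 0 < C ^ 3 := by positivity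
      nlinarith
    have hC24 : C ^ 2 ≤ C ^ 4 := by nlinarith
    have hC14 : 1 ≤ C ^ 4 := by nlinarith
    have hε1 : ε ≤ 1 := by nlinarith
    have e1 : C * ε * C + ε * 1 * (C * ε * C + C * C * C * ε) * C =
        C ^ 2 * ε + (C ^ 3 + C ^ 4) * ε * ε := by ring
    rw [e1]
    have e2 : (C ^ 3 + C ^ 4) * ε * ε ≤ (C ^ 4 + C ^ 4) * ε * 1 := by
      have h0 : 0 ≤ (C ^ 4 + C ^ 4) * ε := by positivity
      have h3 : (C ^ 3 + C ^ 4) * ε ≤ (C ^ 4 + C ^ 4) * ε :=
        mul_le_mul_of_nonneg_right (by linarith) hε.le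
      calc (C ^ 3 + C ^ 4) * ε * ε ≤ (C ^ 4 + C ^ 4) * ε * ε :=
            mul_le_mul_of_nonneg_right h3 hε.le
        _ ≤ (C ^ 4 + C ^ 4) * ε * 1 := mul_le_mul_of_nonneg_left hε1 h0
    have e3 : C ^ 2 * ε ≤ C ^ 4 * ε := mul_le_mul_of_nonneg_right hC24 hε.le
    linarith
  · exact cvAsmA_ring X1 X1' X2 X2' D D' G G' F0 F1' s0 s1 s1' Y
      (PJ (fun i => i.2 < 10 * K + 10 + (if i.1 = k0 then 1 else 0)))
      (PJ (fun i => i.2 < 10 * K + 10)) (PJ (fun i => ¬ i.2 < 10 * K + 10))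
      (PJ (fun i => i = (k0, 0))) h1' h1 h2 h2' hk hδ hδ' (cvAsmA_PQ _) (cvAsmA_QQ _)
      (cvAsmA_QQ _) (cvAsmA_GG k0 G G' hG hG') (cvAsmA_PGQ k0 _ G hG)
      (cvAsmA_FQ K _ F0 hF0 (by omega)) (cvAsmA_QF (4 * K) _ _ fF (by omega))
      (cvAsmA_QGP k0 _ G' hG') (cvAsmA_Qe k0 (K + K + K) _ _ bΦ (by omega))

end Pool.Agent.MPb9c6dd
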