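import Pool.Agent.Lib.MP_b9c6dd_an.CvDefs

set_option autoImplicit false

namespace Pool.Agent.MPb9c6dd

variable {κ A : Type} [Fintype κ] [Ring A]

theorem Band.mono {K L : ℕ} {M : EE κ A} (hM : Band K M) (h : K ≤ L) : Band L M := by
  intro i j hij
  have := hM i j hij
  omega

theorem Band.add {K : ℕ} {M N : EE κ A} (hM : Band K M) (hN : Band K N) : Band K (M + N) := by
  intro i j hij
  by_cases h : cf M i j = 0
  · apply hN i j
    intro h'
    apply hij
    rw [cf_add, h, h', add_zero]
  · exact hM i j h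

theorem Band.neg {K : ℕ} {M : EE κ A} (hM : Band K M) : Band K (-M) := by
  intro i j hij
  apply hM i j
  intro h
  apply hij
  rw [cf_neg, h, neg_zero]

theorem Band.sub {K : ℕ} {M N : EE κ A} (hM : Band K M) (hN : Band K N) : Band K (M - N) := by
  rw [sub_eq_add_neg]
  exact hM.add hN.neg

/-- The columns of a band matrix. -/
private noncomputable def bandSet [Fintype κ] (n : ℕ) : Finset (κ × ℕ) :=
  Finset.univ ×ˢ Finset.range n

private theorem band_cf_mul {L : ℕ} {M N : EE κ A} (hN : Band L N) (i j : κ × ℕ) (n : ℕ)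
    (hn : j.2 + L < n) : cf (M * N) i j = ∑ k ∈ bandSet n, cf M i k * cf N k j := by
  apply cf_mul
  intro k hk
  by_contra h
  apply hk
  have := hN k j h
  unfold bandSet
  rw [Finset.mem_product, Finset.mem_range]
  exact ⟨Finset.mem_univ _, by omega⟩

theorem Band.mul {K L : ℕ} {M N : EE κ A} (hM : Band K M) (hN : Band L N) :
    Band (K + L) (M * N) := by
  intro i j hij
  rw [band_cf_mul hN i j (j.2 + L + 1) (by omega)] at hij
  obtain ⟨k, _, hk⟩ := Finset.exists_ne_zero_of_sum_ne_zero hij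
  have h1 := hM i k (left_ne_zero_of_mul hk)
  have h2 := hN k j (right_ne_zero_of_mul hk)
  omega

theorem Band.one : Band 0 (1 : EE κ A) := by
  intro i j hij
  rw [cf_one] at hij
  by_cases h : i = j
  · rw [h]
    omega
  · rw [if_neg h] at hij
    exact absurd rfl hij

theorem Band.zero : Band 0 (0 : EE κ A) := by
  intro i j hij
  exact absurd (cf_zero i j) hij

theorem IsFin.band {K : ℕ} {M : EE κ A} (hM : IsFin K M) : Band K M := by
  intro i j hij
  have := hM i j hij
  omega

theorem IsFin.mono {K L : ℕ} {M : EE κ A} (hM : IsFin K M) (h : K ≤ L) : IsFin L M := by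
  intro i j hij
  have := hM i j hij
  omega

theorem IsFin.add {K : ℕ} {M N : EE κ A} (hM : IsFin K M) (hN : IsFin K N) : IsFin K (M + N) := by
  intro i j hij
  by_cases h : cf M i j = 0
  · apply hN i j
    intro h'
    apply hij
    rw [cf_add, h, h', add_zero]
  · exact hM i j h

theorem IsFin.neg {K : ℕ} {M : EE κ A} (hM : IsFin K M) : IsFin K (-M) := by
  intro i j hij
  apply hM i j
  intro h
  apply hij
  rw [cf_neg, h, neg_zero]

theorem IsFin.sub {K : ℕ} {M N : EE κ A} (hM : IsFin K M) (hN : IsFin K N) : IsFin K (M - N) := by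
  rw [sub_eq_add_neg]
  exact hM.add hN.neg

theorem IsFin.mul_band {K L : ℕ} {M N : EE κ A} (hM : IsFin K M) (hN : Band L N) :
    IsFin (K + L) (M * N) := by
  intro i j hij
  rw [band_cf_mul hN i j (j.2 + L + 1) (by omega)] at hij
  obtain ⟨k, _, hk⟩ := Finset.exists_ne_zero_of_sum_ne_zero hij
  have h1 := hM i k (left_ne_zero_of_mul hk)
  have h2 := hN k j (right_ne_zero_of_mul hk)
  omega

theorem Band.mul_fin {K L : ℕ} {M N : EE κ A} (hM : Band K M) (hN : IsFin L N) :
    IsFin (K + L) (M * N) := by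
  intro i j hij
  rw [band_cf_mul hN.band i j (j.2 + L + 1) (by omega)] at hij
  obtain ⟨k, _, hk⟩ := Finset.exists_ne_zero_of_sum_ne_zero hij
  have h1 := hM i k (left_ne_zero_of_mul hk)
  have h2 := hN k j (right_ne_zero_of_mul hk)
  omega

/-- the product formula for a band matrix -/
theorem cf_mul_band {L : ℕ} {M N : EE κ A} (hN : Band L N) (i j : κ × ℕ) (n : ℕ)
    (hn : j.2 + L < n) :
    cf (M * N) i j = ∑ k : κ × Fin n, cf M i (k.1, (k.2 : ℕ)) * cf N (k.1, (k.2 : ℕ)) j := by
  rw [band_cf_mul hN i j n hn]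
  unfold bandSet
  rw [Finset.sum_product, Fintype.sum_prod_type]
  refine Finset.sum_congr rfl fun k _ => ?_
  exact (Fin.sum_univ_eq_sum_range (fun m => cf M i (k, m) * cf N (k, m) j) n).symm

open Classical in
theorem cf_PJ (p : κ × ℕ → Prop) (i j : κ × ℕ) :
    cf (PJ p : EE κ A) i j = if i = j ∧ p i then 1 else 0 := by
  unfold PJ
  rw [cf_mkE]

open Classical in
theorem cf_PJ_mul (p : κ × ℕ → Prop) (M : EE κ A) (i j : κ × ℕ) :
    cf (PJ p * M) i j = if p i then cf M i j else 0 := by
  rw [cf_mul (PJ p) M i j (M.app (Finsupp.single j 1)).support fun k hk =>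
    Finsupp.notMem_support_iff.1 hk]
  by_cases h : i ∈ (M.app (Finsupp.single j 1)).support
  · rw [Finset.sum_eq_single i]
    · rw [cf_PJ]
      by_cases hp : p i
      · rw [if_pos ⟨rfl, hp⟩, if_pos hp, one_mul]
      · rw [if_neg fun h' => hp h'.2, if_neg hp, zero_mul]
    · intro k _ hk
      rw [cf_PJ, if_neg fun h' => hk h'.1.symm, zero_mul]
    · intro h'
      exact absurd h h'
  · have h0 : cf M i j = 0 := Finsupp.notMem_support_iff.1 h
    rw [h0, ite_self]
    apply Finset.sum_eq_zero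
    intro k hk
    rw [cf_PJ, if_neg, zero_mul]
    rintro ⟨rfl, _⟩
    exact h hk

open Classical in
theorem cf_mul_PJ (p : κ × ℕ → Prop) (M : EE κ A) (i j : κ × ℕ) :
    cf (M * PJ p) i j = if p j then cf M i j else 0 := by
  rw [cf_mul M (PJ p) i j {j} fun k hk => by
    rw [cf_PJ, if_neg]
    rintro ⟨rfl, _⟩
    exact hk (Finset.mem_singleton_self _)]
  rw [Finset.sum_singleton, cf_PJ]
  by_cases hp : p j
  · rw [if_pos ⟨rfl, hp⟩, if_pos hp, mul_one]
  · rw [if_neg fun h' => hp h'.2, if_neg hp, mul_zero]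

theorem Band.PJ (p : κ × ℕ → Prop) : Band 0 (PJ p : EE κ A) := by
  intro i j hij
  rw [cf_PJ] at hij
  by_cases h : i = j ∧ p i
  · rw [h.1]
    omega
  · rw [if_neg h] at hij
    exact absurd rfl hij

end Pool.Agent.MPb9c6dd
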