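import Pool.Agent.Lib.MP_b9c6dd_an.CvNorm
import Pool.Agent.Lib.MP_b9c6dd_an.CvBand

set_option autoImplicit false

namespace Pool.Agent.MPb9c6dd

variable {κ A : Type} [Fintype κ] [CStarAlgebra A]

theorem Bd.mono {C D : ℝ} {M : EE κ A} (hM : Bd C M) (h : C ≤ D) : Bd D M := by
  exact fun n => (hM n).trans h

theorem Bd.nonneg {C : ℝ} {M : EE κ A} (hM : Bd C M) : 0 ≤ C := by
  exact (cnorm_nonneg _).trans (hM 0)

theorem Bd.add {C D : ℝ} {M N : EE κ A} (hM : Bd C M) (hN : Bd D N) : Bd (C + D) (M + N) := by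
  intro n
  have h : (Matrix.of fun i j : κ × Fin n => cf (M + N) (i.1, (i.2 : ℕ)) (j.1, (j.2 : ℕ))) =
      (Matrix.of fun i j : κ × Fin n => cf M (i.1, (i.2 : ℕ)) (j.1, (j.2 : ℕ))) +
        (Matrix.of fun i j : κ × Fin n => cf N (i.1, (i.2 : ℕ)) (j.1, (j.2 : ℕ))) := by
    ext i j
    rfl
  rw [h]
  exact (cnorm_add_le _ _).trans (add_le_add (hM n) (hN n))

private theorem cvBd_neg {C : ℝ} {M : EE κ A} (hM : Bd C M) : Bd C (-M) := by
  intro n
  have h : (Matrix.of fun i j : κ × Fin n => cf (-M) (i.1, (i.2 : ℕ)) (j.1, (j.2 : ℕ))) =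
      -(Matrix.of fun i j : κ × Fin n => cf M (i.1, (i.2 : ℕ)) (j.1, (j.2 : ℕ))) := by
    ext i j
    rfl
  rw [h, cnorm_neg]
  exact hM n

theorem Bd.sub {C D : ℝ} {M N : EE κ A} (hM : Bd C M) (hN : Bd D N) : Bd (C + D) (M - N) := by
  have h : M - N = M + -N :=
    EE_ext fun i j => by rw [cf_sub, cf_add, cf_neg, _root_.sub_eq_add_neg]
  rw [h]
  exact hM.add (cvBd_neg hN)

theorem Bd.neg {C : ℝ} {M : EE κ A} (hM : Bd C M) : Bd C (-M) := by
  exact cvBd_neg hM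

private theorem cvBd_nonneg {C : ℝ} {M : EE κ A} (hM : Bd C M) : 0 ≤ C :=
  (cnorm_nonneg _).trans (hM 0)

theorem Bd.mul {C D : ℝ} {L : ℕ} {M N : EE κ A} (hM : Bd C M) (hN : Bd D N) (hL : Band L N) :
    Bd (C * D) (M * N) := by
  intro n
  have h : (Matrix.of fun i j : κ × Fin n => cf (M * N) (i.1, (i.2 : ℕ)) (j.1, (j.2 : ℕ))) =
      ((Matrix.of fun i j : κ × Fin (n + L + 1) => cf M (i.1, (i.2 : ℕ)) (j.1, (j.2 : ℕ))) *
        (Matrix.of fun i j : κ × Fin (n + L + 1) =>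
          cf N (i.1, (i.2 : ℕ)) (j.1, (j.2 : ℕ)))).submatrix
        (fun i : κ × Fin n => (i.1, Fin.castLE (by omega) i.2))
        (fun i : κ × Fin n => (i.1, Fin.castLE (by omega) i.2)) := by
    ext i j
    rw [Matrix.submatrix_apply, Matrix.mul_apply, Matrix.of_apply]
    rw [cf_mul_band hL _ _ (n + L + 1) (by have := j.2.2; simp only; omega)]
    rfl
  rw [h]
  refine (cnorm_submatrix_le _ _ ?_).trans ((cnorm_mul_le _ _).trans
    (mul_le_mul (hM _) (hN _) (cnorm_nonneg _) (cvBd_nonneg hM)))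
  rintro ⟨a, b⟩ ⟨c, d⟩ hab
  simp only [Prod.mk.injEq] at hab
  obtain ⟨h1, h2⟩ := hab
  have h3 := congrArg Fin.val h2
  simp only [Fin.val_castLE] at h3
  rw [h1, Fin.ext h3]

private theorem cvBd_PJ (p : κ × ℕ → Prop) : Bd 1 (PJ p : EE κ A) := by
  classical
  intro n
  have h : (Matrix.of fun i j : κ × Fin n =>
      cf (PJ p : EE κ A) (i.1, (i.2 : ℕ)) (j.1, (j.2 : ℕ))) =
      Matrix.diagonal fun i : κ × Fin n => if p (i.1, (i.2 : ℕ)) then (1 : A) else 0 := by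
    ext i j
    rw [Matrix.of_apply, cf_PJ, Matrix.diagonal_apply]
    by_cases hij : i = j
    · subst hij
      simp
    · rw [if_neg hij, if_neg]
      rintro ⟨h1, -⟩
      apply hij
      rw [Prod.mk.injEq] at h1
      exact Prod.ext h1.1 (Fin.ext h1.2)
  rw [h]
  exact cnorm_diag_le _

theorem Bd.one : Bd 1 (1 : EE κ A) := by
  classical
  have h : (1 : EE κ A) = PJ fun _ => True := by
    refine EE_ext fun i j => ?_
    rw [cf_one, cf_PJ]
    simp
  rw [h]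
  exact cvBd_PJ _

theorem Bd.PJ (p : κ × ℕ → Prop) : Bd 1 (PJ p : EE κ A) := by
  exact cvBd_PJ p

/-- a bound on all finite corners -/
theorem Bd.corner {C : ℝ} {M : EE κ A} (hM : Bd C M) {I : Type} [Fintype I] (f : I → κ × ℕ)
    (hf : Function.Injective f) : cnorm (Matrix.of fun i j => cf M (f i) (f j)) ≤ C := by
  classical
  set n : ℕ := (Finset.univ.sup fun i => (f i).2) + 1 with hn
  have hlt : ∀ i, (f i).2 < n := fun i =>
    Nat.lt_succ_of_le (Finset.le_sup (f := fun i => (f i).2) (Finset.mem_univ i))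
  have h : (Matrix.of fun i j => cf M (f i) (f j)) =
      (Matrix.of fun i j : κ × Fin n => cf M (i.1, (i.2 : ℕ)) (j.1, (j.2 : ℕ))).submatrix
        (fun i => ((f i).1, (⟨(f i).2, hlt i⟩ : Fin n)))
        (fun i => ((f i).1, (⟨(f i).2, hlt i⟩ : Fin n))) := by
    ext i j
    rfl
  rw [h]
  refine (cnorm_submatrix_le _ _ ?_).trans (hM n)
  intro i j hij
  simp only [Prod.mk.injEq, Fin.mk.injEq] at hij
  exact hf (Prod.ext hij.1 hij.2)

end Pool.Agent.MPb9c6dd
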