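import Pool.Agent.Lib.MP_b9c6dd_an.CvDefs

set_option autoImplicit false

namespace Pool.Agent.MPb9c6dd

private theorem cvcont_single {B κ X : Type} [CStarAlgebra B] [DecidableEq κ] [TopologicalSpace X]
    (k : κ) {φ : X → B} (hφ : Continuous φ) :
    Continuous fun x => (Matrix.single k k (φ x) : Matrix κ κ B) := by
  refine continuous_matrix fun i j => ?_
  simp only [Matrix.single_apply]
  split_ifs
  · exact hφ
  · exact continuous_const

private theorem cvcont_one {B κ : Type} [CStarAlgebra B] [Fintype κ] [DecidableEq κ] (k : κ)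
    (t t' : B) (h : (1 + t) * (1 + t') = 1) :
    (1 : Matrix κ κ B) - (1 + Matrix.single k k t) * (1 + Matrix.single k k t') = 0 := by
  have h1 : t + t' + t * t' = 0 := by
    have h2 : (1 + t) * (1 + t') = 1 + (t + t' + t * t') := by noncomm_ring
    rw [h2] at h
    exact add_eq_left.1 h
  have h3 : (1 + Matrix.single k k t : Matrix κ κ B) * (1 + Matrix.single k k t') =
      1 + Matrix.single k k (t + t' + t * t') := by
    rw [mul_add, mul_one, add_mul, one_mul, Matrix.single_mul_single_same, Matrix.single_add,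
      Matrix.single_add]
    abel
  rw [h3, h1, Matrix.single_zero, add_zero, sub_self]

private theorem cvcont_norm {B κ X : Type} [CStarAlgebra B] [Fintype κ] [TopologicalSpace X]
    {φ : X → Matrix κ κ B} (hφ : Continuous φ) : Continuous fun x => ∑ i, ∑ j, ‖φ x i j‖ :=
  continuous_finsetSum _ fun i _ => continuous_finsetSum _ fun j _ =>
    (hφ.matrix_elem i j).norm

/-- Continuity of the factorization. -/
theorem factor_cont {B κ : Type} [CStarAlgebra B] [Fintype κ] [DecidableEq κ]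
    (g e1 e2 : Matrix κ κ B) (k1 : κ) (y w w' : B)
    (h : g = e1 * (1 + Matrix.single k1 k1 (y * w * y)) * e2)
    (h1 : (1 + y * w * y) * (1 + y * w' * y) = 1) (h2 : (1 + y * w' * y) * (1 + y * w * y) = 1)
    (ε : ℝ) (hε : 0 < ε) :
    ∃ η : ℝ, 0 < η ∧ ∀ (f1 f2 : Matrix κ κ B) (p p' : B), (∀ i j, ‖e1 i j - f1 i j‖ ≤ η) →
      (∀ i j, ‖e2 i j - f2 i j‖ ≤ η) → ‖w - p‖ ≤ η → ‖w' - p'‖ ≤ η →
      ∑ i, ∑ j, ‖(g - f1 * (1 + Matrix.single k1 k1 (y * p * y)) * f2) i j‖ ≤ ε ∧
      ∑ i, ∑ j, ‖((1 : Matrix κ κ B) - (1 + Matrix.single k1 k1 (y * p * y)) *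
        (1 + Matrix.single k1 k1 (y * p' * y))) i j‖ ≤ ε ∧
      ∑ i, ∑ j, ‖((1 : Matrix κ κ B) - (1 + Matrix.single k1 k1 (y * p' * y)) *
        (1 + Matrix.single k1 k1 (y * p * y))) i j‖ ≤ ε ∧
      ∑ i, ∑ j, ‖(1 + Matrix.single k1 k1 (y * p' * y) : Matrix κ κ B) i j‖ ≤
        ∑ i, ∑ j, ‖(1 + Matrix.single k1 k1 (y * w' * y) : Matrix κ κ B) i j‖ + 1 := by
  have hc1 : Continuous fun x : Matrix κ κ B × Matrix κ κ B × B × B => x.1 := continuous_fst
  have hc2 : Continuous fun x : Matrix κ κ B × Matrix κ κ B × B × B => x.2.1 :=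
    continuous_fst.comp continuous_snd
  have hc3 : Continuous fun x : Matrix κ κ B × Matrix κ κ B × B × B => x.2.2.1 :=
    continuous_fst.comp (continuous_snd.comp continuous_snd)
  have hc4 : Continuous fun x : Matrix κ κ B × Matrix κ κ B × B × B => x.2.2.2 :=
    continuous_snd.comp (continuous_snd.comp continuous_snd)
  have hs3 : Continuous fun x : Matrix κ κ B × Matrix κ κ B × B × B =>
      (1 + Matrix.single k1 k1 (y * x.2.2.1 * y) : Matrix κ κ B) :=
    continuous_const.add (cvcont_single k1 ((continuous_const.mul hc3).mul continuous_const))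
  have hs4 : Continuous fun x : Matrix κ κ B × Matrix κ κ B × B × B =>
      (1 + Matrix.single k1 k1 (y * x.2.2.2 * y) : Matrix κ κ B) :=
    continuous_const.add (cvcont_single k1 ((continuous_const.mul hc4).mul continuous_const))
  have hA : ∀ᶠ x in nhds ((e1, e2, w, w') : Matrix κ κ B × Matrix κ κ B × B × B),
      ∑ i, ∑ j, ‖(g - x.1 * (1 + Matrix.single k1 k1 (y * x.2.2.1 * y)) * x.2.1) i j‖ < ε := by
    refine ContinuousAt.eventually_lt (cvcont_norm (continuous_const.sub
      ((hc1.matrix_mul hs3).matrix_mul hc2))).continuousAt continuousAt_const ?_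
    simp only
    rw [h, sub_self]
    simpa using hε
  have hB : ∀ᶠ x in nhds ((e1, e2, w, w') : Matrix κ κ B × Matrix κ κ B × B × B),
      ∑ i, ∑ j, ‖((1 : Matrix κ κ B) - (1 + Matrix.single k1 k1 (y * x.2.2.1 * y)) *
        (1 + Matrix.single k1 k1 (y * x.2.2.2 * y))) i j‖ < ε := by
    refine ContinuousAt.eventually_lt (cvcont_norm (continuous_const.sub
      (hs3.matrix_mul hs4))).continuousAt continuousAt_const ?_
    simp only
    rw [cvcont_one k1 _ _ h1]
    simpa using hε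
  have hC : ∀ᶠ x in nhds ((e1, e2, w, w') : Matrix κ κ B × Matrix κ κ B × B × B),
      ∑ i, ∑ j, ‖((1 : Matrix κ κ B) - (1 + Matrix.single k1 k1 (y * x.2.2.2 * y)) *
        (1 + Matrix.single k1 k1 (y * x.2.2.1 * y))) i j‖ < ε := by
    refine ContinuousAt.eventually_lt (cvcont_norm (continuous_const.sub
      (hs4.matrix_mul hs3))).continuousAt continuousAt_const ?_
    simp only
    rw [cvcont_one k1 _ _ h2]
    simpa using hε
  have hD : ∀ᶠ x in nhds ((e1, e2, w, w') : Matrix κ κ B × Matrix κ κ B × B × B),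
      ∑ i, ∑ j, ‖(1 + Matrix.single k1 k1 (y * x.2.2.2 * y) : Matrix κ κ B) i j‖ <
        ∑ i, ∑ j, ‖(1 + Matrix.single k1 k1 (y * w' * y) : Matrix κ κ B) i j‖ + 1 := by
    refine ContinuousAt.eventually_lt (cvcont_norm hs4).continuousAt continuousAt_const ?_
    exact lt_add_one _
  have hall := hA.and (hB.and (hC.and hD))
  have hall' : ∀ᶠ x in nhds ((e1, e2, w, w') : (κ → κ → B) × (κ → κ → B) × B × B), _ := hall
  rw [Metric.eventually_nhds_iff] at hall'
  obtain ⟨δ, hδ, hδ'⟩ := hall'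
  refine ⟨δ / 2, half_pos hδ, fun f1 f2 p p' hf1 hf2 hp hp' => ?_⟩
  have hd : dist ((f1, f2, p, p') : (κ → κ → B) × (κ → κ → B) × B × B) (e1, e2, w, w') < δ := by
    refine lt_of_le_of_lt ?_ (half_lt_self hδ)
    have hδ2 : 0 ≤ δ / 2 := (half_pos hδ).le
    have hm : ∀ e f : κ → κ → B, (∀ i j, ‖e i j - f i j‖ ≤ δ / 2) → dist f e ≤ δ / 2 := by
      intro e f hef
      refine (dist_pi_le_iff hδ2).2 fun i => (dist_pi_le_iff hδ2).2 fun j => ?_
      rw [dist_comm, dist_eq_norm]
      exact hef i j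
    refine max_le (hm _ _ hf1) (max_le (hm _ _ hf2) (max_le ?_ ?_))
    · rw [dist_comm, dist_eq_norm]
      exact hp
    · rw [dist_comm, dist_eq_norm]
      exact hp'
  obtain ⟨q1, q2, q3, q4⟩ := hδ' hd
  exact ⟨q1.le, q2.le, q3.le, q4.le⟩

end Pool.Agent.MPb9c6dd
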