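import Pool.Agent.Lib.MP_b9c6dd_an.CPBasic

set_option autoImplicit false

namespace Pool.Agent.MPb9c6dd

/-- Products of elementary matrices. -/
inductive El {κ : Type} [Fintype κ] [DecidableEq κ] {R : Type} [Ring R] : Matrix κ κ R → Prop
  | one : El 1
  | step (M : Matrix κ κ R) (i j : κ) (hij : i ≠ j) (b : R) (hM : El M) :
      El (M * (1 + Matrix.single i j b))

/-- `y Z y`, entrywise. -/
def sand {κ R : Type} [Ring R] (y : R) (Z : Matrix κ κ R) : Matrix κ κ R :=
  Matrix.of fun i j => y * Z i j * y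

/-- Column finite matrices over `A`, indexed by `κ × ℕ`, as endomorphisms of a free right
module. -/
def EE (κ A : Type) [Ring A] : Type := Module.End Aᵐᵒᵖ ((κ × ℕ) →₀ A)

noncomputable instance EE.instRing (κ A : Type) [Ring A] : Ring (EE κ A) :=
  inferInstanceAs (Ring (Module.End Aᵐᵒᵖ ((κ × ℕ) →₀ A)))

/-- The action of a column finite matrix on vectors. -/
noncomputable def EE.app {κ A : Type} [Ring A] (M : EE κ A) (ξ : (κ × ℕ) →₀ A) : (κ × ℕ) →₀ A :=
  (show Module.End Aᵐᵒᵖ ((κ × ℕ) →₀ A) from M) ξ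

/-- The coefficients of a column finite matrix. -/
noncomputable def cf {κ A : Type} [Ring A] (M : EE κ A) (i j : κ × ℕ) : A :=
  M.app (Finsupp.single j 1) i

/-- The column finite matrix with given coefficients. -/
noncomputable def mkE {κ A : Type} [Ring A] (m : κ × ℕ → κ × ℕ → A)
    (h : ∀ j, {i | m i j ≠ 0}.Finite) : EE κ A :=
  show Module.End Aᵐᵒᵖ ((κ × ℕ) →₀ A) from Finsupp.lsum ℕ fun j =>
    { toFun := fun a => MulOpposite.op a • Finsupp.ofSupportFinite (fun i => m i j) (h j)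
      map_add' := fun a b => by rw [MulOpposite.op_add, add_smul]
      map_smul' := fun c a => by
        rw [RingHom.id_apply, smul_smul]
        rfl }

variable {κ A : Type} [Ring A]

theorem cf_mkE (m : κ × ℕ → κ × ℕ → A) (h : ∀ j, {i | m i j ≠ 0}.Finite) (i j : κ × ℕ) :
    cf (mkE m h) i j = m i j := by
  unfold cf mkE EE.app
  rw [Finsupp.lsum_single]
  simp only [LinearMap.coe_mk, AddHom.coe_mk, Finsupp.smul_apply, MulOpposite.smul_eq_mul_unop,
    MulOpposite.unop_op, mul_one]
  rfl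

theorem apply_eq_sum (M : EE κ A) (ξ : (κ × ℕ) →₀ A) (i : κ × ℕ) :
    M.app ξ i = ∑ j ∈ ξ.support, cf M i j * ξ j := by
  unfold cf EE.app
  conv_lhs => rw [← Finsupp.sum_single ξ]
  rw [Finsupp.sum, map_sum, Finsupp.finsetSum_apply]
  refine Finset.sum_congr rfl fun j _ => ?_
  have : (Finsupp.single j (ξ j) : (κ × ℕ) →₀ A) =
      MulOpposite.op (ξ j) • Finsupp.single j 1 := by
    rw [Finsupp.smul_single]
    simp
  rw [this, map_smul, Finsupp.smul_apply]
  rfl

theorem EE_ext {M N : EE κ A} (h : ∀ i j, cf M i j = cf N i j) : M = N := by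
  apply LinearMap.ext
  intro ξ
  ext i
  change M.app ξ i = N.app ξ i
  rw [apply_eq_sum, apply_eq_sum]
  exact Finset.sum_congr rfl fun j _ => by rw [h]

theorem cf_mul (M N : EE κ A) (i j : κ × ℕ) (s : Finset (κ × ℕ))
    (hs : ∀ k, k ∉ s → cf N k j = 0) :
    cf (M * N) i j = ∑ k ∈ s, cf M i k * cf N k j := by
  classical
  have h1 : cf (M * N) i j = M.app (N.app (Finsupp.single j 1)) i := rfl
  rw [h1, apply_eq_sum]
  apply Finset.sum_subset_zero_on_sdiff
  · intro k hk
    by_contra hks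
    exact (Finsupp.mem_support_iff.1 hk) (hs k hks)
  · intro k hk
    rw [Finset.mem_sdiff] at hk
    have h2 : cf N k j = 0 := Finsupp.notMem_support_iff.1 hk.2
    rw [h2, mul_zero]
  · intro k _
    rfl

theorem cf_add (M N : EE κ A) (i j : κ × ℕ) : cf (M + N) i j = cf M i j + cf N i j := rfl

theorem cf_sub (M N : EE κ A) (i j : κ × ℕ) : cf (M - N) i j = cf M i j - cf N i j := rfl

theorem cf_neg (M : EE κ A) (i j : κ × ℕ) : cf (-M) i j = -cf M i j := rfl

theorem cf_zero (i j : κ × ℕ) : cf (0 : EE κ A) i j = 0 := rfl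

open Classical in
theorem cf_one (i j : κ × ℕ) : cf (1 : EE κ A) i j = if i = j then 1 else 0 := by
  have h1 : cf (1 : EE κ A) i j = (Finsupp.single j (1 : A) : (κ × ℕ) →₀ A) i := rfl
  rw [h1, Finsupp.single_apply]
  simp only [eq_comm]

/-- Band matrices. -/
def Band (K : ℕ) (M : EE κ A) : Prop :=
  ∀ i j, cf M i j ≠ 0 → i.2 ≤ j.2 + K ∧ j.2 ≤ i.2 + K

/-- Matrices with finite support (in the second index). -/
def IsFin (K : ℕ) (M : EE κ A) : Prop := ∀ i j, cf M i j ≠ 0 → i.2 < K ∧ j.2 < K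

open Classical in
/-- The diagonal projection onto a set of coordinates. -/
noncomputable def PJ (p : κ × ℕ → Prop) : EE κ A :=
  mkE (fun i j => if i = j ∧ p i then 1 else 0) fun j =>
    (Set.finite_singleton j).subset fun i hi => by
      by_contra hij
      apply hi
      rw [if_neg]
      exact fun h => hij h.1

section norm

attribute [local instance] CStarAlgebra.spectralOrder CStarAlgebra.spectralOrderedRing

/-- The C*-norm of a finite matrix over a C*-algebra. -/
noncomputable def cnorm {A I : Type} [CStarAlgebra A] [Fintype I] (m : Matrix I I A) : ℝ :=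
  ‖(CStarMatrix.ofMatrix m : CStarMatrix I I A)‖

end norm

/-- A norm bound for a column finite matrix: all its finite corners are bounded. -/
def Bd {κ A : Type} [Fintype κ] [CStarAlgebra A] (C : ℝ) (M : EE κ A) : Prop :=
  ∀ n : ℕ, cnorm (Matrix.of fun i j : κ × Fin n => cf M (i.1, (i.2 : ℕ)) (j.1, (j.2 : ℕ))) ≤ C

section crossed

variable {A B κ : Type} [CStarAlgebra A] [CStarAlgebra B]

/-- `b` is a Laurent polynomial. -/
def IsPl (ι : A →⋆ₐ[ℂ] B) (U : unitary B) (b : B) : Prop :=
  ∃ (K : ℕ) (c : ℤ → A), b = pol ι U (Finset.Icc (-(K : ℤ)) K) c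

/-- All entries are Laurent polynomials. -/
def IsPlM (ι : A →⋆ₐ[ℂ] B) (U : unitary B) (b : Matrix κ κ B) : Prop := ∀ i j, IsPl ι U (b i j)

open Classical in
/-- The Toeplitz operator with symbol `b` (junk value `0` if a column is not finite). -/
noncomputable def TT (U : unitary B) (E : B →L[ℂ] A) (b : Matrix κ κ B) : EE κ A :=
  if h : ∀ j : κ × ℕ,
      {i : κ × ℕ | E (upw U (-(i.2 : ℤ)) * b i.1 j.1 * upw U (j.2 : ℤ)) ≠ 0}.Finite then
    mkE (fun i j => E (upw U (-(i.2 : ℤ)) * b i.1 j.1 * upw U (j.2 : ℤ))) h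
  else 0

end crossed

end Pool.Agent.MPb9c6dd
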