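import Pool.Agent.Lib.MP_b9c6dd_an.CvDefs

set_option autoImplicit false

namespace Pool.Agent.MPb9c6dd

variable {κ κ' R : Type} [Fintype κ] [DecidableEq κ] [Fintype κ'] [DecidableEq κ'] [Ring R]

theorem El.mul {M N : Matrix κ κ R} (hM : El M) (hN : El N) : El (M * N) := by
  induction hN with
  | one => rwa [mul_one]
  | step N i j hij b hN ih =>
    rw [← mul_assoc]
    exact El.step _ i j hij b ih

private theorem cvElem_elem (i j : κ) (hij : i ≠ j) (b : R) : El (1 + Matrix.single i j b) := by
  have h := El.step (1 : Matrix κ κ R) i j hij b El.one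
  rwa [one_mul] at h

theorem El.inv {M : Matrix κ κ R} (hM : El M) : ∃ N : Matrix κ κ R, El N ∧ M * N = 1 ∧ N * M = 1 := by
  induction hM with
  | one => exact ⟨1, El.one, one_mul _, one_mul _⟩
  | step M i j hij b hM ih =>
    obtain ⟨N, hN, h1, h2⟩ := ih
    have h3 : ∀ c : R, (1 + Matrix.single i j c) * (1 + Matrix.single i j (-c)) =
        (1 : Matrix κ κ R) := by
      intro c
      rw [mul_add, add_mul, add_mul, Matrix.single_mul_single_of_ne _ _ _ _ hij.symm, one_mul,
        one_mul, mul_one, add_zero, add_assoc, ← Matrix.single_add, add_neg_cancel,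
        Matrix.single_zero, add_zero]
    have h4 : (1 + Matrix.single i j (-b)) * (1 + Matrix.single i j b) = (1 : Matrix κ κ R) := by
      have := h3 (-b)
      rwa [neg_neg] at this
    refine ⟨(1 + Matrix.single i j (-b)) * N, (cvElem_elem i j hij (-b)).mul hN, ?_, ?_⟩
    · calc M * (1 + Matrix.single i j b) * ((1 + Matrix.single i j (-b)) * N)
          = M * ((1 + Matrix.single i j b) * (1 + Matrix.single i j (-b))) * N := by
            simp only [mul_assoc]
        _ = 1 := by rw [h3, mul_one, h1]
    · calc (1 + Matrix.single i j (-b)) * N * (M * (1 + Matrix.single i j b))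
          = (1 + Matrix.single i j (-b)) * (N * M) * (1 + Matrix.single i j b) := by
            simp only [mul_assoc]
        _ = 1 := by rw [h2, mul_one, h4]

/-- reindexing along an equivalence -/
theorem El.submatrix {M : Matrix κ κ R} (hM : El M) (e : κ' ≃ κ) : El (M.submatrix e e) := by
  induction hM with
  | one =>
    rw [Matrix.submatrix_one_equiv]
    exact El.one
  | step M i j hij b hM ih =>
    have h1 : (1 + Matrix.single i j b : Matrix κ κ R).submatrix e e =
        1 + Matrix.single (e.symm i) (e.symm j) b := by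
      ext a c
      simp only [Matrix.submatrix_apply, Matrix.add_apply, Matrix.one_apply, Matrix.single_apply,
        e.injective.eq_iff, Equiv.symm_apply_eq]
    rw [← Matrix.submatrix_mul_equiv M (1 + Matrix.single i j b) e e e, h1]
    exact El.step _ _ _ (fun h => hij (e.symm.injective h)) b ih

theorem El.fromBlocks_left {M : Matrix κ κ R} (hM : El M) :
    El (Matrix.fromBlocks M 0 0 (1 : Matrix κ' κ' R)) := by
  induction hM with
  | one =>
    rw [Matrix.fromBlocks_one]
    exact El.one
  | step M i j hij b hM ih =>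
    have h1 : Matrix.fromBlocks (1 + Matrix.single i j b : Matrix κ κ R) 0 0
        (1 : Matrix κ' κ' R) = 1 + Matrix.single (Sum.inl i) (Sum.inl j) b := by
      ext (a | a) (c | c) <;> simp [Matrix.one_apply, Matrix.single_apply]
    have h2 : Matrix.fromBlocks (M * (1 + Matrix.single i j b)) 0 0 (1 : Matrix κ' κ' R) =
        Matrix.fromBlocks M 0 0 (1 : Matrix κ' κ' R) *
          (1 + Matrix.single (Sum.inl i) (Sum.inl j) b) := by
      rw [← h1, Matrix.fromBlocks_multiply]
      simp
    rw [h2]
    exact El.step _ _ _ (fun h => hij (Sum.inl.inj h)) b ih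

theorem El.fromBlocks_right {M : Matrix κ κ R} (hM : El M) :
    El (Matrix.fromBlocks (1 : Matrix κ' κ' R) 0 0 M) := by
  induction hM with
  | one =>
    rw [Matrix.fromBlocks_one]
    exact El.one
  | step M i j hij b hM ih =>
    have h1 : Matrix.fromBlocks (1 : Matrix κ' κ' R) 0 0 (1 + Matrix.single i j b : Matrix κ κ R) =
        1 + Matrix.single (Sum.inr i) (Sum.inr j) b := by
      ext (a | a) (c | c) <;> simp [Matrix.one_apply, Matrix.single_apply]
    have h2 : Matrix.fromBlocks (1 : Matrix κ' κ' R) 0 0 (M * (1 + Matrix.single i j b)) =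
        Matrix.fromBlocks (1 : Matrix κ' κ' R) 0 0 M *
          (1 + Matrix.single (Sum.inr i) (Sum.inr j) b) := by
      rw [← h1, Matrix.fromBlocks_multiply]
      simp
    rw [h2]
    exact El.step _ _ _ (fun h => hij (Sum.inr.inj h)) b ih

theorem El.upper (X : Matrix κ κ' R) : El (Matrix.fromBlocks (1 : Matrix κ κ R) X 0 (1 : Matrix κ' κ' R)) := by
  induction X using Matrix.induction_on' with
  | h_zero =>
    rw [Matrix.fromBlocks_one]
    exact El.one
  | h_add p q hp hq =>
    have h1 : Matrix.fromBlocks (1 : Matrix κ κ R) (p + q) 0 (1 : Matrix κ' κ' R) =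
        Matrix.fromBlocks (1 : Matrix κ κ R) p 0 (1 : Matrix κ' κ' R) *
          Matrix.fromBlocks (1 : Matrix κ κ R) q 0 (1 : Matrix κ' κ' R) := by
      rw [Matrix.fromBlocks_multiply]
      simp [add_comm]
    rw [h1]
    exact hp.mul hq
  | h_std_basis i j x =>
    have h1 : Matrix.fromBlocks (1 : Matrix κ κ R) (Matrix.single i j x) 0
        (1 : Matrix κ' κ' R) = 1 + Matrix.single (Sum.inl i) (Sum.inr j) x := by
      ext (a | a) (c | c) <;> simp [Matrix.one_apply, Matrix.single_apply]
    rw [h1]
    exact cvElem_elem _ _ (by simp) x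

theorem El.lower (Y : Matrix κ' κ R) : El (Matrix.fromBlocks (1 : Matrix κ κ R) 0 Y (1 : Matrix κ' κ' R)) := by
  induction Y using Matrix.induction_on' with
  | h_zero =>
    rw [Matrix.fromBlocks_one]
    exact El.one
  | h_add p q hp hq =>
    have h1 : Matrix.fromBlocks (1 : Matrix κ κ R) 0 (p + q) (1 : Matrix κ' κ' R) =
        Matrix.fromBlocks (1 : Matrix κ κ R) 0 p (1 : Matrix κ' κ' R) *
          Matrix.fromBlocks (1 : Matrix κ κ R) 0 q (1 : Matrix κ' κ' R) := by
      rw [Matrix.fromBlocks_multiply]
      simp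
    rw [h1]
    exact hp.mul hq
  | h_std_basis i j x =>
    have h1 : Matrix.fromBlocks (1 : Matrix κ κ R) 0 (Matrix.single i j x)
        (1 : Matrix κ' κ' R) = 1 + Matrix.single (Sum.inr i) (Sum.inl j) x := by
      ext (a | a) (c | c) <;> simp [Matrix.one_apply, Matrix.single_apply]
    rw [h1]
    exact cvElem_elem _ _ (by simp) x

private theorem cvElem_w (i j : κ) (hij : i ≠ j) (c c' : R) (h1 : c * c' = 1) (h2 : c' * c = 1) :
    (1 + Matrix.single i j c') * (1 + Matrix.single j i (-c)) * (1 + Matrix.single i j c') =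
      1 - Matrix.single i i 1 - Matrix.single j j 1 + Matrix.single i j c' -
        Matrix.single j i c := by
  have hn : Matrix.single j i (-c) = -Matrix.single j i c := by
    rw [Matrix.single_neg]
  rw [hn]
  simp only [mul_add, add_mul, one_mul, mul_one, mul_neg, neg_mul,
    Matrix.single_mul_single_same, Matrix.single_mul_single_of_ne _ _ _ _ hij.symm, h1, h2]
  abel

/-- Whitehead's lemma: `diag(c', c)` at the positions `i ≠ j`, where `c' = c⁻¹`. -/
theorem El.whitehead (i j : κ) (hij : i ≠ j) (c c' : R) (h1 : c * c' = 1) (h2 : c' * c = 1) :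
    El (1 + Matrix.single i i (c' - 1) + Matrix.single j j (c - 1)) := by
  have e1 := cvElem_w i j hij c c' h1 h2
  have e2 := cvElem_w i j hij (-1 : R) (-1) (by simp) (by simp)
  have h3 : El ((1 + Matrix.single i j c') * (1 + Matrix.single j i (-c)) *
      (1 + Matrix.single i j c')) :=
    ((cvElem_elem i j hij c').mul (cvElem_elem j i hij.symm (-c))).mul (cvElem_elem i j hij c')
  have h4 : El ((1 + Matrix.single i j (-1 : R)) * (1 + Matrix.single j i (-(-1 : R))) *
      (1 + Matrix.single i j (-1 : R))) :=
    ((cvElem_elem i j hij (-1)).mul (cvElem_elem j i hij.symm _)).mul (cvElem_elem i j hij (-1))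
  have h5 := h3.mul h4
  rw [e1, e2] at h5
  have h6 : (1 - Matrix.single i i 1 - Matrix.single j j 1 + Matrix.single i j c' -
        Matrix.single j i c) * (1 - Matrix.single i i (1 : R) - Matrix.single j j 1 +
        Matrix.single i j (-1) - Matrix.single j i (-1)) =
      1 + Matrix.single i i (c' - 1) + Matrix.single j j (c - 1) := by
    have hs : ∀ (k : κ) (x y : R), Matrix.single k k (x - y) =
        Matrix.single k k x - Matrix.single k k y := by
      intro k x y
      rw [sub_eq_add_neg, Matrix.single_add, ← Matrix.single_neg, ← sub_eq_add_neg]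
    rw [hs, hs, ← Matrix.single_neg, ← Matrix.single_neg]
    simp only [mul_add, add_mul, mul_sub, sub_mul, one_mul, mul_one, mul_neg,
      Matrix.single_mul_single_same, Matrix.single_mul_single_of_ne _ _ _ _ hij,
      Matrix.single_mul_single_of_ne _ _ _ _ hij.symm]
    abel
  rwa [h6] at h5

end Pool.Agent.MPb9c6dd
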