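import Pool.Agent.Lib.MP_b9c6dd_an.CPBasic

set_option autoImplicit false

open scoped BoundedContinuousFunction

namespace Pool.Agent.MPb9c6dd

variable {A B : Type} [CStarAlgebra A] [CStarAlgebra B] {α : A ≃⋆ₐ[ℂ] A}
  {ι : A →⋆ₐ[ℂ] B} {U : unitary B}

section window_aux

attribute [local instance] CStarAlgebra.spectralOrder CStarAlgebra.spectralOrderedRing

theorem window_aux_nonneg {E : B →L[ℂ] A} (hE : IsEx α ι U E) {b : B} (hb : 0 ≤ b) :
    0 ≤ E b := by
  obtain ⟨g, rfl⟩ := CStarAlgebra.nonneg_iff_eq_star_mul_self.mp hb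
  obtain ⟨k, hk⟩ := hE.pos g
  rw [hk]
  exact star_mul_self_nonneg k

theorem window_aux_mono {E : B →L[ℂ] A} (hE : IsEx α ι U E) {b c : B} (hb : b ≤ c) :
    E b ≤ E c := by
  have := window_aux_nonneg hE (sub_nonneg.mpr hb)
  rwa [map_sub, sub_nonneg] at this

/-- Cauchy–Schwarz, one-parameter form. -/
theorem window_aux_cs1 {E : B →L[ℂ] A} (hE : IsEx α ι U E) (x y : B) (r : ℝ) (hr : 0 ≤ r)
    (hrt : r * ‖E (x * star x)‖ ≤ 1) :
    r * ‖E (x * star y)‖ ^ 2 ≤ ‖E (y * star y)‖ := by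
  set w := E (x * star y) with hw
  have hw' : E (y * star x) = star w := by
    rw [hw, ← hE.map_star, star_mul, star_star]
  have h0 : 0 ≤ E ((y - ι ((r : ℂ) • star w) * x) * star (y - ι ((r : ℂ) • star w) * x)) :=
    window_aux_nonneg hE (mul_star_self_nonneg _)
  have hexp : E ((y - ι ((r : ℂ) • star w) * x) * star (y - ι ((r : ℂ) • star w) * x)) =
      E (y * star y) - (2 * r) • (star w * w) + (r ^ 2) • (star w * E (x * star x) * w) := by
    have e1 : (y - ι ((r : ℂ) • star w) * x) * star (y - ι ((r : ℂ) • star w) * x) =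
        y * star y - ι ((r : ℂ) • star w) * (x * star y)
          - (y * star x) * ι ((r : ℂ) • w)
          + ι ((r : ℂ) • star w) * ((x * star x) * ι ((r : ℂ) • w)) := by
      have : star (ι ((r : ℂ) • star w)) = ι ((r : ℂ) • w) := by
        rw [← map_star, star_smul, star_star]
        simp
      rw [star_sub, star_mul, this]
      noncomm_ring
    rw [e1, map_add, map_sub, map_sub, hE.ι_mul, hE.mul_ι, hE.ι_mul, hE.mul_ι, hw', ← hw]
    simp only [smul_mul_assoc, mul_smul_comm, smul_smul]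
    rw [two_mul, add_smul, pow_two, mul_assoc]
    rw [← Complex.ofReal_mul, Complex.coe_smul, Complex.coe_smul]
    abel
  rw [hexp] at h0
  have hx0 : 0 ≤ E (x * star x) := window_aux_nonneg hE (mul_star_self_nonneg _)
  have hxt : star w * E (x * star x) * w ≤ ‖E (x * star x)‖ • (star w * w) := by
    have := star_left_conjugate_le_conjugate
      (IsSelfAdjoint.le_algebraMap_norm_self (a := E (x * star x)) hx0.isSelfAdjoint) w
    refine this.trans (le_of_eq ?_)
    rw [Algebra.algebraMap_eq_smul_one, mul_smul_comm, smul_mul_assoc, mul_one]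
  have hww : 0 ≤ star w * w := star_mul_self_nonneg w
  have h1 : r • (star w * w) ≤ E (y * star y) := by
    have h2 : (r ^ 2) • (star w * E (x * star x) * w) ≤ r • (star w * w) := by
      calc (r ^ 2) • (star w * E (x * star x) * w)
          ≤ (r ^ 2) • (‖E (x * star x)‖ • (star w * w)) :=
            smul_le_smul_of_nonneg_left hxt (by positivity)
        _ = (r * (r * ‖E (x * star x)‖)) • (star w * w) := by rw [smul_smul]; congr 1; ring
        _ ≤ (r * 1) • (star w * w) :=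
            smul_le_smul_of_nonneg_right (mul_le_mul_of_nonneg_left hrt hr) hww
        _ = r • (star w * w) := by rw [mul_one]
    have h3 : 0 ≤ E (y * star y) - (2 * r) • (star w * w) + r • (star w * w) :=
      h0.trans (by gcongr)
    rw [two_mul, add_smul] at h3
    have h4 : E (y * star y) - (r • (star w * w) + r • (star w * w)) + r • (star w * w)
        = E (y * star y) - r • (star w * w) := by abel
    rw [h4, sub_nonneg] at h3
    exact h3
  have h5 : ‖r • (star w * w)‖ ≤ ‖E (y * star y)‖ :=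
    CStarAlgebra.norm_le_norm_of_nonneg_of_le (smul_nonneg hr hww) h1
  rwa [norm_smul, CStarRing.norm_star_mul_self, Real.norm_of_nonneg hr, ← pow_two] at h5

theorem window_aux_cs {E : B →L[ℂ] A} (hE : IsEx α ι U E) (x y : B) :
    ‖E (x * star y)‖ ^ 2 ≤ ‖E (x * star x)‖ * ‖E (y * star y)‖ := by
  rcases (norm_nonneg (E (x * star x))).eq_or_lt with h | h
  · rw [← h, zero_mul]
    by_contra hcon
    push Not at hcon
    have := window_aux_cs1 hE x y ((‖E (y * star y)‖ + 1) / ‖E (x * star y)‖ ^ 2)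
      (by positivity) (by rw [← h]; simp)
    rw [div_mul_cancel₀ _ hcon.ne'] at this
    linarith
  · have := window_aux_cs1 hE x y (‖E (x * star x)‖)⁻¹ (by positivity)
      (by rw [inv_mul_cancel₀ h.ne'])
    rwa [inv_mul_le_iff₀ h] at this

theorem window_aux_D {E : B →L[ℂ] A} (hE : IsEx α ι U E) (x D : B) :
    ‖E ((x * D) * star (x * D))‖ ≤ ‖D‖ ^ 2 * ‖E (x * star x)‖ := by
  have h1 : (x * D) * star (x * D) ≤ (‖D‖ ^ 2) • (x * star x) := by
    have hD : D * star D ≤ algebraMap ℝ B (‖D‖ ^ 2) := by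
      have := IsSelfAdjoint.le_algebraMap_norm_self (a := D * star D) (IsSelfAdjoint.mul_star_self D)
      rwa [CStarRing.norm_self_mul_star, ← pow_two] at this
    have := star_right_conjugate_le_conjugate hD x
    refine le_trans (le_of_eq ?_) (this.trans (le_of_eq ?_))
    · rw [star_mul]; noncomm_ring
    · rw [Algebra.algebraMap_eq_smul_one, mul_smul_comm, smul_mul_assoc, mul_one]
  have h2 := window_aux_mono hE h1
  have h3 : E ((‖D‖ ^ 2) • (x * star x)) = (‖D‖ ^ 2) • E (x * star x) := by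
    rw [← Complex.coe_smul, map_smul, Complex.coe_smul]
  rw [h3] at h2
  have h4 := CStarAlgebra.norm_le_norm_of_nonneg_of_le
    (window_aux_nonneg hE (mul_star_self_nonneg _)) h2
  rwa [norm_smul, Real.norm_of_nonneg (by positivity)] at h4

theorem window_aux_xDz {E : B →L[ℂ] A} (hE : IsEx α ι U E) (x D z : B) (a b : ℝ) (ha : 0 ≤ a)
    (hb : 0 ≤ b) (hx : ‖E (x * star x)‖ ≤ a ^ 2) (hz : ‖E (z * star z)‖ ≤ b ^ 2) :
    ‖E (x * D * star z)‖ ≤ ‖D‖ * a * b := by
  have h1 := window_aux_cs hE (x * D) z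
  have h2 := window_aux_D hE x D
  refine abs_le_of_sq_le_sq' ?_ (by positivity) |>.2
  calc ‖E (x * D * star z)‖ ^ 2 ≤ ‖E ((x * D) * star (x * D))‖ * ‖E (z * star z)‖ := h1
    _ ≤ (‖D‖ ^ 2 * a ^ 2) * b ^ 2 := by
        have : ‖E ((x * D) * star (x * D))‖ ≤ ‖D‖ ^ 2 * a ^ 2 :=
          h2.trans (by gcongr)
        gcongr
    _ = (‖D‖ * a * b) ^ 2 := by ring

/-- The row vector operator. -/
theorem window_aux_row {E : B →L[ℂ] A} (hE : IsEx α ι U E) (p : ℕ) (v : Fin p → A) :
    E ((∑ s, ι (v s) * upw U (-((s : ℕ) : ℤ))) * star (∑ s, ι (v s) * upw U (-((s : ℕ) : ℤ)))) =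
      ∑ s, v s * star (v s) := by
  rw [star_sum, Finset.sum_mul_sum, map_sum]
  refine Finset.sum_congr rfl fun s _ => ?_
  rw [map_sum, Finset.sum_eq_single s]
  · rw [star_mul, ← map_star, upw_star, neg_neg]
    rw [show ι (v s) * upw U (-((s : ℕ) : ℤ)) * (upw U ((s : ℕ) : ℤ) * ι (star (v s))) =
      ι (v s) * (upw U (-((s : ℕ) : ℤ)) * upw U ((s : ℕ) : ℤ)) * ι (star (v s)) by noncomm_ring,
      ← upw_add, hE.mul_ι, hE.ι_mul, hE.pw]
    simp
  · intro t _ hts
    rw [star_mul, ← map_star, upw_star, neg_neg]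
    rw [show ι (v s) * upw U (-((s : ℕ) : ℤ)) * (upw U ((t : ℕ) : ℤ) * ι (star (v t))) =
      ι (v s) * (upw U (-((s : ℕ) : ℤ)) * upw U ((t : ℕ) : ℤ)) * ι (star (v t)) by noncomm_ring,
      ← upw_add, hE.mul_ι, hE.ι_mul, hE.pw]
    have : (-((s : ℕ) : ℤ)) + ((t : ℕ) : ℤ) ≠ 0 := by
      intro h0
      apply hts
      apply Fin.ext
      omega
    rw [if_neg this]
    simp
  · simp

end window_aux

attribute [local instance] CStarAlgebra.spectralOrder CStarAlgebra.spectralOrderedRing in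
open scoped InnerProductSpace in
theorem window_aux_norm {E : B →L[ℂ] A} (hE : IsEx α ι U E) (p : ℕ)
    (D : Fin 2 → Fin 2 → B) (hD : ∀ i j, ‖D i j‖ ≤ 1 / 16) :
    ‖(CStarMatrix.ofMatrix (Matrix.of fun x y : Fin 2 × Fin p =>
        E (upw U (-((x.2 : ℕ) : ℤ)) * D x.1 y.1 * upw U ((y.2 : ℕ) : ℤ))) :
          CStarMatrix (Fin 2 × Fin p) (Fin 2 × Fin p) A)‖ ≤ ((1 / 4 : NNReal) : ℝ) := by
  apply CStarMatrix.norm_le_of_forall_inner_le
  intro v w
  set R : (Fin 2 × Fin p → A) → Fin 2 → B :=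
    fun v i => ∑ s, ι (v (i, s)) * upw U (-((s : ℕ) : ℤ)) with hR
  have key : ⟪w, CStarMatrix.toCLM (CStarMatrix.ofMatrix (Matrix.of fun x y : Fin 2 × Fin p =>
        E (upw U (-((x.2 : ℕ) : ℤ)) * D x.1 y.1 * upw U ((y.2 : ℕ) : ℤ)))) v⟫_A =
      ∑ i, ∑ j, E (R v i * D i j * star (R w j)) := by
    rw [CStarMatrix.toCLM_apply_eq_sum, WithCStarModule.pi_inner]
    simp only [WithCStarModule.equiv_symm_pi_apply, WithCStarModule.inner_def, Finset.sum_mul]
    rw [Finset.sum_comm]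
    rw [Fintype.sum_prod_type]
    refine Finset.sum_congr rfl fun i _ => ?_
    rw [Finset.sum_comm, Fintype.sum_prod_type]
    refine Finset.sum_congr rfl fun j _ => ?_
    rw [hR]
    simp only [star_sum, Finset.sum_mul, Finset.mul_sum, map_sum]
    refine Finset.sum_congr rfl fun t _ => ?_
    refine Finset.sum_congr rfl fun s _ => ?_
    rw [star_mul, ← map_star, upw_star, neg_neg]
    rw [show ι (v (i, s)) * upw U (-((s : ℕ) : ℤ)) * D i j * (upw U ((t : ℕ) : ℤ) * ι (star (w (j, t))))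
      = ι (v (i, s)) * (upw U (-((s : ℕ) : ℤ)) * D i j * upw U ((t : ℕ) : ℤ)) * ι (star (w (j, t)))
      by noncomm_ring, hE.mul_ι, hE.ι_mul]
    rfl
  have hRv : ∀ (v : WithCStarModule A (Fin 2 × Fin p → A)) (i : Fin 2),
      ‖E (R v i * star (R v i))‖ ≤ ‖v‖ ^ 2 := by
    intro v i
    rw [hR]
    simp only
    rw [window_aux_row hE p (fun s => v (i, s)), WithCStarModule.pi_norm_sq]
    simp only [WithCStarModule.inner_def]
    rw [Fintype.sum_prod_type]
    apply CStarAlgebra.norm_le_norm_of_nonneg_of_le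
    · exact Finset.sum_nonneg fun s _ => mul_star_self_nonneg _
    · exact Finset.single_le_sum (f := fun i => ∑ s, v (i, s) * star (v (i, s)))
        (fun j _ => Finset.sum_nonneg fun s _ => mul_star_self_nonneg _) (Finset.mem_univ i)
  rw [key]
  have hb : ∀ i j, ‖E (R v i * D i j * star (R w j))‖ ≤ 1 / 16 * ‖v‖ * ‖w‖ := fun i j =>
    (window_aux_xDz hE _ _ _ ‖v‖ ‖w‖ (norm_nonneg _) (norm_nonneg _) (hRv v i) (hRv w j)).trans
      (by gcongr; exact hD i j)
  simp only [Fin.sum_univ_two]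
  have h00 := hb 0 0
  have h01 := hb 0 1
  have h10 := hb 1 0
  have h11 := hb 1 1
  refine (norm_add_le _ _).trans ?_
  refine (add_le_add (norm_add_le _ _) (norm_add_le _ _)).trans ?_
  have h4 : (((1 / 4 : NNReal) : ℝ)) = 1 / 4 := by simp
  rw [h4]
  linarith

attribute [local instance] CStarAlgebra.spectralOrder CStarAlgebra.spectralOrderedRing in
/-- Window compressions of small elements are small: `1 +` such a compression has a right inverse. -/
theorem CP.window_inv (h : CP α ι U) {E : B →L[ℂ] A} (hE : IsEx α ι U E) (p : ℕ)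
    (D : Fin 2 → Fin 2 → B) (hD : ∀ i j, ‖D i j‖ ≤ 1 / 16) :
    ∃ N : Matrix (Fin 2 × Fin p) (Fin 2 × Fin p) A,
      (1 + Matrix.of fun x y : Fin 2 × Fin p =>
        E (upw U (-((x.2 : ℕ) : ℤ)) * D x.1 y.1 * upw U ((y.2 : ℕ) : ℤ))) * N = 1 := by
  have hn := window_aux_norm hE p D hD
  set M : CStarMatrix (Fin 2 × Fin p) (Fin 2 × Fin p) A :=
    CStarMatrix.ofMatrix (Matrix.of fun x y : Fin 2 × Fin p =>
        E (upw U (-((x.2 : ℕ) : ℤ)) * D x.1 y.1 * upw U ((y.2 : ℕ) : ℤ))) with hM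
  have hlt : ‖-M‖ < 1 := by
    rw [norm_neg]
    refine hn.trans_lt ?_
    have h4 : (((1 / 4 : NNReal) : ℝ)) = 1 / 4 := by simp
    rw [h4]
    norm_num
  obtain ⟨u, hu⟩ := isUnit_one_sub_of_norm_lt_one hlt
  refine ⟨CStarMatrix.ofMatrix.symm (↑u⁻¹ : CStarMatrix (Fin 2 × Fin p) (Fin 2 × Fin p) A), ?_⟩
  have := u.mul_inv
  rw [hu, sub_neg_eq_add] at this
  exact this

end Pool.Agent.MPb9c6dd
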