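import Pool.Agent.Lib.MP_b9c6dd_an.CvToep
import Pool.Agent.Lib.MP_b9c6dd_an.CvBd
import Pool.Agent.Lib.MP_b9c6dd_an.Window

set_option autoImplicit false

namespace Pool.Agent.MPb9c6dd

variable {A B κ : Type} [CStarAlgebra A] [CStarAlgebra B] {α : A ≃⋆ₐ[ℂ] A}
  {ι : A →⋆ₐ[ℂ] B} {U : unitary B} [Fintype κ] [DecidableEq κ]

omit [DecidableEq κ] in
attribute [local instance] CStarAlgebra.spectralOrder CStarAlgebra.spectralOrderedRing in
open scoped InnerProductSpace in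
theorem cvToepBd_norm {E : B →L[ℂ] A} (hE : IsEx α ι U E) (p : ℕ)
    (D : Matrix κ κ B) (C : NNReal) (hC : ∑ i, ∑ j, ‖D i j‖ ≤ (C : ℝ)) :
    ‖(CStarMatrix.ofMatrix (Matrix.of fun x y : κ × Fin p =>
        E (upw U (-((x.2 : ℕ) : ℤ)) * D x.1 y.1 * upw U ((y.2 : ℕ) : ℤ))) :
          CStarMatrix (κ × Fin p) (κ × Fin p) A)‖ ≤ (C : ℝ) := by
  apply CStarMatrix.norm_le_of_forall_inner_le
  intro v w
  set R : (κ × Fin p → A) → κ → B :=
    fun v i => ∑ s, ι (v (i, s)) * upw U (-((s : ℕ) : ℤ)) with hR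
  have key : ⟪w, CStarMatrix.toCLM (CStarMatrix.ofMatrix (Matrix.of fun x y : κ × Fin p =>
        E (upw U (-((x.2 : ℕ) : ℤ)) * D x.1 y.1 * upw U ((y.2 : ℕ) : ℤ)))) v⟫_A =
      ∑ i, ∑ j, E (R v i * D i j * star (R w j)) := by
    rw [CStarMatrix.toCLM_apply_eq_sum, WithCStarModule.pi_inner]
    simp only [WithCStarModule.equiv_symm_pi_apply, WithCStarModule.inner_def, Finset.sum_mul]
    rw [Finset.sum_comm]
    rw [Fintype.sum_prod_type]
    refine Finset.sum_congr rfl fun i _ => ?_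
    rw [Finset.sum_comm, Fintype.sum_prod_type]
    refine Finset.sum_congr rfl fun j _ => ?_
    rw [hR]
    simp only [star_sum, Finset.sum_mul, Finset.mul_sum, map_sum]
    refine Finset.sum_congr rfl fun t _ => ?_
    refine Finset.sum_congr rfl fun s _ => ?_
    rw [star_mul, ← map_star, upw_star, neg_neg]
    rw [show ι (v (i, s)) * upw U (-((s : ℕ) : ℤ)) * D i j * (upw U ((t : ℕ) : ℤ) * ι (star (w (j, t))))
      = ι (v (i, s)) * (upw U (-((s : ℕ) : ℤ)) * D i j * upw U ((t : ℕ) : ℤ)) * ι (star (w (j, t)))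
      by noncomm_ring, hE.mul_ι, hE.ι_mul]
    rfl
  have hRv : ∀ (v : WithCStarModule A (κ × Fin p → A)) (i : κ),
      ‖E (R v i * star (R v i))‖ ≤ ‖v‖ ^ 2 := by
    intro v i
    rw [hR]
    simp only
    rw [window_aux_row hE p (fun s => v (i, s)), WithCStarModule.pi_norm_sq]
    simp only [WithCStarModule.inner_def]
    rw [Fintype.sum_prod_type]
    apply CStarAlgebra.norm_le_norm_of_nonneg_of_le
    · exact Finset.sum_nonneg fun s _ => mul_star_self_nonneg _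
    · exact Finset.single_le_sum (f := fun i => ∑ s, v (i, s) * star (v (i, s)))
        (fun j _ => Finset.sum_nonneg fun s _ => mul_star_self_nonneg _) (Finset.mem_univ i)
  rw [key]
  have hb : ∀ i j, ‖E (R v i * D i j * star (R w j))‖ ≤ ‖D i j‖ * ‖v‖ * ‖w‖ := fun i j =>
    window_aux_xDz hE _ _ _ ‖v‖ ‖w‖ (norm_nonneg _) (norm_nonneg _) (hRv v i) (hRv w j)
  calc ‖∑ i, ∑ j, E (R v i * D i j * star (R w j))‖
      ≤ ∑ i, ∑ j, ‖D i j‖ * ‖v‖ * ‖w‖ := by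
        refine (norm_sum_le _ _).trans (Finset.sum_le_sum fun i _ => ?_)
        exact (norm_sum_le _ _).trans (Finset.sum_le_sum fun j _ => hb i j)
    _ = (∑ i, ∑ j, ‖D i j‖) * ‖v‖ * ‖w‖ := by
        simp only [Finset.sum_mul]
    _ ≤ (C : ℝ) * ‖v‖ * ‖w‖ := by gcongr

/-- Toeplitz operators are bounded by their symbol. -/
theorem CP.TT_bd (h : CP α ι U) {E : B →L[ℂ] A} (hE : IsEx α ι U E) {b : Matrix κ κ B}
    (hb : IsPlM ι U b) : Bd (∑ i, ∑ j, ‖b i j‖) (TT U E b) := by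
  intro n
  have h0 : (0 : ℝ) ≤ ∑ i, ∑ j, ‖b i j‖ :=
    Finset.sum_nonneg fun i _ => Finset.sum_nonneg fun j _ => norm_nonneg _
  have hm : (Matrix.of fun i j : κ × Fin n =>
      cf (TT U E b) (i.1, (i.2 : ℕ)) (j.1, (j.2 : ℕ))) =
      Matrix.of fun x y : κ × Fin n =>
        E (upw U (-((x.2 : ℕ) : ℤ)) * b x.1 y.1 * upw U ((y.2 : ℕ) : ℤ)) := by
    ext i j
    rw [Matrix.of_apply, Matrix.of_apply, h.cf_TT hE hb]
  rw [hm]
  exact cvToepBd_norm hE n b ⟨_, h0⟩ le_rfl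

end Pool.Agent.MPb9c6dd
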