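import Pool.Agent.Lib.MP_b9c6dd_an.CvToepMul
import Pool.Agent.Lib.MP_b9c6dd_an.CvToepBd

set_option autoImplicit false

namespace Pool.Agent.MPb9c6dd

variable {A B κ : Type} [CStarAlgebra A] [CStarAlgebra B] {α : A ≃⋆ₐ[ℂ] A}
  {ι : A →⋆ₐ[ℂ] B} {U : unitary B} [Fintype κ] [DecidableEq κ]

private theorem cvLift_mul_apply {R : Type} [Ring R] (M : Matrix κ κ R) (i j : κ) (b : R)
    (a k : κ) :
    (M * (1 + Matrix.single i j b)) a k = M a k + if k = j then M a i * b else 0 := by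
  rw [mul_add, mul_one, Matrix.add_apply]
  congr 1
  by_cases hk : k = j
  · subst hk
    rw [if_pos rfl, Matrix.mul_single_apply_same]
  · rw [if_neg hk, Matrix.mul_single_apply_of_ne]
    exact hk

private theorem cvLift_ring {R : Type} [Ring R] (T : R) (hT : T * T = 0) :
    (1 + T) * (1 - T) = 1 ∧ (1 - T) * (1 + T) = 1 := by
  constructor
  · rw [mul_sub, add_mul, add_mul, hT]
    simp
  · rw [mul_add, sub_mul, sub_mul, hT]
    simp

private theorem cvLift_ring2 {R : Type} [Ring R] (X M S Y : R) :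
    X * S - Y = (X - M) * S + -(Y - M * S) := by
  rw [sub_mul]
  abel

private theorem cvLift_sum_single (i j : κ) (b : B) :
    ∑ a, ∑ c, ‖(Matrix.single i j b : Matrix κ κ B) a c‖ = ‖b‖ := by
  rw [Finset.sum_eq_single i, Finset.sum_eq_single j]
  · rw [Matrix.single_apply_same]
  · intro c _ hc
    rw [Matrix.single_apply_of_ne, norm_zero]
    exact fun h => hc h.2.symm
  · intro h
    exact absurd (Finset.mem_univ _) h
  · intro a _ ha
    refine Finset.sum_eq_zero fun c _ => ?_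
    rw [Matrix.single_apply_of_ne, norm_zero]
    exact fun h => ha h.1.symm
  · intro h
    exact absurd (Finset.mem_univ _) h

private theorem cvLift_approx (M M' : Matrix κ κ B) (i j : κ) (b b' : B) (ε ε₁ η : ℝ)
    (hε₁ : 0 < ε₁) (hη : 0 < η) (h1 : ε₁ * (‖b‖ + 2) ≤ ε / 2)
    (h2 : (∑ a, ‖M a i‖) * η ≤ ε / 2) (hη1 : η ≤ 1) (hb : ‖b - b'‖ ≤ η)
    (hM : ∀ a k, ‖M a k - M' a k‖ ≤ ε₁) (a k : κ) :
    ‖(M * (1 + Matrix.single i j b)) a k - (M' * (1 + Matrix.single i j b')) a k‖ ≤ ε := by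
  have hb' : ‖b'‖ ≤ ‖b‖ + 1 := by
    have h3 : b' = b - (b - b') := by abel
    calc ‖b'‖ = ‖b - (b - b')‖ := by rw [← h3]
      _ ≤ ‖b‖ + ‖b - b'‖ := norm_sub_le _ _
      _ ≤ ‖b‖ + 1 := by linarith
  have hS : 0 ≤ ∑ a, ‖M a i‖ := Finset.sum_nonneg fun a _ => norm_nonneg _
  have hSη : 0 ≤ (∑ a, ‖M a i‖) * η := mul_nonneg hS hη.le
  have hMa : ‖M a i‖ ≤ ∑ a, ‖M a i‖ :=
    Finset.single_le_sum (f := fun a => ‖M a i‖) (fun a _ => norm_nonneg _) (Finset.mem_univ a)
  have hbn := norm_nonneg b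
  rw [cvLift_mul_apply, cvLift_mul_apply]
  by_cases hk : k = j
  · rw [if_pos hk, if_pos hk]
    have h3 : M a k + M a i * b - (M' a k + M' a i * b') =
        (M a k - M' a k) + (M a i - M' a i) * b' + M a i * (b - b') := by
      rw [sub_mul, mul_sub]
      abel
    rw [h3]
    have h4 : ‖(M a i - M' a i) * b'‖ ≤ ε₁ * (‖b‖ + 1) :=
      (norm_mul_le _ _).trans (mul_le_mul (hM a i) hb' (norm_nonneg _) hε₁.le)
    have h5 : ‖M a i * (b - b')‖ ≤ (∑ a, ‖M a i‖) * η :=
      (norm_mul_le _ _).trans (mul_le_mul hMa hb (norm_nonneg _) hS)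
    calc ‖(M a k - M' a k) + (M a i - M' a i) * b' + M a i * (b - b')‖
        ≤ ‖(M a k - M' a k) + (M a i - M' a i) * b'‖ + ‖M a i * (b - b')‖ := norm_add_le _ _
      _ ≤ (‖M a k - M' a k‖ + ‖(M a i - M' a i) * b'‖) + ‖M a i * (b - b')‖ := by
          gcongr
          exact norm_add_le _ _
      _ ≤ (ε₁ + ε₁ * (‖b‖ + 1)) + (∑ a, ‖M a i‖) * η := by
          gcongr
          exact hM a k
      _ = ε₁ * (‖b‖ + 2) + (∑ a, ‖M a i‖) * η := by ring
      _ ≤ ε := by linarith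
  · rw [if_neg hk, if_neg hk, add_zero, add_zero]
    refine (hM a k).trans ?_
    nlinarith

/-- Products of elementary matrices are approximated by symbols of invertible Toeplitz operators,
modulo finite matrices. -/
theorem CP.lift_El (h : CP α ι U) {E : B →L[ℂ] A} (hE : IsEx α ι U E) {e : Matrix κ κ B}
    (he : El e) :
    ∃ C : ℝ, ∀ ε : ℝ, 0 < ε → ∃ (e' : Matrix κ κ B) (X X' : EE κ A) (K : ℕ), IsPlM ι U e' ∧
      (∀ i j, ‖e i j - e' i j‖ ≤ ε) ∧ Band K X ∧ Band K X' ∧ Bd C X ∧ Bd C X' ∧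
      X * X' = 1 ∧ X' * X = 1 ∧ IsFin K (X - TT U E e') := by
  induction he with
  | one =>
    refine ⟨1, fun ε hε => ⟨1, 1, 1, 0, isPlM_one, fun i j => ?_, Band.one, Band.one, Bd.one,
      Bd.one, one_mul 1, one_mul 1, ?_⟩⟩
    · rw [sub_self, norm_zero]
      exact hε.le
    · rw [h.TT_one hE]
      intro i j hij
      rw [cf_sub, sub_self] at hij
      exact absurd rfl hij
  | step M i j hij b hM ih =>
    obtain ⟨C, hC⟩ := ih
    have hC0 : 0 ≤ C := by
      obtain ⟨_, _, _, _, _, _, _, _, hbd, _⟩ := hC 1 one_pos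
      exact hbd.nonneg
    refine ⟨C * (1 + (‖b‖ + 1)), fun ε hε => ?_⟩
    have hbn := norm_nonneg b
    have hS : 0 ≤ ∑ a, ‖M a i‖ := Finset.sum_nonneg fun a _ => norm_nonneg _
    have hε1 : 0 < ε / (2 * (‖b‖ + 2)) := by positivity
    have hη : 0 < min 1 (ε / (2 * ((∑ a, ‖M a i‖) + 1))) :=
      lt_min one_pos (by positivity)
    have hη1 : min 1 (ε / (2 * ((∑ a, ‖M a i‖) + 1))) ≤ 1 := min_le_left _ _
    have hη2 : min 1 (ε / (2 * ((∑ a, ‖M a i‖) + 1))) ≤ ε / (2 * ((∑ a, ‖M a i‖) + 1)) :=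
      min_le_right _ _
    generalize min 1 (ε / (2 * ((∑ a, ‖M a i‖) + 1))) = η at hη hη1 hη2
    obtain ⟨M', X0, X0', K0, hpl, happ, hb0, hb0', hbd0, hbd0', h10, h01, hfin⟩ := hC _ hε1
    obtain ⟨b', hb'pl, hbb'⟩ := h.isPl_dense b η hη
    have hb' : ‖b'‖ ≤ ‖b‖ + 1 := by
      have h3 : b' = b - (b - b') := by abel
      calc ‖b'‖ = ‖b - (b - b')‖ := by rw [← h3]
        _ ≤ ‖b‖ + ‖b - b'‖ := norm_sub_le _ _
        _ ≤ ‖b‖ + 1 := by linarith
    have hspl : IsPlM ι U (Matrix.single i j b' : Matrix κ κ B) := isPlM_single i j hb'pl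
    obtain ⟨KT, hTB⟩ := h.TT_band hE hspl
    have hTT : TT U E (Matrix.single i j b') * TT U E (Matrix.single i j b') = 0 :=
      h.TT_single_sq hE hij hb'pl
    have hTbd : Bd (‖b‖ + 1) (TT U E (Matrix.single i j b')) := by
      have h1 := h.TT_bd hE hspl
      rw [cvLift_sum_single] at h1
      exact h1.mono hb'
    have hT1 : TT U E (1 + Matrix.single i j b') = 1 + TT U E (Matrix.single i j b') := by
      rw [h.TT_add hE isPlM_one hspl, h.TT_one hE]
    obtain ⟨K1, hK1, -⟩ := h.TT_mul hE hpl (isPlM_add isPlM_one hspl)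
    have hB1 : Band KT (1 + TT U E (Matrix.single i j b')) :=
      (Band.one.mono (Nat.zero_le _)).add hTB
    have hB2 : Band KT (1 - TT U E (Matrix.single i j b')) :=
      (Band.one.mono (Nat.zero_le _)).sub hTB
    refine ⟨M' * (1 + Matrix.single i j b'), X0 * (1 + TT U E (Matrix.single i j b')),
      (1 - TT U E (Matrix.single i j b')) * X0', K0 + KT + K1,
      h.isPlM_mul hpl (isPlM_add isPlM_one hspl), ?_, ?_, ?_, ?_, ?_, ?_, ?_, ?_⟩
    · refine cvLift_approx M M' i j b b' ε _ η hε1 hη ?_ ?_ hη1 hbb'.le happ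
      · apply le_of_eq
        field_simp
      · calc (∑ a, ‖M a i‖) * η ≤ ((∑ a, ‖M a i‖) + 1) * (ε / (2 * ((∑ a, ‖M a i‖) + 1))) := by
              gcongr
              linarith
          _ = ε / 2 := by field_simp
    · exact (hb0.mul hB1).mono (by omega)
    · exact (hB2.mul hb0').mono (by omega)
    · exact hbd0.mul (Bd.one.add hTbd) hB1
    · rw [mul_comm C]
      exact (Bd.one.sub hTbd).mul hbd0' hb0'
    · have h3 : (1 + TT U E (Matrix.single i j b')) * (1 - TT U E (Matrix.single i j b')) = 1 :=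
        (cvLift_ring (R := EE κ A) (TT U E (Matrix.single i j b')) hTT).1
      rw [mul_assoc, ← mul_assoc (1 + TT U E (Matrix.single i j b')), h3, one_mul, h10]
    · have h3 : (1 - TT U E (Matrix.single i j b')) * (1 + TT U E (Matrix.single i j b')) = 1 :=
        (cvLift_ring (R := EE κ A) (TT U E (Matrix.single i j b')) hTT).2
      rw [mul_assoc, ← mul_assoc X0', h01, one_mul, h3]
    · have h3 : X0 * (1 + TT U E (Matrix.single i j b')) -
          TT U E (M' * (1 + Matrix.single i j b')) =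
          (X0 - TT U E M') * (1 + TT U E (Matrix.single i j b')) +
          -(TT U E (M' * (1 + Matrix.single i j b')) -
            TT U E M' * TT U E (1 + Matrix.single i j b')) := by
        rw [hT1]
        exact cvLift_ring2 (R := EE κ A) _ _ _ _
      rw [h3]
      exact ((hfin.mul_band hB1).mono (by omega)).add ((hK1.neg).mono (by omega))

end Pool.Agent.MPb9c6dd
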