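import Pool.Agent.Lib.MP_b9c6dd_an.CvDefs

set_option autoImplicit false

namespace Pool.Agent.MPb9c6dd

private theorem cvHer_unit {B : Type} [CStarAlgebra B] [Nontrivial B] (ρ : B) (h : ‖ρ‖ ≤ 1 / 2) :
    ∃ v : Bˣ, (v : B) = 1 + ρ ∧ ‖((v⁻¹ : Bˣ) : B)‖ ≤ 2 := by
  have hlt : ‖-ρ‖ < 1 := by rw [norm_neg]; linarith
  have hu : IsUnit (1 + ρ) := by
    have := isUnit_one_sub_of_norm_lt_one hlt
    rwa [sub_neg_eq_add] at this
  obtain ⟨v, hv⟩ := hu
  refine ⟨v, hv, ?_⟩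
  have h1 : ((v⁻¹ : Bˣ) : B) = 1 - ((v⁻¹ : Bˣ) : B) * ρ := by
    have h2 : ((v⁻¹ : Bˣ) : B) * (1 + ρ) = 1 := by rw [← hv]; exact v.inv_mul
    rw [mul_add, mul_one] at h2
    exact eq_sub_of_add_eq h2
  have h3 : ‖((v⁻¹ : Bˣ) : B)‖ ≤ 1 + ‖((v⁻¹ : Bˣ) : B)‖ * (1 / 2) := by
    calc ‖((v⁻¹ : Bˣ) : B)‖ = ‖1 - ((v⁻¹ : Bˣ) : B) * ρ‖ := by rw [← h1]
      _ ≤ ‖(1 : B)‖ + ‖((v⁻¹ : Bˣ) : B) * ρ‖ := norm_sub_le _ _
      _ ≤ 1 + ‖((v⁻¹ : Bˣ) : B)‖ * (1 / 2) := by
          rw [CStarRing.norm_one]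
          have := (norm_mul_le ((v⁻¹ : Bˣ) : B) ρ).trans
            (mul_le_mul_of_nonneg_left h (norm_nonneg _))
          linarith
  linarith

private theorem cvHer_cont {δ : ℝ} (hδ : 0 < δ) : Continuous fun s : ℝ => (|s| + δ)⁻¹ := by
  refine Continuous.inv₀ (by fun_prop) fun s => ?_
  have := abs_nonneg s
  linarith

private theorem cvHer_cut {B : Type} [CStarAlgebra B] (y : B) (hy : IsPos y) (δ : ℝ)
    (hδ : 0 < δ) : ∃ e g : B, e = y * g ∧ e = g * y ∧ ‖e‖ ≤ 1 ∧ ‖1 - e‖ ≤ 1 ∧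
      ‖(1 - e) * y‖ ≤ δ ∧ ‖y * (1 - e)‖ ≤ δ := by
  obtain ⟨g0, hg0⟩ := hy
  have hsa : IsSelfAdjoint y := by
    rw [hg0]
    exact IsSelfAdjoint.star_mul_self g0
  have hsp : ∀ s ∈ spectrum ℝ y, 0 ≤ s := by
    let _ : PartialOrder B := CStarAlgebra.spectralOrder B
    have _ : StarOrderedRing B := CStarAlgebra.spectralOrderedRing B
    have hy' : 0 ≤ y := by
      rw [hg0]
      exact star_mul_self_nonneg g0
    intro s hs
    exact spectrum_nonneg_of_nonneg hy' hs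
  have cg := cvHer_cont hδ
  have ce : Continuous fun s : ℝ => s * (|s| + δ)⁻¹ := continuous_id.mul cg
  have ce' : Continuous fun s : ℝ => 1 - s * (|s| + δ)⁻¹ := continuous_const.sub ce
  set g : B := cfc (fun s : ℝ => (|s| + δ)⁻¹) y with hg
  set e : B := cfc (fun s : ℝ => s * (|s| + δ)⁻¹) y with he
  have e1 : e = y * g := by
    rw [he, cfc_mul (fun s : ℝ => s) (fun s : ℝ => (|s| + δ)⁻¹) y (by fun_prop) cg.continuousOn,
      cfc_id' ℝ y]
  have e2 : e = g * y := by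
    have : (fun s : ℝ => s * (|s| + δ)⁻¹) = fun s : ℝ => (|s| + δ)⁻¹ * s := by
      funext s
      exact mul_comm _ _
    rw [he, this, cfc_mul (fun s : ℝ => (|s| + δ)⁻¹) (fun s : ℝ => s) y cg.continuousOn
      (by fun_prop), cfc_id' ℝ y]
  have h1e : 1 - e = cfc (fun s : ℝ => 1 - s * (|s| + δ)⁻¹) y := by
    rw [cfc_sub (fun _ : ℝ => (1 : ℝ)) (fun s : ℝ => s * (|s| + δ)⁻¹) y (by fun_prop)
      ce.continuousOn, cfc_const_one ℝ y]
  have hval : ∀ s : ℝ, 0 ≤ s → s * (|s| + δ)⁻¹ = s / (s + δ) := by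
    intro s hs
    rw [abs_of_nonneg hs, div_eq_mul_inv]
  have b0 : ∀ s : ℝ, 0 ≤ s → 0 ≤ s / (s + δ) := fun s hs => by positivity
  have b1 : ∀ s : ℝ, 0 ≤ s → s / (s + δ) ≤ 1 := by
    intro s hs
    rw [div_le_one (by linarith)]
    linarith
  have e3 : (1 - e) * y = cfc (fun s : ℝ => (1 - s * (|s| + δ)⁻¹) * s) y := by
    rw [h1e, cfc_mul (fun s : ℝ => 1 - s * (|s| + δ)⁻¹) (fun s : ℝ => s) y ce'.continuousOn
      (by fun_prop), cfc_id' ℝ y]
  have e4 : y * (1 - e) = cfc (fun s : ℝ => s * (1 - s * (|s| + δ)⁻¹)) y := by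
    rw [h1e, cfc_mul (fun s : ℝ => s) (fun s : ℝ => 1 - s * (|s| + δ)⁻¹) y
      (by fun_prop) ce'.continuousOn, cfc_id' ℝ y]
  have b2 : ∀ s : ℝ, 0 ≤ s → 0 ≤ (1 - s / (s + δ)) * s ∧ (1 - s / (s + δ)) * s ≤ δ := by
    intro s hs
    have h3 : (1 - s / (s + δ)) * s = δ * (s / (s + δ)) := by
      have : s + δ ≠ 0 := by linarith
      field_simp
      ring
    constructor
    · have := b1 s hs
      exact mul_nonneg (by linarith) hs
    · rw [h3]
      have := mul_le_mul_of_nonneg_left (b1 s hs) hδ.le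
      linarith
  refine ⟨e, g, e1, e2, ?_, ?_, ?_, ?_⟩
  · refine norm_cfc_le zero_le_one fun s hs => ?_
    have h0 := hsp s hs
    rw [hval s h0, Real.norm_of_nonneg (b0 s h0)]
    exact b1 s h0
  · rw [h1e]
    refine norm_cfc_le zero_le_one fun s hs => ?_
    have h0 := hsp s hs
    have h1 := b0 s h0
    have h2 := b1 s h0
    rw [hval s h0, Real.norm_of_nonneg (by linarith)]
    linarith
  · rw [e3]
    refine norm_cfc_le hδ.le fun s hs => ?_
    have h0 := hsp s hs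
    have h1 := b2 s h0
    rw [hval s h0, Real.norm_of_nonneg h1.1]
    exact h1.2
  · rw [e4]
    refine norm_cfc_le hδ.le fun s hs => ?_
    have h0 := hsp s hs
    have h1 := b2 s h0
    rw [hval s h0, mul_comm, Real.norm_of_nonneg h1.1]
    exact h1.2

/-- `1 + yBy` has dense invertibles (of the form `1 + yky`) if `B` has dense invertibles. -/
theorem her_dense {B : Type} [CStarAlgebra B] (hB : Dense {x : B | IsUnit x}) (y : B)
    (hy : IsPos y) (b : B) (ε : ℝ) (hε : 0 < ε) :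
    ∃ k : B, IsUnit (1 + y * k * y) ∧ ‖y * k * y - y * b * y‖ < ε := by
  rcases subsingleton_or_nontrivial B with hs | hnt
  · refine ⟨0, ?_, ?_⟩
    · rw [Subsingleton.elim (1 + y * 0 * y) (1 : B)]
      exact isUnit_one
    · rw [Subsingleton.elim (y * 0 * y - y * b * y) (0 : B), norm_zero]
      exact hε
  set h0 : B := y * b * y with hh0
  set M : ℝ := ‖h0‖ + 1 with hM
  have hM1 : 1 ≤ M := by have := norm_nonneg h0; linarith
  have hM0 : 0 < M := by linarith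
  set η : ℝ := min (1 / (12 * M)) (ε / (32 * M ^ 2)) with hη
  have hη0 : 0 < η := lt_min (by positivity) (by positivity)
  have hη1 : η * M ≤ 1 / 12 := by
    have : η ≤ 1 / (12 * M) := min_le_left _ _
    have h1 := mul_le_mul_of_nonneg_right this hM0.le
    have h2 : 1 / (12 * M) * M = 1 / 12 := by field_simp
    linarith
  have hη2 : η * M ^ 2 * 32 ≤ ε := by
    have : η ≤ ε / (32 * M ^ 2) := min_le_right _ _
    have h1 := mul_le_mul_of_nonneg_right this (by positivity : 0 ≤ 32 * M ^ 2)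
    have h2 : ε / (32 * M ^ 2) * (32 * M ^ 2) = ε := by field_simp
    linarith
  have hηM : η ≤ η * M := le_mul_of_one_le_right hη0.le hM1
  have hηM2 : η * M ≤ η * M ^ 2 := by
    have := mul_le_mul_of_nonneg_left hM1 (mul_nonneg hη0.le hM0.le)
    calc η * M = η * M * 1 := by ring
      _ ≤ η * M * M := this
      _ = η * M ^ 2 := by ring
  set δ : ℝ := η / (‖b‖ * ‖y‖ + 1) with hδ
  have hδ0 : 0 < δ := by positivity
  have hδ1 : δ * (‖b‖ * ‖y‖) ≤ η := by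
    have h1 : δ * (‖b‖ * ‖y‖ + 1) = η := by
      rw [hδ]
      field_simp
    nlinarith [hδ0.le]
  obtain ⟨e, g, heg, hge, ne, ne1, nl, nr⟩ := cvHer_cut y hy δ hδ0
  have hl : ‖(1 - e) * h0‖ ≤ η := by
    have h1 : (1 - e) * h0 = (1 - e) * y * (b * y) := by rw [hh0]; noncomm_ring
    rw [h1]
    calc ‖(1 - e) * y * (b * y)‖ ≤ ‖(1 - e) * y‖ * ‖b * y‖ := norm_mul_le _ _
      _ ≤ δ * (‖b‖ * ‖y‖) := by
          exact mul_le_mul nl (norm_mul_le _ _) (norm_nonneg _) hδ0.le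
      _ ≤ η := hδ1
  have hr : ‖h0 * (1 - e)‖ ≤ η := by
    have h1 : h0 * (1 - e) = (y * b) * (y * (1 - e)) := by rw [hh0]; noncomm_ring
    rw [h1]
    calc ‖(y * b) * (y * (1 - e))‖ ≤ ‖y * b‖ * ‖y * (1 - e)‖ := norm_mul_le _ _
      _ ≤ (‖y‖ * ‖b‖) * δ := by
          exact mul_le_mul (norm_mul_le _ _) nr (norm_nonneg _) (by positivity)
      _ = δ * (‖b‖ * ‖y‖) := by ring
      _ ≤ η := hδ1
  obtain ⟨b1, hb1u, hb1⟩ := hB.exists_dist_lt (1 + h0) hη0
  obtain ⟨v1, hv1⟩ : IsUnit b1 := hb1u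
  set k : B := b1 - 1 with hk
  have hkh : ‖k - h0‖ ≤ η := by
    have : k - h0 = b1 - (1 + h0) := by rw [hk]; abel
    rw [this, ← dist_eq_norm, dist_comm]
    exact hb1.le
  have hkn : ‖k‖ ≤ M := by
    have h1 : k = (k - h0) + h0 := by abel
    have h2 := norm_add_le (k - h0) h0
    rw [← h1] at h2
    linarith
  set ρ : B := k * (1 - e) with hρ
  have hρn : ‖ρ‖ ≤ 2 * η := by
    have h1 : ρ = (k - h0) * (1 - e) + h0 * (1 - e) := by rw [hρ]; noncomm_ring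
    rw [h1]
    have h2 := norm_mul_le (k - h0) (1 - e)
    have h3 : ‖k - h0‖ * ‖1 - e‖ ≤ η * 1 := mul_le_mul hkh ne1 (norm_nonneg _) hη0.le
    have h4 := norm_add_le ((k - h0) * (1 - e)) (h0 * (1 - e))
    linarith
  obtain ⟨v, hv, hvn⟩ := cvHer_unit ρ (by linarith)
  set ui : B := ((v⁻¹ : Bˣ) : B) with hui
  have hui1 : ui * (1 + ρ) = 1 := by rw [← hv]; exact v.inv_mul
  set k1 : B := ui * k with hk1
  have hk1n : ‖k1‖ ≤ 2 * M := by
    have := norm_mul_le ui k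
    have h3 : ‖ui‖ * ‖k‖ ≤ 2 * M := mul_le_mul hvn hkn (norm_nonneg _) (by norm_num)
    linarith
  have hk1k : ‖k1 - k‖ ≤ 4 * (η * M) := by
    have h1 : k1 - k = -(ui * ρ * k) := by
      have h2 : ui = 1 - ui * ρ := by
        rw [mul_add, mul_one] at hui1
        exact eq_sub_of_add_eq hui1
      have h3 : k1 - k = (ui - 1) * k := by rw [hk1, sub_mul, one_mul]
      have h4 : ui - 1 = -(ui * ρ) := by
        calc ui - 1 = (1 - ui * ρ) - 1 := by rw [← h2]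
          _ = -(ui * ρ) := by abel
      rw [h3, h4, neg_mul]
    rw [h1, norm_neg]
    calc ‖ui * ρ * k‖ ≤ ‖ui‖ * ‖ρ‖ * ‖k‖ := (norm_mul_le _ _).trans
          (mul_le_mul_of_nonneg_right (norm_mul_le _ _) (norm_nonneg _))
      _ ≤ 2 * (2 * η) * M := by
          refine mul_le_mul (mul_le_mul hvn hρn (norm_nonneg _) (by norm_num)) hkn
            (norm_nonneg _) (by positivity)
      _ = 4 * (η * M) := by ring
  have hk1h : ‖k1 - h0‖ ≤ 5 * (η * M) := by
    have h1 : k1 - h0 = (k1 - k) + (k - h0) := by abel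
    rw [h1]
    have := norm_add_le (k1 - k) (k - h0)
    linarith
  set ρ' : B := (1 - e) * k1 * e with hρ'
  have hρ'n : ‖ρ'‖ ≤ 6 * (η * M) := by
    have h1 : ρ' = (1 - e) * (k1 - h0) * e + (1 - e) * h0 * e := by rw [hρ']; noncomm_ring
    rw [h1]
    have h2 : ‖(1 - e) * (k1 - h0) * e‖ ≤ 5 * (η * M) := by
      calc ‖(1 - e) * (k1 - h0) * e‖ ≤ ‖(1 - e)‖ * ‖k1 - h0‖ * ‖e‖ := (norm_mul_le _ _).trans
            (mul_le_mul_of_nonneg_right (norm_mul_le _ _) (norm_nonneg _))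
        _ ≤ 1 * (5 * (η * M)) * 1 := by
            refine mul_le_mul (mul_le_mul ne1 hk1h (norm_nonneg _) (by norm_num)) ne
              (norm_nonneg _) (by positivity)
        _ = 5 * (η * M) := by ring
    have h3 : ‖(1 - e) * h0 * e‖ ≤ η := by
      calc ‖(1 - e) * h0 * e‖ ≤ ‖(1 - e) * h0‖ * ‖e‖ := norm_mul_le _ _
        _ ≤ η * 1 := mul_le_mul hl ne (norm_nonneg _) hη0.le
        _ = η := mul_one _
    have h4 := norm_add_le ((1 - e) * (k1 - h0) * e) ((1 - e) * h0 * e)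
    linarith
  obtain ⟨v', hv', hvn'⟩ := cvHer_unit ρ' (by linarith)
  set ui' : B := ((v'⁻¹ : Bˣ) : B) with hui'
  have hui1' : ui' * (1 + ρ') = 1 := by rw [← hv']; exact v'.inv_mul
  have hui2' : (1 + ρ') * ui' = 1 := by rw [← hv']; exact v'.mul_inv
  have huiρ : ui' = 1 - ui' * ρ' := by
    rw [mul_add, mul_one] at hui1'
    exact eq_sub_of_add_eq hui1'
  set k2 : B := k1 - k1 * e * ui' * (1 - e) * k1 with hk2
  have hkey : e * k2 * e = e * k1 * e * ui' := by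
    have h1 : e * k1 * e * ui' = e * k1 * e * (1 - ui' * ρ') := by rw [← huiρ]
    rw [h1, hk2, hρ']
    noncomm_ring
  have hb2 : ui * b1 = 1 + k1 * e := by
    have h1 : b1 = (1 + ρ) + k * e := by rw [hρ, hk]; noncomm_ring
    calc ui * b1 = ui * ((1 + ρ) + k * e) := by rw [← h1]
      _ = ui * (1 + ρ) + ui * k * e := by rw [mul_add, mul_assoc ui k e]
      _ = 1 + k1 * e := by rw [hui1]
  have hb3 : ui * b1 * ui' = 1 + e * k2 * e := by
    have h1 : 1 + k1 * e = (1 + ρ') + e * k1 * e := by rw [hρ']; noncomm_ring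
    rw [hb2, h1, add_mul, hui2', hkey]
  have hyk : y * (g * k2 * g) * y = e * k2 * e := by
    calc y * (g * k2 * g) * y = (y * g) * k2 * (g * y) := by noncomm_ring
      _ = e * k2 * e := by rw [← heg, ← hge]
  refine ⟨g * k2 * g, ?_, ?_⟩
  · rw [hyk, ← hb3, ← hv1, hui, hui']
    exact ((v⁻¹ * v1 * v'⁻¹ : Bˣ)).isUnit
  · rw [hyk, hkey]
    have h1 : e * k1 * e * ui' - h0 = -(e * k1 * e * (ui' * ρ')) + (e * (k1 - h0) * e
        - (1 - e) * h0 * e - h0 * (1 - e)) := by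
      have h2 : e * k1 * e * ui' = e * k1 * e * (1 - ui' * ρ') := by rw [← huiρ]
      rw [h2]
      noncomm_ring
    rw [h1]
    have n1 : ‖-(e * k1 * e * (ui' * ρ'))‖ ≤ 24 * (η * M ^ 2) := by
      rw [norm_neg]
      calc ‖e * k1 * e * (ui' * ρ')‖ ≤ ‖e * k1 * e‖ * ‖ui' * ρ'‖ := norm_mul_le _ _
        _ ≤ (‖e‖ * ‖k1‖ * ‖e‖) * (‖ui'‖ * ‖ρ'‖) := by
            refine mul_le_mul ((norm_mul_le _ _).trans
              (mul_le_mul_of_nonneg_right (norm_mul_le _ _) (norm_nonneg _)))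
              (norm_mul_le _ _) (norm_nonneg _) (by positivity)
        _ ≤ (1 * (2 * M) * 1) * (2 * (6 * (η * M))) := by
            refine mul_le_mul (mul_le_mul (mul_le_mul ne hk1n (norm_nonneg _) (by norm_num)) ne
              (norm_nonneg _) (by positivity)) (mul_le_mul hvn' hρ'n (norm_nonneg _)
              (by norm_num)) (by positivity) (by positivity)
        _ = 24 * (η * M ^ 2) := by ring
    have n2 : ‖e * (k1 - h0) * e‖ ≤ 5 * (η * M) := by
      calc ‖e * (k1 - h0) * e‖ ≤ ‖e‖ * ‖k1 - h0‖ * ‖e‖ := (norm_mul_le _ _).trans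
            (mul_le_mul_of_nonneg_right (norm_mul_le _ _) (norm_nonneg _))
        _ ≤ 1 * (5 * (η * M)) * 1 := by
            refine mul_le_mul (mul_le_mul ne hk1h (norm_nonneg _) (by norm_num)) ne
              (norm_nonneg _) (by positivity)
        _ = 5 * (η * M) := by ring
    have n3 : ‖(1 - e) * h0 * e‖ ≤ η := by
      calc ‖(1 - e) * h0 * e‖ ≤ ‖(1 - e) * h0‖ * ‖e‖ := norm_mul_le _ _
        _ ≤ η * 1 := mul_le_mul hl ne (norm_nonneg _) hη0.le
        _ = η := mul_one _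
    have n4 := norm_add_le (-(e * k1 * e * (ui' * ρ'))) (e * (k1 - h0) * e
        - (1 - e) * h0 * e - h0 * (1 - e))
    have n5 := norm_sub_le (e * (k1 - h0) * e - (1 - e) * h0 * e) (h0 * (1 - e))
    have n6 := norm_sub_le (e * (k1 - h0) * e) ((1 - e) * h0 * e)
    have n7 : 0 < η * M ^ 2 := by positivity
    linarith

end Pool.Agent.MPb9c6dd
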