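import Pool.Agent.Lib.MP_b9c6dd_an.CvGL
import Pool.Agent.Lib.MP_b9c6dd_an.CvHer

set_option autoImplicit false

namespace Pool.Agent.MPb9c6dd

private theorem CvVas_span {R : Type} [Ring R] [IsSimpleRing R] (z : R) (hz : z ≠ 0) :
    ∃ (M : ℕ) (a b : ℕ → R), ∑ j ∈ Finset.range M, a j * z * b j = 1 := by
  have h1 : (1 : R) ∈ TwoSidedIdeal.span {z} :=
    IsSimpleRing.one_mem_of_ne_zero_mem _ hz (TwoSidedIdeal.subset_span rfl)
  rw [TwoSidedIdeal.mem_span_iff_mem_addSubgroup_closure] at h1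
  refine AddSubgroup.closure_induction
    (p := fun x _ => ∃ (M : ℕ) (a b : ℕ → R), ∑ j ∈ Finset.range M, a j * z * b j = x)
    ?_ ?_ ?_ ?_ h1
  · rintro x ⟨_, ⟨a, _, w, hw, rfl⟩, b, _, rfl⟩
    rw [Set.mem_singleton_iff] at hw
    refine ⟨1, fun _ => a, fun _ => b, ?_⟩
    simp [hw]
  · exact ⟨0, fun _ => 0, fun _ => 0, by simp⟩
  · rintro x y _ _ ⟨M, a, b, hx⟩ ⟨M', a', b', hy⟩
    refine ⟨M + M', fun j => if j < M then a j else a' (j - M),
      fun j => if j < M then b j else b' (j - M), ?_⟩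
    rw [Finset.sum_range_add, ← hx, ← hy]
    congr 1
    · apply Finset.sum_congr rfl
      intro j hj
      rw [Finset.mem_range] at hj
      simp only [if_pos hj]
    · apply Finset.sum_congr rfl
      intro j _
      have e1 : ¬ (M + j < M) := by omega
      simp only [if_neg e1, Nat.add_sub_cancel_left]
  · rintro x _ ⟨M, a, b, hx⟩
    refine ⟨M, fun j => -a j, b, ?_⟩
    rw [← hx, ← Finset.sum_neg_distrib]
    apply Finset.sum_congr rfl
    intro j _
    simp only [neg_mul]

/-- enlarge the sum to a nonempty index type -/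
private theorem CvVas_span' {R : Type} [Ring R] [IsSimpleRing R] (z : R) (hz : z ≠ 0) :
    ∃ (m : ℕ) (a b : Fin (m + 1) → R), ∑ j, a j * z * b j = 1 := by
  obtain ⟨M, a, b, h⟩ := CvVas_span z hz
  refine ⟨M, fun j => if (j : ℕ) < M then a j else 0, fun j => b j, ?_⟩
  rw [Fin.sum_univ_castSucc]
  simp only [Fin.val_last, lt_irrefl, if_false, zero_mul, add_zero]
  rw [← h, ← Fin.sum_univ_eq_sum_range (fun j => a j * z * b j) M]
  apply Finset.sum_congr rfl
  intro j _
  simp

private theorem CvVas_block {B ι : Type} [Ring B] [Fintype ι] [DecidableEq ι]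
    (X : Matrix Unit ι B) (V : Matrix ι Unit B) (W : Matrix ι ι B) (hW : W = 1 + V * X) :
    Matrix.fromBlocks (1 : Matrix Unit Unit B) X 0 (1 : Matrix ι ι B) *
      Matrix.fromBlocks 1 0 V 1 * Matrix.fromBlocks 1 0 0 W *
      Matrix.fromBlocks 1 (-X) 0 1 * Matrix.fromBlocks 1 0 (-V) 1 =
    Matrix.fromBlocks (1 + X * V) 0 0 1 := by
  have h1 : Matrix.fromBlocks (1 : Matrix Unit Unit B) 0 V (1 : Matrix ι ι B) *
      Matrix.fromBlocks 1 0 0 W * Matrix.fromBlocks 1 (-X) 0 1 =
      Matrix.fromBlocks 1 (-X) V 1 := by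
    rw [Matrix.fromBlocks_multiply, Matrix.fromBlocks_multiply, hW]
    congr 1 <;> simp
  have h2 : Matrix.fromBlocks (1 : Matrix Unit Unit B) X 0 (1 : Matrix ι ι B) *
      Matrix.fromBlocks 1 (-X) V 1 = Matrix.fromBlocks (1 + X * V) 0 V 1 := by
    rw [Matrix.fromBlocks_multiply]
    congr 1 <;> simp
  have h3 : Matrix.fromBlocks (1 + X * V) 0 V (1 : Matrix ι ι B) *
      Matrix.fromBlocks 1 0 (-V) 1 = Matrix.fromBlocks (1 + X * V) 0 0 1 := by
    rw [Matrix.fromBlocks_multiply]
    congr 1 <;> simp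
  calc _ = Matrix.fromBlocks (1 : Matrix Unit Unit B) X 0 (1 : Matrix ι ι B) *
      (Matrix.fromBlocks (1 : Matrix Unit Unit B) 0 V (1 : Matrix ι ι B) *
      Matrix.fromBlocks 1 0 0 W * Matrix.fromBlocks 1 (-X) 0 1) *
      Matrix.fromBlocks 1 0 (-V) 1 := by simp only [mul_assoc]
    _ = _ := by rw [h1, h2, h3]

private theorem CvVas_right {B ι : Type} [Ring B] [Fintype ι] [DecidableEq ι] (k : ι) (t : B) :
    Matrix.fromBlocks (1 : Matrix Unit Unit B) 0 0 (1 + Matrix.single k k t) =
      1 + Matrix.single (Sum.inr k) (Sum.inr k) t := by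
  ext (i | i) (j | j)
  · simp [Matrix.one_apply, Matrix.single_apply]
  · simp [Matrix.one_apply, Matrix.single_apply]
  · simp [Matrix.one_apply, Matrix.single_apply]
  · simp [Matrix.one_apply, Matrix.single_apply]

/-- In a simple C*-algebra with dense invertibles, the class of every invertible element `u` is
represented by an element of `1 + yBy`. -/
theorem factor_unit {B : Type} [CStarAlgebra B] [IsSimpleRing B]
    (hB : Dense {x : B | IsUnit x}) (u u' : B) (hu : u * u' = 1) (hu' : u' * u = 1)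
    (y : B) (hy : IsPos y) (hy0 : y ≠ 0) :
    ∃ (κ : Type) (_ : Fintype κ) (_ : DecidableEq κ) (k0 k1 : κ) (e1 e2 : Matrix κ κ B) (w w' : B),
      k0 ≠ k1 ∧ El e1 ∧ El e2 ∧
      (1 + y * w * y) * (1 + y * w' * y) = 1 ∧ (1 + y * w' * y) * (1 + y * w * y) = 1 ∧
      1 + Matrix.single k0 k0 (u - 1) = e1 * (1 + Matrix.single k1 k1 (y * w * y)) * e2 := by
  have hyy : y * y ≠ 0 := by
    obtain ⟨g, rfl⟩ := hy
    intro h
    apply hy0
    have h1 : star (star g * g) * (star g * g) = 0 := by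
      rw [star_mul, star_star]
      exact h
    exact CStarRing.star_mul_self_eq_zero_iff _ |>.1 h1
  obtain ⟨m, a, b, hab⟩ := CvVas_span' (y * y) hyy
  let X : Matrix Unit (Fin (m + 1)) B := Matrix.of fun _ j => a j * y
  let V : Matrix (Fin (m + 1)) Unit B := Matrix.of fun j _ => y * b j * (u - 1)
  let Z : Matrix (Fin (m + 1)) (Fin (m + 1)) B := Matrix.of fun i j => b i * (u - 1) * a j
  let s : B → Matrix Unit Unit B := fun x => Matrix.of fun _ _ => x
  have hXV : X * V = s (u - 1) := by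
    ext i j
    rw [Matrix.mul_apply]
    change ∑ k, a k * y * (y * b k * (u - 1)) = u - 1
    have : ∀ k, a k * y * (y * b k * (u - 1)) = a k * (y * y) * b k * (u - 1) := fun k => by
      simp only [mul_assoc]
    simp only [this]
    rw [← Finset.sum_mul, hab, one_mul]
  have hVX : V * X = sand y Z := by
    ext i j
    rw [Matrix.mul_apply]
    simp only [Finset.univ_unique, Finset.sum_singleton]
    change y * b i * (u - 1) * (a j * y) = y * (b i * (u - 1) * a j) * y
    simp only [mul_assoc]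
  have hs1 : 1 + s (u - 1) = s u := by
    ext i j
    change (1 : Matrix Unit Unit B) i j + (u - 1) = u
    rw [Matrix.one_apply]
    simp
  have hsm : ∀ x x' : B, s x * s x' = s (x * x') := by
    intro x x'
    ext i j
    rw [Matrix.mul_apply]
    simp only [Finset.univ_unique, Finset.sum_singleton]
    rfl
  have hsone : s 1 = 1 := by
    ext i j
    change (1 : B) = (1 : Matrix Unit Unit B) i j
    rw [Matrix.one_apply]
    simp
  have hN1 : (1 + sand y Z) * (1 - V * s u' * X) = 1 := by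
    rw [← hVX]
    have e1 : (1 + V * X) * (1 - V * s u' * X) =
        1 + V * (1 - (1 + X * V) * s u') * X := by
      simp only [Matrix.mul_sub, Matrix.sub_mul, Matrix.add_mul, Matrix.mul_add, Matrix.mul_one,
        Matrix.one_mul, Matrix.mul_assoc, mul_one, one_mul]
      abel
    rw [e1, hXV, hs1, hsm, hu, hsone, sub_self, Matrix.mul_zero, Matrix.zero_mul, add_zero]
  have hN2 : (1 - V * s u' * X) * (1 + sand y Z) = 1 := by
    rw [← hVX]
    have e1 : (1 - V * s u' * X) * (1 + V * X) =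
        1 + V * (1 - s u' * (1 + X * V)) * X := by
      simp only [Matrix.mul_sub, Matrix.sub_mul, Matrix.add_mul, Matrix.mul_add, Matrix.mul_one,
        Matrix.one_mul, Matrix.mul_assoc, mul_one, one_mul]
      abel
    rw [e1, hXV, hs1, hsm, hu', hsone, sub_self, Matrix.mul_zero, Matrix.zero_mul, add_zero]
  obtain ⟨f1, f2, w, w', hf1, hf2, hw1, hw2, hf⟩ :=
    gl_red y (fun b ε hε => her_dense hB y hy b ε hε) m Z _ hN1 hN2
  refine ⟨Unit ⊕ Fin (m + 1), inferInstance, inferInstance, Sum.inl (), Sum.inr 0,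
    Matrix.fromBlocks (1 : Matrix Unit Unit B) X 0 1 * Matrix.fromBlocks 1 0 V 1 *
      Matrix.fromBlocks 1 0 0 f1,
    Matrix.fromBlocks 1 0 0 f2 * Matrix.fromBlocks 1 (-X) 0 1 * Matrix.fromBlocks 1 0 (-V) 1,
    w, w', by simp, ?_, ?_, hw1, hw2, ?_⟩
  · exact ((El.upper X).mul (El.lower V)).mul (El.fromBlocks_right hf1)
  · exact ((El.fromBlocks_right hf2).mul (El.upper (-X))).mul (El.lower (-V))
  · have h0 : (1 : Matrix (Unit ⊕ Fin (m + 1)) (Unit ⊕ Fin (m + 1)) B) +
        Matrix.single (Sum.inl ()) (Sum.inl ()) (u - 1) =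
        Matrix.fromBlocks (1 + X * V) 0 0 1 := by
      rw [hXV]
      ext (i | i) (j | j)
      · change (1 : Matrix (Unit ⊕ Fin (m + 1)) (Unit ⊕ Fin (m + 1)) B) (Sum.inl i) (Sum.inl j) +
          Matrix.single (Sum.inl ()) (Sum.inl ()) (u - 1) (Sum.inl i) (Sum.inl j) =
          (1 : Matrix Unit Unit B) i j + (u - 1)
        simp [Matrix.one_apply, Matrix.single_apply]
      · simp [Matrix.one_apply, Matrix.single_apply]
      · simp [Matrix.one_apply, Matrix.single_apply]
      · simp [Matrix.one_apply, Matrix.single_apply]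
    have h1 : Matrix.fromBlocks (1 : Matrix Unit Unit B) 0 0 (1 + sand y Z) =
        Matrix.fromBlocks 1 0 0 f1 * (1 + Matrix.single (Sum.inr 0) (Sum.inr 0) (y * w * y)) *
          Matrix.fromBlocks 1 0 0 f2 := by
      rw [← CvVas_right, Matrix.fromBlocks_multiply, Matrix.fromBlocks_multiply, hf]
      congr 1 <;> simp
    rw [h0, ← CvVas_block X V (1 + sand y Z) (by rw [hVX]), h1]
    simp only [mul_assoc]

end Pool.Agent.MPb9c6dd
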