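import Pool.Agent.Lib.MP_b9c6dd_an.CPBasic

set_option autoImplicit false

open scoped BoundedContinuousFunction

namespace Pool.Agent.MPb9c6dd

variable {A B : Type} [CStarAlgebra A] [CStarAlgebra B] {α : A ≃⋆ₐ[ℂ] A}
  {ι : A →⋆ₐ[ℂ] B} {U : unitary B}

section Order

attribute [local instance] CStarAlgebra.spectralOrder CStarAlgebra.spectralOrderedRing

private theorem Expect_isPos_iff {D : Type} [CStarAlgebra D] (a : D) : IsPos a ↔ 0 ≤ a :=
  CStarAlgebra.nonneg_iff_eq_star_mul_self.symm

private theorem Expect_closed {D : Type} [CStarAlgebra D] : IsClosed {a : D | IsPos a} := by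
  simp only [Expect_isPos_iff]
  exact isClosed_Ici

private theorem Expect_pos_of_map (hinj : Function.Injective ι) {a : A} (ha : IsPos (ι a)) :
    IsPos a := by
  rw [Expect_isPos_iff] at ha ⊢
  have hsa : IsSelfAdjoint a := by
    have h1 : star (ι a) = ι a := (IsSelfAdjoint.of_nonneg ha).star_eq
    rw [← map_star] at h1
    exact hinj h1
  have h2 : spectrum ℝ (ι a) = spectrum ℝ a := hsa.map_spectrum_real ι hinj
  rw [StarOrderedRing.nonneg_iff_spectrum_nonneg (R := ℝ) a hsa, ← h2]
  exact (StarOrderedRing.nonneg_iff_spectrum_nonneg (R := ℝ) (ι a)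
    (IsSelfAdjoint.of_nonneg ha)).1 ha

private theorem Expect_sum_pos {D : Type} [CStarAlgebra D] {I : Type} (s : Finset I) (f : I → D)
    (hf : ∀ i ∈ s, IsPos (f i)) : IsPos (∑ i ∈ s, f i) := by
  simp only [Expect_isPos_iff] at hf ⊢
  exact Finset.sum_nonneg hf

end Order

private theorem Expect_smul_pos {D : Type} [CStarAlgebra D] {a : D} (ha : IsPos a) (r : ℝ)
    (hr : 0 ≤ r) : IsPos ((r : ℂ) • a) := by
  obtain ⟨g, rfl⟩ := ha
  refine ⟨((√r : ℝ) : ℂ) • g, ?_⟩
  rw [star_smul, smul_mul_smul_comm, Complex.star_def, Complex.conj_ofReal,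
    ← Complex.ofReal_mul, Real.mul_self_sqrt hr]

/-- gauge endomorphisms on powers of the unitary -/
private theorem Expect_gauge_upw {z : ℂ} (hz : ‖z‖ = 1) {γ : B →⋆ₐ[ℂ] B}
    (hγ : γ (U : B) = z • (U : B)) (k : ℤ) : γ (upw U k) = z ^ k • upw U k := by
  have hnat : ∀ n : ℕ, γ (upw U (n : ℤ)) = z ^ (n : ℤ) • upw U (n : ℤ) := by
    intro n
    rw [upw_nat, map_pow, hγ, smul_pow, zpow_natCast]
  obtain ⟨n, rfl | rfl⟩ := k.eq_nat_or_neg
  · exact hnat n
  · rw [← upw_star, map_star, hnat, star_smul]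
    congr 1
    rw [Complex.star_def, map_zpow₀, ← Complex.inv_eq_conj hz, inv_zpow, zpow_neg]

/-- sums of roots of unity -/
private theorem Expect_root {ω : ℂ} {N : ℕ} (hω : IsPrimitiveRoot ω N) (hN : 0 < N) {k : ℤ}
    (hk : |k| < N) : (N : ℂ)⁻¹ * ∑ j ∈ Finset.range N, (ω ^ j) ^ k = if k = 0 then 1 else 0 := by
  have hN' : (N : ℂ) ≠ 0 := by exact_mod_cast hN.ne'
  split_ifs with h0
  · subst h0
    simp [hN']
  · have h1 : ∀ j ∈ Finset.range N, (ω ^ j) ^ k = (ω ^ k) ^ j := by
      intro j _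
      rw [← zpow_natCast, ← zpow_mul, mul_comm, zpow_mul, zpow_natCast]
    rw [Finset.sum_congr rfl h1]
    have h2 : ω ^ k ≠ 1 := by
      intro h
      rw [hω.zpow_eq_one_iff_dvd] at h
      exact h0 (Int.eq_zero_of_abs_lt_dvd h hk)
    have h3 : (ω ^ k) ^ N = 1 := by
      rw [← zpow_natCast, ← zpow_mul, mul_comm, zpow_mul, zpow_natCast, hω.pow_eq_one, one_zpow]
    have h4 := mul_geom_sum (ω ^ k) N
    rw [h3, sub_self] at h4
    rcases mul_eq_zero.1 h4 with h5 | h5
    · exact absurd (sub_eq_zero.1 h5) h2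
    · rw [h5, mul_zero]

/-- Existence of the conditional expectation. -/
theorem CP.exists_E (h : CP α ι U) [Nontrivial B] : ∃ E : B →L[ℂ] A, IsEx α ι U E := by
  classical
  have hinj := h.inj
  -- roots of unity and gauge endomorphisms
  set ω : ℕ → ℂ := fun N => Complex.exp (2 * Real.pi * Complex.I / N) with hωdef
  have hωn : ∀ N j : ℕ, ‖ω N ^ j‖ = 1 := by
    intro N j
    have h1 : ω N = Complex.exp (((2 * Real.pi / N : ℝ) : ℂ) * Complex.I) := by
      rw [hωdef]
      simp only
      congr 1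
      push_cast
      ring
    rw [norm_pow, h1, Complex.norm_exp_ofReal_mul_I, one_pow]
  have hωp : ∀ N : ℕ, 0 < N → IsPrimitiveRoot (ω N) N := fun N hN =>
    Complex.isPrimitiveRoot_exp N hN.ne'
  choose γ hγι hγU using h.gauge
  set G : ℕ → ℕ → B →⋆ₐ[ℂ] B := fun N j => γ (ω N ^ j) (hωn N j) with hG
  have hGι : ∀ N j a, G N j (ι a) = ι a := fun N j a => hγι _ _ a
  have hGU : ∀ N j, G N j (U : B) = ω N ^ j • (U : B) := fun N j => hγU _ _
  have hGn : ∀ N j b, ‖G N j b‖ ≤ ‖b‖ := fun N j b => NonUnitalStarAlgHom.norm_apply_le _ b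
  set T : ℕ → B → B := fun N b => (N : ℂ)⁻¹ • ∑ j ∈ Finset.range N, G N j b with hT
  have hTn : ∀ N b, ‖T N b‖ ≤ ‖b‖ := by
    intro N b
    rw [hT]
    simp only
    rcases Nat.eq_zero_or_pos N with h0 | hN
    · subst h0
      simp
    · rw [norm_smul, norm_inv, Complex.norm_natCast]
      have h1 : ‖∑ j ∈ Finset.range N, G N j b‖ ≤ N * ‖b‖ := by
        refine (norm_sum_le _ _).trans ?_
        refine (Finset.sum_le_sum (fun j _ => hGn N j b)).trans ?_
        simp
      have hN' : (0 : ℝ) < N := by exact_mod_cast hN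
      calc (N : ℝ)⁻¹ * ‖∑ j ∈ Finset.range N, G N j b‖ ≤ (N : ℝ)⁻¹ * (N * ‖b‖) :=
            mul_le_mul_of_nonneg_left h1 (by positivity)
        _ = ‖b‖ := by field_simp
  have hTadd : ∀ N b c, T N (b + c) = T N b + T N c := by
    intro N b c
    simp only [hT, map_add, Finset.sum_add_distrib, smul_add]
  have hTsub : ∀ N b c, T N (b - c) = T N b - T N c := by
    intro N b c
    simp only [hT, map_sub, Finset.sum_sub_distrib, smul_sub]
  have hTsmul : ∀ N (r : ℂ) b, T N (r • b) = r • T N b := by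
    intro N r b
    simp only [hT, map_smul, ← Finset.smul_sum, smul_comm r]
  -- powers
  have hTupw : ∀ (N : ℕ) (a : A) (k : ℤ), 0 < N → |k| < N →
      T N (ι a * upw U k) = if k = 0 then ι a else 0 := by
    intro N a k hN hk
    have h1 : ∀ j ∈ Finset.range N, G N j (ι a * upw U k) =
        ((ω N ^ j) ^ k) • (ι a * upw U k) := by
      intro j _
      rw [map_mul, hGι, Expect_gauge_upw (hωn N j) (hGU N j), mul_smul_comm]
    simp only [hT]
    rw [Finset.sum_congr rfl h1, ← Finset.sum_smul, smul_smul, Expect_root (hωp N hN) hN hk]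
    split_ifs with h0
    · rw [h0, upw_zero, mul_one, one_smul]
    · rw [zero_smul]
  have hTpol : ∀ (N K : ℕ) (c : ℤ → A), K < N →
      T N (pol ι U (Finset.Icc (-(K : ℤ)) K) c) = ι (c 0) := by
    intro N K c hKN
    have hsum : ∀ (s : Finset ℤ) (f : ℤ → B), T N (∑ k ∈ s, f k) = ∑ k ∈ s, T N (f k) := by
      intro s f
      simp only [hT, map_sum]
      rw [Finset.sum_comm, Finset.smul_sum]
    unfold pol
    rw [hsum]
    have h1 : ∀ k ∈ Finset.Icc (-(K : ℤ)) K, T N (ι (c k) * upw U k) =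
        if k = 0 then ι (c k) else 0 := by
      intro k hk
      rw [Finset.mem_Icc] at hk
      refine hTupw N (c k) k (by omega) ?_
      rw [abs_lt]
      omega
    rw [Finset.sum_congr rfl h1, Finset.sum_ite_eq']
    rw [if_pos]
    rw [Finset.mem_Icc]
    omega
  -- limits
  have hiso : Isometry ι := NonUnitalStarAlgHom.isometry ι hinj
  have hlim : ∀ b : B, ∃ a : A, Filter.Tendsto (fun N => T N b) Filter.atTop (nhds (ι a)) := by
    intro b
    have hap : ∀ ε : ℝ, 0 < ε → ∃ (K : ℕ) (a : A), ∀ N, K < N → ‖T N b - ι a‖ < ε := by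
      intro ε hε
      obtain ⟨K, c, hc⟩ := h.pol_dense b ε hε
      refine ⟨K, c 0, fun N hN => ?_⟩
      rw [← hTpol N K c hN, ← hTsub]
      exact (hTn _ _).trans_lt hc
    have hcau : CauchySeq (fun N => T N b) := by
      rw [Metric.cauchySeq_iff']
      intro ε hε
      obtain ⟨K, a, hK⟩ := hap (ε / 2) (by linarith)
      refine ⟨K + 1, fun n hn => ?_⟩
      rw [dist_eq_norm]
      have h1 := hK n (by omega)
      have h2 := hK (K + 1) (by omega)
      calc ‖T n b - T (K + 1) b‖ = ‖(T n b - ι a) - (T (K + 1) b - ι a)‖ := by congr 1; abel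
        _ ≤ ‖T n b - ι a‖ + ‖T (K + 1) b - ι a‖ := norm_sub_le _ _
        _ < ε := by linarith
    obtain ⟨y, hy⟩ := cauchySeq_tendsto_of_complete hcau
    have hycl : y ∈ closure (Set.range ι) := by
      rw [Metric.mem_closure_range_iff]
      intro ε hε
      obtain ⟨K, a, hK⟩ := hap (ε / 2) (by linarith)
      refine ⟨a, ?_⟩
      have h1 : Filter.Tendsto (fun N => ‖T N b - ι a‖) Filter.atTop (nhds ‖y - ι a‖) :=
        (hy.sub_const _).norm
      have h2 : ‖y - ι a‖ ≤ ε / 2 := by
        refine le_of_tendsto h1 ?_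
        filter_upwards [Filter.eventually_gt_atTop K] with N hN
        exact (hK N hN).le
      rw [dist_eq_norm]
      linarith
    rw [hiso.isClosedEmbedding.isClosed_range.closure_eq] at hycl
    obtain ⟨a, ha⟩ := hycl
    exact ⟨a, by rw [ha]; exact hy⟩
  choose E₀ hE₀ using hlim
  have huniq : ∀ {b : B} {a : A},
      Filter.Tendsto (fun N => T N b) Filter.atTop (nhds (ι a)) → E₀ b = a := by
    intro b a ha
    exact hinj (tendsto_nhds_unique (hE₀ b) ha)
  set L : B →ₗ[ℂ] A :=
    { toFun := E₀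
      map_add' := fun b c => huniq (by
        simp only [hTadd, map_add]
        exact (hE₀ b).add (hE₀ c))
      map_smul' := fun r b => huniq (by
        simp only [hTsmul, RingHom.id_apply, map_smul]
        exact (hE₀ b).const_smul r) } with hL
  have hLn : ∀ b, ‖L b‖ ≤ 1 * ‖b‖ := by
    intro b
    rw [one_mul]
    have h1 : ‖ι (E₀ b)‖ = ‖E₀ b‖ := NonUnitalStarAlgHom.norm_map ι hinj _
    show ‖E₀ b‖ ≤ ‖b‖
    rw [← h1]
    exact le_of_tendsto (hE₀ b).norm (Filter.Eventually.of_forall (fun N => hTn N b))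
  refine ⟨L.mkContinuous 1 hLn, ?_⟩
  have hE : ∀ b, (L.mkContinuous 1 hLn) b = E₀ b := fun b => rfl
  refine ⟨fun b => ?_, fun a b => ?_, fun a b => ?_, fun b => ?_, fun b => ?_, fun b => ?_,
    fun k => ?_⟩
  · have := hLn b
    rw [one_mul] at this
    exact this
  · rw [hE, hE]
    refine huniq ?_
    have h1 : ∀ N, T N (ι a * b) = ι a * T N b := by
      intro N
      simp only [hT, map_mul, hGι, ← Finset.mul_sum, mul_smul_comm]
    simp only [h1, map_mul]
    exact (hE₀ b).const_mul _
  · rw [hE, hE]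
    refine huniq ?_
    have h1 : ∀ N, T N (b * ι a) = T N b * ι a := by
      intro N
      simp only [hT, map_mul, hGι, ← Finset.sum_mul, smul_mul_assoc]
    simp only [h1, map_mul]
    exact (hE₀ b).mul_const _
  · rw [hE, hE]
    refine huniq ?_
    have h1 : ∀ N, T N ((U : B) * b * star (U : B)) = (U : B) * T N b * star (U : B) := by
      intro N
      simp only [hT]
      have h2 : ∀ j ∈ Finset.range N, G N j ((U : B) * b * star (U : B)) =
          (U : B) * G N j b * star (U : B) := by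
        intro j _
        rw [map_mul, map_mul, map_star, hGU, star_smul, smul_mul_assoc, smul_mul_assoc,
          mul_smul_comm, smul_smul, Complex.star_def, Complex.mul_conj, Complex.normSq_eq_norm_sq,
          hωn, one_pow, Complex.ofReal_one, one_smul]
      rw [Finset.sum_congr rfl h2, ← Finset.sum_mul, ← Finset.mul_sum, mul_smul_comm,
        smul_mul_assoc]
    simp only [h1, ← h.cov]
    exact ((hE₀ b).const_mul _).mul_const _
  · rw [hE, hE]
    refine huniq ?_
    have h1 : ∀ N, T N (star b) = star (T N b) := by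
      intro N
      simp only [hT, star_smul, star_sum, map_star]
      congr 1
      simp
    simp only [h1, map_star]
    exact (hE₀ b).star
  · rw [hE]
    apply Expect_pos_of_map hinj
    refine Expect_closed.mem_of_tendsto (hE₀ (star b * b)) (Filter.Eventually.of_forall ?_)
    intro N
    show IsPos (T N (star b * b))
    simp only [hT]
    have h1 : ((N : ℂ)⁻¹) = (((N : ℝ)⁻¹ : ℝ) : ℂ) := by push_cast; rfl
    rw [h1]
    refine Expect_smul_pos (Expect_sum_pos _ _ (fun j _ => ?_)) _ (by positivity)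
    exact ⟨G N j b, by rw [map_mul, map_star]⟩
  · rw [hE]
    refine huniq ?_
    have h1 : ∀ᶠ N : ℕ in Filter.atTop, T N (upw U k) = ι (if k = 0 then 1 else 0) := by
      filter_upwards [Filter.eventually_gt_atTop k.natAbs] with N hN
      have h2 := hTupw N 1 k (by omega) (by
        rw [Int.abs_eq_natAbs]; exact_mod_cast hN)
      rw [map_one, one_mul] at h2
      rw [h2]
      split_ifs
      · rw [map_one]
      · rw [map_zero]
    exact (Filter.tendsto_congr' h1).2 tendsto_const_nhds

end Pool.Agent.MPb9c6dd
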