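import Pool.Agent.Lib.MP_b9c6dd_an.CvAsm
import Pool.Agent.Lib.MP_b9c6dd_an.CvLift
import Pool.Agent.Lib.MP_b9c6dd_an.CvVas
import Pool.Agent.Lib.MP_b9c6dd_an.CvCont
import Pool.Agent.Lib.MP_b9c6dd_an.Expect

set_option autoImplicit false

namespace Pool.Agent.MPb9c6dd

variable {A B : Type} [CStarAlgebra A] [CStarAlgebra B] {α : A ≃⋆ₐ[ℂ] A}
  {ι : A →⋆ₐ[ℂ] B} {U : unitary B}

/-- The finite part of the factorization. -/
private theorem CvFinal_F0 {κ : Type} [Fintype κ] [DecidableEq κ] (h : CP α ι U) {E : B →L[ℂ] A}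
    (hE : IsEx α ι U E) {e1 Dp e2 : Matrix κ κ B} (p1 : IsPlM ι U e1) (pD : IsPlM ι U Dp)
    (p2 : IsPlM ι U e2) {X1 X2 : EE κ A} {K1 K2 : ℕ} (b1 : Band K1 X1)
    (f1 : IsFin K1 (X1 - TT U E e1)) (f2 : IsFin K2 (X2 - TT U E e2)) :
    ∃ K, IsFin K (TT U E (e1 * Dp * e2) - X1 * TT U E Dp * X2) := by
  obtain ⟨L1, g1, -⟩ := h.TT_mul hE (h.isPlM_mul p1 pD) p2
  obtain ⟨L2, g2, -⟩ := h.TT_mul hE p1 pD
  obtain ⟨M2, c2⟩ := h.TT_band hE p2
  obtain ⟨MD, cD⟩ := h.TT_band hE pD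
  have q1 : IsFin (L2 + M2) ((TT U E (e1 * Dp) - TT U E e1 * TT U E Dp) * TT U E e2) :=
    g2.mul_band c2
  have q2 : IsFin (K1 + (MD + M2)) ((X1 - TT U E e1) * (TT U E Dp * TT U E e2)) :=
    f1.mul_band (cD.mul c2)
  have q3 : IsFin (K1 + MD + K2) (X1 * TT U E Dp * (X2 - TT U E e2)) :=
    (b1.mul cD).mul_fin f2
  have e : TT U E (e1 * Dp * e2) - X1 * TT U E Dp * X2 =
      (TT U E (e1 * Dp * e2) - TT U E (e1 * Dp) * TT U E e2) +
      (TT U E (e1 * Dp) - TT U E e1 * TT U E Dp) * TT U E e2 -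
      (X1 - TT U E e1) * (TT U E Dp * TT U E e2) - X1 * TT U E Dp * (X2 - TT U E e2) := by
    noncomm_ring
  refine ⟨L1 + (L2 + M2) + (K1 + (MD + M2)) + (K1 + MD + K2), ?_⟩
  rw [e]
  exact (((g1.mono (by omega)).add (q1.mono (by omega))).sub (q2.mono (by omega))).sub
    (q3.mono (by omega))

/-- Shifting the coefficients. -/
private theorem CvFinal_shift (α : A ≃⋆ₐ[ℂ] A) (y : A) {K : ℕ} {r s : Fin K → A}
    (hrs : ∑ j : Fin K, r j * (α ^ (-(((j : ℕ) : ℤ)))) y * s j = 1) :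
    ∃ (L : ℕ) (a b : Fin L → A), ∑ j : Fin L, a j * (α ^ (j : ℕ)) y * b j = 1 := by
  refine ⟨K + 1, Fin.cons 0 fun i => (α ^ K) (r (Fin.rev i)),
    Fin.cons 0 fun i => (α ^ K) (s (Fin.rev i)), ?_⟩
  rw [Fin.sum_univ_succ]
  simp only [Fin.cons_zero, Fin.cons_succ, zero_mul, zero_add]
  have h1 : ∀ j : Fin K, (α ^ K) (r j * (α ^ (-(((j : ℕ) : ℤ)))) y * s j) =
      (α ^ K) (r j) * (α ^ ((Fin.rev j).succ : ℕ)) y * (α ^ K) (s j) := by
    intro j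
    rw [map_mul, map_mul]
    congr 2
    have h2 : (α ^ K) ((α ^ (-(((j : ℕ) : ℤ)))) y) = (α ^ ((K : ℤ) + -(((j : ℕ) : ℤ)))) y := by
      rw [aut_add, zpow_natCast]
    have h3 : (K : ℤ) + -(((j : ℕ) : ℤ)) = (((Fin.rev j).succ : ℕ) : ℤ) := by
      have h4 := j.2
      rw [Fin.val_succ, Fin.val_rev]
      omega
    rw [h2, h3, zpow_natCast]
  have h2 := congrArg (α ^ K) hrs
  rw [map_sum, map_one, Finset.sum_congr rfl fun j _ => h1 j] at h2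
  rw [← h2]
  exact Fintype.sum_equiv Fin.revPerm _ _ fun i => by
    rw [Fin.revPerm_apply, Fin.rev_rev]

/-- Polynomial entries. -/
private theorem CvFinal_pl {κ : Type} [Fintype κ] [DecidableEq κ] (h : CP α ι U) (k1 : κ) (y : A)
    {p : B} (hp : IsPl ι U p) : IsPlM ι U (1 + Matrix.single k1 k1 (ι y * p * ι y)) :=
  isPlM_add isPlM_one (isPlM_single k1 k1 (h.isPl_mul (h.isPl_mul (isPl_ι y) hp) (isPl_ι y)))

/-- Converse: if the crossed product is simple with dense invertibles, then the domination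
property holds. -/
theorem CP.DP_of_dense (h : CP α ι U) [IsSimpleRing B] (hd : Dense {x : A | IsUnit x})
    (hB : Dense {x : B | IsUnit x}) : DP α := by
  classical
  intro y hy hy0
  have : Nontrivial B := IsSimpleRing.instNontrivial
  obtain ⟨E, hE⟩ := h.exists_E
  have hιy : IsPos (ι y) := by
    obtain ⟨g, hg⟩ := hy
    exact ⟨ι g, by rw [hg, map_mul, map_star]⟩
  have hιy0 : ι y ≠ 0 := fun h0 => hy0 (h.inj (by rw [h0, map_zero]))
  have hU1 : (U : B) * star (U : B) = 1 := Unitary.mul_star_self_of_mem U.2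
  have hU2 : star (U : B) * (U : B) = 1 := Unitary.star_mul_self_of_mem U.2
  obtain ⟨κ, iF, iD, k0, k1, e1, e2, w, w', -, he1, he2, hw1, hw2, hfac⟩ :=
    factor_unit hB (U : B) (star (U : B)) hU1 hU2 (ι y) hιy hιy0
  obtain ⟨C1, hC1⟩ := h.lift_El hE he1
  obtain ⟨C2, hC2⟩ := h.lift_El hE he2
  obtain ⟨CD, hCD⟩ : ∃ CD : ℝ, CD = ∑ i, ∑ j,
    ‖(1 + Matrix.single k1 k1 (ι y * w' * ι y) : Matrix κ κ B) i j‖ + 1 := ⟨_, rfl⟩
  obtain ⟨CG, hCG⟩ : ∃ CG : ℝ, CG = ∑ i, ∑ j,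
    ‖(1 + Matrix.single k0 k0 (star (U : B) - 1) : Matrix κ κ B) i j‖ := ⟨_, rfl⟩
  obtain ⟨C, hC, hCC1, hCC2, hCCD, hCCG⟩ :
      ∃ C : ℝ, 1 ≤ C ∧ C1 ≤ C ∧ C2 ≤ C ∧ CD ≤ C ∧ CG ≤ C :=
    ⟨max 1 (max C1 (max C2 (max CD CG))), le_max_left _ _,
      (le_max_left _ _).trans (le_max_right _ _),
      ((le_max_left _ _).trans (le_max_right _ _)).trans (le_max_right _ _),
      (((le_max_left _ _).trans (le_max_right _ _)).trans (le_max_right _ _)).trans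
        (le_max_right _ _),
      (((le_max_right _ _).trans (le_max_right _ _)).trans (le_max_right _ _)).trans
        (le_max_right _ _)⟩
  have hC4 : 0 < C ^ 4 := by positivity
  obtain ⟨ε, hε, hCε⟩ : ∃ ε : ℝ, 0 < ε ∧ 3 * C ^ 4 * ε < 1 := by
    refine ⟨1 / (6 * C ^ 4), by positivity, ?_⟩
    rw [mul_one_div, div_lt_one (by positivity)]
    linarith
  obtain ⟨η, hη, hcont⟩ := factor_cont _ e1 e2 k1 (ι y) w w' hfac hw1 hw2 ε hε
  obtain ⟨f1, X1, X1', K1, pl1, cl1, bX1, bX1', cX1, cX1', h1, h1', fin1⟩ := hC1 η hη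
  obtain ⟨f2, X2, X2', K2, pl2, cl2, bX2, bX2', cX2, cX2', h2, h2', fin2⟩ := hC2 η hη
  obtain ⟨p, hp, hpw⟩ := h.isPl_dense w η hη
  obtain ⟨p', hp', hpw'⟩ := h.isPl_dense w' η hη
  obtain ⟨t1, t2, t3, t4⟩ := hcont f1 f2 p p' cl1 cl2 hpw.le hpw'.le
  obtain ⟨g, hg⟩ : ∃ g : Matrix κ κ B, g = 1 + Matrix.single k0 k0 ((U : B) - 1) := ⟨_, rfl⟩
  obtain ⟨Dp, hDp⟩ : ∃ Dp : Matrix κ κ B, Dp = 1 + Matrix.single k1 k1 (ι y * p * ι y) :=
    ⟨_, rfl⟩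
  obtain ⟨Dq, hDq⟩ : ∃ Dq : Matrix κ κ B, Dq = 1 + Matrix.single k1 k1 (ι y * p' * ι y) :=
    ⟨_, rfl⟩
  have plD : IsPlM ι U Dp := by
    rw [hDp]
    exact CvFinal_pl h k1 y hp
  have plD' : IsPlM ι U Dq := by
    rw [hDq]
    exact CvFinal_pl h k1 y hp'
  have hupw : upw U 1 = (U : B) := by
    unfold upw
    rw [zpow_one]
  have hupw' : upw U (-1) = star (U : B) := by
    rw [← upw_star, hupw]
  have plU : IsPl ι U (U : B) := by
    rw [← hupw]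
    exact isPl_upw 1
  have plU' : IsPl ι U (star (U : B)) := by
    rw [← hupw']
    exact isPl_upw (-1)
  have plg : IsPlM ι U g := by
    rw [hg]
    exact isPlM_add isPlM_one (isPlM_single k0 k0 (isPl_sub plU isPl_one))
  have plg' : IsPlM ι U (1 + Matrix.single k0 k0 (star (U : B) - 1) : Matrix κ κ B) :=
    isPlM_add isPlM_one (isPlM_single k0 k0 (isPl_sub plU' isPl_one))
  have plf : IsPlM ι U (f1 * Dp * f2) := h.isPlM_mul (h.isPlM_mul pl1 plD) pl2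
  obtain ⟨KF, hKF⟩ := CvFinal_F0 h hE pl1 plD pl2 bX1 fin1 fin2
  obtain ⟨KD, hKD⟩ := h.TT_band hE plD
  obtain ⟨KD', hKD'⟩ := h.TT_band hE plD'
  obtain ⟨Ks0, hKs0⟩ := h.TT_band hE (isPlM_sub plg plf)
  obtain ⟨Ks1, hKs1⟩ := h.TT_band hE (isPlM_sub isPlM_one (h.isPlM_mul plD plD'))
  obtain ⟨Ks1', hKs1'⟩ := h.TT_band hE (isPlM_sub isPlM_one (h.isPlM_mul plD' plD))
  obtain ⟨KY, c, hKY⟩ := h.TT_hankel hE k1 y p p' hp hp'
  obtain ⟨KE, hKE, -⟩ := h.TT_mul hE plD' plD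
  rw [← hDp, ← hDq] at hKY
  obtain ⟨K, hK⟩ : ∃ K : ℕ, K = K1 + K2 + KF + KD + KD' + Ks0 + Ks1 + Ks1' + KY + KE := ⟨_, rfl⟩
  have hsum : ∃ r s : Fin K → A, ∑ j, r j * (fun n : ℕ => (α ^ (-(n : ℤ))) y) j * s j = 1 := by
    refine asm hd k0 k1 (fun n : ℕ => (α ^ (-(n : ℤ))) y)
      (fun m n => if m < KY ∧ n < KY then c m n else 0) K
      X1 X1' X2 X2' (TT U E Dp) (TT U E Dq) (TT U E g)
      (TT U E (1 + Matrix.single k0 k0 (star (U : B) - 1)))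
      (TT U E (f1 * Dp * f2) - X1 * TT U E Dp * X2) (TT U E (Dq * Dp) - TT U E Dq * TT U E Dp)
      (TT U E (g - f1 * Dp * f2)) (TT U E (1 - Dp * Dq)) (TT U E (1 - Dq * Dp))
      (TT U E (Dp * Dq) - TT U E Dp * TT U E Dq) C ε hC hε hCε
      (bX1.mono (by omega)) (bX1'.mono (by omega)) (bX2.mono (by omega)) (bX2'.mono (by omega))
      (hKD.mono (by omega)) (hKD'.mono (by omega)) (hKs0.mono (by omega)) (hKs1.mono (by omega))
      (hKs1'.mono (by omega)) (cX1.mono hCC1) (cX1'.mono hCC1) (cX2.mono hCC2) (cX2'.mono hCC2)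
      ?_ ?_ h1 h1' h2 h2' ?_ ?_ ?_ (hKF.mono (by omega)) ?_ ?_ ?_ ?_ ?_ (hKE.mono (by omega)) ?_
    · refine (h.TT_bd hE plD').mono ?_
      rw [hDq]
      exact t4.trans (by rw [← hCD]; exact hCCD)
    · refine (h.TT_bd hE plg').mono ?_
      rw [← hCG]
      exact hCCG
    · intro i j
      rw [hg]
      exact h.cf_TT_U hE k0 i j
    · intro i j
      exact h.cf_TT_U' hE k0 i j
    · rw [h.TT_sub hE plg plf]
      abel
    · refine (h.TT_bd hE (isPlM_sub plg plf)).mono ?_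
      rw [hg, hDp]
      exact t1
    · rw [h.TT_sub hE isPlM_one (h.isPlM_mul plD plD'), h.TT_one hE]
      abel
    · refine (h.TT_bd hE (isPlM_sub isPlM_one (h.isPlM_mul plD plD'))).mono ?_
      rw [hDp, hDq]
      exact t2
    · intro i j
      rw [hKY i j]
      by_cases hc : i.1 = k1 ∧ j.1 = k1 ∧ i.2 < KY ∧ j.2 < KY
      · rw [if_pos hc, if_pos ⟨hc.1, hc.2.1, by omega, by omega⟩]
        rw [if_pos ⟨hc.2.2.1, hc.2.2.2⟩]
      · rw [if_neg hc]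
        by_cases hc2 : i.2 < KY ∧ j.2 < KY
        · rw [if_neg]
          rintro ⟨h3, h4, -⟩
          exact hc ⟨h3, h4, hc2.1, hc2.2⟩
        · rw [if_neg hc2, mul_zero, zero_mul, ite_self]
    · rw [h.TT_sub hE isPlM_one (h.isPlM_mul plD' plD), h.TT_one hE]
      abel
    · refine (h.TT_bd hE (isPlM_sub isPlM_one (h.isPlM_mul plD' plD))).mono ?_
      rw [hDp, hDq]
      exact t3
  obtain ⟨r, s, hrs⟩ := hsum
  exact CvFinal_shift α y hrs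

end Pool.Agent.MPb9c6dd
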