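import Pool.Agent.Lib.MP_b9c6dd_an.CvElem

set_option autoImplicit false
set_option linter.unusedSectionVars false

namespace Pool.Agent.MPb9c6dd

section CvGL

variable {B : Type} [Ring B]

private def CvGL_S (y x : B) : Prop := ∃ b : B, x = y * b * y

private theorem CvGL_zero (y : B) : CvGL_S y 0 := ⟨0, by simp⟩

private theorem CvGL_add {y x x' : B} (h : CvGL_S y x) (h' : CvGL_S y x') :
    CvGL_S y (x + x') := by
  obtain ⟨b, rfl⟩ := h
  obtain ⟨b', rfl⟩ := h'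
  exact ⟨b + b', by rw [mul_add, add_mul]⟩

private theorem CvGL_neg {y x : B} (h : CvGL_S y x) : CvGL_S y (-x) := by
  obtain ⟨b, rfl⟩ := h
  exact ⟨-b, by rw [mul_neg, neg_mul]⟩

private theorem CvGL_sum {y : B} {ι : Type} (s : Finset ι) (f : ι → B)
    (h : ∀ i ∈ s, CvGL_S y (f i)) : CvGL_S y (∑ i ∈ s, f i) := by
  classical
  induction s using Finset.induction_on with
  | empty => simpa using CvGL_zero y
  | insert a s ha ih =>
    rw [Finset.sum_insert ha]
    exact CvGL_add (h a (by simp)) (ih fun i hi => h i (by simp [hi]))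

private theorem CvGL_mid {y x x' : B} (n : B) (h : CvGL_S y x) (h' : CvGL_S y x') :
    CvGL_S y (x * n * x') := by
  obtain ⟨b, rfl⟩ := h
  obtain ⟨b', rfl⟩ := h'
  exact ⟨b * (y * n * y) * b', by simp only [mul_assoc]⟩

private theorem CvGL_mul {y x x' : B} (h : CvGL_S y x) (h' : CvGL_S y x') :
    CvGL_S y (x * x') := by
  have := CvGL_mid 1 h h'
  rwa [mul_one] at this

private theorem CvGL_inv {y c c' : B} (h : CvGL_S y (c - 1)) (h1 : c * c' = 1)
    (h2 : c' * c = 1) : CvGL_S y (c' - 1) := by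
  have e : c' - 1 = -(c - 1) + (c - 1) * c' * (c - 1) := by
    have : (c - 1) * c' * (c - 1) = c * c' * c - c * c' - c' * c + c' := by noncomm_ring
    rw [this, h1, h2]
    noncomm_ring
  rw [e]
  exact CvGL_add (CvGL_neg h) (CvGL_mid _ h h)

private theorem CvGL_mulone {y c x : B} (h : CvGL_S y (c - 1)) (h' : CvGL_S y x) :
    CvGL_S y (c * x) := by
  have e : c * x = (c - 1) * x + x := by noncomm_ring
  rw [e]
  exact CvGL_add (CvGL_mul h h') h'

private theorem CvGL_onemul {y c x : B} (h : CvGL_S y (c - 1)) (h' : CvGL_S y x) :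
    CvGL_S y (x * c) := by
  have e : x * c = x * (c - 1) + x := by noncomm_ring
  rw [e]
  exact CvGL_add (CvGL_mul h' h) h'

private theorem CvGL_onepl {y c c' : B} (h : CvGL_S y (c - 1)) (h' : CvGL_S y (c' - 1)) :
    CvGL_S y (c * c' - 1) := by
  have e : c * c' - 1 = c * (c' - 1) + (c - 1) := by noncomm_ring
  rw [e]
  exact CvGL_add (CvGL_mulone h h') h

variable {κ : Type} [Fintype κ] [DecidableEq κ]

private def CvGL_M (y : B) (M : Matrix κ κ B) : Prop := ∀ i j, CvGL_S y ((M - 1) i j)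

private theorem CvGL_M_sand (y : B) (Z : Matrix κ κ B) : CvGL_M y (1 + sand y Z) := by
  intro i j
  rw [add_sub_cancel_left]
  exact ⟨Z i j, rfl⟩

private theorem CvGL_M_exists {y : B} {M : Matrix κ κ B} (h : CvGL_M y M) :
    ∃ Z, M = 1 + sand y Z := by
  choose Z hZ using h
  refine ⟨Matrix.of Z, ?_⟩
  have : M - 1 = sand y (Matrix.of Z) := by
    ext i j
    rw [hZ]
    rfl
  rw [← this]
  abel

private theorem CvGL_M_mul {y : B} {M N : Matrix κ κ B} (hM : CvGL_M y M) (hN : CvGL_M y N) :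
    CvGL_M y (M * N) := by
  intro i j
  have e : M * N - 1 = (M - 1) * (N - 1) + (M - 1) + (N - 1) := by noncomm_ring
  rw [e, Matrix.add_apply, Matrix.add_apply, Matrix.mul_apply]
  exact CvGL_add (CvGL_add (CvGL_sum _ _ fun k _ => CvGL_mul (hM i k) (hN k j)) (hM i j))
    (hN i j)

private theorem CvGL_M_inv {y : B} {M N : Matrix κ κ B} (h : CvGL_M y M) (h1 : M * N = 1)
    (h2 : N * M = 1) : CvGL_M y N := by
  intro i j
  have e : N - 1 = -(M - 1) + (M - 1) * N * (M - 1) := by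
    have : (M - 1) * N * (M - 1) = M * N * M - M * N - N * M + N := by noncomm_ring
    rw [this, h1, h2]
    noncomm_ring
  rw [e, Matrix.add_apply, Matrix.mul_apply]
  refine CvGL_add (CvGL_neg (h i j)) (CvGL_sum _ _ fun k _ => ?_)
  rw [Matrix.mul_apply, Finset.sum_mul]
  exact CvGL_sum _ _ fun l _ => CvGL_mid _ (h i l) (h k j)

/-- The statement for a general finite index type. -/
private def CvGL_P (y : B) (κ : Type) [Fintype κ] [DecidableEq κ] (k0 : κ) : Prop :=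
  ∀ (Z N : Matrix κ κ B), (1 + sand y Z) * N = 1 → N * (1 + sand y Z) = 1 →
    ∃ (e1 e2 : Matrix κ κ B) (w w' : B), El e1 ∧ El e2 ∧
      (1 + y * w * y) * (1 + y * w' * y) = 1 ∧ (1 + y * w' * y) * (1 + y * w * y) = 1 ∧
      1 + sand y Z = e1 * (1 + Matrix.single k0 k0 (y * w * y)) * e2

private theorem CvGL_P_equiv {y : B} {κ κ' : Type} [Fintype κ] [DecidableEq κ] [Fintype κ']
    [DecidableEq κ'] (e : κ ≃ κ') (k0 : κ) (h : CvGL_P y κ k0) : CvGL_P y κ' (e k0) := by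
  intro Z N h1 h2
  have hs : (1 + sand y (Z.submatrix e e) : Matrix κ κ B) = (1 + sand y Z).submatrix e e := by
    ext i j
    simp [sand, Matrix.one_apply, Matrix.add_apply]
  obtain ⟨e1, e2, w, w', E1, E2, w1, w2, hf⟩ := h (Z.submatrix e e) (N.submatrix e e)
    (by rw [hs, Matrix.submatrix_mul_equiv, h1, Matrix.submatrix_one_equiv])
    (by rw [hs, Matrix.submatrix_mul_equiv, h2, Matrix.submatrix_one_equiv])
  refine ⟨e1.submatrix e.symm e.symm, e2.submatrix e.symm e.symm, w, w', E1.submatrix _,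
    E2.submatrix _, w1, w2, ?_⟩
  have h3 : (1 + sand y Z : Matrix κ' κ' B) =
      ((1 + sand y Z).submatrix e e).submatrix e.symm e.symm := by
    ext i j
    simp
  have h4 : (1 + Matrix.single (e k0) (e k0) (y * w * y) : Matrix κ' κ' B) =
      (1 + Matrix.single k0 k0 (y * w * y) : Matrix κ κ B).submatrix e.symm e.symm := by
    ext i j
    simp only [Matrix.add_apply, Matrix.submatrix_apply, Matrix.one_apply, Matrix.single_apply,
      e.symm.injective.eq_iff, ← Equiv.eq_symm_apply]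
  rw [h3, ← hs, hf, h4, Matrix.submatrix_mul_equiv, Matrix.submatrix_mul_equiv]

private theorem CvGL_P_base (y : B) : CvGL_P y (Fin 1) 0 := by
  intro Z N h1 h2
  have hN := CvGL_M_inv (CvGL_M_sand y Z) h1 h2 0 0
  obtain ⟨w', hw'⟩ := hN
  have hN0 : N 0 0 = 1 + y * w' * y := by
    rw [← hw', Matrix.sub_apply, Matrix.one_apply_eq]
    abel
  have hM0 : (1 + sand y Z) 0 0 = 1 + y * Z 0 0 * y := by
    rw [Matrix.add_apply, Matrix.one_apply_eq]
    rfl
  refine ⟨1, 1, Z 0 0, w', El.one, El.one, ?_, ?_, ?_⟩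
  · have := congrFun (congrFun h1 0) 0
    rw [Matrix.mul_apply, Fin.sum_univ_one, Matrix.one_apply_eq] at this
    rw [hM0, hN0] at this
    exact this
  · have := congrFun (congrFun h2 0) 0
    rw [Matrix.mul_apply, Fin.sum_univ_one, Matrix.one_apply_eq] at this
    rw [hM0, hN0] at this
    exact this
  · rw [one_mul, mul_one]
    ext i j
    rw [Subsingleton.elim i 0, Subsingleton.elim j 0, hM0, Matrix.add_apply,
      Matrix.one_apply_eq, Matrix.single_apply_same]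

/-- `1 + y M y` in block form -/
private theorem CvGL_M_upper {y : B} (X : Matrix κ (Fin 1) B) (hX : ∀ i, CvGL_S y (X i 0)) :
    CvGL_M y (Matrix.fromBlocks (1 : Matrix κ κ B) X 0 (1 : Matrix (Fin 1) (Fin 1) B)) := by
  intro i j
  rw [← Matrix.fromBlocks_one, Matrix.sub_apply]
  rcases i with i | i <;> rcases j with j | j
  · simpa using CvGL_zero y
  · rw [Subsingleton.elim j 0]
    simpa using hX i
  · simpa using CvGL_zero y
  · simpa using CvGL_zero y

private theorem CvGL_M_lower {y : B} (Y : Matrix (Fin 1) κ B) (hY : ∀ i, CvGL_S y (Y 0 i)) :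
    CvGL_M y (Matrix.fromBlocks (1 : Matrix κ κ B) 0 Y (1 : Matrix (Fin 1) (Fin 1) B)) := by
  intro i j
  rw [← Matrix.fromBlocks_one, Matrix.sub_apply]
  rcases i with i | i <;> rcases j with j | j
  · simpa using CvGL_zero y
  · simpa using CvGL_zero y
  · rw [Subsingleton.elim i 0]
    simpa using hY j
  · simpa using CvGL_zero y

private theorem CvGL_diag {κ' : Type} [Fintype κ'] [DecidableEq κ'] (i j : κ') (hij : i ≠ j)
    (v w c c' : B) (e : w = v + (c' - 1) + v * (c' - 1)) :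
    (1 + Matrix.single i i v) * (1 + Matrix.single i i (c' - 1) + Matrix.single j j (c - 1)) =
      (1 + Matrix.single i i w + Matrix.single j j (c - 1) : Matrix κ' κ' B) := by
  rw [add_mul, one_mul, mul_add, mul_add, mul_one, Matrix.single_mul_single_same,
    Matrix.single_mul_single_of_ne _ _ _ _ hij, e, Matrix.single_add, Matrix.single_add]
  abel

/-- Clearing the last row and column when the last diagonal entry is invertible. -/
private theorem CvGL_clear {y : B} (k0 : κ) (ih : CvGL_P y κ k0)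
    (M N : Matrix (κ ⊕ Fin 1) (κ ⊕ Fin 1) B) (hM : CvGL_M y M) (h1 : M * N = 1)
    (h2 : N * M = 1) (c' : B) (hc1 : M (Sum.inr 0) (Sum.inr 0) * c' = 1)
    (hc2 : c' * M (Sum.inr 0) (Sum.inr 0) = 1) :
    ∃ (e1 e2 : Matrix (κ ⊕ Fin 1) (κ ⊕ Fin 1) B) (w w' : B), El e1 ∧ El e2 ∧
      (1 + y * w * y) * (1 + y * w' * y) = 1 ∧ (1 + y * w' * y) * (1 + y * w * y) = 1 ∧
      M = e1 * (1 + Matrix.single (Sum.inl k0) (Sum.inl k0) (y * w * y)) * e2 := by
  obtain ⟨c, hc⟩ : ∃ c, c = M (Sum.inr 0) (Sum.inr 0) := ⟨_, rfl⟩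
  rw [← hc] at hc1 hc2
  have hcS : CvGL_S y (c - 1) := by
    have := hM (Sum.inr 0) (Sum.inr 0)
    rw [Matrix.sub_apply, Matrix.one_apply_eq, ← hc] at this
    exact this
  have hc'S : CvGL_S y (c' - 1) := CvGL_inv hcS hc1 hc2
  obtain ⟨A, hA⟩ : ∃ A : Matrix κ κ B, A = M.toBlocks₁₁ := ⟨_, rfl⟩
  obtain ⟨P, hP⟩ : ∃ P : Matrix κ (Fin 1) B, P = M.toBlocks₁₂ := ⟨_, rfl⟩
  obtain ⟨Q, hQ⟩ : ∃ Q : Matrix (Fin 1) κ B, Q = M.toBlocks₂₁ := ⟨_, rfl⟩
  obtain ⟨D, hD⟩ : ∃ D : Matrix (Fin 1) (Fin 1) B, D = M.toBlocks₂₂ := ⟨_, rfl⟩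
  have hMb : M = Matrix.fromBlocks A P Q D := by
    rw [hA, hP, hQ, hD, Matrix.fromBlocks_toBlocks]
  have hD0 : D = Matrix.diagonal fun _ => c := by
    ext i j
    rw [Subsingleton.elim i 0, Subsingleton.elim j 0, Matrix.diagonal_apply_eq, hD, hc]
    rfl
  obtain ⟨D', hD'⟩ : ∃ D' : Matrix (Fin 1) (Fin 1) B, D' = Matrix.diagonal fun _ => c' :=
    ⟨_, rfl⟩
  have hDD' : D * D' = 1 := by
    rw [hD0, hD', Matrix.diagonal_mul_diagonal, hc1, Matrix.diagonal_one]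
  have hD'D : D' * D = 1 := by
    rw [hD0, hD', Matrix.diagonal_mul_diagonal, hc2, Matrix.diagonal_one]
  have hPS : ∀ i, CvGL_S y (P i 0) := by
    intro i
    have := hM (Sum.inl i) (Sum.inr 0)
    rw [Matrix.sub_apply, Matrix.one_apply_ne (by simp), sub_zero] at this
    rw [hP]
    exact this
  have hQS : ∀ i, CvGL_S y (Q 0 i) := by
    intro i
    have := hM (Sum.inr 0) (Sum.inl i)
    rw [Matrix.sub_apply, Matrix.one_apply_ne (by simp), sub_zero] at this
    rw [hQ]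
    exact this
  obtain ⟨X, hX⟩ : ∃ X : Matrix κ (Fin 1) B, X = -(P * D') := ⟨_, rfl⟩
  obtain ⟨Y, hY⟩ : ∃ Y : Matrix (Fin 1) κ B, Y = -(D' * Q) := ⟨_, rfl⟩
  have hXS : ∀ i, CvGL_S y (X i 0) := by
    intro i
    rw [hX, Matrix.neg_apply, Matrix.mul_apply, Fin.sum_univ_one, hD',
      Matrix.diagonal_apply_eq]
    exact CvGL_neg (CvGL_onemul hc'S (hPS i))
  have hYS : ∀ i, CvGL_S y (Y 0 i) := by
    intro i
    rw [hY, Matrix.neg_apply, Matrix.mul_apply, Fin.sum_univ_one, hD',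
      Matrix.diagonal_apply_eq]
    exact CvGL_neg (CvGL_mulone hc'S (hQS i))
  obtain ⟨M', hM'⟩ : ∃ M' : Matrix κ κ B, M' = A + X * Q := ⟨_, rfl⟩
  have hprod : Matrix.fromBlocks 1 X 0 1 * M * Matrix.fromBlocks 1 0 Y 1 =
      Matrix.fromBlocks M' 0 0 D := by
    rw [hMb, Matrix.fromBlocks_multiply, Matrix.fromBlocks_multiply]
    have z1 : P + X * D = 0 := by
      rw [hX, Matrix.neg_mul, Matrix.mul_assoc, hD'D, Matrix.mul_one, add_neg_cancel]
    have z2 : Q + D * Y = 0 := by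
      rw [hY, Matrix.mul_neg, ← Matrix.mul_assoc, hDD', Matrix.one_mul, add_neg_cancel]
    simp only [Matrix.one_mul, Matrix.mul_one, Matrix.zero_mul, Matrix.mul_zero, zero_add,
      add_zero, z1, z2]
    rw [hM']
  have hMS : CvGL_M y (Matrix.fromBlocks M' 0 0 D) := by
    rw [← hprod]
    exact CvGL_M_mul (CvGL_M_mul (CvGL_M_upper X hXS) hM) (CvGL_M_lower Y hYS)
  obtain ⟨U', hU', hU1, hU2⟩ := (El.upper X : El (Matrix.fromBlocks (1 : Matrix κ κ B) X 0 1)).inv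
  obtain ⟨L', hL', hL1, hL2⟩ := (El.lower Y : El (Matrix.fromBlocks (1 : Matrix κ κ B) 0 Y 1)).inv
  -- the inverse of the block diagonal matrix
  have hi1 : Matrix.fromBlocks M' 0 0 D * (L' * N * U') = 1 := by
    rw [← hprod]
    calc Matrix.fromBlocks 1 X 0 1 * M * Matrix.fromBlocks 1 0 Y 1 * (L' * N * U')
        = Matrix.fromBlocks 1 X 0 1 * (M * ((Matrix.fromBlocks 1 0 Y 1 * L') * N)) * U' := by
          simp only [Matrix.mul_assoc]
      _ = 1 := by rw [hL1, Matrix.one_mul, h1, Matrix.mul_one, hU1]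
  have hi2 : (L' * N * U') * Matrix.fromBlocks M' 0 0 D = 1 := by
    rw [← hprod]
    calc (L' * N * U') * (Matrix.fromBlocks 1 X 0 1 * M * Matrix.fromBlocks 1 0 Y 1)
        = L' * (N * ((U' * Matrix.fromBlocks 1 X 0 1) * M)) * Matrix.fromBlocks 1 0 Y 1 := by
          simp only [Matrix.mul_assoc]
      _ = 1 := by rw [hU2, Matrix.one_mul, h2, Matrix.mul_one, hL2]
  obtain ⟨R, hR⟩ : ∃ R, R = L' * N * U' := ⟨_, rfl⟩
  rw [← hR] at hi1 hi2
  have hRb : R = Matrix.fromBlocks R.toBlocks₁₁ R.toBlocks₁₂ R.toBlocks₂₁ R.toBlocks₂₂ :=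
    (Matrix.fromBlocks_toBlocks R).symm
  have hj1 : M' * R.toBlocks₁₁ = 1 := by
    rw [hRb, Matrix.fromBlocks_multiply, ← Matrix.fromBlocks_one] at hi1
    have := (Matrix.fromBlocks_inj.1 hi1).1
    simpa using this
  have hj2 : R.toBlocks₁₁ * M' = 1 := by
    rw [hRb, Matrix.fromBlocks_multiply, ← Matrix.fromBlocks_one] at hi2
    have := (Matrix.fromBlocks_inj.1 hi2).1
    simpa using this
  have hM'S : CvGL_M y M' := by
    intro i j
    have := hMS (Sum.inl i) (Sum.inl j)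
    rw [← Matrix.fromBlocks_one, Matrix.sub_apply] at this
    exact this
  obtain ⟨Z, hZ⟩ := CvGL_M_exists hM'S
  rw [hZ] at hj1 hj2
  obtain ⟨f1, f2, w, w', F1, F2, hw1, hw2, hf⟩ := ih Z R.toBlocks₁₁ hj1 hj2
  rw [← hZ] at hf
  -- the new `w`
  have hwS : CvGL_S y ((1 + y * w * y) * c - 1) :=
    CvGL_onepl ⟨w, by abel⟩ hcS
  have hwS' : CvGL_S y (c' * (1 + y * w' * y) - 1) :=
    CvGL_onepl hc'S ⟨w', by abel⟩
  obtain ⟨v, hv⟩ := hwS
  obtain ⟨v', hv'⟩ := hwS'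
  have hv0 : 1 + y * v * y = (1 + y * w * y) * c := by rw [← hv]; abel
  have hv0' : 1 + y * v' * y = c' * (1 + y * w' * y) := by rw [← hv']; abel
  have hne : (Sum.inl k0 : κ ⊕ Fin 1) ≠ Sum.inr 0 := by simp
  have hWh := El.whitehead (R := B) (Sum.inl k0 : κ ⊕ Fin 1) (Sum.inr 0) hne c c' hc1 hc2
  have hdiag : Matrix.fromBlocks (1 + Matrix.single k0 k0 (y * w * y)) 0 0 D =
      (1 + Matrix.single (Sum.inl k0 : κ ⊕ Fin 1) (Sum.inl k0) (y * v * y)) *
        (1 + Matrix.single (Sum.inl k0) (Sum.inl k0) (c' - 1) +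
          Matrix.single (Sum.inr 0 : κ ⊕ Fin 1) (Sum.inr 0) (c - 1)) := by
    have e5 : y * w * y = y * v * y + (c' - 1) + y * v * y * (c' - 1) := by
      have : y * v * y = (1 + y * w * y) * c - 1 := by rw [← hv0]; abel
      rw [this]
      have e6 : (1 + y * w * y) * c * c' = 1 + y * w * y := by
        rw [mul_assoc, hc1, mul_one]
      have e7 : ((1 + y * w * y) * c - 1) * (c' - 1) =
          (1 + y * w * y) * c * c' - (1 + y * w * y) * c - c' + 1 := by noncomm_ring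
      rw [e7, e6]
      abel
    have h5 := CvGL_diag (Sum.inl k0 : κ ⊕ Fin 1) (Sum.inr 0) hne _ _ c c' e5
    rw [h5]
    ext i j
    rcases i with i | i <;> rcases j with j | j
    · simp [Matrix.fromBlocks, Matrix.one_apply, Matrix.single_apply]
    · simp [Matrix.fromBlocks, Matrix.single_apply]
    · simp [Matrix.fromBlocks, Matrix.single_apply]
    · rw [Subsingleton.elim i 0, Subsingleton.elim j 0, hD0]
      simp [Matrix.fromBlocks, Matrix.single_apply]
  have hbl : Matrix.fromBlocks M' 0 0 D =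
      Matrix.fromBlocks f1 0 0 (1 : Matrix (Fin 1) (Fin 1) B) *
        Matrix.fromBlocks (1 + Matrix.single k0 k0 (y * w * y)) 0 0 D *
        Matrix.fromBlocks f2 0 0 (1 : Matrix (Fin 1) (Fin 1) B) := by
    rw [Matrix.fromBlocks_multiply, Matrix.fromBlocks_multiply, hf]
    simp
  refine ⟨U' * Matrix.fromBlocks f1 0 0 1,
    (1 + Matrix.single (Sum.inl k0) (Sum.inl k0) (c' - 1) +
      Matrix.single (Sum.inr 0) (Sum.inr 0) (c - 1)) * Matrix.fromBlocks f2 0 0 1 * L',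
    v, v', hU'.mul F1.fromBlocks_left, (hWh.mul F2.fromBlocks_left).mul hL', ?_, ?_, ?_⟩
  · rw [hv0, hv0']
    calc (1 + y * w * y) * c * (c' * (1 + y * w' * y))
        = (1 + y * w * y) * (c * c') * (1 + y * w' * y) := by simp only [mul_assoc]
      _ = 1 := by rw [hc1, mul_one, hw1]
  · rw [hv0, hv0']
    calc c' * (1 + y * w' * y) * ((1 + y * w * y) * c)
        = c' * ((1 + y * w' * y) * (1 + y * w * y)) * c := by simp only [mul_assoc]
      _ = 1 := by rw [hw2, mul_one, hc2]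
  · have h6 : M = U' * Matrix.fromBlocks M' 0 0 D * L' := by
      rw [← hprod]
      calc M = (U' * Matrix.fromBlocks 1 X 0 1) * M * (Matrix.fromBlocks 1 0 Y 1 * L') := by
            rw [hU2, hL1, Matrix.one_mul, Matrix.mul_one]
        _ = U' * (Matrix.fromBlocks 1 X 0 1 * M * Matrix.fromBlocks 1 0 Y 1) * L' := by
            simp only [Matrix.mul_assoc]
    rw [h6, hbl, hdiag]
    simp only [Matrix.mul_assoc]

end CvGL

private theorem CvGL_step {B : Type} [CStarAlgebra B] (y : B)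
    (hden : ∀ (b : B) (ε : ℝ), 0 < ε → ∃ k : B, IsUnit (1 + y * k * y) ∧
      ‖y * k * y - y * b * y‖ < ε) {κ : Type} [Fintype κ] [DecidableEq κ] (k0 : κ)
    (ih : CvGL_P y κ k0) : CvGL_P y (κ ⊕ Fin 1) (Sum.inl k0) := by
  intro Z N h1 h2
  obtain ⟨M, hMdef⟩ : ∃ M, M = 1 + sand y Z := ⟨_, rfl⟩
  rw [← hMdef] at h1 h2 ⊢
  have hM : CvGL_M y M := hMdef ▸ CvGL_M_sand y Z
  have hN := CvGL_M_inv hM h1 h2
  obtain ⟨z', hz'⟩ := hN (Sum.inr 0) (Sum.inr 0)
  rw [Matrix.sub_apply, Matrix.one_apply_eq] at hz'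
  obtain ⟨cl, hcl⟩ : ∃ cl, cl = M (Sum.inr 0) (Sum.inr 0) := ⟨_, rfl⟩
  obtain ⟨k, hk1, hk2⟩ := hden z' (1 / (‖cl‖ + 1)) (by positivity)
  obtain ⟨b, hb⟩ : ∃ b, b = 1 + y * k * y := ⟨_, rfl⟩
  rw [← hb] at hk1
  obtain ⟨b', hb1, hb2⟩ : ∃ b', b * b' = 1 ∧ b' * b = 1 := by
    obtain ⟨u, hu⟩ := hk1
    exact ⟨(u⁻¹ : Bˣ), by rw [← hu]; simp, by rw [← hu]; simp⟩
  have hbS : CvGL_S y (b - 1) := ⟨k, by rw [hb]; abel⟩
  have hb'S := CvGL_inv hbS hb1 hb2
  obtain ⟨Y, hY⟩ : ∃ Y : Matrix (Fin 1) κ B,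
      Y = Matrix.of fun _ i => b' * N (Sum.inr 0) (Sum.inl i) := ⟨_, rfl⟩
  have hYS : ∀ i, CvGL_S y (Y 0 i) := by
    intro i
    have := hN (Sum.inr 0) (Sum.inl i)
    rw [Matrix.sub_apply, Matrix.one_apply_ne (by simp), sub_zero] at this
    rw [hY]
    exact CvGL_mulone hb'S this
  obtain ⟨M1, hM1⟩ : ∃ M1, M1 = Matrix.fromBlocks 1 0 Y 1 * M := ⟨_, rfl⟩
  have hM1S : CvGL_M y M1 := by
    rw [hM1]
    exact CvGL_M_mul (CvGL_M_lower Y hYS) hM
  obtain ⟨L', hL', hL1, hL2⟩ :=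
    (El.lower Y : El (Matrix.fromBlocks (1 : Matrix κ κ B) 0 Y 1)).inv
  have g1 : M1 * (N * L') = 1 := by
    rw [hM1, Matrix.mul_assoc, ← Matrix.mul_assoc M, h1, Matrix.one_mul, hL1]
  have g2 : (N * L') * M1 = 1 := by
    rw [hM1, Matrix.mul_assoc, ← Matrix.mul_assoc L', hL2, Matrix.one_mul, h2]
  -- the last diagonal entry of `M1`
  have hM1l : M1 (Sum.inr 0) (Sum.inr 0) =
      cl + ∑ i, b' * N (Sum.inr 0) (Sum.inl i) * M (Sum.inl i) (Sum.inr 0) := by
    rw [hM1, Matrix.mul_apply, Fintype.sum_sum_type, Fin.sum_univ_one]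
    simp only [Matrix.fromBlocks_apply₂₁, Matrix.fromBlocks_apply₂₂, Matrix.one_apply_eq, one_mul]
    rw [← hcl, hY, add_comm]
    rfl
  have hone : (∑ i, N (Sum.inr 0) (Sum.inl i) * M (Sum.inl i) (Sum.inr 0)) +
      N (Sum.inr 0) (Sum.inr 0) * cl = 1 := by
    have := congrFun (congrFun h2 (Sum.inr 0)) (Sum.inr 0)
    rw [Matrix.mul_apply, Fintype.sum_sum_type, Fin.sum_univ_one, Matrix.one_apply_eq,
      ← hcl] at this
    exact this
  have hv : b * M1 (Sum.inr 0) (Sum.inr 0) = 1 + (y * k * y - y * z' * y) * cl := by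
    rw [hM1l, mul_add, Finset.mul_sum]
    have : ∀ i, b * (b' * N (Sum.inr 0) (Sum.inl i) * M (Sum.inl i) (Sum.inr 0)) =
        N (Sum.inr 0) (Sum.inl i) * M (Sum.inl i) (Sum.inr 0) := by
      intro i
      rw [← mul_assoc, ← mul_assoc, hb1, one_mul]
    rw [Finset.sum_congr rfl fun i _ => this i]
    have h3 : ∑ i, N (Sum.inr 0) (Sum.inl i) * M (Sum.inl i) (Sum.inr 0) =
        1 - N (Sum.inr 0) (Sum.inr 0) * cl := by
      rw [← hone]; abel
    rw [h3, ← hz', hb]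
    noncomm_ring
  have hvu : IsUnit (b * M1 (Sum.inr 0) (Sum.inr 0)) := by
    rw [hv]
    have h4 : ‖-((y * k * y - y * z' * y) * cl)‖ < 1 := by
      rw [norm_neg]
      calc ‖(y * k * y - y * z' * y) * cl‖ ≤ ‖y * k * y - y * z' * y‖ * ‖cl‖ := norm_mul_le _ _
        _ ≤ 1 / (‖cl‖ + 1) * ‖cl‖ := by gcongr
        _ < 1 := by
          rw [div_mul_eq_mul_div, one_mul, div_lt_one (by positivity)]
          linarith
    have := isUnit_one_sub_of_norm_lt_one h4
    rwa [sub_neg_eq_add] at this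
  obtain ⟨v', hv1, hv2⟩ : ∃ v', (b * M1 (Sum.inr 0) (Sum.inr 0)) * v' = 1 ∧
      v' * (b * M1 (Sum.inr 0) (Sum.inr 0)) = 1 := by
    obtain ⟨u, hu⟩ := hvu
    exact ⟨(u⁻¹ : Bˣ), by rw [← hu]; simp, by rw [← hu]; simp⟩
  have hc1 : M1 (Sum.inr 0) (Sum.inr 0) * (v' * b) = 1 := by
    calc M1 (Sum.inr 0) (Sum.inr 0) * (v' * b)
        = b' * b * M1 (Sum.inr 0) (Sum.inr 0) * (v' * b) := by rw [hb2, one_mul]
      _ = b' * ((b * M1 (Sum.inr 0) (Sum.inr 0)) * v') * b := by simp only [mul_assoc]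
      _ = 1 := by rw [hv1, mul_one, hb2]
  have hc2 : (v' * b) * M1 (Sum.inr 0) (Sum.inr 0) = 1 := by
    rw [mul_assoc, hv2]
  obtain ⟨e1, e2, w, w', E1, E2, hw1, hw2, hf⟩ :=
    CvGL_clear k0 ih M1 (N * L') hM1S g1 g2 (v' * b) hc1 hc2
  refine ⟨L' * e1, e2, w, w', hL'.mul E1, E2, hw1, hw2, ?_⟩
  have h7 : M = L' * M1 := by
    rw [hM1, ← Matrix.mul_assoc, hL2, Matrix.one_mul]
  rw [h7, hf]
  simp only [Matrix.mul_assoc]

/-- Reduction of an invertible matrix in `1 + y M(B) y` to a `1 × 1` matrix by elementary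
matrices. -/
theorem gl_red {B : Type} [CStarAlgebra B] (y : B)
    (hden : ∀ (b : B) (ε : ℝ), 0 < ε → ∃ k : B, IsUnit (1 + y * k * y) ∧
      ‖y * k * y - y * b * y‖ < ε) :
    ∀ (m : ℕ) (Z N : Matrix (Fin (m + 1)) (Fin (m + 1)) B),
      (1 + sand y Z) * N = 1 → N * (1 + sand y Z) = 1 →
      ∃ (e1 e2 : Matrix (Fin (m + 1)) (Fin (m + 1)) B) (w w' : B), El e1 ∧ El e2 ∧
        (1 + y * w * y) * (1 + y * w' * y) = 1 ∧ (1 + y * w' * y) * (1 + y * w * y) = 1 ∧
        1 + sand y Z = e1 * (1 + Matrix.single 0 0 (y * w * y)) * e2 := by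
  intro m
  induction m with
  | zero => exact CvGL_P_base y
  | succ m ih => exact CvGL_P_equiv finSumFinEquiv (Sum.inl 0) (CvGL_step y hden 0 ih)

end Pool.Agent.MPb9c6dd
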