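import Pool.Agent.Lib.MP_b9c6dd_an.CvDefs

set_option autoImplicit false

namespace Pool.Agent.MPb9c6dd

variable {A I I' : Type} [CStarAlgebra A] [Fintype I] [Fintype I']

section cvnorm_aux

attribute [local instance] CStarAlgebra.spectralOrder CStarAlgebra.spectralOrderedRing

private theorem cvnorm_nonneg (m : Matrix I I A) : 0 ≤ cnorm m := by
  unfold cnorm
  exact norm_nonneg _

private theorem cvnorm_add_le (m n : Matrix I I A) : cnorm (m + n) ≤ cnorm m + cnorm n := by
  unfold cnorm
  rw [← CStarMatrix.of_add_of]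
  exact norm_add_le _ _

private theorem cvnorm_neg (m : Matrix I I A) : cnorm (-m) = cnorm m := by
  unfold cnorm
  rw [← CStarMatrix.neg_of]
  exact norm_neg _

private theorem cvnorm_mul_le (m n : Matrix I I A) : cnorm (m * n) ≤ cnorm m * cnorm n := by
  unfold cnorm
  exact norm_mul_le (CStarMatrix.ofMatrix m : CStarMatrix I I A) (CStarMatrix.ofMatrix n)

open scoped InnerProductSpace in
private theorem cvnorm_submatrix_le (m : Matrix I I A) (f : I' → I) (hf : Function.Injective f) :
    cnorm (m.submatrix f f) ≤ cnorm m := by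
  unfold cnorm
  set M : CStarMatrix I I A := CStarMatrix.ofMatrix m with hM
  have h0 : (‖M‖ : ℝ) = ((⟨‖M‖, norm_nonneg _⟩ : NNReal) : ℝ) := rfl
  rw [h0]
  apply CStarMatrix.norm_le_of_forall_inner_le
  intro v w
  let ext : WithCStarModule A (I' → A) → WithCStarModule A (I → A) := fun v =>
    (WithCStarModule.equiv A (I → A)).symm (Function.extend f v 0)
  have hext1 : ∀ (v : WithCStarModule A (I' → A)) (i : I'), ext v (f i) = v i := fun v i =>
    hf.extend_apply _ _ i
  have hext0 : ∀ (v : WithCStarModule A (I' → A)) (k : I), k ∉ Set.range f → ext v k = 0 :=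
    fun v k hk => Function.extend_apply' _ _ _ hk
  have hnorm : ∀ v : WithCStarModule A (I' → A), ‖ext v‖ = ‖v‖ := by
    intro v
    rw [WithCStarModule.pi_norm, WithCStarModule.pi_norm]
    congr 2
    symm
    refine Fintype.sum_of_injective f hf _ _ ?_ ?_
    · intro k hk
      rw [hext0 v k hk]
      simp
    · intro i
      rw [hext1]
  have key : ⟪w, CStarMatrix.toCLM (CStarMatrix.ofMatrix (m.submatrix f f)) v⟫_A =
      ⟪ext w, CStarMatrix.toCLM M (ext v)⟫_A := by
    rw [CStarMatrix.toCLM_apply_eq_sum, CStarMatrix.toCLM_apply_eq_sum, WithCStarModule.pi_inner,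
      WithCStarModule.pi_inner]
    simp only [WithCStarModule.equiv_symm_pi_apply, WithCStarModule.inner_def]
    refine Fintype.sum_of_injective f hf _ _ ?_ ?_
    · intro k hk
      rw [hext0 w k hk]
      simp
    · intro j
      rw [hext1]
      congr 1
      refine Fintype.sum_of_injective f hf _ _ ?_ ?_
      · intro k hk
        rw [hext0 v k hk]
        simp
      · intro i
        rw [hext1]
        rfl
  rw [key]
  calc ‖⟪ext w, CStarMatrix.toCLM M (ext v)⟫_A‖ ≤ ‖ext w‖ * ‖CStarMatrix.toCLM M (ext v)‖ :=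
        CStarModule.norm_inner_le _
    _ ≤ ‖ext w‖ * (‖M‖ * ‖ext v‖) := by
        gcongr
        exact (CStarMatrix.toCLM M).le_opNorm _
    _ = ‖M‖ * ‖v‖ * ‖w‖ := by
        rw [hnorm, hnorm]
        ring

private theorem cvnorm_diag_le [DecidableEq I] (p : I → Prop) [DecidablePred p] :
    cnorm (Matrix.diagonal fun i => if p i then (1 : A) else 0) ≤ 1 := by
  unfold cnorm
  set P : CStarMatrix I I A :=
    CStarMatrix.ofMatrix (Matrix.diagonal fun i => if p i then (1 : A) else 0) with hP
  have h1 : star P * P = P := by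
    ext i j
    rw [CStarMatrix.mul_apply]
    simp only [CStarMatrix.star_apply, hP, CStarMatrix.ofMatrix_apply, Matrix.diagonal_apply]
    rw [Finset.sum_eq_single i]
    · by_cases h : i = j
      · subst h
        by_cases hp : p i <;> simp [hp]
      · simp [h]
    · intro k _ hk
      simp [hk]
    · intro h
      exact absurd (Finset.mem_univ i) h
  have h2 : ‖P‖ * ‖P‖ = ‖P‖ := by
    rw [← CStarRing.norm_star_mul_self, h1]
  nlinarith [norm_nonneg P]

private theorem cvnorm_inv [DecidableEq I] (m : Matrix I I A) (hm : cnorm m < 1) :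
    ∃ N : Matrix I I A, (1 - m) * N = 1 := by
  unfold cnorm at hm
  obtain ⟨u, hu⟩ := isUnit_one_sub_of_norm_lt_one hm
  refine ⟨CStarMatrix.ofMatrix.symm (↑u⁻¹ : CStarMatrix I I A), ?_⟩
  have := u.mul_inv
  rw [hu] at this
  exact this

end cvnorm_aux

theorem cnorm_nonneg (m : Matrix I I A) : 0 ≤ cnorm m := cvnorm_nonneg m

theorem cnorm_add_le (m n : Matrix I I A) : cnorm (m + n) ≤ cnorm m + cnorm n :=
  cvnorm_add_le m n

theorem cnorm_neg (m : Matrix I I A) : cnorm (-m) = cnorm m := cvnorm_neg m

theorem cnorm_mul_le (m n : Matrix I I A) : cnorm (m * n) ≤ cnorm m * cnorm n :=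
  cvnorm_mul_le m n

/-- a corner has smaller norm -/
theorem cnorm_submatrix_le (m : Matrix I I A) (f : I' → I) (hf : Function.Injective f) :
    cnorm (m.submatrix f f) ≤ cnorm m := cvnorm_submatrix_le m f hf

theorem cnorm_diag_le [DecidableEq I] (p : I → Prop) [DecidablePred p] :
    cnorm (Matrix.diagonal fun i => if p i then (1 : A) else 0) ≤ 1 := cvnorm_diag_le p

theorem cnorm_inv [DecidableEq I] (m : Matrix I I A) (hm : cnorm m < 1) :
    ∃ N : Matrix I I A, (1 - m) * N = 1 := cvnorm_inv m hm

end Pool.Agent.MPb9c6dd
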