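import Pool.Agent.Lib.MP_b9c6dd_an.CvDefs

set_option autoImplicit false

namespace Pool.Agent.MPb9c6dd

variable {A B κ : Type} [CStarAlgebra A] [CStarAlgebra B] {α : A ≃⋆ₐ[ℂ] A}
  {ι : A →⋆ₐ[ℂ] B} {U : unitary B}

private lemma cvPoly_extend (ι : A →⋆ₐ[ℂ] B) (U : unitary B) (K K' : ℕ) (hK : K ≤ K')
    (c : ℤ → A) :
    ∃ c' : ℤ → A, pol ι U (Finset.Icc (-(K : ℤ)) K) c =
      pol ι U (Finset.Icc (-(K' : ℤ)) K') c' := by
  classical
  refine ⟨fun k => if k ∈ Finset.Icc (-(K : ℤ)) K then c k else 0, ?_⟩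
  unfold pol
  have hsub : Finset.Icc (-(K : ℤ)) K ⊆ Finset.Icc (-(K' : ℤ)) K' := by
    intro k hk
    rw [Finset.mem_Icc] at hk ⊢
    omega
  rw [← Finset.sum_subset hsub]
  · refine Finset.sum_congr rfl fun k hk => ?_
    beta_reduce
    rw [if_pos hk]
  · intro k _ hk
    beta_reduce
    rw [if_neg hk, map_zero, zero_mul]

private lemma cvPoly_add (ι : A →⋆ₐ[ℂ] B) (U : unitary B) (s : Finset ℤ) (c d : ℤ → A) :
    pol ι U s c + pol ι U s d = pol ι U s (fun k => c k + d k) := by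
  unfold pol
  rw [← Finset.sum_add_distrib]
  refine Finset.sum_congr rfl fun k _ => ?_
  rw [map_add, add_mul]

private lemma cvPoly_single (ι : A →⋆ₐ[ℂ] B) (U : unitary B) (K : ℕ) (a : A) (m : ℤ)
    (hm : m ∈ Finset.Icc (-(K : ℤ)) K) :
    ι a * upw U m = pol ι U (Finset.Icc (-(K : ℤ)) K) (fun k => if k = m then a else 0) := by
  classical
  unfold pol
  rw [Finset.sum_eq_single m]
  · beta_reduce
    rw [if_pos rfl]
  · intro k _ hk
    beta_reduce
    rw [if_neg hk, map_zero, zero_mul]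
  · intro h
    exact absurd hm h

theorem CP.isPl_mul (h : CP α ι U) {b c : B} (hb : IsPl ι U b) (hc : IsPl ι U c) :
    IsPl ι U (b * c) := by
  obtain ⟨K, c, rfl⟩ := hb
  obtain ⟨L, d, rfl⟩ := hc
  obtain ⟨e, he⟩ := h.pol_mul K L c d
  exact ⟨K + L, e, he⟩

theorem isPl_add {b c : B} (hb : IsPl ι U b) (hc : IsPl ι U c) : IsPl ι U (b + c) := by
  obtain ⟨K, c, rfl⟩ := hb
  obtain ⟨L, d, rfl⟩ := hc
  obtain ⟨c', hc'⟩ := cvPoly_extend ι U K (max K L) (le_max_left _ _) c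
  obtain ⟨d', hd'⟩ := cvPoly_extend ι U L (max K L) (le_max_right _ _) d
  exact ⟨max K L, _, by rw [hc', hd', cvPoly_add]⟩

theorem isPl_neg {b : B} (hb : IsPl ι U b) : IsPl ι U (-b) := by
  obtain ⟨K, c, rfl⟩ := hb
  refine ⟨K, fun k => -c k, ?_⟩
  unfold pol
  rw [← Finset.sum_neg_distrib]
  refine Finset.sum_congr rfl fun k _ => ?_
  rw [map_neg, neg_mul]

theorem isPl_sub {b c : B} (hb : IsPl ι U b) (hc : IsPl ι U c) : IsPl ι U (b - c) := by
  rw [sub_eq_add_neg]
  exact isPl_add hb (isPl_neg hc)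

theorem isPl_ι (a : A) : IsPl ι U (ι a) := by
  refine ⟨0, fun k => if k = 0 then a else 0, ?_⟩
  rw [← cvPoly_single ι U 0 a 0 (by simp), upw_zero, mul_one]

theorem isPl_one : IsPl ι U (1 : B) := by
  have := isPl_ι (ι := ι) (U := U) (1 : A)
  rwa [map_one] at this

theorem isPl_zero : IsPl ι U (0 : B) := by
  have := isPl_ι (ι := ι) (U := U) (0 : A)
  rwa [map_zero] at this

theorem isPl_upw (k : ℤ) : IsPl ι U (upw U k) := by
  refine ⟨k.natAbs, fun j => if j = k then 1 else 0, ?_⟩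
  rw [← cvPoly_single ι U k.natAbs 1 k (by rw [Finset.mem_Icc]; omega), map_one, one_mul]

theorem CP.isPl_dense (h : CP α ι U) (b : B) (ε : ℝ) (hε : 0 < ε) :
    ∃ c, IsPl ι U c ∧ ‖b - c‖ < ε := by
  obtain ⟨K, c, hc⟩ := h.pol_dense b ε hε
  exact ⟨_, ⟨K, c, rfl⟩, hc⟩

variable [Fintype κ] [DecidableEq κ]

private lemma cvPoly_sum {I : Type} (s : Finset I) (f : I → B) (hf : ∀ i ∈ s, IsPl ι U (f i)) :
    IsPl ι U (∑ i ∈ s, f i) := by
  classical
  induction s using Finset.induction_on with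
  | empty =>
    rw [Finset.sum_empty]
    exact isPl_zero
  | insert a s ha ih =>
    rw [Finset.sum_insert ha]
    exact isPl_add (hf a (Finset.mem_insert_self a s))
      (ih fun i hi => hf i (Finset.mem_insert_of_mem hi))

theorem CP.isPlM_mul (h : CP α ι U) {b c : Matrix κ κ B} (hb : IsPlM ι U b) (hc : IsPlM ι U c) :
    IsPlM ι U (b * c) := by
  intro i j
  rw [Matrix.mul_apply]
  exact cvPoly_sum _ _ fun k _ => h.isPl_mul (hb i k) (hc k j)

theorem isPlM_add {b c : Matrix κ κ B} (hb : IsPlM ι U b) (hc : IsPlM ι U c) :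
    IsPlM ι U (b + c) := fun i j => isPl_add (hb i j) (hc i j)

theorem isPlM_sub {b c : Matrix κ κ B} (hb : IsPlM ι U b) (hc : IsPlM ι U c) :
    IsPlM ι U (b - c) := fun i j => isPl_sub (hb i j) (hc i j)

theorem isPlM_one : IsPlM ι U (1 : Matrix κ κ B) := by
  intro i j
  rw [Matrix.one_apply]
  split_ifs
  · exact isPl_one
  · exact isPl_zero

theorem isPlM_single (i j : κ) {b : B} (hb : IsPl ι U b) : IsPlM ι U (Matrix.single i j b) := by
  intro i' j'
  rw [Matrix.single_apply]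
  split_ifs
  · exact hb
  · exact isPl_zero

private theorem cvPoly_coef (h : CP α ι U) {E : B →L[ℂ] A} (hE : IsEx α ι U E) (s : Finset ℤ)
    (c : ℤ → A) (n t : ℤ) :
    E (upw U (-n) * pol ι U s c * upw U t) = if n - t ∈ s then (α ^ (-n)) (c (n - t)) else 0 := by
  classical
  unfold pol
  rw [Finset.mul_sum, Finset.sum_mul, map_sum]
  have e : ∀ k ∈ s, E (upw U (-n) * (ι (c k) * upw U k) * upw U t) =
      if n - t = k then (α ^ (-n)) (c k) else 0 := by
    intro k _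
    rw [← mul_assoc, h.upw_mul_ι, mul_assoc, mul_assoc, hE.ι_mul, ← upw_add, ← upw_add, hE.pw]
    by_cases hk : n - t = k
    · rw [if_pos hk, if_pos (by omega), mul_one]
    · rw [if_neg hk, if_neg (by omega), mul_zero]
  rw [Finset.sum_congr rfl e, Finset.sum_ite_eq]

/-- the windows of a polynomial are a band matrix -/
theorem CP.window_band (h : CP α ι U) {E : B →L[ℂ] A} (hE : IsEx α ι U E) {b : B}
    (hb : IsPl ι U b) :
    ∃ K : ℕ, ∀ s t : ℤ, E (upw U (-s) * b * upw U t) ≠ 0 → s ≤ t + K ∧ t ≤ s + K := by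
  obtain ⟨K, c, rfl⟩ := hb
  refine ⟨K, fun s t hst => ?_⟩
  rw [cvPoly_coef h hE] at hst
  by_cases hm : s - t ∈ Finset.Icc (-(K : ℤ)) K
  · rw [Finset.mem_Icc] at hm
    omega
  · rw [if_neg hm] at hst
    exact absurd rfl hst

/-- moving a coefficient through a power -/
private lemma cvPoly_move (h : CP α ι U) (n : ℤ) (a : A) :
    ι a * upw U n = upw U n * ι ((α ^ (-n)) a) := by
  rw [h.upw_mul_ι, ← aut_add, add_neg_cancel, zpow_zero]
  rfl

/-- the product formula for windows -/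
theorem CP.window_mul (h : CP α ι U) {E : B →L[ℂ] A} (hE : IsEx α ι U E) (b : B) {c : B}
    (hc : IsPl ι U c) (s r : ℤ) :
    ∃ K : ℕ, ∀ S : Finset ℤ, Finset.Icc (r - K) (r + K) ⊆ S →
      E (upw U (-s) * (b * c) * upw U r) =
        ∑ t ∈ S, E (upw U (-s) * b * upw U t) * E (upw U (-t) * c * upw U r) := by
  classical
  obtain ⟨K, c, rfl⟩ := hc
  refine ⟨K, fun S hS => ?_⟩
  have e1 : E (upw U (-s) * (b * pol ι U (Finset.Icc (-(K : ℤ)) K) c) * upw U r) =
      ∑ k ∈ Finset.Icc (-(K : ℤ)) K,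
        E (upw U (-s) * b * upw U (k + r)) * (α ^ (-(k + r))) (c k) := by
    unfold pol
    rw [Finset.mul_sum, Finset.mul_sum, Finset.sum_mul, map_sum]
    refine Finset.sum_congr rfl fun k _ => ?_
    rw [← hE.mul_ι]
    congr 1
    calc upw U (-s) * (b * (ι (c k) * upw U k)) * upw U r
        = upw U (-s) * b * (ι (c k) * upw U (k + r)) := by
          rw [upw_add]; simp only [mul_assoc]
      _ = _ := by rw [cvPoly_move h, ← mul_assoc]
  have e2 : ∑ t ∈ S, E (upw U (-s) * b * upw U t) *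
        E (upw U (-t) * pol ι U (Finset.Icc (-(K : ℤ)) K) c * upw U r) =
      ∑ t ∈ Finset.Icc (r - K) (r + K), E (upw U (-s) * b * upw U t) *
        E (upw U (-t) * pol ι U (Finset.Icc (-(K : ℤ)) K) c * upw U r) := by
    refine (Finset.sum_subset hS fun t _ ht => ?_).symm
    rw [cvPoly_coef h hE, if_neg, mul_zero]
    intro hm
    apply ht
    rw [Finset.mem_Icc] at hm ⊢
    omega
  rw [e1, e2]
  refine Finset.sum_nbij' (fun k => k + r) (fun t => t - r) ?_ ?_ ?_ ?_ ?_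
  · intro k hk
    rw [Finset.mem_Icc] at hk ⊢
    omega
  · intro k hk
    rw [Finset.mem_Icc] at hk ⊢
    omega
  · intro k _
    ring
  · intro k _
    ring
  · intro k hk
    rw [cvPoly_coef h hE, add_sub_cancel_right, if_pos hk]

/-- windows of `a b c`, `a, c ∈ A` -/
theorem CP.window_sand (h : CP α ι U) {E : B →L[ℂ] A} (hE : IsEx α ι U E) (a c : A) (b : B)
    (s t : ℤ) :
    E (upw U (-s) * (ι a * b * ι c) * upw U t) =
      (α ^ (-s)) a * E (upw U (-s) * b * upw U t) * (α ^ (-t)) c := by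
  rw [← hE.ι_mul, ← hE.mul_ι]
  congr 1
  calc upw U (-s) * (ι a * b * ι c) * upw U t
      = (upw U (-s) * ι a) * b * (ι c * upw U t) := by simp only [mul_assoc]
    _ = (ι ((α ^ (-s)) a) * upw U (-s)) * b * (upw U t * ι ((α ^ (-t)) c)) := by
        rw [h.upw_mul_ι, cvPoly_move h t c]
    _ = _ := by simp only [mul_assoc]

end Pool.Agent.MPb9c6dd
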