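import Pool.Agent.Lib.MP_b9c6dd_an.CvPoly
import Pool.Agent.Lib.MP_b9c6dd_an.CvBand

set_option autoImplicit false

namespace Pool.Agent.MPb9c6dd

variable {A B κ : Type} [CStarAlgebra A] [CStarAlgebra B] {α : A ≃⋆ₐ[ℂ] A}
  {ι : A →⋆ₐ[ℂ] B} {U : unitary B} [Fintype κ] [DecidableEq κ]

private lemma cvtoep_band (h : CP α ι U) {E : B →L[ℂ] A} (hE : IsEx α ι U E) {b : Matrix κ κ B}
    (hb : IsPlM ι U b) :
    ∃ K : ℕ, ∀ (k l : κ) (s t : ℤ), E (upw U (-s) * b k l * upw U t) ≠ 0 →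
      s ≤ t + K ∧ t ≤ s + K := by
  choose K hK using fun k l => h.window_band hE (hb k l)
  refine ⟨∑ k, ∑ l, K k l, fun k l s t hst => ?_⟩
  have h1 := hK k l s t hst
  have h2 : K k l ≤ ∑ k, ∑ l, K k l :=
    le_trans (Finset.single_le_sum (f := fun l => K k l) (fun _ _ => Nat.zero_le _)
      (Finset.mem_univ l))
      (Finset.single_le_sum (f := fun k => ∑ l, K k l) (fun _ _ => Nat.zero_le _)
        (Finset.mem_univ k))
  have h3 : (K k l : ℤ) ≤ ((∑ k, ∑ l, K k l : ℕ) : ℤ) := by exact_mod_cast h2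
  omega

private lemma cvtoep_fin (h : CP α ι U) {E : B →L[ℂ] A} (hE : IsEx α ι U E) {b : Matrix κ κ B}
    (hb : IsPlM ι U b) (j : κ × ℕ) :
    {i : κ × ℕ | E (upw U (-(i.2 : ℤ)) * b i.1 j.1 * upw U (j.2 : ℤ)) ≠ 0}.Finite := by
  obtain ⟨K, hK⟩ := cvtoep_band h hE hb
  refine (((Finset.univ : Finset κ) ×ˢ Finset.range (j.2 + K + 1)).finite_toSet).subset ?_
  intro i hi
  have h1 := hK _ _ _ _ hi
  rw [Finset.mem_coe, Finset.mem_product]
  refine ⟨Finset.mem_univ _, ?_⟩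
  rw [Finset.mem_range]
  omega

theorem CP.cf_TT (h : CP α ι U) {E : B →L[ℂ] A} (hE : IsEx α ι U E) {b : Matrix κ κ B}
    (hb : IsPlM ι U b) (i j : κ × ℕ) :
    cf (TT U E b) i j = E (upw U (-(i.2 : ℤ)) * b i.1 j.1 * upw U (j.2 : ℤ)) := by
  unfold TT
  rw [dif_pos (cvtoep_fin h hE hb), cf_mkE]

theorem CP.TT_band (h : CP α ι U) {E : B →L[ℂ] A} (hE : IsEx α ι U E) {b : Matrix κ κ B}
    (hb : IsPlM ι U b) : ∃ K : ℕ, Band K (TT U E b) := by
  obtain ⟨K, hK⟩ := cvtoep_band h hE hb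
  refine ⟨K, fun i j hij => ?_⟩
  rw [h.cf_TT hE hb] at hij
  have h1 := hK _ _ _ _ hij
  omega

theorem CP.TT_add (h : CP α ι U) {E : B →L[ℂ] A} (hE : IsEx α ι U E) {b c : Matrix κ κ B}
    (hb : IsPlM ι U b) (hc : IsPlM ι U c) : TT U E (b + c) = TT U E b + TT U E c := by
  apply EE_ext
  intro i j
  rw [cf_add, h.cf_TT hE (isPlM_add hb hc), h.cf_TT hE hb, h.cf_TT hE hc, Matrix.add_apply,
    mul_add, add_mul, map_add]

theorem CP.TT_sub (h : CP α ι U) {E : B →L[ℂ] A} (hE : IsEx α ι U E) {b c : Matrix κ κ B}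
    (hb : IsPlM ι U b) (hc : IsPlM ι U c) : TT U E (b - c) = TT U E b - TT U E c := by
  apply EE_ext
  intro i j
  rw [cf_sub, h.cf_TT hE (isPlM_sub hb hc), h.cf_TT hE hb, h.cf_TT hE hc, Matrix.sub_apply,
    mul_sub, sub_mul, map_sub]

private lemma cvtoep_upw {E : B →L[ℂ] A} (hE : IsEx α ι U E) (s k t : ℤ) :
    E (upw U (-s) * upw U k * upw U t) = if s = t + k then 1 else 0 := by
  rw [← upw_add, ← upw_add, hE.pw]
  by_cases hs : s = t + k
  · rw [if_pos hs, if_pos (by omega)]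
  · rw [if_neg hs, if_neg (by omega)]

theorem CP.TT_one (h : CP α ι U) {E : B →L[ℂ] A} (hE : IsEx α ι U E) :
    TT U E (1 : Matrix κ κ B) = 1 := by
  apply EE_ext
  intro i j
  rw [h.cf_TT hE isPlM_one, cf_one, Matrix.one_apply]
  by_cases hij : i.1 = j.1
  · rw [if_pos hij, ← upw_zero U, cvtoep_upw hE]
    by_cases h2 : i.2 = j.2
    · rw [if_pos (by omega), if_pos (Prod.ext hij h2)]
    · rw [if_neg (by omega), if_neg (fun e => h2 (by rw [e]))]
  · rw [if_neg hij, mul_zero, zero_mul, map_zero, if_neg (fun e => hij (by rw [e]))]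

private lemma cvtoep_entry (k0 : κ) (u : B) (i j : κ) :
    (1 + Matrix.single k0 k0 (u - 1) : Matrix κ κ B) i j =
      if i = j then (if j = k0 then u else 1) else 0 := by
  rw [Matrix.add_apply, Matrix.one_apply, Matrix.single_apply]
  by_cases hij : i = j
  · subst hij
    rw [if_pos rfl, if_pos rfl]
    by_cases hk : i = k0
    · subst hk
      rw [if_pos ⟨rfl, rfl⟩, if_pos rfl]
      abel
    · rw [if_neg (fun e => hk e.1.symm), if_neg hk, add_zero]
  · rw [if_neg hij, if_neg hij, if_neg (fun e => hij (e.1.symm.trans e.2)), add_zero]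

/-- coefficients of the Toeplitz operator of `diag(U, 1, …, 1)` -/
theorem CP.cf_TT_U (h : CP α ι U) {E : B →L[ℂ] A} (hE : IsEx α ι U E) (k0 : κ) (i j : κ × ℕ) :
    cf (TT U E (1 + Matrix.single k0 k0 ((U : B) - 1))) i j =
      if i.1 = j.1 ∧ i.2 = j.2 + (if j.1 = k0 then 1 else 0) then 1 else 0 := by
  have hU : upw U 1 = (U : B) := by
    unfold upw
    rw [zpow_one]
  have hpl : IsPlM ι U (1 + Matrix.single k0 k0 ((U : B) - 1)) :=
    isPlM_add isPlM_one (isPlM_single k0 k0 (isPl_sub (hU ▸ isPl_upw 1) isPl_one))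
  rw [h.cf_TT hE hpl, cvtoep_entry]
  by_cases hij : i.1 = j.1
  · rw [if_pos hij]
    by_cases hk : j.1 = k0
    · rw [if_pos hk, if_pos hk, ← hU, cvtoep_upw hE]
      by_cases h2 : i.2 = j.2 + 1
      · rw [if_pos (by omega), if_pos ⟨hij, h2⟩]
      · rw [if_neg (by omega), if_neg (fun e => h2 e.2)]
    · rw [if_neg hk, if_neg hk, ← upw_zero U, cvtoep_upw hE]
      by_cases h2 : i.2 = j.2 + 0
      · rw [if_pos (by omega), if_pos ⟨hij, h2⟩]
      · rw [if_neg (by omega), if_neg (fun e => h2 e.2)]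
  · rw [if_neg hij, mul_zero, zero_mul, map_zero, if_neg (fun e => hij e.1)]

/-- coefficients of the Toeplitz operator of `diag(U*, 1, …, 1)` -/
theorem CP.cf_TT_U' (h : CP α ι U) {E : B →L[ℂ] A} (hE : IsEx α ι U E) (k0 : κ) (i j : κ × ℕ) :
    cf (TT U E (1 + Matrix.single k0 k0 (star (U : B) - 1))) i j =
      if j.1 = i.1 ∧ j.2 = i.2 + (if i.1 = k0 then 1 else 0) then 1 else 0 := by
  have hU1 : upw U 1 = (U : B) := by
    unfold upw
    rw [zpow_one]
  have hU : upw U (-1) = star (U : B) := by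
    rw [← upw_star, hU1]
  have hpl : IsPlM ι U (1 + Matrix.single k0 k0 (star (U : B) - 1)) :=
    isPlM_add isPlM_one (isPlM_single k0 k0 (isPl_sub (hU ▸ isPl_upw (-1)) isPl_one))
  rw [h.cf_TT hE hpl, cvtoep_entry]
  by_cases hij : i.1 = j.1
  · rw [if_pos hij]
    by_cases hk : j.1 = k0
    · rw [if_pos hk, if_pos (hij.trans hk), ← hU, cvtoep_upw hE]
      by_cases h2 : j.2 = i.2 + 1
      · rw [if_pos (by omega), if_pos ⟨hij.symm, h2⟩]
      · rw [if_neg (by omega), if_neg (fun e => h2 e.2)]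
    · have hk' : ¬ i.1 = k0 := fun e => hk (hij.symm.trans e)
      rw [if_neg hk, if_neg hk', ← upw_zero U, cvtoep_upw hE]
      by_cases h2 : j.2 = i.2 + 0
      · rw [if_pos (by omega), if_pos ⟨hij.symm, h2⟩]
      · rw [if_neg (by omega), if_neg (fun e => h2 e.2)]
  · rw [if_neg hij, mul_zero, zero_mul, map_zero, if_neg (fun e => hij e.1.symm)]

/-- an off-diagonal elementary Toeplitz operator has square zero -/
theorem CP.TT_single_sq (h : CP α ι U) {E : B →L[ℂ] A} (hE : IsEx α ι U E) {i j : κ}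
    (hij : i ≠ j) {b : B} (hb : IsPl ι U b) :
    TT U E (Matrix.single i j b) * TT U E (Matrix.single i j b) = 0 := by
  have hpl : IsPlM ι U (Matrix.single i j b) := isPlM_single i j hb
  obtain ⟨L, hL⟩ := h.TT_band hE hpl
  apply EE_ext
  intro x y
  rw [cf_mul_band hL x y (y.2 + L + 1) (by omega), cf_zero]
  refine Finset.sum_eq_zero fun k _ => ?_
  by_cases hk : i = k.1
  · have h1 : cf (TT U E (Matrix.single i j b)) x (k.1, (k.2 : ℕ)) = 0 := by
      rw [h.cf_TT hE hpl, Matrix.single_apply, if_neg (fun e => hij (hk.trans e.2.symm)),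
        mul_zero, zero_mul, map_zero]
    rw [h1, zero_mul]
  · have h1 : cf (TT U E (Matrix.single i j b)) (k.1, (k.2 : ℕ)) y = 0 := by
      rw [h.cf_TT hE hpl, Matrix.single_apply, if_neg (fun e => hk e.1),
        mul_zero, zero_mul, map_zero]
    rw [h1, mul_zero]

end Pool.Agent.MPb9c6dd
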