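import Pool.Agent.Lib.MP_b9c6dd_an.CvToep

set_option autoImplicit false

namespace Pool.Agent.MPb9c6dd

variable {A B κ : Type} [CStarAlgebra A] [CStarAlgebra B] {α : A ≃⋆ₐ[ℂ] A}
  {ι : A →⋆ₐ[ℂ] B} {U : unitary B} [Fintype κ] [DecidableEq κ]

omit [DecidableEq κ] in
/-- a common band width for the windows of all entries -/
private lemma cvToepMul_width (h : CP α ι U) {E : B →L[ℂ] A} (hE : IsEx α ι U E)
    {b : Matrix κ κ B} (hb : IsPlM ι U b) :
    ∃ W : ℕ, ∀ (i k : κ) (s t : ℤ), E (upw U (-s) * b i k * upw U t) ≠ 0 →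
      s ≤ t + W ∧ t ≤ s + W := by
  have h1 : ∀ i k : κ, ∃ K : ℕ, ∀ s t : ℤ, E (upw U (-s) * b i k * upw U t) ≠ 0 →
      s ≤ t + K ∧ t ≤ s + K := fun i k => h.window_band hE (hb i k)
  choose K hK using h1
  refine ⟨∑ i, ∑ k, K i k, fun i k s t hne => ?_⟩
  have h2 := hK i k s t hne
  have h3 : K i k ≤ ∑ i, ∑ k, K i k :=
    le_trans (Finset.single_le_sum (f := fun k => K i k) (fun _ _ => Nat.zero_le _)
      (Finset.mem_univ k))
      (Finset.single_le_sum (f := fun i => ∑ k, K i k) (fun _ _ => Nat.zero_le _)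
      (Finset.mem_univ i))
  have h4 : (K i k : ℤ) ≤ ((∑ i, ∑ k, K i k : ℕ) : ℤ) := by exact_mod_cast h3
  constructor
  · linarith [h2.1]
  · linarith [h2.2]

omit [Fintype κ] [DecidableEq κ] in
/-- the window formula with the sum split at zero -/
private lemma cvToepMul_split (h : CP α ι U) {E : B →L[ℂ] A} (hE : IsEx α ι U E) (b : B) {c : B}
    (hc : IsPl ι U c) (s r : ℤ) :
    ∃ K : ℕ, ∀ n m : ℕ, K ≤ n → K ≤ m →
      E (upw U (-s) * (b * c) * upw U r) =
        (∑ t ∈ Finset.range n, E (upw U (-s) * b * upw U (t : ℤ)) *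
          E (upw U (-(t : ℤ)) * c * upw U r)) +
        ∑ t ∈ Finset.range m, E (upw U (-s) * b * upw U (-(t : ℤ) - 1)) *
          E (upw U ((t : ℤ) + 1) * c * upw U r) := by
  obtain ⟨K, hK⟩ := h.window_mul hE b hc s r
  refine ⟨K + r.natAbs + 1, fun n m hn hm => ?_⟩
  set f : ℤ → A := fun t => E (upw U (-s) * b * upw U t) * E (upw U (-t) * c * upw U r) with hf
  have hdisj : Disjoint ((Finset.range n).image (fun t : ℕ => (t : ℤ)))
      ((Finset.range m).image (fun t : ℕ => -(t : ℤ) - 1)) := by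
    rw [Finset.disjoint_left]
    intro x hx hx'
    rw [Finset.mem_image] at hx hx'
    obtain ⟨a, _, rfl⟩ := hx
    obtain ⟨a', _, ha'⟩ := hx'
    omega
  rw [hK (((Finset.range n).image (fun t : ℕ => (t : ℤ))) ∪
    ((Finset.range m).image (fun t : ℕ => -(t : ℤ) - 1))) ?_, Finset.sum_union hdisj,
    Finset.sum_image, Finset.sum_image]
  · congr 1
    refine Finset.sum_congr rfl fun t _ => ?_
    have e : -(-(t : ℤ) - 1) = (t : ℤ) + 1 := by ring
    rw [e]
  · intro a _ a' _ haa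
    have haa' : -(a : ℤ) - 1 = -(a' : ℤ) - 1 := haa
    omega
  · intro a _ a' _ haa
    have haa' : (a : ℤ) = (a' : ℤ) := haa
    omega
  · intro x hx
    rw [Finset.mem_Icc] at hx
    rw [Finset.mem_union, Finset.mem_image, Finset.mem_image]
    rcases le_or_gt 0 x with h0 | h0
    · left
      refine ⟨x.toNat, ?_, ?_⟩
      · rw [Finset.mem_range]
        omega
      · omega
    · right
      refine ⟨(-x - 1).toNat, ?_, ?_⟩
      · rw [Finset.mem_range]
        omega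
      · omega

/-- the defect of multiplicativity -/
theorem CP.TT_mul (h : CP α ι U) {E : B →L[ℂ] A} (hE : IsEx α ι U E) {b c : Matrix κ κ B}
    (hb : IsPlM ι U b) (hc : IsPlM ι U c) :
    ∃ K : ℕ, IsFin K (TT U E (b * c) - TT U E b * TT U E c) ∧
      ∀ i j : κ × ℕ, cf (TT U E (b * c) - TT U E b * TT U E c) i j =
        ∑ k : κ, ∑ t ∈ Finset.range K,
          E (upw U (-(i.2 : ℤ)) * b i.1 k * upw U (-(t : ℤ) - 1)) *
            E (upw U ((t : ℤ) + 1) * c k j.1 * upw U (j.2 : ℤ)) := by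
  obtain ⟨Wb, hWb⟩ := cvToepMul_width h hE hb
  obtain ⟨Wc, hWc⟩ := cvToepMul_width h hE hc
  have key : ∀ i j : κ × ℕ, cf (TT U E (b * c) - TT U E b * TT U E c) i j =
        ∑ k : κ, ∑ t ∈ Finset.range (Wb + Wc),
          E (upw U (-(i.2 : ℤ)) * b i.1 k * upw U (-(t : ℤ) - 1)) *
            E (upw U ((t : ℤ) + 1) * c k j.1 * upw U (j.2 : ℤ)) := by
    intro i j
    have h1 : ∀ k : κ, ∃ K : ℕ, ∀ n m : ℕ, K ≤ n → K ≤ m →
      E (upw U (-(i.2 : ℤ)) * (b i.1 k * c k j.1) * upw U (j.2 : ℤ)) =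
        (∑ t ∈ Finset.range n, E (upw U (-(i.2 : ℤ)) * b i.1 k * upw U (t : ℤ)) *
          E (upw U (-(t : ℤ)) * c k j.1 * upw U (j.2 : ℤ))) +
        ∑ t ∈ Finset.range m, E (upw U (-(i.2 : ℤ)) * b i.1 k * upw U (-(t : ℤ) - 1)) *
          E (upw U ((t : ℤ) + 1) * c k j.1 * upw U (j.2 : ℤ)) :=
      fun k => cvToepMul_split h hE (b i.1 k) (hc k j.1) (i.2 : ℤ) (j.2 : ℤ)
    choose K hK using h1
    set N : ℕ := (∑ k, K k) + Wb + Wc + j.2 + 1 with hN
    have hKN : ∀ k, K k ≤ N := by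
      intro k
      have := Finset.single_le_sum (f := fun k => K k) (fun _ _ => Nat.zero_le _)
        (Finset.mem_univ k)
      omega
    have hmul : cf (TT U E (b * c)) i j = ∑ k : κ,
        ((∑ t ∈ Finset.range N, E (upw U (-(i.2 : ℤ)) * b i.1 k * upw U (t : ℤ)) *
          E (upw U (-(t : ℤ)) * c k j.1 * upw U (j.2 : ℤ))) +
        ∑ t ∈ Finset.range N, E (upw U (-(i.2 : ℤ)) * b i.1 k * upw U (-(t : ℤ) - 1)) *
          E (upw U ((t : ℤ) + 1) * c k j.1 * upw U (j.2 : ℤ))) := by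
      rw [h.cf_TT hE (h.isPlM_mul hb hc), Matrix.mul_apply, Finset.mul_sum, Finset.sum_mul,
        map_sum]
      exact Finset.sum_congr rfl fun k _ => hK k N N (hKN k) (hKN k)
    have hprod : cf (TT U E b * TT U E c) i j = ∑ k : κ,
        ∑ t ∈ Finset.range N, E (upw U (-(i.2 : ℤ)) * b i.1 k * upw U (t : ℤ)) *
          E (upw U (-(t : ℤ)) * c k j.1 * upw U (j.2 : ℤ)) := by
      rw [cf_mul _ _ i j (Finset.univ ×ˢ Finset.range N), Finset.sum_product]
      · refine Finset.sum_congr rfl fun k _ => Finset.sum_congr rfl fun t _ => ?_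
        rw [h.cf_TT hE hb, h.cf_TT hE hc]
      · intro k hk
        rw [Finset.mem_product, Finset.mem_range] at hk
        rw [h.cf_TT hE hc]
        by_contra hne
        have h2 := hWc k.1 j.1 (k.2 : ℤ) (j.2 : ℤ) hne
        apply hk
        refine ⟨Finset.mem_univ _, ?_⟩
        omega
    rw [cf_sub, hmul, hprod, Finset.sum_add_distrib, add_sub_cancel_left]
    refine Finset.sum_congr rfl fun k _ => ?_
    symm
    apply Finset.sum_subset
    · intro t ht
      rw [Finset.mem_range] at ht ⊢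
      omega
    · intro t _ ht
      rw [Finset.mem_range, not_lt] at ht
      have h3 : E (upw U (-(i.2 : ℤ)) * b i.1 k * upw U (-(t : ℤ) - 1)) = 0 := by
        by_contra hne
        have h4 := hWb i.1 k (i.2 : ℤ) (-(t : ℤ) - 1) hne
        omega
      rw [h3, zero_mul]
  refine ⟨Wb + Wc, ?_, key⟩
  intro i j hne
  rw [key] at hne
  obtain ⟨k, _, hk⟩ := Finset.exists_ne_zero_of_sum_ne_zero hne
  obtain ⟨t, _, ht⟩ := Finset.exists_ne_zero_of_sum_ne_zero hk
  have h1 := hWb i.1 k (i.2 : ℤ) (-(t : ℤ) - 1) (left_ne_zero_of_mul ht)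
  have e : (t : ℤ) + 1 = -(-(t : ℤ) - 1) := by ring
  have h2' := right_ne_zero_of_mul ht
  rw [e] at h2'
  have h2 := hWc k j.1 (-(t : ℤ) - 1) (j.2 : ℤ) h2'
  constructor
  · omega
  · omega

omit [Fintype κ] in
/-- windows of a diagonal symbol off the diagonal -/
private lemma cvToepMul_entry (h : CP α ι U) {E : B →L[ℂ] A} (hE : IsEx α ι U E) (k1 : κ)
    (y : A) (p : B) (i k : κ) (s t : ℤ) (hst : s ≠ t) :
    E (upw U (-s) * (1 + Matrix.single k1 k1 (ι y * p * ι y) : Matrix κ κ B) i k * upw U t) =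
      if i = k1 ∧ k = k1 then (α ^ (-s)) y * E (upw U (-s) * p * upw U t) * (α ^ (-t)) y
      else 0 := by
  rw [Matrix.add_apply, mul_add, add_mul, map_add]
  have h1 : E (upw U (-s) * (1 : Matrix κ κ B) i k * upw U t) = 0 := by
    rw [Matrix.one_apply]
    split_ifs
    · rw [mul_one, ← upw_add, hE.pw, if_neg]
      omega
    · rw [mul_zero, zero_mul, map_zero]
  rw [h1, zero_add]
  split_ifs with hik
  · rw [hik.1, hik.2, Matrix.single_apply_same, h.window_sand hE]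
  · have h2 : (Matrix.single k1 k1 (ι y * p * ι y) : Matrix κ κ B) i k = 0 := by
      rw [Matrix.single_apply, if_neg]
      exact fun h3 => hik ⟨h3.1.symm, h3.2.symm⟩
    rw [h2, mul_zero, zero_mul, map_zero]

/-- the defect for symbols in `1 + yBy` -/
theorem CP.TT_hankel (h : CP α ι U) {E : B →L[ℂ] A} (hE : IsEx α ι U E) (k1 : κ) (y : A) (p q : B)
    (hp : IsPl ι U p) (hq : IsPl ι U q) :
    ∃ (K : ℕ) (c : ℕ → ℕ → A), ∀ i j : κ × ℕ,
      cf (TT U E ((1 + Matrix.single k1 k1 (ι y * p * ι y)) *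
          (1 + Matrix.single k1 k1 (ι y * q * ι y))) -
        TT U E (1 + Matrix.single k1 k1 (ι y * p * ι y)) *
          TT U E (1 + Matrix.single k1 k1 (ι y * q * ι y))) i j =
        if i.1 = k1 ∧ j.1 = k1 ∧ i.2 < K ∧ j.2 < K then
          (α ^ (-(i.2 : ℤ))) y * c i.2 j.2 * (α ^ (-(j.2 : ℤ))) y else 0 := by
  have hb : IsPlM ι U (1 + Matrix.single k1 k1 (ι y * p * ι y) : Matrix κ κ B) :=
    isPlM_add isPlM_one (isPlM_single k1 k1 (h.isPl_mul (h.isPl_mul (isPl_ι y) hp) (isPl_ι y)))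
  have hc : IsPlM ι U (1 + Matrix.single k1 k1 (ι y * q * ι y) : Matrix κ κ B) :=
    isPlM_add isPlM_one (isPlM_single k1 k1 (h.isPl_mul (h.isPl_mul (isPl_ι y) hq) (isPl_ι y)))
  obtain ⟨K, hfin, hK⟩ := h.TT_mul hE hb hc
  refine ⟨K, fun s r => ∑ t ∈ Finset.range K,
    E (upw U (-(s : ℤ)) * p * upw U (-(t : ℤ) - 1)) * ((α ^ ((t : ℤ) + 1)) y *
      (α ^ ((t : ℤ) + 1)) y) * E (upw U ((t : ℤ) + 1) * q * upw U (r : ℤ)), fun i j => ?_⟩
  split_ifs with hij
  · rw [hK, Finset.sum_eq_single k1]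
    · beta_reduce
      rw [Finset.mul_sum, Finset.sum_mul]
      refine Finset.sum_congr rfl fun t _ => ?_
      have e : (t : ℤ) + 1 = -(-(t : ℤ) - 1) := by ring
      rw [e, cvToepMul_entry h hE, cvToepMul_entry h hE, if_pos ⟨hij.1, rfl⟩,
        if_pos ⟨rfl, hij.2.1⟩]
      · simp only [mul_assoc]
      · omega
      · omega
    · intro k _ hk
      apply Finset.sum_eq_zero
      intro t _
      rw [cvToepMul_entry h hE, if_neg (fun h3 => hk h3.2), zero_mul]
      omega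
    · intro h3
      exact absurd (Finset.mem_univ _) h3
  · by_contra hne
    have h2 := hfin i j hne
    apply hne
    rw [hK]
    apply Finset.sum_eq_zero
    intro k _
    apply Finset.sum_eq_zero
    intro t _
    have e : (t : ℤ) + 1 = -(-(t : ℤ) - 1) := by ring
    rw [e, cvToepMul_entry h hE, cvToepMul_entry h hE]
    · by_cases h4 : i.1 = k1
      · have h5 : ¬ j.1 = k1 := fun h6 => hij ⟨h4, h6, h2.1, h2.2⟩
        rw [if_neg (fun h6 : k = k1 ∧ j.1 = k1 => h5 h6.2), mul_zero]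
      · rw [if_neg (fun h6 : i.1 = k1 ∧ k = k1 => h4 h6.1), zero_mul]
    · omega
    · omega

end Pool.Agent.MPb9c6dd
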