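import Pool.Agent.Lib.MP_b9c6dd_an.CPBasic

set_option autoImplicit false

open scoped BoundedContinuousFunction

namespace Pool.Agent.MPb9c6dd

variable {A B : Type} [CStarAlgebra A] [CStarAlgebra B] {α : A ≃⋆ₐ[ℂ] A}
  {ι : A →⋆ₐ[ℂ] B} {U : unitary B}

section order

attribute [local instance] CStarAlgebra.spectralOrder CStarAlgebra.spectralOrderedRing

private lemma faithful_antisymm (a : A) (h1 : IsPos a) (h2 : IsPos (-a)) : a = 0 := by
  have h3 : 0 ≤ a := CStarAlgebra.nonneg_iff_eq_star_mul_self.2 h1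
  have h4 : 0 ≤ -a := CStarAlgebra.nonneg_iff_eq_star_mul_self.2 h2
  exact le_antisymm (neg_nonneg.1 h4) h3

private lemma faithful_bound (x : B) :
    ∃ g : B, ((‖x‖ ^ 2 : ℝ) : ℂ) • (1 : B) - star x * x = star g * g := by
  have h1 : star x * x ≤ algebraMap ℝ B (‖x‖ ^ 2) := CStarAlgebra.star_mul_le_algebraMap_norm_sq
  have h2 : 0 ≤ algebraMap ℝ B (‖x‖ ^ 2) - star x * x := sub_nonneg.2 h1
  obtain ⟨g, hg⟩ := CStarAlgebra.nonneg_iff_eq_star_mul_self.1 h2
  refine ⟨g, ?_⟩
  rw [← hg, Algebra.algebraMap_eq_smul_one]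
  congr 1

end order

private lemma faithful_left {E : B →L[ℂ] A} (hE : IsEx α ι U E) (x b : B)
    (hb : E (star b * b) = 0) : E (star (x * b) * (x * b)) = 0 := by
  obtain ⟨g, hg⟩ := faithful_bound x
  apply faithful_antisymm _ (hE.pos (x * b))
  have h1 : star (g * b) * (g * b) =
      ((‖x‖ ^ 2 : ℝ) : ℂ) • (star b * b) - star (x * b) * (x * b) := by
    calc star (g * b) * (g * b) = star b * (star g * g) * b := by
          rw [star_mul]; simp only [mul_assoc]
      _ = star b * (((‖x‖ ^ 2 : ℝ) : ℂ) • (1 : B) - star x * x) * b := by rw [hg]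
      _ = _ := by
          rw [mul_sub, sub_mul, mul_smul_comm, smul_mul_assoc, mul_one, star_mul]
          simp only [mul_assoc]
  have h2 := hE.pos (g * b)
  rw [h1, map_sub, map_smul, hb, smul_zero, zero_sub] at h2
  exact h2

private lemma faithful_add {E : B →L[ℂ] A} (hE : IsEx α ι U E) (b c : B)
    (hb : E (star b * b) = 0) (hc : E (star c * c) = 0) :
    E (star (b + c) * (b + c)) = 0 := by
  apply faithful_antisymm _ (hE.pos (b + c))
  have h1 : star (b - c) * (b - c) =
      (star b * b + star b * b) + (star c * c + star c * c) - star (b + c) * (b + c) := by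
    rw [star_sub, star_add]
    noncomm_ring
  have h2 := hE.pos (b - c)
  rw [h1, map_sub, map_add, map_add, map_add, hb, hc] at h2
  simpa using h2

private lemma faithful_right_ι {E : B →L[ℂ] A} (hE : IsEx α ι U E) (b : B) (a : A)
    (hb : E (star b * b) = 0) : E (star (b * ι a) * (b * ι a)) = 0 := by
  have h1 : star (b * ι a) * (b * ι a) = ι (star a) * (star b * b * ι a) := by
    rw [star_mul, map_star]
    simp only [mul_assoc]
  rw [h1, hE.ι_mul, hE.mul_ι, hb, zero_mul, mul_zero]

private lemma faithful_conj_pow {E : B →L[ℂ] A} (hE : IsEx α ι U E) (x : B) (hx : E x = 0) (n : ℕ) :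
    E (upw U n * x * upw U (-(n : ℤ))) = 0 := by
  induction n with
  | zero => simpa [upw_zero] using hx
  | succ n ih =>
    have e1 : upw U ((n + 1 : ℕ) : ℤ) = (U : B) * upw U (n : ℤ) := by
      rw [upw_nat, upw_nat, pow_succ']
    have e2 : upw U (-((n + 1 : ℕ) : ℤ)) = upw U (-(n : ℤ)) * star (U : B) := by
      rw [← upw_star, ← upw_star, e1, star_mul]
    have e3 : upw U ((n + 1 : ℕ) : ℤ) * x * upw U (-((n + 1 : ℕ) : ℤ)) =
        (U : B) * (upw U (n : ℤ) * x * upw U (-(n : ℤ))) * star (U : B) := by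
      rw [e1, e2]; simp only [mul_assoc]
    rw [e3, hE.conj, ih, map_zero]

private lemma faithful_conj_neg {E : B →L[ℂ] A} (hE : IsEx α ι U E) (x : B) (hx : E x = 0)
    (n : ℕ) : E (upw U (-(n : ℤ)) * x * upw U n) = 0 := by
  induction n with
  | zero => simpa [upw_zero] using hx
  | succ n ih =>
    set y := upw U (-((n + 1 : ℕ) : ℤ)) * x * upw U ((n + 1 : ℕ) : ℤ) with hy
    have e1 : (U : B) * upw U (-((n + 1 : ℕ) : ℤ)) = upw U (-(n : ℤ)) := by
      have h1 : (U : B) = upw U 1 := by rw [← Nat.cast_one, upw_nat, pow_one]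
      rw [h1, ← upw_add]
      congr 1
      push_cast; ring
    have e2 : upw U ((n + 1 : ℕ) : ℤ) * star (U : B) = upw U (n : ℤ) := by
      have h1 : star (U : B) = upw U (-1) := by
        rw [← upw_star, ← Nat.cast_one, upw_nat, pow_one]
      rw [h1, ← upw_add]
      congr 1
      push_cast; ring
    have e3 : (U : B) * y * star (U : B) = upw U (-(n : ℤ)) * x * upw U n := by
      rw [hy]
      calc (U : B) * (upw U (-((n + 1 : ℕ) : ℤ)) * x * upw U ((n + 1 : ℕ) : ℤ)) * star (U : B)
          = ((U : B) * upw U (-((n + 1 : ℕ) : ℤ))) * x * (upw U ((n + 1 : ℕ) : ℤ) * star (U : B)) := by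
            simp only [mul_assoc]
        _ = _ := by rw [e1, e2]
    have h1 := hE.conj y
    rw [e3, ih] at h1
    exact (map_eq_zero_iff α (EquivLike.injective α)).1 h1.symm

private lemma faithful_right_upw {E : B →L[ℂ] A} (hE : IsEx α ι U E) (b : B) (k : ℤ)
    (hb : E (star b * b) = 0) : E (star (b * upw U k) * (b * upw U k)) = 0 := by
  have h1 : star (b * upw U k) * (b * upw U k) = upw U (-k) * (star b * b) * upw U k := by
    rw [star_mul, upw_star]
    simp only [mul_assoc]
  rw [h1]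
  obtain ⟨n, rfl | rfl⟩ := Int.eq_nat_or_neg k
  · exact faithful_conj_neg hE _ hb n
  · rw [neg_neg]
    exact faithful_conj_pow hE _ hb n

private lemma faithful_closed (E : B →L[ℂ] A) : IsClosed {b : B | E (star b * b) = 0} := by
  apply isClosed_eq _ continuous_const
  fun_prop

private lemma faithful_right_pol {E : B →L[ℂ] A} (hE : IsEx α ι U E) (b : B) (s : Finset ℤ)
    (c : ℤ → A) (hb : E (star b * b) = 0) :
    E (star (b * pol ι U s c) * (b * pol ι U s c)) = 0 := by
  classical
  unfold pol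
  induction s using Finset.induction_on with
  | empty => simp
  | insert k s hk ih =>
    rw [Finset.sum_insert hk, mul_add]
    apply faithful_add hE _ _ _ ih
    have e : b * (ι (c k) * upw U k) = b * ι (c k) * upw U k := (mul_assoc _ _ _).symm
    rw [e]
    exact faithful_right_upw hE _ k (faithful_right_ι hE b (c k) hb)

private lemma faithful_dense (h : CP α ι U) :
    Dense {b : B | ∃ (K : ℕ) (c : ℤ → A), b = pol ι U (Finset.Icc (-(K : ℤ)) K) c} := by
  intro b
  rw [Metric.mem_closure_iff]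
  intro ε hε
  obtain ⟨K, c, hc⟩ := h.pol_dense b ε hε
  exact ⟨_, ⟨K, c, rfl⟩, by rwa [dist_eq_norm]⟩

private lemma faithful_right (h : CP α ι U) {E : B →L[ℂ] A} (hE : IsEx α ι U E) (b x : B)
    (hb : E (star b * b) = 0) : E (star (b * x) * (b * x)) = 0 := by
  have hcl : IsClosed {x : B | E (star (b * x) * (b * x)) = 0} := by
    apply isClosed_eq _ continuous_const
    fun_prop
  have hsub : {b : B | ∃ (K : ℕ) (c : ℤ → A), b = pol ι U (Finset.Icc (-(K : ℤ)) K) c} ⊆
      {x : B | E (star (b * x) * (b * x)) = 0} := by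
    rintro _ ⟨K, c, rfl⟩
    exact faithful_right_pol hE b _ c hb
  have := closure_minimal hsub hcl (faithful_dense h x)
  exact this

private lemma faithful_nontrivial (ι : A →⋆ₐ[ℂ] B) [Nontrivial B] : Nontrivial A :=
  (ι : A →+* B).domain_nontrivial

theorem IsEx.faithful (h : CP α ι U) [IsSimpleRing B] {E : B →L[ℂ] A} (hE : IsEx α ι U E)
    (b : B) (hb : E (star b * b) = 0) : b = 0 := by
  have hA : Nontrivial A := faithful_nontrivial ι
  set J : TwoSidedIdeal B := TwoSidedIdeal.mk' {b : B | E (star b * b) = 0} (by simp)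
    (fun {x y} hx hy => faithful_add hE x y hx hy)
    (fun {x} hx => by
      have h1 : star (-x) * (-x) = star x * x := by rw [star_neg, neg_mul_neg]
      have hx' : E (star x * x) = 0 := hx
      show E (star (-x) * (-x)) = 0
      rw [h1]; exact hx')
    (fun {x y} hy => faithful_left hE x y hy)
    (fun {x y} hx => faithful_right h hE x y hx) with hJ
  have hmem : ∀ x : B, x ∈ J ↔ E (star x * x) = 0 := by
    intro x
    rw [hJ, TwoSidedIdeal.mem_mk']
    rfl
  by_contra hne
  have h1 : (1 : B) ∈ J := IsSimpleRing.one_mem_of_ne_zero_mem J hne ((hmem b).2 hb)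
  rw [hmem, star_one, mul_one, ← upw_zero U, hE.pw, if_pos rfl] at h1
  exact one_ne_zero h1

/-- the additive subgroup of finite sums `∑ a α^m(y) b` -/
private def faithful_I (α : A ≃⋆ₐ[ℂ] A) (y : A) : AddSubgroup A where
  carrier := {v | ∃ (M : ℕ) (m : Fin M → ℤ) (a b : Fin M → A),
    ∑ i, a i * (α ^ m i) y * b i = v}
  zero_mem' := ⟨0, fun _ => 0, fun _ => 0, fun _ => 0, by simp⟩
  add_mem' := by
    rintro _ _ ⟨M, m, a, b, rfl⟩ ⟨N, m', a', b', rfl⟩
    refine ⟨M + N, Fin.append m m', Fin.append a a', Fin.append b b', ?_⟩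
    rw [Fin.sum_univ_add]
    simp
  neg_mem' := by
    rintro _ ⟨M, m, a, b, rfl⟩
    refine ⟨M, m, fun i => -a i, b, ?_⟩
    simp

private lemma faithful_mem_I (α : A ≃⋆ₐ[ℂ] A) (y : A) (k : ℤ) (a b : A) :
    a * (α ^ k) y * b ∈ faithful_I α y :=
  ⟨1, fun _ => k, fun _ => a, fun _ => b, by simp⟩

private lemma faithful_pol_mem (h : CP α ι U) {E : B →L[ℂ] A} (hE : IsEx α ι U E) (y : A)
    (s t : Finset ℤ) (c d : ℤ → A) :
    E (pol ι U s c * ι y * pol ι U t d) ∈ faithful_I α y := by
  unfold pol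
  rw [Finset.sum_mul, Finset.sum_mul_sum, map_sum]
  refine AddSubgroup.sum_mem _ fun k _ => ?_
  rw [map_sum]
  refine AddSubgroup.sum_mem _ fun l _ => ?_
  have h1 : ι (c k) * upw U k * ι y * (ι (d l) * upw U l) =
      ι (c k * (α ^ k) y * (α ^ k) (d l)) * upw U (k + l) := by
    calc ι (c k) * upw U k * ι y * (ι (d l) * upw U l)
        = ι (c k) * (upw U k * ι (y * d l)) * upw U l := by
          rw [map_mul]; simp only [mul_assoc]
      _ = ι (c k) * (ι ((α ^ k) (y * d l)) * upw U k) * upw U l := by rw [h.upw_mul_ι]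
      _ = ι (c k * (α ^ k) y * (α ^ k) (d l)) * upw U (k + l) := by
          rw [upw_add, map_mul, map_mul, map_mul, map_mul]
          simp only [mul_assoc]
  rw [h1, hE.ι_mul, hE.pw]
  split_ifs
  · rw [mul_one]
    exact faithful_mem_I α y k (c k) _
  · rw [mul_zero]
    exact AddSubgroup.zero_mem _

private lemma faithful_all_mem (h : CP α ι U) {E : B →L[ℂ] A} (hE : IsEx α ι U E) (y : A)
    (x x' : B) : E (x * ι y * x') ∈ closure (faithful_I α y : Set A) := by
  have hstep1 : ∀ (L : ℕ) (d : ℤ → A) (x : B),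
      E (x * ι y * pol ι U (Finset.Icc (-(L : ℤ)) L) d) ∈ closure (faithful_I α y : Set A) := by
    intro L d x
    have hcl : IsClosed {x : B | E (x * ι y * pol ι U (Finset.Icc (-(L : ℤ)) L) d) ∈
        closure (faithful_I α y : Set A)} :=
      IsClosed.preimage (by fun_prop) isClosed_closure
    have hsub : {b : B | ∃ (K : ℕ) (c : ℤ → A), b = pol ι U (Finset.Icc (-(K : ℤ)) K) c} ⊆
        {x : B | E (x * ι y * pol ι U (Finset.Icc (-(L : ℤ)) L) d) ∈
        closure (faithful_I α y : Set A)} := by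
      rintro _ ⟨K, c, rfl⟩
      exact subset_closure (faithful_pol_mem h hE y _ _ c d)
    exact closure_minimal hsub hcl (faithful_dense h x)
  have hcl : IsClosed {x' : B | E (x * ι y * x') ∈ closure (faithful_I α y : Set A)} :=
    IsClosed.preimage (by fun_prop) isClosed_closure
  have hsub : {b : B | ∃ (K : ℕ) (c : ℤ → A), b = pol ι U (Finset.Icc (-(K : ℤ)) K) c} ⊆
      {x' : B | E (x * ι y * x') ∈ closure (faithful_I α y : Set A)} := by
    rintro _ ⟨L, d, rfl⟩
    exact hstep1 L d x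
  exact closure_minimal hsub hcl (faithful_dense h x')

/-- `α`-simplicity of `A`. -/
theorem CP.alpha_simple (h : CP α ι U) [IsSimpleRing B] {E : B →L[ℂ] A} (hE : IsEx α ι U E)
    (y : A) (hy : y ≠ 0) :
    ∃ (M : ℕ) (m : Fin M → ℤ) (a b : Fin M → A), ∑ i, a i * (α ^ m i) y * b i = 1 := by
  have hιy : ι y ≠ 0 := by
    intro h0
    rw [← map_zero ι] at h0
    exact hy (h.inj h0)
  have h1 : (1 : B) ∈ TwoSidedIdeal.span {ι y} :=
    IsSimpleRing.one_mem_of_ne_zero_mem _ hιy (TwoSidedIdeal.subset_span rfl)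
  have h2 : ∀ z : B, z ∈ TwoSidedIdeal.span {ι y} →
      E z ∈ (faithful_I α y).topologicalClosure := by
    intro z hz
    rw [TwoSidedIdeal.mem_span_iff_mem_addSubgroup_closure] at hz
    induction hz using AddSubgroup.closure_induction with
    | mem z hz =>
      obtain ⟨w, ⟨x, -, v, hv, rfl⟩, x', -, rfl⟩ := hz
      rw [Set.mem_singleton_iff] at hv
      subst hv
      exact faithful_all_mem h hE y x x'
    | zero => rw [map_zero]; exact AddSubgroup.zero_mem _
    | add x z _ _ hx hz => rw [map_add]; exact AddSubgroup.add_mem _ hx hz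
    | neg x _ hx => rw [map_neg]; exact AddSubgroup.neg_mem _ hx
  have h3 := h2 1 h1
  have hE1 : E 1 = 1 := by rw [← upw_zero U, hE.pw, if_pos rfl]
  rw [hE1] at h3
  have h4 : (1 : A) ∈ closure (faithful_I α y : Set A) := h3
  obtain ⟨v, hv, hd⟩ := Metric.mem_closure_iff.1 h4 1 one_pos
  rw [dist_eq_norm] at hd
  obtain ⟨M, m, a, b, rfl⟩ := hv
  set v := ∑ i, a i * (α ^ m i) y * b i with hvdef
  have hu : IsUnit v := by
    have h5 := isUnit_one_sub_of_norm_lt_one hd
    rwa [sub_sub_cancel] at h5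
  obtain ⟨u, hu⟩ := hu
  refine ⟨M, m, a, fun i => b i * ((u⁻¹ : Aˣ) : A), ?_⟩
  have h6 : ∑ i, a i * (α ^ m i) y * (b i * ((u⁻¹ : Aˣ) : A)) = v * ((u⁻¹ : Aˣ) : A) := by
    rw [hvdef, Finset.sum_mul]
    exact Finset.sum_congr rfl fun i _ => by rw [mul_assoc, mul_assoc, mul_assoc]
  rw [h6, ← hu, Units.mul_inv]

end Pool.Agent.MPb9c6dd
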