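import Pool.Agent.Lib.MP_b9c6dd_an.Basic

set_option autoImplicit false

open scoped BoundedContinuousFunction

namespace Pool.Agent.MPb9c6dd

/-- One step of the elimination, in any ring. -/
private theorem stabFin_step {A : Type} [Ring A] {k l : ℕ} (R : Fin (k + 1) → Fin (l + 1) → A)
    (S : Fin (l + 1) → Fin (k + 1) → A)
    (h : ∀ a b, ∑ j, R a j * S j b = if a = b then 1 else 0)
    (ε ri ui : A) (hri : ri * (R 0 0 + ε) = 1) (hui : (1 + ε * S 0 0) * ui = 1) :
    ∃ (R1 : Fin k → Fin l → A) (S1 : Fin l → Fin k → A),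
      ∀ a b, ∑ j, R1 a j * S1 j b = if a = b then 1 else 0 := by
  set S' : Fin (l + 1) → Fin (k + 1) → A := fun j b => S j b - S j 0 * (ui * (ε * S 0 b)) with hS'
  -- rows of `R` against `S'`
  have hrow : ∀ a b, ∑ j, R a j * S' j b =
      (if a = b then 1 else 0) - (if a = 0 then 1 else 0) * (ui * (ε * S 0 b)) := by
    intro a b
    have h1 : ∀ j, R a j * S' j b = R a j * S j b - (R a j * S j 0) * (ui * (ε * S 0 b)) := by
      intro j
      simp only [hS']
      rw [mul_sub, mul_assoc]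
    rw [Finset.sum_congr rfl fun j _ => h1 j, Finset.sum_sub_distrib, ← Finset.sum_mul, h a b,
      h a 0]
  refine ⟨fun a j => R a.succ j.succ - R a.succ 0 * (ri * R 0 j.succ),
    fun j b => S' j.succ b.succ, ?_⟩
  intro a b
  have F1 : R a.succ 0 * S' 0 b.succ + ∑ j : Fin l, R a.succ j.succ * S' j.succ b.succ =
      if a = b then 1 else 0 := by
    have h1 := hrow a.succ b.succ
    rw [Fin.sum_univ_succ] at h1
    rw [h1, if_neg (Fin.succ_ne_zero a), zero_mul, sub_zero]
    simp only [Fin.succ_inj]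
  have F2 : (R 0 0 + ε) * S' 0 b.succ + ∑ j : Fin l, R 0 j.succ * S' j.succ b.succ = 0 := by
    have h1 := hrow 0 b.succ
    rw [Fin.sum_univ_succ, if_neg (Fin.succ_ne_zero b).symm, if_pos rfl, one_mul, zero_sub] at h1
    have h2 : (R 0 0 + ε) * S' 0 b.succ + ∑ j : Fin l, R 0 j.succ * S' j.succ b.succ =
        (R 0 0 * S' 0 b.succ + ∑ j : Fin l, R 0 j.succ * S' j.succ b.succ) +
          ε * S' 0 b.succ := by
      rw [add_mul]
      abel
    rw [h2, h1]
    have h3 : ε * S' 0 b.succ = ε * S 0 b.succ - (ε * S 0 0) * (ui * (ε * S 0 b.succ)) := by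
      simp only [hS']
      rw [mul_sub, mul_assoc]
    have h4 : (ε * S 0 0) * ui = 1 - ui := by
      rw [add_mul, one_mul] at hui
      exact eq_sub_of_add_eq' hui
    rw [h3, ← mul_assoc (ε * S 0 0) ui, h4, sub_mul, one_mul]
    abel
  have h5 : ∑ j : Fin l, R 0 j.succ * S' j.succ b.succ = -((R 0 0 + ε) * S' 0 b.succ) :=
    eq_neg_of_add_eq_zero_right F2
  calc ∑ j : Fin l, (R a.succ j.succ - R a.succ 0 * (ri * R 0 j.succ)) * S' j.succ b.succ
      = ∑ j : Fin l, R a.succ j.succ * S' j.succ b.succ -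
        R a.succ 0 * (ri * ∑ j : Fin l, R 0 j.succ * S' j.succ b.succ) := by
        rw [Finset.mul_sum, Finset.mul_sum, ← Finset.sum_sub_distrib]
        apply Finset.sum_congr rfl
        intro j _
        rw [sub_mul, mul_assoc, mul_assoc]
    _ = ∑ j : Fin l, R a.succ j.succ * S' j.succ b.succ + R a.succ 0 * S' 0 b.succ := by
        rw [h5, mul_neg, mul_neg, sub_neg_eq_add, ← mul_assoc ri, hri, one_mul]
    _ = if a = b then 1 else 0 := by rw [add_comm]; exact F1

private theorem stabFin_aux {A : Type} [CStarAlgebra A] [Nontrivial A]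
    (hd : Dense {x : A | IsUnit x}) : ∀ (k l : ℕ) (R : Fin k → Fin l → A)
    (S : Fin l → Fin k → A), (∀ a b, ∑ j, R a j * S j b = if a = b then 1 else 0) → k ≤ l
  | 0, _, _, _, _ => Nat.zero_le _
  | k + 1, 0, R, S, h => by
    exfalso
    have := h 0 0
    simp at this
  | k + 1, l + 1, R, S, h => by
    have hpos : 0 < 1 / (‖S 0 0‖ + 1) := by positivity
    obtain ⟨r, hr, hdist⟩ := hd.exists_dist_lt (R 0 0) hpos
    have hr' : IsUnit r := hr
    obtain ⟨v, hv⟩ := hr'
    set ε : A := r - R 0 0 with hε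
    have hnorm : ‖ε‖ < 1 / (‖S 0 0‖ + 1) := by
      rw [hε, ← dist_eq_norm, dist_comm]
      exact hdist
    have hlt : ‖-(ε * S 0 0)‖ < 1 := by
      rw [norm_neg]
      calc ‖ε * S 0 0‖ ≤ ‖ε‖ * ‖S 0 0‖ := norm_mul_le _ _
        _ ≤ 1 / (‖S 0 0‖ + 1) * ‖S 0 0‖ := by
            apply mul_le_mul_of_nonneg_right hnorm.le (norm_nonneg _)
        _ < 1 := by
            rw [one_div, inv_mul_lt_iff₀ (by positivity)]
            linarith
    have hu : IsUnit (1 + ε * S 0 0) := by
      have := isUnit_one_sub_of_norm_lt_one hlt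
      rwa [sub_neg_eq_add] at this
    obtain ⟨w, hw⟩ := hu
    have hri : ((v⁻¹ : Aˣ) : A) * (R 0 0 + ε) = 1 := by
      have : R 0 0 + ε = (v : A) := by
        rw [hv, hε]
        abel
      rw [this]
      exact v.inv_mul
    have hui : (1 + ε * S 0 0) * ((w⁻¹ : Aˣ) : A) = 1 := by
      rw [← hw]
      exact w.mul_inv
    obtain ⟨R1, S1, h1⟩ := stabFin_step R S h ε _ _ hri hui
    have := stabFin_aux hd k l R1 S1 h1
    omega

/-- Stable finiteness of a C*-algebra with dense invertibles. -/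
theorem le_of_mul_eq_one {A : Type} [CStarAlgebra A] [Nontrivial A]
    (hd : Dense {x : A | IsUnit x}) (k l : ℕ) (R : Matrix (Fin k) (Fin l) A)
    (S : Matrix (Fin l) (Fin k) A) (h : R * S = 1) : k ≤ l := by
  apply stabFin_aux hd k l R S
  intro a b
  have := congrFun (congrFun h a) b
  rw [Matrix.mul_apply, Matrix.one_apply] at this
  exact this

end Pool.Agent.MPb9c6dd
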