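import Pool.Agent.Lib.MP_b9c6dd_an.Window
import Pool.Agent.Lib.MP_b9c6dd_an.StabFin
import Pool.Agent.Lib.MP_b9c6dd_an.Faithful

set_option autoImplicit false

open scoped BoundedContinuousFunction

namespace Pool.Agent.MPb9c6dd

variable {A B : Type} [CStarAlgebra A] [CStarAlgebra B] {α : A ≃⋆ₐ[ℂ] A}
  {ι : A →⋆ₐ[ℂ] B} {U : unitary B}

open Finset in
/-- simplicity: `1` is a finite sum of `a z b` -/
private theorem ded_span {R : Type} [Ring R] [IsSimpleRing R] (z : R) (hz : z ≠ 0) :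
    ∃ (M : ℕ) (a b : ℕ → R), ∑ j ∈ range M, a j * z * b j = 1 := by
  have h1 : (1 : R) ∈ TwoSidedIdeal.span {z} :=
    IsSimpleRing.one_mem_of_ne_zero_mem _ hz (TwoSidedIdeal.subset_span rfl)
  rw [TwoSidedIdeal.mem_span_iff_mem_addSubgroup_closure] at h1
  refine AddSubgroup.closure_induction
    (p := fun x _ => ∃ (M : ℕ) (a b : ℕ → R), ∑ j ∈ range M, a j * z * b j = x)
    ?_ ?_ ?_ ?_ h1
  · rintro x ⟨_, ⟨a, _, w, hw, rfl⟩, b, _, rfl⟩
    rw [Set.mem_singleton_iff] at hw
    refine ⟨1, fun _ => a, fun _ => b, ?_⟩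
    simp [hw]
  · exact ⟨0, fun _ => 0, fun _ => 0, by simp⟩
  · rintro x y _ _ ⟨M, a, b, hx⟩ ⟨M', a', b', hy⟩
    refine ⟨M + M', fun j => if j < M then a j else a' (j - M),
      fun j => if j < M then b j else b' (j - M), ?_⟩
    rw [sum_range_add, ← hx, ← hy]
    congr 1
    · apply sum_congr rfl
      intro j hj
      rw [mem_range] at hj
      simp only [if_pos hj]
    · apply sum_congr rfl
      intro j _
      have e1 : ¬ (M + j < M) := by omega
      simp only [if_neg e1, Nat.add_sub_cancel_left]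
  · rintro x _ ⟨M, a, b, hx⟩
    refine ⟨M, fun j => -a j, b, ?_⟩
    rw [← hx, ← sum_neg_distrib]
    apply sum_congr rfl
    intro j _
    simp only [neg_mul]

section ring

variable {R : Type} [Ring R] {r f z : R}

private theorem ded_pow (hrf : r * f = 1) (n : ℕ) : r ^ n * f ^ n = 1 := by
  induction n with
  | zero => simp
  | succ n ih =>
    rw [pow_succ r, pow_succ' f]
    calc r ^ n * r * (f * f ^ n) = r ^ n * (r * f) * f ^ n := by simp only [mul_assoc]
      _ = 1 := by rw [hrf, mul_one, ih]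

private theorem ded_rz (hrz : r * z = 0) {k : ℕ} (hk : 0 < k) : r ^ k * z = 0 := by
  obtain ⟨n, rfl⟩ : ∃ n, k = n + 1 := ⟨k - 1, by omega⟩
  rw [pow_succ, mul_assoc, hrz, mul_zero]

private theorem ded_zf (hzf : z * f = 0) {k : ℕ} (hk : 0 < k) : z * f ^ k = 0 := by
  obtain ⟨n, rfl⟩ : ∃ n, k = n + 1 := ⟨k - 1, by omega⟩
  rw [pow_succ', ← mul_assoc, hzf, zero_mul]

private theorem ded_rf (hrf : r * f = 1) (j k : ℕ) : r ^ (k + j) * f ^ j = r ^ k := by
  rw [pow_add, mul_assoc, ded_pow hrf, mul_one]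

private theorem ded_fr (hrf : r * f = 1) (j k : ℕ) : r ^ j * f ^ (j + k) = f ^ k := by
  rw [pow_add, ← mul_assoc, ded_pow hrf, one_mul]

private theorem ded_zz (hrf : r * f = 1) (hrz : r * z = 0) (hzf : z * f = 0) (hzz : z * z = z)
    (i j : ℕ) : z * r ^ i * (f ^ j * z) = if i = j then z else 0 := by
  rcases lt_trichotomy i j with h | h | h
  · rw [if_neg h.ne]
    obtain ⟨k, rfl⟩ := Nat.exists_eq_add_of_lt h
    rw [mul_assoc, ← mul_assoc (r ^ i), add_assoc, ded_fr hrf, ← mul_assoc,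
      ded_zf hzf (by omega), zero_mul]
  · rw [if_pos h, h, mul_assoc, ← mul_assoc (r ^ j), ded_pow hrf, one_mul, hzz]
  · rw [if_neg h.ne']
    obtain ⟨k, rfl⟩ := Nat.exists_eq_add_of_lt h
    have e : j + k + 1 = (k + 1) + j := by omega
    rw [mul_assoc, ← mul_assoc (r ^ _), e, ded_rf hrf, ded_rz hrz (by omega), mul_zero]

end ring

open Finset in
/-- the matrix units -/
private theorem ded_units {R : Type} [Ring R] [IsSimpleRing R] {r f : R} (hrf : r * f = 1)
    (hfr : f * r ≠ 1) :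
    ∃ X' X : Fin 2 → R, ∀ i j, X' i * X j = if i = j then 1 else 0 := by
  set z : R := 1 - f * r with hz
  have hz0 : z ≠ 0 := fun h => hfr (sub_eq_zero.1 h).symm
  have hrz : r * z = 0 := by
    rw [hz, mul_sub, mul_one, ← mul_assoc, hrf, one_mul, sub_self]
  have hzf : z * f = 0 := by
    rw [hz, sub_mul, one_mul, mul_assoc, hrf, mul_one, sub_self]
  have hzz : z * z = z := by
    calc z * z = z * (1 - f * r) := by rw [← hz]
      _ = z - (z * f) * r := by rw [mul_sub, mul_one, mul_assoc]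
      _ = z := by rw [hzf, zero_mul, sub_zero]
  obtain ⟨M, a, b, hab⟩ := ded_span z hz0
  refine ⟨![r ^ M, ∑ j ∈ range M, a j * z * r ^ j], ![f ^ M, ∑ j ∈ range M, f ^ j * z * b j], ?_⟩
  intro i j
  fin_cases i <;> fin_cases j
  · simpa using ded_pow hrf M
  · change r ^ M * ∑ j ∈ range M, f ^ j * z * b j = 0
    rw [mul_sum]
    apply sum_eq_zero
    intro j hj
    rw [mem_range] at hj
    obtain ⟨k, rfl⟩ := Nat.exists_eq_add_of_lt hj
    have e : j + k + 1 = (k + 1) + j := by omega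
    rw [e, mul_assoc (f ^ j), ← mul_assoc (r ^ _), ded_rf hrf, ← mul_assoc,
      ded_rz hrz (by omega), zero_mul]
  · change (∑ j ∈ range M, a j * z * r ^ j) * f ^ M = 0
    rw [sum_mul]
    apply sum_eq_zero
    intro j hj
    rw [mem_range] at hj
    obtain ⟨k, rfl⟩ := Nat.exists_eq_add_of_lt hj
    rw [add_assoc, mul_assoc, ded_fr hrf, mul_assoc, ded_zf hzf (by omega), mul_zero]
  · change (∑ j ∈ range M, a j * z * r ^ j) * ∑ j ∈ range M, f ^ j * z * b j = 1
    rw [sum_mul, ← hab]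
    apply sum_congr rfl
    intro i hi
    rw [mul_sum]
    have e : ∀ j, a i * z * r ^ i * (f ^ j * z * b j) = if i = j then a i * z * b j else 0 := by
      intro j
      calc a i * z * r ^ i * (f ^ j * z * b j) = a i * (z * r ^ i * (f ^ j * z)) * b j := by
            simp only [mul_assoc]
        _ = _ := by
            rw [ded_zz hrf hrz hzf hzz]
            split_ifs
            · rfl
            · rw [mul_zero, zero_mul]
    rw [sum_congr rfl fun j _ => e j, sum_ite_eq, if_pos hi]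

/-- enlarging the support of a polynomial -/
private theorem ded_ext (ι : A →⋆ₐ[ℂ] B) (U : unitary B) {K K' : ℕ} (hK : K ≤ K') (c : ℤ → A) :
    ∃ c' : ℤ → A, pol ι U (Finset.Icc (-(K : ℤ)) K) c =
      pol ι U (Finset.Icc (-(K' : ℤ)) K') c' := by
  classical
  refine ⟨fun k => if k ∈ Finset.Icc (-(K : ℤ)) K then c k else 0, ?_⟩
  unfold pol
  have hsub : Finset.Icc (-(K : ℤ)) K ⊆ Finset.Icc (-(K' : ℤ)) K' := by
    intro k hk
    rw [Finset.mem_Icc] at hk ⊢
    constructor <;> omega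
  rw [← Finset.sum_subset hsub]
  · apply Finset.sum_congr rfl
    intro k hk
    simp only [if_pos hk]
  · intro k _ hk
    simp only [if_neg hk, map_zero, zero_mul]

/-- coefficients of a polynomial -/
private theorem ded_coef (h : CP α ι U) {E : B →L[ℂ] A} (hE : IsEx α ι U E) (s : Finset ℤ)
    (c : ℤ → A) (n t : ℤ) :
    E (upw U (-n) * pol ι U s c * upw U t) = if n - t ∈ s then (α ^ (-n)) (c (n - t)) else 0 := by
  classical
  unfold pol
  rw [Finset.mul_sum, Finset.sum_mul, map_sum]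
  have e : ∀ k ∈ s, E (upw U (-n) * (ι (c k) * upw U k) * upw U t) =
      if n - t = k then (α ^ (-n)) (c k) else 0 := by
    intro k _
    rw [← mul_assoc, h.upw_mul_ι, mul_assoc, mul_assoc, hE.ι_mul, ← upw_add, ← upw_add, hE.pw]
    by_cases hk : n - t = k
    · rw [if_pos hk, if_pos (by omega), mul_one]
    · rw [if_neg hk, if_neg (by omega), mul_zero]
  rw [Finset.sum_congr rfl e, Finset.sum_ite_eq]

open Finset in
/-- the Parseval formula -/
private theorem ded_parseval (h : CP α ι U) {E : B →L[ℂ] A} (hE : IsEx α ι U E) (K p : ℕ)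
    (c : ℤ → A) (X : B) (t : ℕ) (ht : t < p) :
    E (X * pol ι U (Icc (-(K : ℤ)) K) c * upw U (t : ℤ)) =
      ∑ r : Fin (p + 2 * K), E (X * upw U (((r : ℕ) : ℤ) - K)) *
        E (upw U (-(((r : ℕ) : ℤ) - K)) * pol ι U (Icc (-(K : ℤ)) K) c * upw U (t : ℤ)) := by
  classical
  rw [Fin.sum_univ_eq_sum_range (fun r : ℕ => E (X * upw U ((r : ℤ) - K)) *
        E (upw U (-((r : ℤ) - K)) * pol ι U (Icc (-(K : ℤ)) K) c * upw U (t : ℤ)))]
  have e1 : E (X * pol ι U (Icc (-(K : ℤ)) K) c * upw U (t : ℤ)) =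
      ∑ k ∈ Icc (-(K : ℤ)) K, E (X * upw U (k + t)) * (α ^ (-(k + t))) (c k) := by
    unfold pol
    rw [mul_sum, sum_mul, map_sum]
    apply sum_congr rfl
    intro k _
    have e2 : upw U (k + t) * ι ((α ^ (-(k + t))) (c k)) = ι (c k) * upw U (k + t) := by
      rw [h.upw_mul_ι, ← aut_add, add_neg_cancel, zpow_zero]
      rfl
    calc E (X * (ι (c k) * upw U k) * upw U (t : ℤ))
        = E (X * (ι (c k) * upw U (k + t))) := by rw [upw_add]; simp only [mul_assoc]
      _ = E (X * upw U (k + t) * ι ((α ^ (-(k + t))) (c k))) := by rw [← e2, mul_assoc]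
      _ = _ := hE.mul_ι _ _
  rw [e1]
  apply sum_of_injOn (fun k : ℤ => (k + t + K).toNat)
  · intro k hk k' hk' hkk
    rw [mem_coe, mem_Icc] at hk hk'
    simp only at hkk
    omega
  · intro k hk
    rw [mem_coe, mem_Icc] at hk
    rw [mem_coe, mem_range]
    change (k + t + K).toNat < p + 2 * K
    omega
  · intro r hr hr'
    have e3 : ¬ ((r : ℤ) - K - t ∈ Icc (-(K : ℤ)) K) := by
      intro h3
      apply hr'
      refine ⟨(r : ℤ) - K - t, h3, ?_⟩
      change ((r : ℤ) - K - t + t + K).toNat = r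
      omega
    rw [ded_coef h hE, if_neg e3, mul_zero]
  · intro k hk
    have hk2 := hk
    rw [mem_Icc] at hk
    have e4 : (((k + t + K).toNat : ℕ) : ℤ) - K = k + t := by omega
    rw [e4, ded_coef h hE, add_sub_cancel_right, if_pos hk2]

/-- The crossed product is Dedekind finite. -/
theorem CP.dedekind (h : CP α ι U) [IsSimpleRing B] {E : B →L[ℂ] A} (hE : IsEx α ι U E)
    (hd : Dense {x : A | IsUnit x}) (r f : B) (hrf : r * f = 1) : f * r = 1 := by
  classical
  by_contra hfr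
  have hBn : Nontrivial B := inferInstance
  have hAn : Nontrivial A := by
    by_contra hcon
    rw [not_nontrivial_iff_subsingleton] at hcon
    have h1 : (1 : B) = 0 := by
      rw [← map_one ι, Subsingleton.elim (1 : A) 0, map_zero]
    exact one_ne_zero h1
  obtain ⟨X', X, hX⟩ := ded_units hrf hfr
  set C : ℝ := max ‖X' 0‖ ‖X' 1‖ + 1 with hC
  have hC0 : 0 < C := by
    have := norm_nonneg (X' 0)
    have := le_max_left ‖X' 0‖ ‖X' 1‖
    linarith
  have hX'C : ∀ i, ‖X' i‖ ≤ C := by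
    intro i
    have h1 := le_max_left ‖X' 0‖ ‖X' 1‖
    have h2 := le_max_right ‖X' 0‖ ‖X' 1‖
    fin_cases i
    · change ‖X' 0‖ ≤ C
      linarith
    · change ‖X' 1‖ ≤ C
      linarith
  have happ : ∀ j, ∃ (K : ℕ) (c : ℤ → A),
      ‖X j - pol ι U (Finset.Icc (-(K : ℤ)) K) c‖ < 1 / (16 * C) :=
    fun j => h.pol_dense (X j) _ (by positivity)
  choose K0 c0 hc0 using happ
  set K : ℕ := max (K0 0) (K0 1) with hK
  have hK0 : ∀ j, K0 j ≤ K := by
    intro j
    fin_cases j
    · exact le_max_left _ _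
    · exact le_max_right _ _
  have hext : ∀ j, ∃ c : ℤ → A, pol ι U (Finset.Icc (-(K0 j : ℤ)) (K0 j)) (c0 j) =
      pol ι U (Finset.Icc (-(K : ℤ)) K) c := fun j => ded_ext ι U (hK0 j) (c0 j)
  choose c hc using hext
  set P : Fin 2 → B := fun j => pol ι U (Finset.Icc (-(K : ℤ)) K) (c j) with hP
  have hPX : ∀ j, ‖P j - X j‖ ≤ 1 / (16 * C) := by
    intro j
    rw [norm_sub_rev]
    have := hc0 j
    rw [hc j] at this
    exact this.le
  set D : Fin 2 → Fin 2 → B := fun i j => X' i * P j - (if i = j then 1 else 0) with hD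
  have hDn : ∀ i j, ‖D i j‖ ≤ 1 / 16 := by
    intro i j
    have e1 : D i j = X' i * (P j - X j) := by
      rw [hD, mul_sub, hX]
    rw [e1]
    calc ‖X' i * (P j - X j)‖ ≤ ‖X' i‖ * ‖P j - X j‖ := norm_mul_le _ _
      _ ≤ C * (1 / (16 * C)) := by
          have := hX'C i
          have := hPX j
          gcongr
      _ = 1 / 16 := by field_simp
  set p : ℕ := 2 * K + 1 with hp
  obtain ⟨N, hN⟩ := h.window_inv hE p D hDn
  set R : Matrix (Fin 2 × Fin p) (Fin (p + 2 * K)) A := Matrix.of fun x r =>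
    E (upw U (-((x.2 : ℕ) : ℤ)) * X' x.1 * upw U (((r : ℕ) : ℤ) - K)) with hR
  set S : Matrix (Fin (p + 2 * K)) (Fin 2 × Fin p) A := Matrix.of fun r y =>
    E (upw U (-(((r : ℕ) : ℤ) - K)) * P y.1 * upw U ((y.2 : ℕ) : ℤ)) with hS
  have hRS : R * S = 1 + Matrix.of fun x y : Fin 2 × Fin p =>
      E (upw U (-((x.2 : ℕ) : ℤ)) * D x.1 y.1 * upw U ((y.2 : ℕ) : ℤ)) := by
    ext x y
    rw [Matrix.mul_apply, Matrix.add_apply]
    have e2 := ded_parseval h hE K p (c y.1) (upw U (-((x.2 : ℕ) : ℤ)) * X' x.1) (y.2 : ℕ) y.2.2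
    have e3 : ∑ r, R x r * S r y =
        E (upw U (-((x.2 : ℕ) : ℤ)) * X' x.1 * P y.1 * upw U ((y.2 : ℕ) : ℤ)) := e2.symm
    rw [e3, Matrix.of_apply]
    have e4 : upw U (-((x.2 : ℕ) : ℤ)) * D x.1 y.1 * upw U ((y.2 : ℕ) : ℤ) =
        upw U (-((x.2 : ℕ) : ℤ)) * X' x.1 * P y.1 * upw U ((y.2 : ℕ) : ℤ) -
        upw U (-((x.2 : ℕ) : ℤ)) * (if x.1 = y.1 then 1 else 0) * upw U ((y.2 : ℕ) : ℤ) := by
      rw [hD]
      simp only [mul_sub, sub_mul, mul_assoc]
    rw [e4, map_sub]
    have e5 : E (upw U (-((x.2 : ℕ) : ℤ)) * (if x.1 = y.1 then 1 else 0) *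
        upw U ((y.2 : ℕ) : ℤ)) = (1 : Matrix (Fin 2 × Fin p) (Fin 2 × Fin p) A) x y := by
      rw [Matrix.one_apply]
      by_cases h1 : x.1 = y.1
      · rw [if_pos h1, mul_one, ← upw_add, hE.pw]
        by_cases h2 : x.2 = y.2
        · rw [if_pos (by rw [h2]; ring), if_pos (Prod.ext h1 h2)]
        · rw [if_neg, if_neg]
          · intro h3
            exact h2 (congrArg Prod.snd h3)
          · intro h3
            apply h2
            apply Fin.ext
            omega
      · rw [if_neg h1, mul_zero, zero_mul, map_zero, if_neg]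
        intro h3
        exact h1 (congrArg Prod.fst h3)
    rw [e5]
    abel
  have hRSN : R * (S * N) = 1 := by
    rw [← Matrix.mul_assoc, hRS]
    exact hN
  set e : Fin 2 × Fin p ≃ Fin (2 * p) := finProdFinEquiv with he
  have hfin : (R.submatrix e.symm id) * ((S * N).submatrix id e.symm) = 1 := by
    have h1 := Matrix.submatrix_mul_equiv R (S * N) e.symm (Equiv.refl _) e.symm
    rw [hRSN, Matrix.submatrix_one_equiv] at h1
    exact h1
  have hle := le_of_mul_eq_one hd (2 * p) (p + 2 * K) _ _ hfin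
  omega

end Pool.Agent.MPb9c6dd
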