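import Pool.Agent.Lib.MP_b9c6dd_an.CPBasic

set_option autoImplicit false

open scoped BoundedContinuousFunction

namespace Pool.Agent.MPb9c6dd

variable {A B : Type} [CStarAlgebra A] [CStarAlgebra B] {α : A ≃⋆ₐ[ℂ] A}
  {ι : A →⋆ₐ[ℂ] B} {U : unitary B}

theorem lemT1_cont_psi (δ : ℝ) : Continuous (psi δ) := by
  unfold psi
  fun_prop

theorem lemT1_cont_ptf (δ : ℝ) : Continuous (ptf δ) := by
  unfold ptf
  fun_prop

theorem lemT1_cont_rrf {δ : ℝ} (hδ : 0 < δ) : Continuous (rrf δ) := by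
  unfold rrf
  refine Continuous.inv₀ (by fun_prop) fun s => ?_
  exact ne_of_gt (lt_of_lt_of_le hδ (le_max_right s δ))

theorem lemT1_psi_mul {δ : ℝ} (hδ : 0 < δ) (s : ℝ) : psi δ s * rrf δ s * s = psi δ s := by
  rcases le_or_gt δ s with h | h
  · have h1 : rrf δ s * s = 1 := by
      unfold rrf
      rw [max_eq_left h]
      exact inv_mul_cancel₀ (ne_of_gt (lt_of_lt_of_le hδ h))
    rw [mul_assoc, h1, mul_one]
  · have h1 : psi δ s = 0 := by
      unfold psi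
      have h2 : (s - 2 * δ) / δ ≤ 0 := div_nonpos_of_nonpos_of_nonneg (by linarith) hδ.le
      rw [max_eq_left h2]
      exact min_eq_right zero_le_one
    rw [h1]
    ring

theorem lemT1_ptf_mul {δ : ℝ} (hδ : 0 < δ) (s : ℝ) : ptf δ s * (1 - psi δ s) = 0 := by
  rcases le_or_gt (3 * δ) s with h | h
  · have h1 : psi δ s = 1 := by
      unfold psi
      have h2 : 1 ≤ (s - 2 * δ) / δ := by
        rw [le_div_iff₀ hδ]
        linarith
      exact min_eq_left (h2.trans (le_max_right _ _))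
    rw [h1]
    ring
  · have h1 : ptf δ s = 0 := by
      unfold ptf
      exact max_eq_left (by linarith)
    rw [h1]
    ring

/-- Cutting a positive nonzero element. -/
theorem lemT1_cut {A : Type} [CStarAlgebra A] (y : A) (hy : IsPos y) (hy0 : y ≠ 0) :
    ∃ P Q K : A, ‖1 - P‖ ≤ 1 ∧ IsPos Q ∧ Q ≠ 0 ∧ Q * (1 - P) = 0 ∧ (1 - P) * Q = 0 ∧
      P = K * y ∧ P = y * K := by
  obtain ⟨g, hg⟩ := hy
  have hsa : IsSelfAdjoint y := by
    rw [hg]
    exact IsSelfAdjoint.star_mul_self g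
  have hn : 0 < ‖y‖ := norm_pos_iff.mpr hy0
  set δ : ℝ := ‖y‖ / 4 with hδdef
  have hδ : 0 < δ := by positivity
  have cr := lemT1_cont_rrf hδ
  have cp := lemT1_cont_psi δ
  have cq := lemT1_cont_ptf δ
  have h1P : 1 - cfc (psi δ) y = cfc (fun s : ℝ => 1 - psi δ s) y := by
    rw [cfc_sub (fun _ : ℝ => (1 : ℝ)) (psi δ) y (by fun_prop) (by fun_prop), cfc_const_one ℝ y]
  have hQ1 : cfc (ptf δ) y * (1 - cfc (psi δ) y) = 0 := by
    rw [h1P, ← cfc_mul (ptf δ) (fun s : ℝ => 1 - psi δ s) y (by fun_prop) (by fun_prop)]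
    have : (fun s : ℝ => ptf δ s * (1 - psi δ s)) = fun _ => 0 := by
      funext s
      exact lemT1_ptf_mul hδ s
    rw [this, cfc_const_zero ℝ y]
  have hQ2 : (1 - cfc (psi δ) y) * cfc (ptf δ) y = 0 := by
    rw [h1P, ← cfc_mul (fun s : ℝ => 1 - psi δ s) (ptf δ) y (by fun_prop) (by fun_prop)]
    have : (fun s : ℝ => (1 - psi δ s) * ptf δ s) = fun _ => 0 := by
      funext s
      rw [mul_comm]
      exact lemT1_ptf_mul hδ s
    rw [this, cfc_const_zero ℝ y]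
  refine ⟨cfc (psi δ) y, cfc (ptf δ) y, cfc (fun s : ℝ => psi δ s * rrf δ s) y,
    ?_, ?_, ?_, hQ1, hQ2, ?_, ?_⟩
  · rw [h1P]
    refine norm_cfc_le zero_le_one fun s _ => ?_
    have a1 : 0 ≤ psi δ s := le_min zero_le_one (le_max_left _ _)
    have a2 : psi δ s ≤ 1 := min_le_left _ _
    rw [Real.norm_of_nonneg (by linarith)]
    linarith
  · refine ⟨cfc (fun s : ℝ => Real.sqrt (ptf δ s)) y, ?_⟩
    have hs : IsSelfAdjoint (cfc (fun s : ℝ => Real.sqrt (ptf δ s)) y) := cfc_predicate _ y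
    rw [hs.star_eq, ← cfc_mul (fun s : ℝ => Real.sqrt (ptf δ s))
      (fun s : ℝ => Real.sqrt (ptf δ s)) y (by fun_prop) (by fun_prop)]
    refine cfc_congr fun s _ => ?_
    exact (Real.mul_self_sqrt (le_max_left _ _)).symm
  · intro hQ
    have hnt : Nontrivial A := ⟨⟨y, 0, hy0⟩⟩
    have hmem : ‖y‖ ∈ spectrum ℝ y := by
      let _ : PartialOrder A := CStarAlgebra.spectralOrder A
      have _ : StarOrderedRing A := CStarAlgebra.spectralOrderedRing A
      have hy' : 0 ≤ y := by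
        rw [hg]
        exact star_mul_self_nonneg g
      exact CStarAlgebra.norm_mem_spectrum_of_nonneg hy'
    have h2 : ptf δ ‖y‖ ∈ spectrum ℝ (cfc (ptf δ) y) := by
      rw [cfc_map_spectrum (ptf δ) y]
      exact ⟨‖y‖, hmem, rfl⟩
    rw [hQ, spectrum.zero_eq, Set.mem_singleton_iff] at h2
    have h3 : ptf δ ‖y‖ = ‖y‖ / 4 := by
      unfold ptf
      rw [hδdef, max_eq_right (by linarith)]
      ring
    rw [h3] at h2
    linarith
  · have h1 : cfc (fun s : ℝ => psi δ s * rrf δ s * s) y = cfc (psi δ) y :=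
      cfc_congr fun s _ => lemT1_psi_mul hδ s
    rw [cfc_mul (fun s : ℝ => psi δ s * rrf δ s) (fun s : ℝ => s) y (by fun_prop) (by fun_prop),
      cfc_id' ℝ y] at h1
    exact h1.symm
  · have h1 : cfc (fun s : ℝ => s * (psi δ s * rrf δ s)) y = cfc (psi δ) y :=
      cfc_congr fun s _ => by
        show s * (psi δ s * rrf δ s) = psi δ s
        rw [mul_comm]
        exact lemT1_psi_mul hδ s
    rw [cfc_mul (fun s : ℝ => s) (fun s : ℝ => psi δ s * rrf δ s) y (by fun_prop) (by fun_prop),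
      cfc_id' ℝ y] at h1
    exact h1.symm

theorem lemT1_pol (h : CP α ι U) (s : Finset ℤ) (c : ℤ → A) (a b : A) :
    ι a * pol ι U s c * ι b = pol ι U s (fun k => a * c k * (α ^ k) b) := by
  unfold pol
  rw [Finset.mul_sum, Finset.sum_mul]
  refine Finset.sum_congr rfl fun k _ => ?_
  rw [map_mul, map_mul, mul_assoc, mul_assoc, h.upw_mul_ι]
  noncomm_ring

/-- Reduction of Lemma T to polynomials. -/
theorem CP.lemT1 (h : CP α ι U)
    (H : ∀ (K : ℕ) (c : ℤ → A) (f : B) (y y' : A), f = pol ι U (Finset.Icc (-(K : ℤ)) K) c →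
      IsPos y → y ≠ 0 → IsPos y' → y' ≠ 0 → ι y * f = 0 → f * ι y' = 0 → f ∈ CL B)
    (f : B) (y y' : A) (hy : IsPos y) (hy0 : y ≠ 0) (hy' : IsPos y') (hy0' : y' ≠ 0)
    (h1 : ι y * f = 0) (h2 : f * ι y' = 0) : f ∈ CL B := by
  obtain ⟨P, Q, K, p1, p2, p3, p4, p5, p6, p7⟩ := lemT1_cut y hy hy0
  obtain ⟨P', Q', K', q1, q2, q3, q4, q5, q6, q7⟩ := lemT1_cut y' hy' hy0'
  have hcl : CL B = closure (CL B) := by
    unfold CL
    rw [closure_closure]
  rw [hcl]
  refine Metric.mem_closure_iff.mpr fun ε hε => ?_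
  obtain ⟨N, c, hf1⟩ := h.pol_dense f ε hε
  set f1 : B := pol ι U (Finset.Icc (-(N : ℤ)) N) c with hf1def
  have hPf : ι P * f = 0 := by
    rw [p6, map_mul, mul_assoc, h1, mul_zero]
  have hfP : f * ι P' = 0 := by
    rw [q7, map_mul, ← mul_assoc, h2, zero_mul]
  have hff : f = ι (1 - P) * f * ι (1 - P') := by
    rw [map_sub, map_sub, map_one, sub_mul, one_mul, hPf, sub_zero, mul_sub, mul_one, hfP,
      sub_zero]
  have n1 : ‖ι (1 - P)‖ ≤ 1 := (NonUnitalStarAlgHom.norm_apply_le ι (1 - P)).trans p1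
  have n2 : ‖ι (1 - P')‖ ≤ 1 := (NonUnitalStarAlgHom.norm_apply_le ι (1 - P')).trans q1
  refine ⟨ι (1 - P) * f1 * ι (1 - P'), ?_, ?_⟩
  · refine H N _ _ Q Q' (lemT1_pol h _ c (1 - P) (1 - P')) p2 p3 q2 q3 ?_ ?_
    · rw [mul_assoc, ← mul_assoc (ι Q), ← map_mul, p4, map_zero, zero_mul]
    · rw [mul_assoc, ← map_mul, q5, map_zero, mul_zero]
  · rw [dist_eq_norm]
    have e1 : f - ι (1 - P) * f1 * ι (1 - P') = ι (1 - P) * (f - f1) * ι (1 - P') := by
      conv_lhs => rw [hff]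
      noncomm_ring
    rw [e1]
    calc ‖ι (1 - P) * (f - f1) * ι (1 - P')‖ ≤ ‖ι (1 - P) * (f - f1)‖ * ‖ι (1 - P')‖ :=
          norm_mul_le _ _
      _ ≤ ‖ι (1 - P) * (f - f1)‖ * 1 := mul_le_mul_of_nonneg_left n2 (norm_nonneg _)
      _ ≤ ‖ι (1 - P)‖ * ‖f - f1‖ := by
          rw [mul_one]
          exact norm_mul_le _ _
      _ ≤ 1 * ‖f - f1‖ := mul_le_mul_of_nonneg_right n1 (norm_nonneg _)
      _ < ε := by
          rw [one_mul]
          exact hf1

end Pool.Agent.MPb9c6dd
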