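import Pool.Agent.Lib.MP_b9c6dd_an.Faithful

set_option autoImplicit false

open scoped BoundedContinuousFunction

namespace Pool.Agent.MPb9c6dd

variable {A B : Type} [CStarAlgebra A] [CStarAlgebra B] {α : A ≃⋆ₐ[ℂ] A}
  {ι : A →⋆ₐ[ℂ] B} {U : unitary B}

theorem LemT2_mul_unit (G : Bˣ) {f : B} (hf : f ∈ CL B) : f * (G : B) ∈ CL B := by
  unfold CL at hf ⊢
  have hcont : Continuous fun x : B => x * (G : B) := continuous_id.mul continuous_const
  exact map_mem_closure (f := fun x : B => x * (G : B)) hcont hf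
    (fun x hx => IsUnit.mul hx G.isUnit)

/-- multiplying a polynomial by a power of the unitary -/
theorem LemT2_shift (ι : A →⋆ₐ[ℂ] B) (U : unitary B) (K N : ℕ) (hKN : K < N) (c : ℤ → A) :
    ∃ c' : ℤ → A, pol ι U (Finset.Icc (-(K : ℤ)) K) c * upw U (N : ℤ) =
      pol ι U (Finset.Icc 1 ((N + K : ℕ) : ℤ)) c' := by
  classical
  refine ⟨fun k => if k - N ∈ Finset.Icc (-(K : ℤ)) K then c (k - N) else 0, ?_⟩
  unfold pol
  rw [Finset.sum_mul]
  set F : ℤ → B := fun k => ι (if k - N ∈ Finset.Icc (-(K : ℤ)) K then c (k - N) else 0) *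
    upw U k with hF
  have h1 : ∀ k ∈ Finset.Icc (-(K : ℤ)) K, ι (c k) * upw U k * upw U (N : ℤ) =
      F ((addRightEmbedding (N : ℤ)) k) := by
    intro k hk
    rw [hF]
    simp only [addRightEmbedding_apply, add_sub_cancel_right]
    rw [if_pos hk, upw_add, mul_assoc]
  have h2 : ∑ k ∈ Finset.Icc (-(K : ℤ)) K, ι (c k) * upw U k * upw U (N : ℤ) =
      ∑ k ∈ (Finset.Icc (-(K : ℤ)) K).map (addRightEmbedding (N : ℤ)), F k := by
    rw [Finset.sum_map]
    exact Finset.sum_congr rfl h1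
  rw [h2]
  apply Finset.sum_subset
  · intro k hk
    rw [Finset.mem_map] at hk
    obtain ⟨m, hm, rfl⟩ := hk
    rw [Finset.mem_Icc] at hm
    rw [addRightEmbedding_apply, Finset.mem_Icc]
    push_cast
    omega
  · intro k _ hk
    rw [hF]
    simp only
    rw [if_neg, map_zero, zero_mul]
    intro hcon
    apply hk
    rw [Finset.mem_map]
    exact ⟨k - N, hcon, by rw [addRightEmbedding_apply]; ring⟩

theorem LemT2_aut_zero (α : A ≃⋆ₐ[ℂ] A) (a : A) : (α ^ (0 : ℤ)) a = a := by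
  rw [zpow_zero]
  rfl

theorem LemT2_aut_cancel (α : A ≃⋆ₐ[ℂ] A) (k : ℤ) (a : A) : (α ^ k) ((α ^ (-k)) a) = a := by
  rw [← aut_add, add_neg_cancel, LemT2_aut_zero]

theorem LemT2_aut_cancel' (α : A ≃⋆ₐ[ℂ] A) (k : ℤ) (a : A) : (α ^ (-k)) ((α ^ k) a) = a := by
  rw [← aut_add, neg_add_cancel, LemT2_aut_zero]

/-- Reduction of Lemma T to polynomials of positive degrees. -/
theorem CP.lemT2 (h : CP α ι U) [IsSimpleRing B] {E : B →L[ℂ] A} (hE : IsEx α ι U E)
    (H : ∀ (K : ℕ) (c : ℤ → A) (f : B) (y y' a : A), f = pol ι U (Finset.Icc 1 (K : ℤ)) c →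
      IsPos y → IsPos y' → y' * a * y ≠ 0 → ι y * f = 0 → f * ι y' = 0 → f ∈ CL B)
    (K : ℕ) (c : ℤ → A) (f : B) (y y' : A) (hf : f = pol ι U (Finset.Icc (-(K : ℤ)) K) c)
    (hy : IsPos y) (hy0 : y ≠ 0) (hy' : IsPos y') (hy0' : y' ≠ 0)
    (h1 : ι y * f = 0) (h2 : f * ι y' = 0) : f ∈ CL B := by
  obtain ⟨n, m, a, b, hs⟩ := h.alpha_simple hE y hy0
  -- a large power which does not annihilate
  have claim : ∃ (N : ℕ) (a' : A), K < N ∧ y' * a' * (α ^ (N : ℤ)) y ≠ 0 := by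
    by_contra hcon
    push Not at hcon
    apply hy0'
    set M : ℤ := (K : ℤ) + 1 + ∑ i, |m i| with hM
    have hMi : ∀ i, (K : ℤ) < M + m i := by
      intro i
      have h3 : |m i| ≤ ∑ i, |m i| :=
        Finset.single_le_sum (f := fun i => |m i|) (fun j _ => abs_nonneg _) (Finset.mem_univ i)
      have h4 := neg_abs_le (m i)
      omega
    have h5 : (α ^ M) (∑ i, a i * (α ^ m i) y * b i) = 1 := by
      rw [hs, map_one]
    have h6 : y' = ∑ i, y' * (α ^ M) (a i) * (α ^ (M + m i)) y * (α ^ M) (b i) := by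
      calc y' = y' * 1 := (mul_one _).symm
        _ = y' * (α ^ M) (∑ i, a i * (α ^ m i) y * b i) := by rw [h5]
        _ = _ := by
          rw [map_sum, Finset.mul_sum]
          refine Finset.sum_congr rfl fun i _ => ?_
          rw [map_mul, map_mul, aut_add α M (m i)]
          simp only [mul_assoc]
    rw [h6]
    refine Finset.sum_eq_zero fun i _ => ?_
    obtain ⟨N, hN⟩ : ∃ N : ℕ, M + m i = N := ⟨(M + m i).toNat, by
      have := hMi i
      omega⟩
    have hKN : K < N := by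
      have := hMi i
      omega
    rw [hN, hcon N ((α ^ M) (a i)) hKN, zero_mul]
  obtain ⟨N, a', hKN, hne⟩ := claim
  obtain ⟨c', hc'⟩ := LemT2_shift ι U K N hKN c
  have h3 : f * upw U (N : ℤ) ∈ CL B := by
    apply H (N + K) c' (f * upw U (N : ℤ)) y ((α ^ (-(N : ℤ))) y') ((α ^ (-(N : ℤ))) a')
    · rw [hf, hc']
    · exact hy
    · obtain ⟨g, hg⟩ := hy'
      exact ⟨(α ^ (-(N : ℤ))) g, by rw [hg, map_mul, map_star]⟩
    · intro hcon
      apply hne
      have h4 := congrArg (α ^ (N : ℤ)) hcon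
      rw [map_mul, map_mul, LemT2_aut_cancel, LemT2_aut_cancel, map_zero] at h4
      exact h4
    · rw [← mul_assoc, h1, zero_mul]
    · rw [mul_assoc, h.upw_mul_ι, LemT2_aut_cancel, ← mul_assoc, h2, zero_mul]
  have hU1 : upw U (N : ℤ) * upw U (-(N : ℤ)) = 1 := by
    rw [← upw_add, add_neg_cancel, upw_zero]
  have hU2 : upw U (-(N : ℤ)) * upw U (N : ℤ) = 1 := by
    rw [← upw_add, neg_add_cancel, upw_zero]
  have h7 := LemT2_mul_unit (⟨upw U (-(N : ℤ)), upw U (N : ℤ), hU2, hU1⟩ : Bˣ) h3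
  have h8 : f * upw U (N : ℤ) * upw U (-(N : ℤ)) = f := by
    rw [mul_assoc, hU1, mul_one]
  rw [← h8]
  exact h7

end Pool.Agent.MPb9c6dd
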