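import Pool.Agent.Lib.MP_b9c6dd_an.CPBasic

set_option autoImplicit false

open scoped BoundedContinuousFunction

namespace Pool.Agent.MPb9c6dd

variable {A B : Type} [CStarAlgebra A] [CStarAlgebra B] {α : A ≃⋆ₐ[ℂ] A}
  {ι : A →⋆ₐ[ℂ] B} {U : unitary B}

section LemT3_aux

attribute [local instance] CStarAlgebra.spectralOrder CStarAlgebra.spectralOrderedRing

theorem LemT3_mul_CL {x u : B} (hx : x ∈ CL B) (hu : IsUnit u) : x * u ∈ CL B := by
  have hc : Continuous fun x : B => x * u := continuous_id.mul continuous_const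
  exact map_mem_closure (f := fun x : B => x * u) hc hx (fun y hy => IsUnit.mul hy hu)

theorem LemT3_psi_cont (δ : ℝ) : Continuous (psi δ) := by
  unfold psi
  fun_prop

theorem LemT3_ptf_cont (δ : ℝ) : Continuous (ptf δ) := by
  unfold ptf
  fun_prop

/-- The function `psi / √`. -/
noncomputable def LemT3_kap (δ s : ℝ) : ℝ := psi δ s / √(max s δ)

theorem LemT3_kap_cont {δ : ℝ} (hδ : 0 < δ) : Continuous (LemT3_kap δ) := by
  unfold LemT3_kap
  apply (LemT3_psi_cont δ).div (by fun_prop)
  intro s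
  have : 0 < max s δ := lt_max_of_lt_right hδ
  positivity

theorem LemT3_kap_eq {δ : ℝ} (hδ : 0 < δ) {s : ℝ} (hs : 0 < s) :
    (√s)⁻¹ * psi δ s = LemT3_kap δ s := by
  unfold LemT3_kap
  rcases le_total δ s with h | h
  · rw [max_eq_left h, div_eq_mul_inv, mul_comm]
  · have : psi δ s = 0 := by
      unfold psi
      have : (s - 2 * δ) / δ ≤ 0 := div_nonpos_of_nonpos_of_nonneg (by linarith) hδ.le
      rw [max_eq_left this]
      simp
    rw [this]
    simp

/-- The polar part of a unit. -/
theorem LemT3_polar {δ : ℝ} (hδ : 0 < δ) (g : A) (hg : IsUnit g) :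
    ∃ V : unitary A, (V : A) * cfc (psi δ) (star g * g) = g * cfc (LemT3_kap δ) (star g * g) := by
  have hQ : IsUnit (star g * g) := (hg.star).mul hg
  have hQ0 : 0 ≤ star g * g := star_mul_self_nonneg g
  have hsp : ∀ s ∈ spectrum ℝ (star g * g), 0 < s := by
    intro s hs
    rcases (spectrum_nonneg_of_nonneg hQ0 hs).eq_or_lt with h | h
    · exact absurd (h ▸ hs) (spectrum.zero_notMem ℝ hQ)
    · exact h
  have hsa : IsSelfAdjoint (star g * g) := IsSelfAdjoint.star_mul_self g
  have hcont : ContinuousOn (fun s : ℝ => (√s)⁻¹) (spectrum ℝ (star g * g)) := by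
    apply ContinuousOn.inv₀ (by fun_prop)
    intro s hs
    have := hsp s hs
    positivity
  set W := cfc (fun s : ℝ => (√s)⁻¹) (star g * g) with hW
  have hWsa : star W = W := (cfc_predicate (R := ℝ) (fun s : ℝ => (√s)⁻¹) (star g * g)).star_eq
  have h1 : W * (star g * g) * W = 1 := by
    have hid : star g * g = cfc (fun s : ℝ => s) (star g * g) := (cfc_id' ℝ (star g * g)).symm
    conv_lhs => rw [hid, ← hid]
    have : W * (star g * g) = cfc (fun s : ℝ => (√s)⁻¹ * s) (star g * g) := by
      rw [cfc_mul (fun s : ℝ => (√s)⁻¹) (fun s : ℝ => s) (star g * g) hcont (by fun_prop),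
        cfc_id' ℝ (star g * g)]
    rw [this, hW, ← cfc_mul (fun s : ℝ => (√s)⁻¹ * s) (fun s : ℝ => (√s)⁻¹) (star g * g)
      (hcont.mul (by fun_prop)) hcont]
    rw [← cfc_one ℝ (star g * g)]
    apply cfc_congr
    intro s hs
    have h0 := hsp s hs
    simp only [Pi.one_apply]
    have : s = √s * √s := (Real.mul_self_sqrt h0.le).symm
    have h2 : √s ≠ 0 := by positivity
    calc (√s)⁻¹ * s * (√s)⁻¹ = (√s)⁻¹ * (√s * √s) * (√s)⁻¹ := by rw [← this]
      _ = 1 := by field_simp
  have hV1 : star (g * W) * (g * W) = 1 := by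
    rw [star_mul, hWsa]
    rw [← h1]
    noncomm_ring
  have hWu : IsUnit W := by
    have hc : W * (star g * g) = (star g * g) * W := by
      rw [hW]
      exact (cfc_commute_cfc (fun s : ℝ => (√s)⁻¹) (fun s : ℝ => s) (star g * g) |>.eq |> fun h => by
        rwa [cfc_id' ℝ (star g * g)] at h)
    refine isUnit_iff_exists.mpr ⟨(star g * g) * W, ?_, ?_⟩
    · rw [← mul_assoc, h1]
    · rw [← hc, h1]
  have hVu : IsUnit (g * W) := hg.mul hWu
  have hV2 : (g * W) * star (g * W) = 1 := by
    obtain ⟨u, hu⟩ := hVu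
    rw [← hu] at hV1 ⊢
    have : star (u : A) = ↑u⁻¹ := by
      rw [← Units.mul_left_inj u, hV1]
      simp
    rw [this]
    simp
  refine ⟨⟨g * W, Unitary.mem_iff.mpr ⟨hV1, hV2⟩⟩, ?_⟩
  show g * W * cfc (psi δ) (star g * g) = g * cfc (LemT3_kap δ) (star g * g)
  rw [mul_assoc, hW, ← cfc_mul (fun s : ℝ => (√s)⁻¹) (psi δ) (star g * g) hcont
    (LemT3_psi_cont δ).continuousOn]
  congr 1
  apply cfc_congr
  intro s hs
  exact LemT3_kap_eq hδ (hsp s hs)

theorem LemT3_pol_mul_ι (h : CP α ι U) (s : Finset ℤ) (c : ℤ → A) (a : A) :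
    pol ι U s c * ι a = pol ι U s (fun k => c k * (α ^ k) a) := by
  unfold pol
  rw [Finset.sum_mul]
  refine Finset.sum_congr rfl fun k _ => ?_
  rw [mul_assoc, h.upw_mul_ι, map_mul, mul_assoc]

end LemT3_aux

attribute [local instance] CStarAlgebra.spectralOrder CStarAlgebra.spectralOrderedRing in
/-- Polar decomposition step: both annihilators can be made equal. -/
theorem CP.lemT3 (h : CP α ι U) (hd : Dense {x : A | IsUnit x})
    (H : ∀ (K : ℕ) (c : ℤ → A) (f : B) (y : A), f = pol ι U (Finset.Icc 1 (K : ℤ)) c →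
      IsPos y → y ≠ 0 → ι y * f = 0 → f * ι y = 0 → f ∈ CL B)
    (K : ℕ) (c : ℤ → A) (f : B) (y y' a : A) (hf : f = pol ι U (Finset.Icc 1 (K : ℤ)) c)
    (hy : IsPos y) (hy' : IsPos y') (hne : y' * a * y ≠ 0)
    (h1 : ι y * f = 0) (h2 : f * ι y' = 0) : f ∈ CL B := by
  set c0 := y' * a * y with hc0
  have hfc0 : f * ι c0 = 0 := by
    rw [hc0, map_mul, map_mul, ← mul_assoc, ← mul_assoc, h2, zero_mul, zero_mul]
  set hh := star c0 * c0 with hhh
  have hh0 : 0 ≤ hh := star_mul_self_nonneg c0
  have hhsa : IsSelfAdjoint hh := hh0.isSelfAdjoint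
  have hhf : ι hh * f = 0 := by
    have : ι c0 * f = 0 := by rw [hc0, map_mul, mul_assoc, h1, mul_zero]
    rw [hhh, map_mul, mul_assoc, this, mul_zero]
  have hhn : 0 < ‖hh‖ := by
    rw [hhh, CStarRing.norm_star_mul_self]
    have : 0 < ‖c0‖ := norm_pos_iff.mpr hne
    positivity
  set δ := ‖hh‖ / 4 with hδ
  have hδ0 : 0 < δ := by positivity
  set z := cfc (ptf δ) hh with hz
  have hzn : 0 ≤ z := cfc_nonneg fun s _ => le_max_left _ _
  have hzpos : IsPos z := by
    obtain ⟨g, hg⟩ := CStarAlgebra.nonneg_iff_eq_star_mul_self.mp hzn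
    exact ⟨g, hg⟩
  have hnt : Nontrivial A := nontrivial_of_ne c0 0 hne
  have hz0 : z ≠ 0 := by
    intro hz0
    have hmem : ‖hh‖ ∈ spectrum ℝ hh := CStarAlgebra.norm_mem_spectrum_of_nonneg hh0
    have := spectrum.zero_mem_iff ℝ (a := z)
    have hsp : ptf δ ‖hh‖ ∈ spectrum ℝ z := by
      rw [hz, cfc_map_spectrum (ptf δ) hh hhsa (LemT3_ptf_cont δ).continuousOn]
      exact ⟨_, hmem, rfl⟩
    rw [hz0, spectrum.zero_eq] at hsp
    have h3 : ptf δ ‖hh‖ = ‖hh‖ - 3 * δ := by
      unfold ptf
      rw [max_eq_right]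
      rw [hδ]; linarith
    rw [Set.mem_singleton_iff, h3] at hsp
    rw [hδ] at hsp
    linarith
  have hzf : ι z * f = 0 := by
    have : z = cfc (fun s => ptf δ s / max s δ) hh * hh := by
      have hcont : Continuous (fun s => ptf δ s / max s δ) := by
        apply (LemT3_ptf_cont δ).div (by fun_prop)
        intro s
        have : 0 < max s δ := lt_max_of_lt_right hδ0
        positivity
      have : cfc (fun s => ptf δ s / max s δ) hh * hh =
          cfc (fun s => ptf δ s / max s δ * s) hh := by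
        rw [cfc_mul (fun s : ℝ => ptf δ s / max s δ) (fun s : ℝ => s) hh hcont.continuousOn
          (by fun_prop), cfc_id' ℝ hh]
      rw [this, hz]
      apply cfc_congr
      intro s _
      simp only
      rcases le_total s (3 * δ) with hs | hs
      · have : ptf δ s = 0 := by
          unfold ptf
          exact max_eq_left (by linarith)
        rw [this]; simp
      · rw [max_eq_left (by linarith : δ ≤ s)]
        have : s ≠ 0 := by
          have : 0 < s := by linarith
          exact this.ne'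
        field_simp
    rw [this, map_mul, mul_assoc, hhf, mul_zero]
  set P := cfc (psi δ) hh with hP
  have hPz : (1 - P) * z = 0 := by
    have : (1 - P) = cfc (fun s => 1 - psi δ s) hh := by
      rw [cfc_sub (fun _ : ℝ => (1:ℝ)) (psi δ) hh (by fun_prop) (LemT3_psi_cont δ).continuousOn,
        cfc_const_one ℝ hh]
    rw [this, hz, ← cfc_mul (fun s : ℝ => 1 - psi δ s) (ptf δ) hh
      ((continuous_const.sub (LemT3_psi_cont δ)).continuousOn) (LemT3_ptf_cont δ).continuousOn]
    rw [← cfc_zero ℝ hh]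
    apply cfc_congr
    intro s _
    simp only [Pi.zero_apply]
    rcases le_total s (3 * δ) with hs | hs
    · have : ptf δ s = 0 := by
        unfold ptf
        exact max_eq_left (by linarith)
      rw [this]; simp
    · have : psi δ s = 1 := by
        unfold psi
        have h3 : 1 ≤ (s - 2 * δ) / δ := by
          rw [le_div_iff₀ hδ0]; linarith
        rw [max_eq_right (by linarith), min_eq_left h3]
      rw [this]; simp
  -- approximation
  have hmain : ∀ ε : ℝ, 0 < ε → ∃ f2 ∈ CL B, ‖f - f2‖ < ε := by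
    intro ε hε
    have hsa : ∀ g : A, IsSelfAdjoint (star g * g) := fun g => IsSelfAdjoint.star_mul_self g
    have hc1 : Continuous fun g : A => cfc (psi δ) (star g * g) :=
      Continuous.cfc_of_mem_nhdsSet (s := Set.univ) (psi δ) Filter.univ_mem (by fun_prop)
        hsa (LemT3_psi_cont δ).continuousOn
    have hc2 : Continuous fun g : A => cfc (LemT3_kap δ) (star g * g) :=
      Continuous.cfc_of_mem_nhdsSet (s := Set.univ) (LemT3_kap δ) Filter.univ_mem (by fun_prop)
        hsa (LemT3_kap_cont hδ0).continuousOn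
    have hιc : Continuous ι := map_continuous ι
    set G : A → ℝ := fun g => ‖f‖ * ‖P - cfc (psi δ) (star g * g)‖ +
      ‖f * ι (g * cfc (LemT3_kap δ) (star g * g))‖ with hG
    have hGc : Continuous G := by
      rw [hG]
      have e1 : Continuous fun g : A => f * ι (g * cfc (LemT3_kap δ) (star g * g)) :=
        continuous_const.mul (hιc.comp (continuous_id.mul hc2))
      exact (continuous_const.mul (continuous_const.sub hc1).norm).add e1.norm
    have hG0 : G c0 = 0 := by
      rw [hG]
      simp only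
      rw [← hhh, ← hP, sub_self, norm_zero, mul_zero, zero_add, map_mul, ← mul_assoc, hfc0,
        zero_mul, norm_zero]
    have hopen : IsOpen (G ⁻¹' (Set.Iio ε)) := isOpen_Iio.preimage hGc
    obtain ⟨g, hg1, hg2⟩ := hd.inter_open_nonempty _ hopen ⟨c0, by
      simp only [Set.mem_preimage, Set.mem_Iio, hG0]; exact hε⟩
    obtain ⟨V, hV⟩ := LemT3_polar hδ0 g hg2
    have hGg : G g < ε := hg1
    set f1 := f * ι ((V : A) * (1 - P)) with hf1
    have hf1CL : f1 ∈ CL B := by
      refine H K (fun k => c k * (α ^ k) ((V : A) * (1 - P))) f1 z ?_ hzpos hz0 ?_ ?_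
      · rw [hf1, hf, LemT3_pol_mul_ι h]
      · rw [hf1, ← mul_assoc, hzf, zero_mul]
      · rw [hf1, mul_assoc, ← map_mul, mul_assoc, hPz, mul_zero, map_zero, mul_zero]
    have hVs : (V : A) * star (V : A) = 1 := Unitary.mul_star_self_of_mem V.2
    have hVs' : star (V : A) * (V : A) = 1 := Unitary.star_mul_self_of_mem V.2
    refine ⟨f1 * ι (star (V : A)), LemT3_mul_CL hf1CL ?_, ?_⟩
    · refine isUnit_iff_exists.mpr ⟨ι (V : A), ?_, ?_⟩
      · rw [← map_mul, hVs', map_one]
      · rw [← map_mul, hVs, map_one]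
    · have hdiff : f - f1 * ι (star (V : A)) = f * ι ((V : A) * P) * ι (star (V : A)) := by
        have e1 : f = f * ι ((V : A) * 1) * ι (star (V : A)) := by
          rw [mul_one, mul_assoc, ← map_mul, hVs, map_one, mul_one]
        conv_lhs => rw [e1]
        rw [hf1, ← sub_mul, ← mul_sub, ← map_sub, ← mul_sub, sub_sub_cancel]
      rw [hdiff]
      have hn1 : ‖ι (star (V : A))‖ ≤ 1 := by
        refine (NonUnitalStarAlgHom.norm_apply_le ι _).trans ?_
        rw [norm_star]
        exact (CStarRing.norm_coe_unitary V).le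
      have hn2 : ‖(V : A)‖ ≤ 1 := (CStarRing.norm_coe_unitary V).le
      have e2 : (V : A) * P = (V : A) * (P - cfc (psi δ) (star g * g)) +
          g * cfc (LemT3_kap δ) (star g * g) := by
        rw [mul_sub, hV]; abel
      calc ‖f * ι ((V : A) * P) * ι (star (V : A))‖
          ≤ ‖f * ι ((V : A) * P)‖ * ‖ι (star (V : A))‖ := norm_mul_le _ _
        _ ≤ ‖f * ι ((V : A) * P)‖ * 1 := by gcongr
        _ = ‖f * ι ((V : A) * (P - cfc (psi δ) (star g * g))) +
              f * ι (g * cfc (LemT3_kap δ) (star g * g))‖ := by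
            rw [mul_one, e2, map_add, mul_add]
        _ ≤ ‖f * ι ((V : A) * (P - cfc (psi δ) (star g * g)))‖ +
              ‖f * ι (g * cfc (LemT3_kap δ) (star g * g))‖ := norm_add_le _ _
        _ ≤ ‖f‖ * ‖P - cfc (psi δ) (star g * g)‖ +
              ‖f * ι (g * cfc (LemT3_kap δ) (star g * g))‖ := by
            gcongr
            refine (norm_mul_le _ _).trans ?_
            gcongr
            refine (NonUnitalStarAlgHom.norm_apply_le ι _).trans ?_
            refine (norm_mul_le _ _).trans ?_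
            calc ‖(V : A)‖ * ‖P - cfc (psi δ) (star g * g)‖ ≤
                1 * ‖P - cfc (psi δ) (star g * g)‖ := by gcongr
              _ = _ := one_mul _
        _ = G g := by rw [hG]
        _ < ε := hGg
  have hcl : IsClosed (CL B) := isClosed_closure
  rw [← hcl.closure_eq, Metric.mem_closure_iff]
  intro ε hε
  obtain ⟨f2, h3, h4⟩ := hmain ε hε
  exact ⟨f2, h3, by rwa [dist_eq_norm]⟩

end Pool.Agent.MPb9c6dd
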