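import Pool.Agent.Lib.MP_b9c6dd_an.Move

set_option autoImplicit false

open scoped BoundedContinuousFunction

namespace Pool.Agent.MPb9c6dd

variable {A B : Type} [CStarAlgebra A] [CStarAlgebra B] {α : A ≃⋆ₐ[ℂ] A}
  {ι : A →⋆ₐ[ℂ] B} {U : unitary B}

theorem MoveBoth_unit_mul (G : Bˣ) {f : B} (hf : f ∈ CL B) : (G : B) * f ∈ CL B := by
  unfold CL at hf ⊢
  exact map_mem_closure (continuous_const.mul continuous_id) hf
    (fun x hx => G.isUnit.mul hx)

theorem MoveBoth_star {f : B} (hf : f ∈ CL B) : star f ∈ CL B := by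
  unfold CL at hf ⊢
  exact map_mem_closure continuous_star hf (fun x hx => IsUnit.star hx)

theorem MoveBoth_lim (f : B) (M : ℝ) (hM : 0 < M)
    (h : ∀ ε : ℝ, 0 < ε → ∃ (G : Bˣ) (f1 : B), ‖((G⁻¹ : Bˣ) : B)‖ ≤ M ∧ f1 ∈ CL B ∧
      ‖(G : B) * f - f1‖ ≤ ε) : f ∈ CL B := by
  have hcl : closure (CL B) = CL B := by
    unfold CL
    exact closure_closure
  rw [← hcl, Metric.mem_closure_iff]
  intro ε hε
  obtain ⟨G, f1, h1, h2, h3⟩ := h (ε / (2 * M)) (by positivity)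
  refine ⟨((G⁻¹ : Bˣ) : B) * f1, MoveBoth_unit_mul G⁻¹ h2, ?_⟩
  rw [dist_eq_norm]
  have e : f - ((G⁻¹ : Bˣ) : B) * f1 = ((G⁻¹ : Bˣ) : B) * ((G : B) * f - f1) := by
    rw [mul_sub, ← mul_assoc, Units.inv_mul, one_mul]
  rw [e]
  calc ‖((G⁻¹ : Bˣ) : B) * ((G : B) * f - f1)‖
      ≤ ‖((G⁻¹ : Bˣ) : B)‖ * ‖(G : B) * f - f1‖ := norm_mul_le _ _
    _ ≤ M * (ε / (2 * M)) := by gcongr
    _ = ε / 2 := by field_simp
    _ < ε := by linarith

theorem MoveBoth_selfadj {y : A} (hy : IsPos y) : star y = y := by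
  obtain ⟨g, rfl⟩ := hy
  rw [star_mul, star_star]

/-- Reduction to elements with annihilators in `A` on both sides. -/
theorem CP.reduce_T (h : CP α ι U) {E : B →L[ℂ] A} (hE : IsEx α ι U E)
    (hfaith : ∀ b, E (star b * b) = 0 → b = 0) {d : ℕ} (hR : Rok α d)
    (HT : ∀ (f : B) (y y' : A), IsPos y → y ≠ 0 → IsPos y' → y' ≠ 0 → ι y * f = 0 →
      f * ι y' = 0 → f ∈ CL B) :
    ∀ f hh h' : B, hh ≠ 0 → h' ≠ 0 → hh * f = 0 → f * h' = 0 → f ∈ CL B := by
  intro f hh h' hne hne' hf hf'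
  obtain ⟨M, hM, key⟩ := h.move_left hE hfaith hR f hh hne hf
  apply MoveBoth_lim f M hM
  intro ε hε
  obtain ⟨G, H, y, h1, h2, h3, h4, h5⟩ := key ε hε
  refine ⟨G, H * f, h1, ?_, h2⟩
  have h6 : star h' * star (H * f) = 0 := by
    rw [← star_mul, mul_assoc, hf', mul_zero, star_zero]
  have h7 : star h' ≠ 0 := star_ne_zero.2 hne'
  obtain ⟨M', hM', key'⟩ := h.move_left hE hfaith hR (star (H * f)) (star h') h7 h6
  have h8 : star (H * f) ∈ CL B := by
    apply MoveBoth_lim _ M' hM'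
    intro ε' hε'
    obtain ⟨G', H', y', k1, k2, k3, k4, k5⟩ := key' ε' hε'
    refine ⟨G', H' * star (H * f), k1, ?_, k2⟩
    have k6 : star (H' * star (H * f)) ∈ CL B := by
      apply HT _ y y' h3 h4 k3 k4
      · rw [star_mul, star_star, ← mul_assoc, h5, zero_mul]
      · have k7 : star (ι y') = ι y' := by
          rw [← map_star, MoveBoth_selfadj k3]
        rw [← k7, ← star_mul, k5, star_zero]
    have k8 := MoveBoth_star k6
    rwa [star_star] at k8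
  have h9 := MoveBoth_star h8
  rwa [star_star] at h9

end Pool.Agent.MPb9c6dd
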