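import Pool.Agent.Lib.MP_b9c6dd_an.Basic

set_option autoImplicit false

open scoped BoundedContinuousFunction

namespace Pool.Agent.MPb9c6dd

private noncomputable def red1_phi (δ s : ℝ) : ℝ := max 0 (1 - s / δ)

private theorem red1_phi_cont (δ : ℝ) : Continuous (red1_phi δ) := by
  unfold red1_phi
  fun_prop

private theorem red1_psi_cont (δ : ℝ) : Continuous (psi δ) := by
  unfold psi
  fun_prop

private theorem red1_psi_nonneg (δ s : ℝ) : 0 ≤ psi δ s := by
  unfold psi
  exact le_min zero_le_one (le_max_left _ _)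

private theorem red1_psi_le (δ s : ℝ) : psi δ s ≤ 1 := min_le_left _ _

private theorem red1_mul {δ : ℝ} (hδ : 0 < δ) (s : ℝ) : red1_phi δ s * psi δ s = 0 := by
  unfold red1_phi psi
  rcases le_total s δ with h | h
  · have h1 : (s - 2 * δ) / δ ≤ 0 := div_nonpos_of_nonpos_of_nonneg (by linarith) hδ.le
    rw [max_eq_left h1, min_eq_right zero_le_one, mul_zero]
  · have h1 : 1 - s / δ ≤ 0 := by
      have : 1 ≤ s / δ := by rwa [le_div_iff₀ hδ, one_mul]
      linarith
    rw [max_eq_left h1, zero_mul]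

private theorem red1_psi_one {δ : ℝ} (hδ : 0 < δ) {s : ℝ} (h : 3 * δ ≤ s) : psi δ s = 1 := by
  unfold psi
  have h1 : 1 ≤ (s - 2 * δ) / δ := by
    rw [le_div_iff₀ hδ]
    linarith
  rw [max_eq_right (by linarith), min_eq_left h1]

/-- `‖g (1 - psi(g* g))‖² ≤ 3 δ` -/
private theorem red1_norm {B : Type} [CStarAlgebra B] {δ : ℝ} (hδ : 0 < δ) (g : B) :
    ‖g * (1 - cfc (psi δ) (star g * g))‖ ≤ Real.sqrt (3 * δ) := by
  set b := star g * g with hb
  have hbsa : IsSelfAdjoint b := IsSelfAdjoint.star_mul_self g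
  set c := 1 - cfc (psi δ) b with hc
  have hc1 : c = cfc (fun s => 1 - psi δ s) b := by
    rw [cfc_sub (fun _ => (1 : ℝ)) (psi δ) b continuous_const.continuousOn
      (red1_psi_cont δ).continuousOn, cfc_const_one ℝ b]
  have hcsa : star c = c := by
    rw [hc1]
    exact (cfc_predicate (fun s => 1 - psi δ s) b : IsSelfAdjoint _)
  have h1 : ‖g * c‖ ^ 2 = ‖c * b * c‖ := by
    rw [sq, ← CStarRing.norm_star_mul_self, star_mul, hcsa, hb]
    congr 1
    noncomm_ring
  have h2 : c * b * c = cfc (fun s => (1 - psi δ s) * s * (1 - psi δ s)) b := by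
    have hcont : Continuous fun s => 1 - psi δ s := continuous_const.sub (red1_psi_cont δ)
    have e1 : cfc (fun s => (1 - psi δ s) * s * (1 - psi δ s)) b =
        cfc (fun s => (1 - psi δ s) * s) b * cfc (fun s => 1 - psi δ s) b :=
      cfc_mul (fun s => (1 - psi δ s) * s) (fun s => 1 - psi δ s) b
        (hcont.mul continuous_id).continuousOn hcont.continuousOn
    have e2 : cfc (fun s => (1 - psi δ s) * s) b = cfc (fun s => 1 - psi δ s) b * cfc (fun s => s) b :=
      cfc_mul (fun s => 1 - psi δ s) (fun s => s) b hcont.continuousOn continuous_id.continuousOn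
    rw [e1, e2, cfc_id' ℝ b, ← hc1]
  have h3 : ‖c * b * c‖ ≤ 3 * δ := by
    rw [h2]
    apply norm_cfc_le (by positivity)
    intro s hs
    have hs0 : 0 ≤ s := spectrum_star_mul_self_nonneg s hs
    have p0 := red1_psi_nonneg δ s
    have p1 := red1_psi_le δ s
    rw [Real.norm_eq_abs, abs_of_nonneg (mul_nonneg (mul_nonneg (by linarith) hs0) (by linarith))]
    rcases le_total (3 * δ) s with h | h
    · rw [red1_psi_one hδ h]
      simp
      linarith
    · calc (1 - psi δ s) * s * (1 - psi δ s) ≤ 1 * s * 1 := by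
            apply mul_le_mul _ (by linarith) (by linarith) (by linarith)
            apply mul_le_mul_of_nonneg_right (by linarith) hs0
        _ = s := by ring
        _ ≤ 3 * δ := h
  apply Real.le_sqrt_of_sq_le
  rw [h1]
  exact h3

/-- Reduction to elements with annihilators on both sides. -/
theorem dense_of_two_sided {B : Type} [CStarAlgebra B]
    (hD : ∀ r f : B, r * f = 1 → f * r = 1)
    (H : ∀ f h h' : B, h ≠ 0 → h' ≠ 0 → h * f = 0 → f * h' = 0 → f ∈ CL B) :
    Dense {x : B | IsUnit x} := by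
  intro f
  by_cases h1 : IsUnit (star f * f)
  · obtain ⟨v, hv⟩ := h1
    apply subset_closure
    have h2 : ((v⁻¹ : Bˣ) : B) * star f * f = 1 := by
      rw [mul_assoc, ← hv]
      exact v.inv_mul
    exact ⟨⟨f, ((v⁻¹ : Bˣ) : B) * star f, hD _ _ h2, h2⟩, rfl⟩
  by_cases h2 : IsUnit (f * star f)
  · obtain ⟨v, hv⟩ := h2
    apply subset_closure
    have h3 : f * (star f * ((v⁻¹ : Bˣ) : B)) = 1 := by
      rw [← mul_assoc, ← hv]
      exact v.mul_inv
    exact ⟨⟨f, star f * ((v⁻¹ : Bˣ) : B), h3, hD _ _ h3⟩, rfl⟩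
  -- both spectra contain zero
  have z1 : (0 : ℝ) ∈ spectrum ℝ (star f * f) := (spectrum.zero_mem_iff ℝ).2 h1
  have z2 : (0 : ℝ) ∈ spectrum ℝ (f * star f) := (spectrum.zero_mem_iff ℝ).2 h2
  have sa1 : IsSelfAdjoint (star f * f) := IsSelfAdjoint.star_mul_self f
  have sa2 : IsSelfAdjoint (f * star f) := IsSelfAdjoint.mul_star_self f
  have hnt : Nontrivial B := by
    by_contra hcon
    rw [not_nontrivial_iff_subsingleton] at hcon
    exact h1 (isUnit_of_subsingleton _)
  have hne : ∀ (δ : ℝ) (b : B), IsSelfAdjoint b → (0 : ℝ) ∈ spectrum ℝ b →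
      cfc (red1_phi δ) b ≠ 0 := by
    intro δ b hb hz h0
    have h3 : (1 : ℝ) ∈ spectrum ℝ (cfc (red1_phi δ) b) := by
      rw [cfc_map_spectrum (red1_phi δ) b hb (red1_phi_cont δ).continuousOn]
      refine ⟨0, hz, ?_⟩
      unfold red1_phi
      simp
    rw [h0, spectrum.zero_eq] at h3
    norm_num at h3
  have key : ∀ δ : ℝ, 0 < δ →
      cfc (psi δ) (f * star f) * f * cfc (psi δ) (star f * f) ∈ CL B := by
    intro δ hδ
    apply H _ (cfc (red1_phi δ) (f * star f)) (cfc (red1_phi δ) (star f * f))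
      (hne δ _ sa2 z2) (hne δ _ sa1 z1)
    · have h3 : cfc (red1_phi δ) (f * star f) * cfc (psi δ) (f * star f) = 0 := by
        rw [← cfc_mul (red1_phi δ) (psi δ) _ (red1_phi_cont δ).continuousOn
          (red1_psi_cont δ).continuousOn]
        have : (fun s => red1_phi δ s * psi δ s) = fun _ => 0 := by
          funext s
          exact red1_mul hδ s
        rw [this]
        exact cfc_const_zero ℝ _
      rw [← mul_assoc, ← mul_assoc, h3, zero_mul, zero_mul]
    · have h3 : cfc (psi δ) (star f * f) * cfc (red1_phi δ) (star f * f) = 0 := by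
        rw [← cfc_mul (psi δ) (red1_phi δ) _ (red1_psi_cont δ).continuousOn
          (red1_phi_cont δ).continuousOn]
        have : (fun s => psi δ s * red1_phi δ s) = fun _ => 0 := by
          funext s
          rw [mul_comm]
          exact red1_mul hδ s
        rw [this]
        exact cfc_const_zero ℝ _
      rw [mul_assoc, h3, mul_zero]
  have hdist : ∀ δ : ℝ, 0 < δ →
      ‖f - cfc (psi δ) (f * star f) * f * cfc (psi δ) (star f * f)‖ ≤ 2 * Real.sqrt (3 * δ) := by
    intro δ hδ
    set p := cfc (psi δ) (f * star f) with hp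
    set q := cfc (psi δ) (star f * f) with hq
    have hpsa : star p = p := (cfc_predicate (psi δ) (f * star f) : IsSelfAdjoint _)
    have e1 : f - p * f * q = f * (1 - q) + (1 - p) * f * q := by noncomm_ring
    have n1 : ‖f * (1 - q)‖ ≤ Real.sqrt (3 * δ) := red1_norm hδ f
    have n2 : ‖(1 - p) * f‖ ≤ Real.sqrt (3 * δ) := by
      have h3 := red1_norm hδ (star f)
      rw [star_star] at h3
      rw [← norm_star, star_mul, star_sub, star_one, hpsa]
      exact h3
    have n3 : ‖q‖ ≤ 1 := by
      apply norm_cfc_le zero_le_one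
      intro s _
      rw [Real.norm_eq_abs, abs_of_nonneg (red1_psi_nonneg δ s)]
      exact red1_psi_le δ s
    rw [e1]
    calc ‖f * (1 - q) + (1 - p) * f * q‖ ≤ ‖f * (1 - q)‖ + ‖(1 - p) * f * q‖ := norm_add_le _ _
      _ ≤ Real.sqrt (3 * δ) + Real.sqrt (3 * δ) * 1 := by
          apply add_le_add n1
          refine (norm_mul_le _ _).trans ?_
          apply mul_le_mul n2 n3 (norm_nonneg _) (Real.sqrt_nonneg _)
      _ = 2 * Real.sqrt (3 * δ) := by ring
  have hcl : f ∈ closure (CL B) := by
    rw [Metric.mem_closure_iff]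
    intro ε hε
    have hδ : 0 < ε ^ 2 / 48 := by positivity
    refine ⟨_, key _ hδ, ?_⟩
    rw [dist_eq_norm]
    refine lt_of_le_of_lt (hdist _ hδ) ?_
    have h3 : 3 * (ε ^ 2 / 48) = (ε / 4) ^ 2 := by ring
    rw [h3, Real.sqrt_sq (by positivity)]
    linarith
  have : closure (CL B) = CL B := isClosed_closure.closure_eq
  rw [this] at hcl
  exact hcl

end Pool.Agent.MPb9c6dd
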