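import Pool.Agent.Lib.MP_b9c6dd_an.Split

set_option autoImplicit false

open scoped BoundedContinuousFunction

namespace Pool.Agent.MPb9c6dd

variable {A B : Type} [CStarAlgebra A] [CStarAlgebra B] {α : A ≃⋆ₐ[ℂ] A}
  {ι : A →⋆ₐ[ℂ] B} {U : unitary B}

private lemma splitMany_sa {y : A} (hy : IsPos y) : star y = y := by
  obtain ⟨g, rfl⟩ := hy
  rw [star_mul, star_star]

theorem CP.split_many (h : CP α ι U) [IsSimpleRing B] {E : B →L[ℂ] A} (hE : IsEx α ι U E)
    {d : ℕ} (hR : Rok α d) (y : A) (hy : IsPos y) (hy0 : y ≠ 0) (D : ℕ) :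
    ∃ yy : Fin D → A, (∀ l, IsPos (yy l) ∧ yy l ≠ 0 ∧ ∃ z, yy l = y * z * y) ∧
      ∀ l m, l ≠ m → yy l * yy m = 0 := by
  induction D generalizing y with
  | zero => exact ⟨fun i => i.elim0, fun i => i.elim0, fun i => i.elim0⟩
  | succ D ih =>
    obtain ⟨y1, y2, hp1, hp2, h1, h2, h12, ⟨z1, hz1⟩, ⟨z2, hz2⟩⟩ := h.split_two hE hR y hy hy0
    obtain ⟨yy, hyy, horth⟩ := ih y2 hp2 h2
    have h21 : y2 * y1 = 0 := by
      have := congrArg star h12
      rwa [star_mul, splitMany_sa hp1, splitMany_sa hp2, star_zero] at this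
    refine ⟨Fin.cons y1 yy, ?_, ?_⟩
    · intro l
      refine Fin.cases ?_ ?_ l
      · exact ⟨hp1, h1, z1, hz1⟩
      · intro l
        obtain ⟨hp, hne, z, hz⟩ := hyy l
        refine ⟨hp, hne, z2 * y * z * y * z2, ?_⟩
        rw [Fin.cons_succ, hz, hz2]
        simp only [mul_assoc]
    · intro l m
      refine Fin.cases ?_ ?_ l
      · refine Fin.cases ?_ ?_ m
        · intro hne
          exact absurd rfl hne
        · intro m _
          obtain ⟨-, -, z, hz⟩ := hyy m
          rw [Fin.cons_zero, Fin.cons_succ, hz, ← mul_assoc, ← mul_assoc, h12, zero_mul, zero_mul]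
      · intro l
        refine Fin.cases ?_ ?_ m
        · intro _
          obtain ⟨-, -, z, hz⟩ := hyy l
          rw [Fin.cons_zero, Fin.cons_succ, hz, mul_assoc, h21, mul_zero]
        · intro m hne
          rw [Fin.cons_succ, Fin.cons_succ]
          exact horth l m (fun hlm => hne (by rw [hlm]))

private lemma splitMany_cont_psi (δ : ℝ) : Continuous (psi δ) := by
  unfold psi
  fun_prop

private lemma splitMany_cont_ptf (δ : ℝ) : Continuous (ptf δ) := by
  unfold ptf
  fun_prop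

private lemma splitMany_cont_rrf (δ : ℝ) (hδ : 0 < δ) : Continuous (rrf δ) := by
  unfold rrf
  apply Continuous.inv₀ (by fun_prop)
  intro s
  have : δ ≤ max s δ := le_max_right _ _
  linarith

private lemma splitMany_psi_eq (δ : ℝ) (hδ : 0 < δ) (s : ℝ) : psi δ s = psi δ s * rrf δ s * s := by
  unfold rrf
  rcases le_or_gt s δ with hs | hs
  · have h1 : psi δ s = 0 := by
      unfold psi
      have : (s - 2 * δ) / δ ≤ 0 := by
        apply div_nonpos_of_nonpos_of_nonneg _ hδ.le
        linarith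
      rw [max_eq_left this]
      simp
    rw [h1]; ring
  · rw [max_eq_left hs.le]
    have : s ≠ 0 := by linarith
    field_simp

private lemma splitMany_ptf_eq (δ : ℝ) (hδ : 0 < δ) (s : ℝ) : ptf δ s = ptf δ s * rrf δ s * s := by
  unfold rrf
  rcases le_or_gt s δ with hs | hs
  · have h1 : ptf δ s = 0 := by
      unfold ptf
      rw [max_eq_left]
      linarith
    rw [h1]; ring
  · rw [max_eq_left hs.le]
    have : s ≠ 0 := by linarith
    field_simp

private lemma splitMany_psi_ptf (δ : ℝ) (hδ : 0 < δ) (s : ℝ) : psi δ s * ptf δ s = ptf δ s := by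
  rcases le_or_gt s (3 * δ) with hs | hs
  · have h1 : ptf δ s = 0 := by
      unfold ptf
      rw [max_eq_left]
      linarith
    rw [h1, mul_zero]
  · have h1 : psi δ s = 1 := by
      unfold psi
      have : 1 ≤ (s - 2 * δ) / δ := by
        rw [le_div_iff₀ hδ]
        linarith
      rw [max_eq_right (by linarith), min_eq_left this]
    rw [h1, one_mul]

theorem CP.split_e (h : CP α ι U) [IsSimpleRing B] {E : B →L[ℂ] A} (hE : IsEx α ι U E)
    {d : ℕ} (hR : Rok α d) (y : A) (hy : IsPos y) (hy0 : y ≠ 0) (f : B)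
    (h1 : ι y * f = 0) (h2 : f * ι y = 0) (D : ℕ) :
    ∃ (e : A) (yy : Fin D → A), ι e * f = f ∧
      (∀ l, IsPos (yy l) ∧ yy l ≠ 0 ∧ e * yy l = 0 ∧ yy l * e = 0 ∧ ι (yy l) * f = 0 ∧
        f * ι (yy l) = 0) ∧
      ∀ l m, l ≠ m → yy l * yy m = 0 := by
  let _ : PartialOrder A := CStarAlgebra.spectralOrder A
  have _ : StarOrderedRing A := CStarAlgebra.spectralOrderedRing A
  have _ : Nontrivial A := ⟨⟨y, 0, hy0⟩⟩
  have hy' : 0 ≤ y := CStarAlgebra.nonneg_iff_eq_star_mul_self.2 hy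
  have hsa : IsSelfAdjoint y := splitMany_sa hy
  set δ : ℝ := ‖y‖ / 4 with hδdef
  have hδ : 0 < δ := by
    have := norm_pos_iff.2 hy0
    positivity
  have cpsi : ContinuousOn (psi δ) (spectrum ℝ y) := (splitMany_cont_psi δ).continuousOn
  have cptf : ContinuousOn (ptf δ) (spectrum ℝ y) := (splitMany_cont_ptf δ).continuousOn
  have crrf : ContinuousOn (rrf δ) (spectrum ℝ y) := (splitMany_cont_rrf δ hδ).continuousOn
  have cid : ContinuousOn (fun s : ℝ => s) (spectrum ℝ y) := continuousOn_id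
  -- the functional calculus identities
  have e1 : cfc (psi δ) y = cfc (fun s => psi δ s * rrf δ s) y * y := by
    have h3 : cfc (fun s => psi δ s * rrf δ s) y * y =
        cfc (fun s => psi δ s * rrf δ s) y * cfc (fun s : ℝ => s) y := by
      rw [cfc_id' ℝ y hsa]
    rw [h3, ← cfc_mul (fun s => psi δ s * rrf δ s) (fun s => s) y (cpsi.mul crrf) cid]
    exact cfc_congr fun s _ => splitMany_psi_eq δ hδ s
  have e2 : cfc (ptf δ) y = cfc (fun s => ptf δ s * rrf δ s) y * y := by
    have h3 : cfc (fun s => ptf δ s * rrf δ s) y * y =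
        cfc (fun s => ptf δ s * rrf δ s) y * cfc (fun s : ℝ => s) y := by
      rw [cfc_id' ℝ y hsa]
    rw [h3, ← cfc_mul (fun s => ptf δ s * rrf δ s) (fun s => s) y (cptf.mul crrf) cid]
    exact cfc_congr fun s _ => splitMany_ptf_eq δ hδ s
  have e3 : cfc (ptf δ) y = y * cfc (fun s => ptf δ s * rrf δ s) y := by
    have h3 : y * cfc (fun s => ptf δ s * rrf δ s) y =
        cfc (fun s : ℝ => s) y * cfc (fun s => ptf δ s * rrf δ s) y := by
      rw [cfc_id' ℝ y hsa]
    rw [h3, ← cfc_mul (fun s => s) (fun s => ptf δ s * rrf δ s) y cid (cptf.mul crrf)]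
    refine cfc_congr fun s _ => ?_
    have := splitMany_ptf_eq δ hδ s
    linarith
  have e4 : cfc (psi δ) y * cfc (ptf δ) y = cfc (ptf δ) y := by
    rw [← cfc_mul _ _ y cpsi cptf]
    exact cfc_congr fun s _ => splitMany_psi_ptf δ hδ s
  have e5 : cfc (ptf δ) y * cfc (psi δ) y = cfc (ptf δ) y := by
    rw [← cfc_mul _ _ y cptf cpsi]
    refine cfc_congr fun s _ => ?_
    have := splitMany_psi_ptf δ hδ s
    linarith
  set y'' : A := cfc (ptf δ) y with hy''
  have hpos : IsPos y'' := by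
    apply CStarAlgebra.nonneg_iff_eq_star_mul_self.1
    apply cfc_nonneg
    intro s _
    exact le_max_left _ _
  have hne : y'' ≠ 0 := by
    intro h0
    have h3 : ‖y‖ ∈ spectrum ℝ y := CStarAlgebra.norm_mem_spectrum_of_nonneg hy'
    have h4 := cfc_map_spectrum (R := ℝ) (ptf δ) y hsa cptf
    rw [← hy'', h0, spectrum.zero_eq] at h4
    have h5 : ptf δ ‖y‖ ∈ ({0} : Set ℝ) := by
      rw [h4]
      exact ⟨‖y‖, h3, rfl⟩
    rw [Set.mem_singleton_iff] at h5
    unfold ptf at h5
    have h6 : ‖y‖ - 3 * δ = δ := by rw [hδdef]; ring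
    rw [h6, max_eq_right hδ.le] at h5
    linarith
  obtain ⟨yy, hyy, horth⟩ := h.split_many hE hR y'' hpos hne D
  have hf1 : ι y'' * f = 0 := by
    rw [e2, map_mul, mul_assoc, h1, mul_zero]
  have hf2 : f * ι y'' = 0 := by
    rw [e3, map_mul, ← mul_assoc, h2, zero_mul]
  refine ⟨1 - cfc (psi δ) y, yy, ?_, ?_, horth⟩
  · rw [map_sub, map_one, sub_mul, one_mul, e1, map_mul, mul_assoc, h1, mul_zero, sub_zero]
  · intro l
    obtain ⟨hp, hn, z, hz⟩ := hyy l
    refine ⟨hp, hn, ?_, ?_, ?_, ?_⟩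
    · rw [hz, ← mul_assoc, ← mul_assoc, sub_mul, one_mul, e4, sub_self, zero_mul, zero_mul]
    · rw [hz, mul_assoc, mul_sub, mul_one, e5, sub_self, mul_zero]
    · rw [hz, map_mul, mul_assoc, hf1, mul_zero]
    · rw [hz, map_mul, map_mul, ← mul_assoc, ← mul_assoc, hf2, zero_mul, zero_mul]

end Pool.Agent.MPb9c6dd
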