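import Pool.Agent.Lib.MP_b9c6dd_an.Main7
import Pool.Agent.Lib.MP_b9c6dd_an.LemT1
import Pool.Agent.Lib.MP_b9c6dd_an.LemT2
import Pool.Agent.Lib.MP_b9c6dd_an.LemT3
import Pool.Agent.Lib.MP_b9c6dd_an.SplitMany
import Pool.Agent.Lib.MP_b9c6dd_an.MoveBoth
import Pool.Agent.Lib.MP_b9c6dd_an.Red1
import Pool.Agent.Lib.MP_b9c6dd_an.Dedekind
import Pool.Agent.Lib.MP_b9c6dd_an.Expect

set_option autoImplicit false

open scoped BoundedContinuousFunction

namespace Pool.Agent.MPb9c6dd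

variable {A B : Type} [CStarAlgebra A] [CStarAlgebra B] {α : A ≃⋆ₐ[ℂ] A}
  {ι : A →⋆ₐ[ℂ] B} {U : unitary B}

/-- Main theorem: the domination property implies stable rank one of the crossed product. -/
theorem CP.dense_of_DP (h : CP α ι U) [IsSimpleRing B] (hd : Dense {x : A | IsUnit x})
    {d : ℕ} (hR : Rok α d) (hDP : DP α) : Dense {x : B | IsUnit x} := by
  obtain ⟨E, hE⟩ := h.exists_E
  have hfaith : ∀ b, E (star b * b) = 0 → b = 0 := fun b hb => hE.faithful h b hb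
  refine dense_of_two_sided (fun r f hrf => h.dedekind hE hd r f hrf) ?_
  refine h.reduce_T hE hfaith hR ?_
  refine h.lemT1 ?_
  refine h.lemT2 hE ?_
  refine h.lemT3 hd ?_
  intro K c f y hf hy hy0 h1 h2
  obtain ⟨e, yy, hef, hyy, horth⟩ := h.split_e hE hR y hy hy0 f h1 h2 (d + 1)
  exact h.main7 hR hDP K c f hf e yy hef hyy horth

end Pool.Agent.MPb9c6dd
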