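import Pool.Agent.Lib.MP_b9c6dd_an.Basic

set_option autoImplicit false

open scoped BoundedContinuousFunction

namespace Pool.Agent.MPb9c6dd

attribute [local instance] CStarAlgebra.spectralOrder CStarAlgebra.spectralOrderedRing

/-- the cut-off function -/
private noncomputable def gtw_f (τ s : ℝ) : ℝ := s * (max s τ)⁻¹

private theorem gtw_cont {τ : ℝ} (hτ : 0 < τ) : Continuous (gtw_f τ) := by
  unfold gtw_f
  refine continuous_id.mul ((continuous_id.max continuous_const).inv₀ fun _ => ?_)
  exact (lt_of_lt_of_le hτ (le_max_right _ _)).ne'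

private theorem gtw_cont' {τ : ℝ} (hτ : 0 < τ) : Continuous (fun s : ℝ => (max s τ)⁻¹) :=
  (continuous_id.max continuous_const).inv₀ fun _ => (lt_of_lt_of_le hτ (le_max_right _ _)).ne'

private theorem gtw_id {τ : ℝ} (hτ : 0 < τ) (s : ℝ) :
    (1 - gtw_f τ s * gtw_f τ s) * (s - τ * gtw_f τ s) = 0 := by
  unfold gtw_f
  rcases le_total τ s with h | h
  · rw [max_eq_left h, mul_inv_cancel₀ (lt_of_lt_of_le hτ h).ne']
    ring
  · rw [max_eq_right h]
    have : s - τ * (s * τ⁻¹) = 0 := by field_simp; ring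
    rw [this, mul_zero]

private theorem gtw_le {τ : ℝ} (hτ : 0 < τ) {s : ℝ} (hs : 0 ≤ s) : ‖gtw_f τ s‖ ≤ 1 := by
  unfold gtw_f
  have hm : 0 < max s τ := lt_of_lt_of_le hτ (le_max_right _ _)
  rw [Real.norm_eq_abs, abs_of_nonneg (by positivity), ← div_eq_mul_inv, div_le_one hm]
  exact le_max_left _ _

private theorem gtw_list {R : Type} [Ring R] (y : R) :
    ∀ L : List R, (∀ a ∈ L, a * y = y * a) → (∃ a ∈ L, a * y = 0) → L.prod * y = 0
  | [], _, h => by
    obtain ⟨a, ha, _⟩ := h
    exact absurd ha List.not_mem_nil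
  | b :: L, hc, h => by
    obtain ⟨a, ha, hay⟩ := h
    rw [List.prod_cons, mul_assoc]
    rcases List.mem_cons.1 ha with rfl | ha'
    · have hL : ∀ L' : List R, (∀ a ∈ L', a * y = y * a) → L'.prod * y = y * L'.prod := by
        intro L' h'
        induction L' with
        | nil => simp
        | cons c L' ih =>
          rw [List.prod_cons, mul_assoc, ih fun a ha => h' a (List.mem_cons_of_mem _ ha),
            ← mul_assoc, h' c List.mem_cons_self, mul_assoc]
      rw [hL L fun a ha => hc a (List.mem_cons_of_mem _ ha), ← mul_assoc, hay, zero_mul]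
    · rw [gtw_list y L (fun a ha => hc a (List.mem_cons_of_mem _ ha)) ⟨a, ha', hay⟩, mul_zero]

private theorem gtw_listc {R : Type} [Ring R] (y : R) (L : List R)
    (h' : ∀ a ∈ L, a * y = y * a) : L.prod * y = y * L.prod := by
  induction L with
  | nil => simp
  | cons c L' ih =>
    rw [List.prod_cons, mul_assoc, ih fun a ha => h' a (List.mem_cons_of_mem _ ha),
      ← mul_assoc, h' c List.mem_cons_self, mul_assoc]

private theorem gtw_PP {R : Type} [Ring R] {D q : ℕ} (g : Fin D → Fin (q + 1) → R) (y : R)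
    (hc : ∀ l j, g l j * y = y * g l j) (l : Fin D) (j : Fin (q + 1))
    (h : (1 - g l j * g l j) * y = 0) (n : ℕ) (hn : (j : ℕ) < n) (hnq : n ≤ q + 1) :
    PP g n * y = 0 := by
  have hc2 : ∀ l j, (1 - g l j * g l j) * y = y * (1 - g l j * g l j) := by
    intro l j
    rw [sub_mul, mul_sub, one_mul, mul_one, mul_assoc, hc, ← mul_assoc, hc, mul_assoc]
  have hgc : ∀ j, gam g j * y = y * gam g j := by
    intro j
    unfold gam
    apply gtw_listc
    intro a ha
    obtain ⟨l, rfl⟩ := (List.mem_ofFn' _ _).1 ha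
    exact hc2 l j
  induction n with
  | zero => omega
  | succ n ih =>
    change PP g n * gam g (Fin.ofNat (q + 1) n) * y = 0
    by_cases hj : (j : ℕ) = n
    · have hj' : Fin.ofNat (q + 1) n = j := by
        apply Fin.ext
        simp only [Fin.ofNat]
        rw [Nat.mod_eq_of_lt (by omega)]
        exact hj.symm
      rw [hj', mul_assoc]
      have h2 : gam g j * y = 0 := by
        unfold gam
        apply gtw_list
        · intro a ha
          obtain ⟨l, rfl⟩ := (List.mem_ofFn' _ _).1 ha
          exact hc2 l j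
        · exact ⟨_, (List.mem_ofFn' _ _).2 ⟨l, rfl⟩, h⟩
      rw [h2, mul_zero]
    · rw [mul_assoc, hgc, ← mul_assoc, ih (by omega) (by omega), zero_mul]

/-- From Rokhlin towers to the cut-off towers. -/
theorem Tower.exists_g {C : Type} [CStarAlgebra C] {W : unitary C} {d q : ℕ}
    {x : Fin (d + 1) → Fin (q + 1) → C} (hx : Tower W d q x) :
    ∃ g : Fin (d + 1) → Fin (q + 1) → C,
      (∀ l j, ∀ c : C, x l j * c = c * x l j → g l j * c = c * g l j) ∧
      (∀ l m j k, g l j * g m k = g m k * g l j) ∧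
      (∀ l j k, j ≠ k → g l j * g l k = 0) ∧
      (∀ l j, (W : C) * g l j = g l (j + 1) * (W : C)) ∧
      PP g (q + 1) = 0 := by
  set τ : ℝ := 1 / (2 * ((d : ℝ) + 1)) with hτdef
  have hd : (0 : ℝ) < (d : ℝ) + 1 := by positivity
  have hτ : 0 < τ := by positivity
  have hpos : ∀ l j, 0 ≤ x l j := by
    intro l j
    obtain ⟨g, hg⟩ := hx.pos l j
    rw [hg]
    exact star_mul_self_nonneg g
  have hsa : ∀ l j, IsSelfAdjoint (x l j) := fun l j => IsSelfAdjoint.of_nonneg (hpos l j)
  set g : Fin (d + 1) → Fin (q + 1) → C := fun l j => cfc (gtw_f τ) (x l j) with hg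
  have hgsa : ∀ l j, IsSelfAdjoint (g l j) := fun l j => cfc_predicate _ _
  have hcomm : ∀ l j, ∀ c : C, x l j * c = c * x l j → g l j * c = c * g l j := by
    intro l j c hc
    exact (Commute.cfc_real (show Commute (x l j) c from hc) (gtw_f τ)).eq
  have hgx : ∀ l j, g l j = x l j * cfc (fun s : ℝ => (max s τ)⁻¹) (x l j) := by
    intro l j
    have h1 := cfc_mul (fun s : ℝ => s) (fun s : ℝ => (max s τ)⁻¹) (x l j)
      continuousOn_id (gtw_cont' hτ).continuousOn
    rw [cfc_id' ℝ (x l j) (hsa l j)] at h1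
    exact h1
  have hgx' : ∀ l j, g l j = cfc (fun s : ℝ => (max s τ)⁻¹) (x l j) * x l j := by
    intro l j
    rw [hgx]
    exact (Commute.cfc_real (show Commute (x l j) (x l j) from rfl) _).eq.symm
  have horth : ∀ l j k, j ≠ k → g l j * g l k = 0 := by
    intro l j k hjk
    rw [hgx' l j, hgx l k, mul_assoc, ← mul_assoc (x l j), hx.orth l j k hjk, zero_mul, mul_zero]
  have hnorm : ∀ l j, ‖g l j‖ ≤ 1 := by
    intro l j
    apply norm_cfc_le zero_le_one
    intro s hs
    exact gtw_le hτ (spectrum_nonneg_of_nonneg (hpos l j) hs)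
  have hid : ∀ l j, (1 - g l j * g l j) * (x l j - τ • g l j) = 0 := by
    intro l j
    have hc := (gtw_cont hτ).continuousOn (s := spectrum ℝ (x l j))
    have e1 : cfc (fun s => 1 - gtw_f τ s * gtw_f τ s) (x l j) = 1 - g l j * g l j := by
      rw [cfc_sub (fun _ : ℝ => (1 : ℝ)) (fun s => gtw_f τ s * gtw_f τ s) (x l j)
        continuousOn_const (hc.mul hc), cfc_const_one ℝ (x l j) (hsa l j),
        cfc_mul (gtw_f τ) (gtw_f τ) (x l j) hc hc]
    have e2 : cfc (fun s => s - τ * gtw_f τ s) (x l j) = x l j - τ • g l j := by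
      rw [cfc_sub (fun s : ℝ => s) (fun s => τ * gtw_f τ s) (x l j)
        continuousOn_id (continuousOn_const.mul hc), cfc_id' ℝ (x l j) (hsa l j),
        cfc_const_mul τ (gtw_f τ) (x l j) hc]
    rw [← e1, ← e2, ← cfc_mul (fun s => 1 - gtw_f τ s * gtw_f τ s)
      (fun s => s - τ * gtw_f τ s) (x l j) (continuousOn_const.sub (hc.mul hc))
      (continuousOn_id.sub (continuousOn_const.mul hc))]
    have e3 : (fun s => (1 - gtw_f τ s * gtw_f τ s) * (s - τ * gtw_f τ s)) =
        fun _ : ℝ => (0 : ℝ) := by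
      funext s
      exact gtw_id hτ s
    rw [e3, cfc_const_zero]
  have hgg : ∀ l m j k, g l j * g m k = g m k * g l j := by
    intro l m j k
    apply hcomm
    exact (hcomm m k _ (hx.comm m l k j)).symm
  have hgxc : ∀ l m j k, g l j * x m k = x m k * g l j :=
    fun l m j k => hcomm l j _ (hx.comm l m j k)
  refine ⟨g, hcomm, hgg, horth, ?_, ?_⟩
  · intro l j
    have h1 : (Unitary.conjStarAlgAut ℂ C W) (cfc (gtw_f τ) (x l j)) =
        cfc (gtw_f τ) ((Unitary.conjStarAlgAut ℂ C W) (x l j)) := by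
      have hφ : Continuous (Unitary.conjStarAlgAut ℂ C W) := by
        change Continuous fun y : C => (W : C) * y * (star W : C)
        exact (continuous_const.mul continuous_id).mul continuous_const
      refine StarAlgHomClass.map_cfc (S := ℂ) (Unitary.conjStarAlgAut ℂ C W) (gtw_f τ) (x l j)
        (gtw_cont hτ).continuousOn hφ (hsa l j) ?_
      rw [Unitary.conjStarAlgAut_apply]
      have := hx.shift l j
      rw [this]
      exact hsa l (j + 1)
    rw [Unitary.conjStarAlgAut_apply, Unitary.conjStarAlgAut_apply, hx.shift l j] at h1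
    have h2 : (W : C) * g l j * star (W : C) = g l (j + 1) := h1
    rw [← h2, mul_assoc ((W : C) * g l j), Unitary.coe_star_mul_self, mul_one]
  · set P : C := PP g (q + 1) with hP
    have h1 : ∀ l j, P * x l j = τ • (P * g l j) := by
      intro l j
      have h2 : P * (x l j - τ • g l j) = 0 := by
        apply gtw_PP g _ _ l j (hid l j) (q + 1) j.2 le_rfl
        intro m k
        rw [mul_sub, sub_mul, hgxc, mul_smul_comm, smul_mul_assoc, hgg]
      rw [mul_sub, mul_smul_comm, sub_eq_zero] at h2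
      exact h2
    have hT : ∀ l, ‖∑ j, g l j‖ ≤ 1 := by
      intro l
      have h3 := IsSelfAdjoint.nnnorm_sum_eq_sup (f := fun j => g l j) Finset.univ
        (fun j _ => hgsa l j) (fun j k hjk => horth l j k hjk)
      have h4 : ‖∑ j, g l j‖₊ ≤ 1 := by
        rw [h3, Finset.sup_le_iff]
        intro j _
        exact hnorm l j
      exact h4
    have h5 : P = τ • (P * ∑ l, ∑ j, g l j) := by
      calc P = P * ∑ l, ∑ j, x l j := by rw [hx.sum, mul_one]
        _ = ∑ l, ∑ j, τ • (P * g l j) := by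
            rw [Finset.mul_sum]
            apply Finset.sum_congr rfl
            intro l _
            rw [Finset.mul_sum]
            exact Finset.sum_congr rfl fun j _ => h1 l j
        _ = τ • (P * ∑ l, ∑ j, g l j) := by
            rw [Finset.mul_sum, Finset.smul_sum]
            apply Finset.sum_congr rfl
            intro l _
            rw [Finset.mul_sum, Finset.smul_sum]
    have h6 : ‖∑ l, ∑ j, g l j‖ ≤ (d : ℝ) + 1 := by
      calc ‖∑ l, ∑ j, g l j‖ ≤ ∑ l, ‖∑ j, g l j‖ := norm_sum_le _ _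
        _ ≤ ∑ _l : Fin (d + 1), (1 : ℝ) := Finset.sum_le_sum fun l _ => hT l
        _ = (d : ℝ) + 1 := by simp
    have h7 : ‖P‖ ≤ 1 / 2 * ‖P‖ := by
      calc ‖P‖ = ‖τ • (P * ∑ l, ∑ j, g l j)‖ := by rw [← h5]
        _ = τ * ‖P * ∑ l, ∑ j, g l j‖ := by rw [norm_smul, Real.norm_of_nonneg hτ.le]
        _ ≤ τ * (‖P‖ * ((d : ℝ) + 1)) := by
            gcongr
            exact (norm_mul_le _ _).trans (by gcongr)
        _ = 1 / 2 * ‖P‖ := by
            rw [hτdef]
            field_simp
    have h8 : ‖P‖ = 0 := by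
      have := norm_nonneg P
      linarith
    exact norm_eq_zero.1 h8

end Pool.Agent.MPb9c6dd
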