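import Pool.Agent.Lib.MP_b9c6dd_an.Basic

set_option autoImplicit false

open scoped BoundedContinuousFunction

namespace Pool.Agent.MPb9c6dd

theorem gadget_cont_rrf {δ : ℝ} (hδ : 0 < δ) : Continuous (rrf δ) := by
  unfold rrf
  refine Continuous.inv₀ (by fun_prop) fun s => ?_
  exact ne_of_gt (lt_of_lt_of_le hδ (le_max_right s δ))

theorem gadget_cont_psi (δ : ℝ) : Continuous (psi δ) := by
  unfold psi
  fun_prop

theorem gadget_psi_nonneg (δ s : ℝ) : 0 ≤ psi δ s := by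
  unfold psi
  exact le_min zero_le_one (le_max_left _ _)

theorem gadget_psi_le_one (δ s : ℝ) : psi δ s ≤ 1 := min_le_left _ _

theorem gadget_psi_mul {δ : ℝ} (hδ : 0 < δ) (s : ℝ) : psi δ s * rrf δ s * s = psi δ s := by
  rcases le_or_gt δ s with h | h
  · have h1 : rrf δ s * s = 1 := by
      unfold rrf
      rw [max_eq_left h]
      exact inv_mul_cancel₀ (ne_of_gt (lt_of_lt_of_le hδ h))
    rw [mul_assoc, h1, mul_one]
  · have h1 : psi δ s = 0 := by
      unfold psi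
      have h2 : (s - 2 * δ) / δ ≤ 0 := div_nonpos_of_nonpos_of_nonneg (by linarith) hδ.le
      rw [max_eq_left h2]
      exact min_eq_right zero_le_one
    rw [h1]
    ring

theorem gadget_rrf_eq {δ : ℝ} (hδ : 0 < δ) (s : ℝ) :
    rrf δ s = δ⁻¹ + s * (-(max s δ - δ) * (δ⁻¹ * (rrf δ s * rrf δ s))) := by
  unfold rrf
  rcases le_or_gt δ s with h | h
  · rw [max_eq_left h]
    have h1 : s ≠ 0 := ne_of_gt (lt_of_lt_of_le hδ h)
    field_simp
    ring
  · rw [max_eq_right h.le]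
    ring

/-- The invertible element built from a square zero element. -/
theorem gadget {C : Type} [CStarAlgebra C] (X Y : C) (hX : X * X = 0) (hY : star X * X = Y)
    (δ : ℝ) (hδ : 0 < δ) :
    ((1 + cfc (rrf δ) Y * star X) * (1 - X)) * ((1 + X) * (1 - cfc (rrf δ) Y * star X)) = 1 ∧
    ((1 + X) * (1 - cfc (rrf δ) Y * star X)) * ((1 + cfc (rrf δ) Y * star X) * (1 - X)) = 1 ∧
    cfc (psi δ) Y * ((1 + cfc (rrf δ) Y * star X) * (1 - X)) =
      cfc (psi δ) Y * cfc (rrf δ) Y * star X ∧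
    ‖cfc (rrf δ) Y‖ ≤ δ⁻¹ ∧ ‖cfc (psi δ) Y‖ ≤ 1 := by
  have hYsa : IsSelfAdjoint Y := by
    rw [← hY]
    exact IsSelfAdjoint.star_mul_self X
  have hXs : star X * star X = 0 := by
    rw [← star_mul, hX, star_zero]
  have hYX : Y * X = 0 := by
    rw [← hY, mul_assoc, hX, mul_zero]
  have hXY : star X * Y = 0 := by
    rw [← hY, ← mul_assoc, hXs, zero_mul]
  have cr := gadget_cont_rrf hδ
  have cp := gadget_cont_psi δ
  set k : ℝ → ℝ := fun s => -(max s δ - δ) * (δ⁻¹ * (rrf δ s * rrf δ s)) with hk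
  have ck : Continuous k := by
    rw [hk]
    fun_prop
  have hR : cfc (rrf δ) Y = algebraMap ℝ C δ⁻¹ + Y * cfc k Y := by
    have h1 : (rrf δ) = fun s => δ⁻¹ + s * k s := by
      funext s
      exact gadget_rrf_eq hδ s
    have h2 : cfc (fun s : ℝ => δ⁻¹ + s * k s) Y =
        cfc (fun _ : ℝ => δ⁻¹) Y + cfc (fun s : ℝ => s * k s) Y :=
      cfc_add Y (fun _ : ℝ => δ⁻¹) (fun s : ℝ => s * k s) (by fun_prop) (by fun_prop)
    have h3 : cfc (fun s : ℝ => s * k s) Y = cfc (fun s : ℝ => s) Y * cfc k Y :=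
      cfc_mul (fun s : ℝ => s) k Y (by fun_prop) (by fun_prop)
    rw [h1, h2, h3, cfc_id' ℝ Y, cfc_const δ⁻¹ Y]
  have hXR : star X * cfc (rrf δ) Y = algebraMap ℝ C δ⁻¹ * star X := by
    rw [hR, mul_add, ← mul_assoc, hXY, zero_mul, add_zero]
    exact (Algebra.commutes _ _).symm
  have hT : (cfc (rrf δ) Y * star X) * (cfc (rrf δ) Y * star X) = 0 := by
    rw [mul_assoc, ← mul_assoc (star X), hXR, mul_assoc (algebraMap ℝ C δ⁻¹), hXs, mul_zero,
      mul_zero]
  have hpsi : cfc (psi δ) Y * cfc (rrf δ) Y * Y = cfc (psi δ) Y := by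
    have h1 : cfc (fun s : ℝ => psi δ s * rrf δ s * s) Y = cfc (psi δ) Y :=
      cfc_congr fun s _ => gadget_psi_mul hδ s
    have h2 : cfc (fun s : ℝ => psi δ s * rrf δ s * s) Y =
        cfc (fun s : ℝ => psi δ s * rrf δ s) Y * cfc (fun s : ℝ => s) Y :=
      cfc_mul (fun s : ℝ => psi δ s * rrf δ s) (fun s : ℝ => s) Y (by fun_prop) (by fun_prop)
    have h3 : cfc (fun s : ℝ => psi δ s * rrf δ s) Y = cfc (psi δ) Y * cfc (rrf δ) Y :=
      cfc_mul (psi δ) (rrf δ) Y (by fun_prop) (by fun_prop)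
    rw [h2, h3, cfc_id' ℝ Y] at h1
    exact h1
  have hpX : cfc (psi δ) Y * X = 0 := by
    rw [← hpsi, mul_assoc, hYX, mul_zero]
  have e1 : (1 - X) * (1 + X) = 1 := by
    have : (1 - X) * (1 + X) = 1 - X * X := by noncomm_ring
    rw [this, hX, sub_zero]
  have e1' : (1 + X) * (1 - X) = 1 := by
    have : (1 + X) * (1 - X) = 1 - X * X := by noncomm_ring
    rw [this, hX, sub_zero]
  set T : C := cfc (rrf δ) Y * star X with hTdef
  have e2 : (1 + T) * (1 - T) = 1 := by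
    have : (1 + T) * (1 - T) = 1 - T * T := by noncomm_ring
    rw [this, hT, sub_zero]
  have e2' : (1 - T) * (1 + T) = 1 := by
    have : (1 - T) * (1 + T) = 1 - T * T := by noncomm_ring
    rw [this, hT, sub_zero]
  refine ⟨?_, ?_, ?_, ?_, ?_⟩
  · calc (1 + T) * (1 - X) * ((1 + X) * (1 - T)) = (1 + T) * ((1 - X) * (1 + X)) * (1 - T) := by
          noncomm_ring
      _ = 1 := by rw [e1, mul_one, e2]
  · calc (1 + X) * (1 - T) * ((1 + T) * (1 - X)) = (1 + X) * ((1 - T) * (1 + T)) * (1 - X) := by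
          noncomm_ring
      _ = 1 := by rw [e2', mul_one, e1']
  · have h1 : cfc (psi δ) Y * ((1 + T) * (1 - X)) =
        cfc (psi δ) Y - cfc (psi δ) Y * X + cfc (psi δ) Y * T - cfc (psi δ) Y * T * X := by
      noncomm_ring
    have h2 : cfc (psi δ) Y * T * X = cfc (psi δ) Y := by
      calc cfc (psi δ) Y * T * X = cfc (psi δ) Y * cfc (rrf δ) Y * (star X * X) := by
            rw [hTdef]
            noncomm_ring
        _ = cfc (psi δ) Y := by rw [hY, hpsi]
    have h3 : cfc (psi δ) Y * T = cfc (psi δ) Y * cfc (rrf δ) Y * star X := by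
      rw [hTdef, mul_assoc]
    rw [h1, hpX, h2, h3]
    abel
  · refine norm_cfc_le (inv_nonneg.mpr hδ.le) fun s _ => ?_
    unfold rrf
    rw [norm_inv, Real.norm_of_nonneg (hδ.le.trans (le_max_right s δ))]
    exact inv_anti₀ hδ (le_max_right s δ)
  · refine norm_cfc_le zero_le_one fun s _ => ?_
    rw [Real.norm_of_nonneg (gadget_psi_nonneg δ s)]
    exact gadget_psi_le_one δ s

end Pool.Agent.MPb9c6dd
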