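import Pool.Agent.Lib.MP_b9c6dd_an.Basic

set_option autoImplicit false

open scoped BoundedContinuousFunction

namespace Pool.Agent.MPb9c6dd

private theorem LowerBd_isSelfAdjoint {C : Type} [CStarAlgebra C] {a : C} (h : IsPos a) :
    IsSelfAdjoint a := by
  obtain ⟨g, rfl⟩ := h
  exact IsSelfAdjoint.star_mul_self g

/-- Some level of a tower sees a definite part of a given positive element. -/
theorem Tower.lower {C : Type} [CStarAlgebra C] {W : unitary C} {d q : ℕ}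
    {x : Fin (d + 1) → Fin (q + 1) → C} (hx : Tower W d q x) (a : C) (ha : IsPos a)
    (hc : ∀ l j, x l j * a = a * x l j) :
    ∃ l j, ‖a‖ ≤ ((d : ℝ) + 1) ^ 2 * ‖x l j * a * x l j‖ := by
  have hsa : IsSelfAdjoint a := LowerBd_isSelfAdjoint ha
  have hsx : ∀ l j, IsSelfAdjoint (x l j) := fun l j => LowerBd_isSelfAdjoint (hx.pos l j)
  -- some `l`
  have h1 : ‖a‖ ≤ ∑ l, ‖∑ j, a * x l j‖ := by
    have h2 : a = ∑ l, ∑ j, a * x l j := by
      have h3 : ∑ l, ∑ j, a * x l j = a * ∑ l, ∑ j, x l j := by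
        rw [Finset.mul_sum]
        exact Finset.sum_congr rfl fun l _ => (Finset.mul_sum _ _ _).symm
      rw [h3, hx.sum, mul_one]
    calc ‖a‖ = ‖∑ l, ∑ j, a * x l j‖ := by rw [← h2]
      _ ≤ _ := norm_sum_le _ _
  obtain ⟨l, hl⟩ : ∃ l, ‖a‖ ≤ ((d : ℝ) + 1) * ‖∑ j, a * x l j‖ := by
    by_contra hcon
    push Not at hcon
    have hd : (0 : ℝ) < (d : ℝ) + 1 := by positivity
    have h4 : ∑ l : Fin (d + 1), ‖∑ j, a * x l j‖ < ∑ _l : Fin (d + 1), ‖a‖ / ((d : ℝ) + 1) := by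
      refine Finset.sum_lt_sum_of_nonempty Finset.univ_nonempty fun l _ => ?_
      rw [lt_div_iff₀ hd, mul_comm]
      exact hcon l
    rw [Finset.sum_const, Finset.card_univ, Fintype.card_fin, nsmul_eq_mul] at h4
    have h5 : ((d + 1 : ℕ) : ℝ) * (‖a‖ / ((d : ℝ) + 1)) = ‖a‖ := by
      push_cast
      field_simp
    rw [h5] at h4
    linarith
  -- some `j`
  have h6 : ‖∑ j, a * x l j‖₊ = Finset.univ.sup (fun j => ‖a * x l j‖₊) := by
    refine IsSelfAdjoint.nnnorm_sum_eq_sup Finset.univ (fun j _ => ?_) ?_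
    · exact (hsa.commute_iff (hsx l j)).1 (hc l j).symm
    · intro i j hij
      change a * x l i * (a * x l j) = 0
      rw [mul_assoc, ← mul_assoc (x l i), hc l i, mul_assoc, hx.orth l i j hij, mul_zero, mul_zero]
  obtain ⟨j, -, hj⟩ := Finset.exists_mem_eq_sup (Finset.univ : Finset (Fin (q + 1)))
    Finset.univ_nonempty (fun j => ‖a * x l j‖₊)
  have h7 : ‖∑ j, a * x l j‖ = ‖a * x l j‖ := by
    have := h6.trans hj
    exact congrArg NNReal.toReal this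
  rw [h7] at hl
  refine ⟨l, j, ?_⟩
  -- the square
  have h8 : ‖a * x l j‖ ^ 2 ≤ ‖a‖ * ‖x l j * a * x l j‖ := by
    obtain ⟨g, hg⟩ := ha
    have h9 : ‖x l j * a * x l j‖ = ‖g * x l j‖ * ‖g * x l j‖ := by
      rw [← CStarRing.norm_star_mul_self, star_mul, (hsx l j).star_eq, hg]
      congr 1
      simp only [mul_assoc]
    have h10 : ‖a‖ = ‖g‖ * ‖g‖ := by
      rw [hg, CStarRing.norm_star_mul_self]
    have h11 : ‖a * x l j‖ ≤ ‖g‖ * ‖g * x l j‖ := by
      rw [hg, mul_assoc]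
      refine (norm_mul_le _ _).trans (le_of_eq ?_)
      rw [norm_star]
    rw [h9, h10]
    calc ‖a * x l j‖ ^ 2 ≤ (‖g‖ * ‖g * x l j‖) ^ 2 :=
          pow_le_pow_left₀ (norm_nonneg _) h11 2
      _ = _ := by ring
  rcases eq_or_lt_of_le (norm_nonneg a) with h0 | h0
  · rw [← h0]
    positivity
  · have h12 : ‖a‖ ^ 2 ≤ ‖a‖ * (((d : ℝ) + 1) ^ 2 * ‖x l j * a * x l j‖) := by
      calc ‖a‖ ^ 2 ≤ (((d : ℝ) + 1) * ‖a * x l j‖) ^ 2 :=
            pow_le_pow_left₀ h0.le hl 2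
        _ = ((d : ℝ) + 1) ^ 2 * ‖a * x l j‖ ^ 2 := by ring
        _ ≤ ((d : ℝ) + 1) ^ 2 * (‖a‖ * ‖x l j * a * x l j‖) :=
            mul_le_mul_of_nonneg_left h8 (by positivity)
        _ = _ := by ring
    rw [sq] at h12
    exact le_of_mul_le_mul_left h12 h0

end Pool.Agent.MPb9c6dd
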