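import Pool.Agent.Lib.MP_b9c6dd_an.Basic

set_option autoImplicit false

open scoped BoundedContinuousFunction

namespace Pool.Agent.MPb9c6dd

/-- If `G f` is nilpotent for a unit `G`, then `f` is a limit of units. -/
theorem mem_CL_of_nilpotent {C : Type} [CStarAlgebra C] (f : C) (G : Cˣ) (n : ℕ)
    (h : ((G : C) * f) ^ n = 0) : f ∈ CL C := by
  unfold CL
  have hnil : IsNilpotent ((G : C) * f) := ⟨n, h⟩
  -- the units `f + t G⁻¹`
  have hu : ∀ t : ℝ, t ≠ 0 → IsUnit (f + (t : ℂ) • ((G⁻¹ : Cˣ) : C)) := by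
    intro t ht
    have ht' : (t : ℂ) ≠ 0 := by exact_mod_cast ht
    have h1 : IsUnit ((t : ℂ) • (1 : C)) := by
      have : (t : ℂ) • (1 : C) = algebraMap ℂ C t := (Algebra.algebraMap_eq_smul_one _).symm
      rw [this]
      exact (isUnit_iff_ne_zero.2 ht').map (algebraMap ℂ C)
    have hc : Commute ((G : C) * f) ((t : ℂ) • (1 : C)) :=
      (Commute.one_right _).smul_right _
    have h2 : IsUnit ((G : C) * f + (t : ℂ) • (1 : C)) := by
      rw [add_comm]
      exact hnil.isUnit_add_left_of_commute h1 hc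
    have h3 : f + (t : ℂ) • ((G⁻¹ : Cˣ) : C) =
        ((G⁻¹ : Cˣ) : C) * ((G : C) * f + (t : ℂ) • (1 : C)) := by
      rw [mul_add, ← mul_assoc, Units.inv_mul, one_mul, mul_smul_comm, mul_one]
    rw [h3]
    exact (G⁻¹).isUnit.mul h2
  have hlim : Filter.Tendsto (fun k : ℕ => f + (((1 : ℝ) / ((k : ℝ) + 1) : ℝ) : ℂ) •
      ((G⁻¹ : Cˣ) : C)) Filter.atTop (nhds (f + (((0 : ℝ) : ℂ)) • ((G⁻¹ : Cˣ) : C))) := by
    apply Filter.Tendsto.const_add
    apply Filter.Tendsto.smul_const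
    exact (Complex.continuous_ofReal.tendsto 0).comp tendsto_one_div_add_atTop_nhds_zero_nat
  rw [Complex.ofReal_zero, zero_smul, add_zero] at hlim
  refine mem_closure_of_tendsto hlim (Filter.Eventually.of_forall fun k => ?_)
  exact hu _ (by positivity)

end Pool.Agent.MPb9c6dd
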