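import Pool.Agent.Lib.MP_b9c6dd_an.UltraApi
import Pool.Agent.Lib.MP_b9c6dd_an.CPBasic

set_option autoImplicit false

open scoped BoundedContinuousFunction

namespace Pool.Agent.MPb9c6dd

variable {A B : Type} [CStarAlgebra A] [CStarAlgebra B] {α : A ≃⋆ₐ[ℂ] A}
  {ι : A →⋆ₐ[ℂ] B} {U : unitary B}

private theorem towers_zero {C : Type} [CStarAlgebra C]
    {mk : (ℕ →ᵇ B) →⋆ₐ[ℂ] C} (hm : IsUltra mk) (Z : ℕ →ᵇ B)
    (hZ : ∀ n : ℕ, ‖Z n‖ ≤ 1 / ((n : ℝ) + 1)) : mk Z = 0 := by
  rw [hm.eq_zero_iff]
  intro ε hε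
  have h1 : Filter.Tendsto (fun n : ℕ => 1 / ((n : ℝ) + 1)) Filter.atTop (nhds 0) :=
    tendsto_one_div_add_atTop_nhds_zero_nat
  have h2 : ∀ᶠ n : ℕ in Filter.atTop, 1 / ((n : ℝ) + 1) < ε := h1.eventually (gt_mem_nhds hε)
  have h3 := Nat.hyperfilter_le_atTop h2
  filter_upwards [h3] with n hn
  exact (hZ n).trans_lt hn

/-- a bounded sequence -/
private noncomputable def towers_seq (f : ℕ → A) (hf : ∀ n, ‖f n‖ ≤ 1) : ℕ →ᵇ A :=
  BoundedContinuousFunction.ofNormedAddCommGroup f continuous_of_discreteTopology 1 hf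

private theorem towers_seq_apply (f : ℕ → A) (hf : ∀ n, ‖f n‖ ≤ 1) (n : ℕ) :
    towers_seq f hf n = f n := rfl

/-- Exact towers in the ultrapower. -/
theorem CP.towers_ultra (h : CP α ι U) {d : ℕ} (hR : Rok α d) {C : Type} [CStarAlgebra C]
    {mk : (ℕ →ᵇ B) →⋆ₐ[ℂ] C} (hm : IsUltra mk) (F : Finset A) (q : ℕ) :
    ∃ X : Fin (d + 1) → Fin (q + 1) → (ℕ →ᵇ A),
      (∀ l j n, IsPos (X l j n) ∧ ‖X l j n‖ ≤ 1) ∧
      Tower (uU mk U) d q (fun l j => mk (seqMap ι (X l j))) ∧
      ∀ l j, ∀ a ∈ F, mk (seqMap ι (X l j)) * mk (cst (ι a)) =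
        mk (cst (ι a)) * mk (seqMap ι (X l j)) := by
  have hpos : ∀ n : ℕ, (0 : ℝ) < 1 / ((n : ℝ) + 1) := fun n => by positivity
  choose f hf1 hf2 hf3 hf4 hf5 hf6 using fun n : ℕ => hR F (1 / ((n : ℝ) + 1)) (hpos n) q
  have hι : ∀ a : A, ‖ι a‖ ≤ ‖a‖ := fun a => NonUnitalStarAlgHom.norm_apply_le ι a
  let X : Fin (d + 1) → Fin (q + 1) → (ℕ →ᵇ A) := fun l j =>
    towers_seq (fun n => f n l j) (fun n => (hf1 n l j).2)
  have hX : ∀ l j n, X l j n = f n l j := fun l j n => rfl
  refine ⟨X, ?_, ?_, ?_⟩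
  · intro l j n
    rw [hX]
    exact hf1 n l j
  · refine ⟨?_, ?_, ?_, ?_, ?_, ?_⟩
    · intro l j
      choose g hg using fun n : ℕ => (hf1 n l j).1
      have hgn : ∀ n, ‖g n‖ ≤ 1 := by
        intro n
        have h1 : ‖g n‖ * ‖g n‖ ≤ 1 := by
          rw [← CStarRing.norm_star_mul_self, ← hg n]
          exact (hf1 n l j).2
        nlinarith [norm_nonneg (g n)]
      refine ⟨mk (seqMap ι (towers_seq g hgn)), ?_⟩
      have hXY : X l j = star (towers_seq g hgn) * towers_seq g hgn := by
        ext n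
        change f n l j = star (g n) * g n
        exact hg n
      rw [hXY, map_mul, map_mul, map_star, map_star]
    · intro l j
      apply hm.norm_le _ _ zero_le_one
      apply Filter.Eventually.of_forall
      intro n
      rw [seqMap_apply]
      exact (hι _).trans (hf1 n l j).2
    · intro l j k hjk
      have h0 := towers_zero hm (seqMap ι (X l j) * seqMap ι (X l k)) (fun n => by
        have e : (seqMap ι (X l j) * seqMap ι (X l k)) n = ι (f n l j * f n l k) := by
          rw [map_mul]; rfl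
        rw [e]
        exact (hι _).trans (hf2 n l j k hjk).le)
      rw [← map_mul]
      exact h0
    · intro l m j k
      have h0 := towers_zero hm (seqMap ι (X l j) * seqMap ι (X m k) -
          seqMap ι (X m k) * seqMap ι (X l j)) (fun n => by
        have e : (seqMap ι (X l j) * seqMap ι (X m k) -
          seqMap ι (X m k) * seqMap ι (X l j)) n =
            ι (f n l j * f n m k - f n m k * f n l j) := by
          rw [map_sub, map_mul, map_mul]; rfl
        rw [e]
        exact (hι _).trans (hf6 n l m j k).le)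
      rw [map_sub, sub_eq_zero, map_mul, map_mul] at h0
      exact h0
    · intro l j
      have h0 := towers_zero hm (cst (U : B) * seqMap ι (X l j) * star (cst (U : B)) -
          seqMap ι (X l (j + 1))) (fun n => by
        have e : (cst (U : B) * seqMap ι (X l j) * star (cst (U : B)) -
          seqMap ι (X l (j + 1))) n = ι (α (f n l j) - f n l (j + 1)) := by
          rw [map_sub, ← h.cov]; rfl
        rw [e]
        exact (hι _).trans (hf3 n l j).le)
      rw [map_sub, sub_eq_zero, map_mul, map_mul, map_star] at h0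
      exact h0
    · have h0 := towers_zero hm (seqMap ι ((∑ l, ∑ j, X l j) - 1)) (fun n => by
        have e : (seqMap ι ((∑ l, ∑ j, X l j) - 1)) n = ι ((∑ l, ∑ j, f n l j) - 1) := by
          rw [seqMap_apply]
          congr 1
          rw [← evl_apply n ((∑ l, ∑ j, X l j) - 1), map_sub, map_one, map_sum]
          congr 1
          apply Finset.sum_congr rfl
          intro l _
          rw [map_sum]
          rfl
        rw [e]
        exact (hι _).trans (hf4 n).le)
      rw [map_sub, map_sub, map_one, map_one, sub_eq_zero, map_sum, map_sum] at h0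
      rw [← h0]
      apply Finset.sum_congr rfl
      intro l _
      rw [map_sum, map_sum]
  · intro l j a ha
    have h0 := towers_zero hm (seqMap ι (X l j) * cst (ι a) - cst (ι a) * seqMap ι (X l j))
      (fun n => by
        have e : (seqMap ι (X l j) * cst (ι a) - cst (ι a) * seqMap ι (X l j)) n =
            ι (f n l j * a - a * f n l j) := by
          rw [map_sub, map_mul, map_mul]; rfl
        rw [e]
        exact (hι _).trans (hf5 n l j a ha).le)
    rw [map_sub, sub_eq_zero, map_mul, map_mul] at h0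
    exact h0

end Pool.Agent.MPb9c6dd
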