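import Pool.Agent.Lib.MP_b9c6dd_an.Basic

set_option autoImplicit false

open scoped BoundedContinuousFunction

namespace Pool.Agent.MPb9c6dd

variable {B C : Type} [CStarAlgebra B] [CStarAlgebra C] {mk : (ℕ →ᵇ B) →⋆ₐ[ℂ] C}

theorem ultraApi_norm_one_le : ‖(1 : B)‖ ≤ 1 := by
  rcases subsingleton_or_nontrivial B with hB | hB
  · have : (1 : B) = 0 := Subsingleton.elim _ _
    rw [this, norm_zero]
    exact zero_le_one
  · exact le_of_eq CStarRing.norm_one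

theorem ultraApi_unit_one {u : B} (h : ‖u - 1‖ < 1 / 2) :
    ∃ g : Bˣ, (g : B) = u ∧ ‖((g⁻¹ : Bˣ) : B)‖ ≤ 2 := by
  have h' : ‖1 - u‖ < 1 := by
    rw [norm_sub_rev]
    linarith
  let g : Bˣ := Units.oneSub (1 - u) h'
  have hg : (g : B) = u := by
    simp [g]
  refine ⟨g, hg, ?_⟩
  have h1 : ((g⁻¹ : Bˣ) : B) = 1 + (1 - u) * ((g⁻¹ : Bˣ) : B) := by
    have h2 : u * ((g⁻¹ : Bˣ) : B) = 1 := by
      rw [← hg]
      exact g.mul_inv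
    rw [sub_mul, one_mul, h2]
    abel
  have h3 : ‖((g⁻¹ : Bˣ) : B)‖ ≤ 1 + 1 / 2 * ‖((g⁻¹ : Bˣ) : B)‖ := by
    calc ‖((g⁻¹ : Bˣ) : B)‖ = ‖1 + (1 - u) * ((g⁻¹ : Bˣ) : B)‖ := by rw [← h1]
      _ ≤ ‖(1 : B)‖ + ‖(1 - u) * ((g⁻¹ : Bˣ) : B)‖ := norm_add_le _ _
      _ ≤ 1 + ‖1 - u‖ * ‖((g⁻¹ : Bˣ) : B)‖ :=
          add_le_add ultraApi_norm_one_le (norm_mul_le _ _)
      _ ≤ 1 + 1 / 2 * ‖((g⁻¹ : Bˣ) : B)‖ := by
          have h5 : ‖1 - u‖ ≤ 1 / 2 := by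
            rw [norm_sub_rev]
            exact h.le
          have h6 := mul_le_mul_of_nonneg_right h5 (norm_nonneg ((g⁻¹ : Bˣ) : B))
          linarith
  linarith

theorem ultraApi_unit {x y : B} (h1 : ‖x * y - 1‖ < 1 / 2) (h2 : ‖y * x - 1‖ < 1 / 2) {r : ℝ}
    (hr : ‖y‖ ≤ r) : ∃ g : Bˣ, (g : B) = x ∧ ‖((g⁻¹ : Bˣ) : B)‖ ≤ 2 * r := by
  obtain ⟨u, hu, hun⟩ := ultraApi_unit_one h1
  obtain ⟨w, hw, -⟩ := ultraApi_unit_one h2
  have e1 : x * (y * ((u⁻¹ : Bˣ) : B)) = 1 := by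
    rw [← mul_assoc, ← hu]
    exact u.mul_inv
  have e2 : (((w⁻¹ : Bˣ) : B) * y) * x = 1 := by
    rw [mul_assoc, ← hw]
    exact w.inv_mul
  have e3 : ((w⁻¹ : Bˣ) : B) * y = y * ((u⁻¹ : Bˣ) : B) := left_inv_eq_right_inv e2 e1
  refine ⟨⟨x, y * ((u⁻¹ : Bˣ) : B), e1, by rw [← e3]; exact e2⟩, rfl, ?_⟩
  calc ‖y * ((u⁻¹ : Bˣ) : B)‖ ≤ ‖y‖ * ‖((u⁻¹ : Bˣ) : B)‖ := norm_mul_le _ _
    _ ≤ r * 2 := mul_le_mul hr hun (norm_nonneg _) ((norm_nonneg y).trans hr)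
    _ = 2 * r := mul_comm _ _

theorem IsUltra.eq_zero_iff (hm : IsUltra mk) (X : ℕ →ᵇ B) :
    mk X = 0 ↔ ∀ ε : ℝ, 0 < ε → ∀ᶠ n in (Filter.hyperfilter ℕ : Filter ℕ), ‖X n‖ < ε := by
  constructor
  · intro h ε hε
    refine hm.lt_of_norm X ε ?_
    rw [h, norm_zero]
    exact hε
  · intro h
    have h1 : ‖mk X‖ ≤ 0 := by
      refine le_of_forall_pos_le_add fun ε hε => ?_
      rw [zero_add]
      exact hm.norm_le X ε hε.le ((h ε hε).mono fun n hn => hn.le)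
    exact norm_eq_zero.mp (le_antisymm h1 (norm_nonneg _))

theorem IsUltra.norm_cst (hm : IsUltra mk) (b : B) : ‖mk (cst b)‖ = ‖b‖ := by
  apply le_antisymm
  · exact hm.norm_le _ _ (norm_nonneg b) (Filter.Eventually.of_forall fun n => by
      rw [cst_apply])
  · refine le_of_forall_gt_imp_ge_of_dense fun r hr => ?_
    have h1 := hm.lt_of_norm (cst b) r hr
    obtain ⟨n, hn⟩ := h1.exists
    rw [cst_apply] at hn
    exact hn.le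

theorem IsUltra.gt_of_norm (hm : IsUltra mk) (X : ℕ →ᵇ B) (r : ℝ) (hr : r < ‖mk X‖) :
    ∀ᶠ n in (Filter.hyperfilter ℕ : Filter ℕ), r < ‖X n‖ := by
  by_contra hcon
  have h1 : ∀ᶠ n in (Filter.hyperfilter ℕ : Filter ℕ), ¬ r < ‖X n‖ :=
    Ultrafilter.eventually_not.mpr hcon
  have h2 : ∀ᶠ n in (Filter.hyperfilter ℕ : Filter ℕ), ‖X n‖ ≤ r :=
    h1.mono fun n hn => not_lt.mp hn
  have h3 : 0 ≤ r := by
    obtain ⟨n, hn⟩ := h2.exists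
    exact (norm_nonneg _).trans hn
  exact absurd (hm.norm_le X r h3 h2) (not_le.mpr hr)

theorem IsUltra.eventually_unit (hm : IsUltra mk) (X Y : ℕ →ᵇ B) (h1 : mk X * mk Y = 1)
    (h2 : mk Y * mk X = 1) (r : ℝ) (hr : ‖mk Y‖ < r) :
    ∀ᶠ n in (Filter.hyperfilter ℕ : Filter ℕ),
      ∃ g : Bˣ, (g : B) = X n ∧ ‖((g⁻¹ : Bˣ) : B)‖ ≤ 2 * r := by
  have e1 : ‖mk (X * Y - 1)‖ < 1 / 2 := by
    rw [map_sub, map_mul, map_one, h1, sub_self, norm_zero]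
    norm_num
  have e2 : ‖mk (Y * X - 1)‖ < 1 / 2 := by
    rw [map_sub, map_mul, map_one, h2, sub_self, norm_zero]
    norm_num
  filter_upwards [hm.lt_of_norm _ _ e1, hm.lt_of_norm _ _ e2, hm.lt_of_norm _ _ hr]
    with n a1 a2 a3
  exact ultraApi_unit a1 a2 a3.le

/-- If the image of `b` is a limit of units, so is `b`. -/
theorem IsUltra.mem_CL (hm : IsUltra mk) (b : B) (h : mk (cst b) ∈ CL C) : b ∈ CL B := by
  refine Metric.mem_closure_iff.mpr fun ε hε => ?_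
  obtain ⟨w, hw, hwd⟩ := Metric.mem_closure_iff.mp h ε hε
  have ho : IsOpen ({x : C | IsUnit x} ∩ Metric.ball (mk (cst b)) ε) :=
    Units.isOpen.inter Metric.isOpen_ball
  obtain ⟨X, hX⟩ := hm.dense.exists_mem_open ho
    ⟨w, hw, by rw [Metric.mem_ball, dist_comm]; exact hwd⟩
  obtain ⟨v, hv⟩ := hX.1
  have ho2 : IsOpen {y : C | ‖mk X * y - 1‖ < 1 / 2 ∧ ‖y * mk X - 1‖ < 1 / 2} := by
    have c1 : Continuous fun y : C => ‖mk X * y - 1‖ := by fun_prop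
    have c2 : Continuous fun y : C => ‖y * mk X - 1‖ := by fun_prop
    exact (isOpen_lt c1 continuous_const).inter (isOpen_lt c2 continuous_const)
  obtain ⟨Y, hY⟩ := hm.dense.exists_mem_open ho2 ⟨((v⁻¹ : Cˣ) : C), by
    constructor
    · rw [← hv, v.mul_inv, sub_self, norm_zero]
      norm_num
    · rw [← hv, v.inv_mul, sub_self, norm_zero]
      norm_num⟩
  have e1 : ‖mk (X * Y - 1)‖ < 1 / 2 := by
    rw [map_sub, map_mul, map_one]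
    exact hY.1
  have e2 : ‖mk (Y * X - 1)‖ < 1 / 2 := by
    rw [map_sub, map_mul, map_one]
    exact hY.2
  have e3 : ‖mk (cst b - X)‖ < ε := by
    rw [map_sub, ← dist_eq_norm, dist_comm]
    exact hX.2
  obtain ⟨n, hn1, hn2, hn3⟩ :=
    ((hm.lt_of_norm _ _ e1).and ((hm.lt_of_norm _ _ e2).and (hm.lt_of_norm _ _ e3))).exists
  obtain ⟨g, hg, -⟩ := ultraApi_unit hn1 hn2 le_rfl
  refine ⟨X n, ⟨g, hg⟩, ?_⟩
  rw [dist_eq_norm]
  exact hn3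

end Pool.Agent.MPb9c6dd
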