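import Pool.Agent.Lib.MP_b9c6dd_an.Ultra
import Pool.Agent.Lib.MP_b9c6dd_an.UltraApi
import Pool.Agent.Lib.MP_b9c6dd_an.Towers
import Pool.Agent.Lib.MP_b9c6dd_an.GTower
import Pool.Agent.Lib.MP_b9c6dd_an.CutAlg
import Pool.Agent.Lib.MP_b9c6dd_an.NilCL

set_option autoImplicit false

open scoped BoundedContinuousFunction

namespace Pool.Agent.MPb9c6dd

variable {A B : Type} [CStarAlgebra A] [CStarAlgebra B] {α : A ≃⋆ₐ[ℂ] A}
  {ι : A →⋆ₐ[ℂ] B} {U : unitary B}

/-- Domination for several elements with a common length. -/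
theorem Main7_dom (hDP : DP α) {D : ℕ} (y : Fin D → A) (hy : ∀ l, IsPos (y l) ∧ y l ≠ 0) :
    ∃ (L : ℕ) (a b : Fin D → ℕ → A), ∀ l,
      ∑ j ∈ Finset.range L, a l j * (α ^ j) (y l) * b l j = 1 := by
  choose L a b hab using fun l => hDP (y l) (hy l).1 (hy l).2
  refine ⟨Finset.univ.sup L, fun l j => if h : j < L l then a l ⟨j, h⟩ else 0,
    fun l j => if h : j < L l then b l ⟨j, h⟩ else 0, fun l => ?_⟩
  have hle : L l ≤ Finset.univ.sup L := Finset.le_sup (Finset.mem_univ l)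
  rw [← Finset.sum_subset (Finset.range_mono hle)]
  · rw [Finset.sum_range, ← hab l]
    refine Finset.sum_congr rfl fun j _ => ?_
    simp only [Fin.is_lt, ↓reduceDIte, Fin.eta]
  · intro j _ hj
    have : ¬ j < L l := by simpa using hj
    simp [this]

/-- Shifted version of the domination identity. -/
theorem Main7_shift {L : ℕ} (a b : ℕ → A) (y : A)
    (hab : ∑ j ∈ Finset.range L, a j * (α ^ j) y * b j = 1) (m : ℕ) :
    ∑ s : Fin L, (α ^ (-((m : ℤ) + L - 1))) (a (L - 1 - (s : ℕ))) *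
      (α ^ (-((m + (s : ℕ) : ℕ) : ℤ))) y * (α ^ (-((m : ℤ) + L - 1))) (b (L - 1 - (s : ℕ))) = 1 := by
  have h1 : ∑ s ∈ Finset.range L, (α ^ (-((m : ℤ) + L - 1))) (a (L - 1 - s)) *
      (α ^ (-((m + s : ℕ) : ℤ))) y * (α ^ (-((m : ℤ) + L - 1))) (b (L - 1 - s)) = 1 := by
    have h2 := congrArg (fun x => (α ^ (-((m : ℤ) + L - 1))) x) hab
    simp only [map_sum, map_mul, map_one] at h2
    rw [← h2, ← Finset.sum_range_reflect (fun j => (α ^ (-((m : ℤ) + L - 1))) (a j) *
      (α ^ (-((m : ℤ) + L - 1))) ((α ^ j) y) * (α ^ (-((m : ℤ) + L - 1))) (b j))]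
    refine Finset.sum_congr rfl fun s hs => ?_
    have hs' := Finset.mem_range.mp hs
    congr 2
    rw [← zpow_natCast α (L - 1 - s), ← aut_add]
    congr 2
    omega
  rw [Finset.sum_range] at h1
  exact h1

/-- The cut lemma in the crossed product. -/
theorem CP.main7 (h : CP α ι U) {d : ℕ} (hR : Rok α d) (hDP : DP α)
    (K : ℕ) (c : ℤ → A) (f : B) (hf : f = pol ι U (Finset.Icc 1 (K : ℤ)) c)
    (e : A) (yy : Fin (d + 1) → A) (hef : ι e * f = f)
    (hyy : ∀ l, IsPos (yy l) ∧ yy l ≠ 0 ∧ e * yy l = 0 ∧ yy l * e = 0 ∧ ι (yy l) * f = 0 ∧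
        f * ι (yy l) = 0)
    (horth : ∀ l m, l ≠ m → yy l * yy m = 0) : f ∈ CL B := by
  classical
  have hyy2 : ∀ l, IsPos (yy l * yy l) ∧ yy l * yy l ≠ 0 := by
    intro l
    obtain ⟨⟨g, hg⟩, hne, -⟩ := hyy l
    have hsa : star (yy l) = yy l := by rw [hg, star_mul, star_star]
    refine ⟨⟨yy l, by rw [hsa]⟩, ?_⟩
    intro h0
    apply hne
    rw [← CStarRing.star_mul_self_eq_zero_iff, hsa, h0]
  obtain ⟨L, a, b, hab⟩ := Main7_dom hDP (fun l => yy l * yy l) hyy2
  obtain ⟨C, instC, mk, hm⟩ := exists_ultra B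
  set dA : Fin (d + 1) → ℕ → Fin L → A := fun l m s =>
    (α ^ (-((m : ℤ) + L - 1))) (b l (L - 1 - (s : ℕ))) with hdA
  set dA' : Fin (d + 1) → ℕ → Fin L → A := fun l m s =>
    (α ^ (-((m : ℤ) + L - 1))) (a l (L - 1 - (s : ℕ))) with hdA'
  set F : Finset A := ((Finset.Icc 1 (K : ℤ)).image c ∪ {e}) ∪ (Finset.univ.image yy ∪
    ((Finset.univ ×ˢ (Finset.range (K + K * L + 1) ×ˢ Finset.univ)).image
      (fun p : Fin (d + 1) × (ℕ × Fin L) => dA p.1 p.2.1 p.2.2) ∪
     (Finset.univ ×ˢ (Finset.range (K + K * L + 1) ×ˢ Finset.univ)).image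
      (fun p : Fin (d + 1) × (ℕ × Fin L) => dA' p.1 p.2.1 p.2.2))) with hF
  obtain ⟨X, hX, hT, hXF⟩ := h.towers_ultra hR hm F (K + K * L)
  obtain ⟨g, hg1, hg2, hg3, hg4, hg5⟩ := hT.exists_g
  set W : Cˣ := Unitary.toUnits (uU mk U) with hW
  have hWc : (W : C) = mk (cst (U : B)) := rfl
  have hWi : ((W⁻¹ : Cˣ) : C) = mk (cst (star (U : B))) := by
    rw [map_star, map_star]; rfl
  set j : A → C := fun a => mk (cst (ι a)) with hj
  have hjm : ∀ a b, j (a * b) = j a * j b := fun a b => by simp only [hj, map_mul]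
  have hgF : ∀ x ∈ F, ∀ l k, j x * g l k = g l k * j x := fun x hx l k =>
    (hg1 l k (j x) (hXF l k x hx)).symm
  have hWn : ∀ n : ℕ, (W : C) ^ n = mk (cst (upw U (n : ℤ))) := by
    intro n
    rw [upw_nat, hWc, map_pow, map_pow]
  have hWin : ∀ n : ℕ, ((W⁻¹ : Cˣ) : C) ^ n = mk (cst (upw U (-(n : ℤ)))) := by
    intro n
    rw [← upw_star, upw_nat, hWi, ← map_pow, ← map_pow, star_pow]
  have hconj : ∀ (n : ℕ) (x : A), ((W⁻¹ : Cˣ) : C) ^ n * j x * (W : C) ^ n =
      j ((α ^ (-(n : ℤ))) x) := by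
    intro n x
    rw [hWn, hWin, hj]
    simp only
    rw [← map_mul, ← map_mul, ← map_mul, ← map_mul, h.upw_mul_ι, mul_assoc, ← upw_add,
      neg_add_cancel, upw_zero, mul_one]
  have hmemc : ∀ k ∈ Finset.Icc 1 (K : ℤ), c k ∈ F := fun k hk =>
    Finset.mem_union_left _ (Finset.mem_union_left _ (Finset.mem_image_of_mem _ hk))
  have hmeme : e ∈ F := Finset.mem_union_left _ (Finset.mem_union_right _ (by simp))
  have hmemy : ∀ l, yy l ∈ F := fun l =>
    Finset.mem_union_right _ (Finset.mem_union_left _ (Finset.mem_image_of_mem _ (Finset.mem_univ l)))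
  have hmemd : ∀ l m, m ≤ K + K * L → ∀ s, dA l m s ∈ F := by
    intro l m hm s
    refine Finset.mem_union_right _ (Finset.mem_union_right _ (Finset.mem_union_left _ ?_))
    exact Finset.mem_image.mpr ⟨(l, m, s), by simp; omega, rfl⟩
  have hmemd' : ∀ l m, m ≤ K + K * L → ∀ s, dA' l m s ∈ F := by
    intro l m hm s
    refine Finset.mem_union_right _ (Finset.mem_union_right _ (Finset.mem_union_right _ ?_))
    exact Finset.mem_image.mpr ⟨(l, m, s), by simp; omega, rfl⟩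
  have hfC : mk (cst f) = ∑ k ∈ Finset.Icc 1 K,
      (if k ∈ Finset.Icc 1 K then j (c (k : ℤ)) else 0) * (W : C) ^ k := by
    rw [hf]
    unfold pol
    rw [show Finset.Icc (1 : ℤ) (K : ℤ) = (Finset.Icc 1 K).image (fun n : ℕ => (n : ℤ)) by
      ext k
      simp only [Finset.mem_Icc, Finset.mem_image]
      constructor
      · rintro ⟨h1, h2⟩
        exact ⟨k.toNat, ⟨by omega, by omega⟩, by omega⟩
      · rintro ⟨n, ⟨h1, h2⟩, rfl⟩
        exact ⟨by exact_mod_cast h1, by exact_mod_cast h2⟩]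
    rw [Finset.sum_image (fun x _ y _ hxy => by exact_mod_cast hxy), map_sum, map_sum]
    refine Finset.sum_congr rfl fun k hk => ?_
    rw [if_pos hk, hWn, map_mul, map_mul]
  obtain ⟨G, n, hG⟩ := cut_nilpotent W g hg2 hg3 hg4 hg5 K L (by omega)
    (fun k => if k ∈ Finset.Icc 1 K then j (c (k : ℤ)) else 0)
    (by
      intro k l k'
      split_ifs with hk
      · refine hgF _ (hmemc _ ?_) l k'
        rw [Finset.mem_Icc] at hk ⊢
        exact ⟨by exact_mod_cast hk.1, by exact_mod_cast hk.2⟩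
      · simp)
    (mk (cst f)) hfC (j e) (fun l => j (yy l))
    (fun l k => hgF e hmeme l k) (fun l m k => hgF _ (hmemy l) m k)
    (by rw [hj]; simp only; rw [← map_mul, ← map_mul, hef])
    (fun l => by
      rw [← hjm, (hyy l).2.2.1]; simp [hj])
    (fun l => by
      rw [← hjm, (hyy l).2.2.2.1]; simp [hj])
    (fun l m hlm => by
      rw [← hjm, horth l m hlm]; simp [hj])
    (fun l => by
      simp only [hj]
      rw [← map_mul, ← map_mul, (hyy l).2.2.2.2.2, map_zero, map_zero])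
    (fun l m s => j (dA l m s)) (fun l m s => j (dA' l m s))
    (fun l m hm s l' k => hgF _ (hmemd l m hm s) l' k)
    (fun l m hm s l' k => hgF _ (hmemd' l m hm s) l' k)
    (by
      intro l m hm
      have h1 := Main7_shift (α := α) (a l) (b l) (yy l * yy l) (hab l) m
      have h2 := congrArg j h1
      have h3 : j 1 = 1 := by simp [hj]
      have h4 : ∀ (s : Finset (Fin L)) (t : Fin L → A), j (∑ i ∈ s, t i) = ∑ i ∈ s, j (t i) := by
        intro s t
        simp only [hj, map_sum]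
      rw [h3, h4] at h2
      rw [← h2]
      refine Finset.sum_congr rfl fun s _ => ?_
      rw [← hjm, hconj, hjm, hjm])
  exact hm.mem_CL f (mem_CL_of_nilpotent _ G n hG)

end Pool.Agent.MPb9c6dd
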