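import Pool.Agent.Lib.MP_b9c6dd_an.Ultra
import Pool.Agent.Lib.MP_b9c6dd_an.UltraApi
import Pool.Agent.Lib.MP_b9c6dd_an.Towers
import Pool.Agent.Lib.MP_b9c6dd_an.Gadget
import Pool.Agent.Lib.MP_b9c6dd_an.LowerBd

set_option autoImplicit false

open scoped BoundedContinuousFunction

namespace Pool.Agent.MPb9c6dd

variable {A B : Type} [CStarAlgebra A] [CStarAlgebra B] {α : A ≃⋆ₐ[ℂ] A}
  {ι : A →⋆ₐ[ℂ] B} {U : unitary B}

/-! ### Continuous functional calculus -/

theorem move_mapcfc {D E : Type} [CStarAlgebra D] [CStarAlgebra E] (φ : D →⋆ₐ[ℂ] E)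
    {f : ℝ → ℝ} (hf : Continuous f) {a : D} (ha : IsSelfAdjoint a) :
    φ (cfc f a) = cfc f (φ a) := by
  have hφ : Continuous φ := by
    have hL : LipschitzWith 1 φ := by
      apply LipschitzWith.of_dist_le_mul
      intro x y
      rw [dist_eq_norm, dist_eq_norm, ← map_sub, NNReal.coe_one, one_mul]
      exact NonUnitalStarAlgHom.norm_apply_le φ _
    exact hL.continuous
  exact StarAlgHomClass.map_cfc φ f a hf.continuousOn hφ ha (ha.map φ)

/-- The functional calculus, with the instances of a `CStarAlgebra`. -/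
noncomputable def move_cfc {D : Type} [CStarAlgebra D] (f : ℝ → ℝ) (a : D) : D := cfc f a

theorem move_map_cfc {D E : Type} [CStarAlgebra D] [CStarAlgebra E] (φ : D →⋆ₐ[ℂ] E)
    {f : ℝ → ℝ} (hf : Continuous f) {a : D} (ha : IsSelfAdjoint a) :
    φ (move_cfc f a) = cfc f (φ a) := move_mapcfc φ hf ha

theorem move_psi_cont (δ : ℝ) : Continuous (psi δ) := by
  unfold psi; fun_prop

theorem move_rrf_cont {δ : ℝ} (hδ : 0 < δ) : Continuous (rrf δ) := by
  unfold rrf
  apply Continuous.inv₀ (by fun_prop)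
  intro x
  exact (lt_of_lt_of_le hδ (le_max_right _ _)).ne'

theorem move_ptf_cont (δ : ℝ) : Continuous (ptf δ) := by
  unfold ptf; fun_prop

theorem move_ptf_psi {δ : ℝ} (hδ : 0 < δ) (s : ℝ) : ptf δ s * (1 - psi δ s) = 0 := by
  unfold ptf psi
  rcases le_or_gt s (3 * δ) with h | h
  · rw [max_eq_left (by linarith), zero_mul]
  · have h1 : 1 ≤ (s - 2 * δ) / δ := by rw [le_div_iff₀ hδ]; linarith
    rw [max_eq_right (by linarith : (0 : ℝ) ≤ (s - 2 * δ) / δ), min_eq_left h1, sub_self,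
      mul_zero]

section order

attribute [local instance] CStarAlgebra.spectralOrder CStarAlgebra.spectralOrderedRing

theorem move_isPos_iff {D : Type} [CStarAlgebra D] (a : D) : IsPos a ↔ 0 ≤ a := by
  rw [CStarAlgebra.nonneg_iff_eq_star_mul_self]
  rfl

theorem move_isPos_sa {D : Type} [CStarAlgebra D] {a : D} (h : IsPos a) : IsSelfAdjoint a := by
  obtain ⟨g, rfl⟩ := h
  exact IsSelfAdjoint.star_mul_self g

theorem move_isPos_cfc {D : Type} [CStarAlgebra D] {a : D} {f : ℝ → ℝ} (hf : ∀ x, 0 ≤ f x) :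
    IsPos (cfc f a) := by
  rw [move_isPos_iff]
  exact cfc_nonneg fun x _ => hf x

theorem move_isPos_conj {D : Type} [CStarAlgebra D] {a t : D} (h : IsPos a)
    (ht : IsSelfAdjoint t) : IsPos (t * a * t) := by
  obtain ⟨g, rfl⟩ := h
  refine ⟨g * t, ?_⟩
  rw [star_mul, ht.star_eq]
  noncomm_ring

theorem move_isPos_map {D E : Type} [CStarAlgebra D] [CStarAlgebra E] (φ : D →⋆ₐ[ℂ] E) {a : D}
    (h : IsPos a) : IsPos (φ a) := by
  obtain ⟨g, rfl⟩ := h
  exact ⟨φ g, by rw [map_mul, map_star]⟩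

theorem move_ptf_ne {D : Type} [CStarAlgebra D] {y : D} (h : IsPos y) {δ : ℝ} (hδ : 0 < δ)
    (hy : 3 * δ < ‖y‖) : cfc (ptf δ) y ≠ 0 := by
  have hne : Nontrivial D := by
    refine ⟨y, 0, ?_⟩
    rintro rfl
    rw [norm_zero] at hy
    linarith
  intro h0
  have h1 : 0 ≤ y := (move_isPos_iff y).1 h
  have h2 := CStarAlgebra.norm_mem_spectrum_of_nonneg h1
  have h3 := norm_apply_le_norm_cfc (ptf δ) y h2 (move_ptf_cont δ).continuousOn
    (move_isPos_sa h)
  rw [h0, norm_zero] at h3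
  have h4 : ptf δ ‖y‖ = 0 := norm_le_zero_iff.1 h3
  unfold ptf at h4
  rw [max_eq_right (by linarith)] at h4
  linarith

end order

theorem move_ptf_mul {D : Type} [CStarAlgebra D] {y : D} (h : IsPos y) {δ : ℝ} (hδ : 0 < δ) :
    cfc (ptf δ) y * (1 - cfc (psi δ) y) = 0 := by
  have hsa := move_isPos_sa h
  have h1 : cfc (fun s => ptf δ s * (1 - psi δ s)) y = 0 := by
    have : (fun s => ptf δ s * (1 - psi δ s)) = fun _ => 0 := funext (move_ptf_psi hδ)
    rw [this]
    exact cfc_zero ℝ y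
  have h2 : cfc (fun s => 1 - psi δ s) y = 1 - cfc (psi δ) y := by
    rw [cfc_sub (fun _ => (1 : ℝ)) (psi δ) y (by fun_prop) (move_psi_cont δ).continuousOn,
      cfc_const_one ℝ y]
  rw [← h2, ← cfc_mul (ptf δ) (fun s => 1 - psi δ s) y (move_ptf_cont δ).continuousOn
    (continuous_const.sub (move_psi_cont δ)).continuousOn]
  exact h1

/-! ### Norms of unitaries -/

theorem move_norm_unitary {D : Type} [CStarAlgebra D] (V : unitary D) : ‖(V : D)‖ ≤ 1 := by
  rcases subsingleton_or_nontrivial D with h | h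
  · rw [Subsingleton.elim (V : D) 0, norm_zero]; exact zero_le_one
  · rw [CStarRing.norm_coe_unitary]

theorem move_norm_upw (U : unitary B) (k : ℤ) : ‖upw U k‖ ≤ 1 := move_norm_unitary _

theorem move_uU_pow {C : Type} [CStarAlgebra C] (mk : (ℕ →ᵇ B) →⋆ₐ[ℂ] C) (U : unitary B) (k : ℤ) :
    mk (cst (upw U k)) = upw (uU mk U) k := by
  have key : ∀ n : ℕ, mk (cst ((U : B) ^ n)) = ((uU mk U : unitary C) : C) ^ n := by
    intro n
    rw [map_pow, map_pow]; rfl
  obtain ⟨n, rfl | rfl⟩ := k.eq_nat_or_neg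
  · rw [upw_nat, upw_nat, key]
  · rw [← upw_star, ← upw_star, map_star, map_star, upw_nat, upw_nat, key]

/-! ### Towers -/

theorem move_shift_iter {C : Type} [CStarAlgebra C] {W : unitary C} {d q : ℕ}
    {x : Fin (d + 1) → Fin (q + 1) → C} (hx : Tower W d q x) (l : Fin (d + 1)) (n : ℕ)
    (j : Fin (q + 1)) :
    (W : C) ^ n * x l j * star ((W : C) ^ n) = x l ((fun i => i + 1)^[n] j) := by
  induction n generalizing j with
  | zero => simp
  | succ n ih =>
    rw [Function.iterate_succ_apply, ← ih, ← hx.shift l j, pow_succ, star_mul]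
    noncomm_ring

theorem move_iter_ne {q : ℕ} (n : ℕ) (hn : 0 < n) (hq : n ≤ q) (j : Fin (q + 1)) :
    (fun i : Fin (q + 1) => i + 1)^[n] j ≠ j := by
  have hval : ∀ (n : ℕ) (j : Fin (q + 1)), ((fun i : Fin (q + 1) => i + 1)^[n] j).val =
      (j.val + n) % (q + 1) := by
    intro n
    induction n with
    | zero => intro j; simp [Nat.mod_eq_of_lt j.2]
    | succ n ih =>
      intro j
      rw [Function.iterate_succ_apply, ih, Fin.val_add]
      rcases q with _ | q
      · simp [Nat.mod_one]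
      · have : ((1 : Fin (q + 1 + 1)) : ℕ) = 1 := rfl
        rw [this, Nat.mod_add_mod]
        congr 1
        omega
  intro h
  have h1 := congrArg Fin.val h
  rw [hval] at h1
  have h2 := j.2
  rcases Nat.lt_or_ge (j.val + n) (q + 1) with h3 | h3
  · rw [Nat.mod_eq_of_lt h3] at h1; omega
  · rw [Nat.mod_eq_sub_mod h3, Nat.mod_eq_of_lt (by omega)] at h1; omega

theorem move_tower_nat {C : Type} [CStarAlgebra C] {W : unitary C} {d q : ℕ}
    {x : Fin (d + 1) → Fin (q + 1) → C} (hx : Tower W d q x) (l : Fin (d + 1))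
    (j : Fin (q + 1)) (n : ℕ) (hn : 0 < n) (hq : n ≤ q) :
    x l j * (W : C) ^ n * x l j = 0 := by
  have h1 := move_shift_iter hx l n j
  have h2 : (W : C) ^ n * x l j = x l ((fun i => i + 1)^[n] j) * (W : C) ^ n := by
    have h3 : star ((W : C) ^ n) * (W : C) ^ n = 1 :=
      Unitary.star_mul_self_of_mem (pow_mem W.2 n)
    rw [← h1, mul_assoc _ (star _), h3, mul_one]
  rw [mul_assoc, h2, ← mul_assoc, hx.orth l j _ (move_iter_ne n hn hq j).symm, zero_mul]

theorem move_tower_int {C : Type} [CStarAlgebra C] {W : unitary C} {d q : ℕ}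
    {x : Fin (d + 1) → Fin (q + 1) → C} (hx : Tower W d q x) (l : Fin (d + 1))
    (j : Fin (q + 1)) (k : ℤ) (hk : k ≠ 0) (hq : |k| ≤ q) :
    x l j * upw W k * x l j = 0 := by
  have hsa : star (x l j) = x l j := (move_isPos_sa (hx.pos l j)).star_eq
  obtain ⟨n, rfl | rfl⟩ := k.eq_nat_or_neg
  · rw [upw_nat]
    apply move_tower_nat hx l j n
    · omega
    · rw [Nat.abs_cast] at hq; exact_mod_cast hq
  · have h1 : x l j * upw W (n : ℤ) * x l j = 0 := by
      rw [upw_nat]
      apply move_tower_nat hx l j n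
      · omega
      · rw [abs_neg, Nat.abs_cast] at hq; exact_mod_cast hq
    have h2 := congrArg star h1
    rw [star_mul, star_mul, upw_star, hsa, star_zero, ← mul_assoc] at h2
    exact h2

/-- The compressed expectation. -/
theorem move_compress {C : Type} [CStarAlgebra C] {W : unitary C} {t : C} (K q : ℕ)
    (hq : 2 * K ≤ q) (ht : ∀ k : ℤ, k ≠ 0 → |k| ≤ q → t * upw W k * t = 0) (c : ℤ → C)
    (hc : ∀ k ∈ Finset.Icc (-(K : ℤ)) K, t * c k = c k * t)
    (hc' : ∀ k ∈ Finset.Icc (-(K : ℤ)) K, t * star (c k) = star (c k) * t) :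
    t * ((∑ k ∈ Finset.Icc (-(K : ℤ)) K, c k * upw W k) *
      star (∑ k ∈ Finset.Icc (-(K : ℤ)) K, c k * upw W k)) * t =
      t * (∑ k ∈ Finset.Icc (-(K : ℤ)) K, c k * star (c k)) * t := by
  rw [star_sum, Finset.sum_mul_sum, Finset.mul_sum, Finset.sum_mul, Finset.mul_sum,
    Finset.sum_mul]
  apply Finset.sum_congr rfl
  intro k hk
  rw [Finset.mul_sum, Finset.sum_mul, Finset.sum_eq_single k]
  · have h1 : upw W k * star (upw W k) = 1 := by
      rw [upw_star, ← upw_add, add_neg_cancel, upw_zero]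
    rw [star_mul]
    have : t * (c k * upw W k * (star (upw W k) * star (c k))) * t =
        t * (c k * (upw W k * star (upw W k)) * star (c k)) * t := by noncomm_ring
    rw [this, h1, mul_one]
  · intro k' hk' hne
    have h2 : t * (c k * upw W k * star (c k' * upw W k')) * t =
        (t * c k) * (upw W k * star (upw W k')) * (star (c k') * t) := by
      rw [star_mul]; noncomm_ring
    rw [h2, hc k hk, ← hc' k' hk', upw_star, ← upw_add]
    have h3 : t * upw W (k + -k') * t = 0 := by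
      apply ht
      · intro h; apply hne; omega
      · rw [Finset.mem_Icc] at hk hk'
        rw [abs_le]; constructor <;> omega
    have h4 : c k * t * upw W (k + -k') * (t * star (c k')) =
        c k * (t * upw W (k + -k') * t) * star (c k') := by noncomm_ring
    rw [h4, h3, mul_zero, zero_mul]
  · intro h; exact absurd hk h

/-- The compression of the shifted polynomial vanishes. -/
theorem move_compress_zero {C : Type} [CStarAlgebra C] {W : unitary C} {t : C} (K q : ℕ)
    (hq : 2 * K + 1 ≤ q) (ht : ∀ k : ℤ, k ≠ 0 → |k| ≤ q → t * upw W k * t = 0) (c : ℤ → C)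
    (hc' : ∀ k ∈ Finset.Icc (-(K : ℤ)) K, t * star (c k) = star (c k) * t) :
    t * star (upw W ((K : ℤ) + 1)) * star (∑ k ∈ Finset.Icc (-(K : ℤ)) K, c k * upw W k) * t
      = 0 := by
  rw [star_sum, Finset.mul_sum, Finset.sum_mul]
  apply Finset.sum_eq_zero
  intro k hk
  rw [star_mul]
  have h2 : t * star (upw W ((K : ℤ) + 1)) * (star (upw W k) * star (c k)) * t =
      t * (star (upw W ((K : ℤ) + 1)) * star (upw W k)) * (star (c k) * t) := by noncomm_ring
  rw [h2, ← hc' k hk, upw_star, upw_star, ← upw_add]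
  have h3 : t * upw W (-((K : ℤ) + 1) + -k) * t = 0 := by
    rw [Finset.mem_Icc] at hk
    apply ht
    · omega
    · rw [abs_le]; constructor <;> omega
  rw [← mul_assoc, h3, zero_mul]

/-- The expectation of `p p*`. -/
theorem move_E_pol {E : B →L[ℂ] A} (hE : IsEx α ι U E) (K : ℕ) (c : ℤ → A) :
    E (pol ι U (Finset.Icc (-(K : ℤ)) K) c * star (pol ι U (Finset.Icc (-(K : ℤ)) K) c)) =
      ∑ k ∈ Finset.Icc (-(K : ℤ)) K, c k * star (c k) := by
  unfold pol
  rw [star_sum, Finset.sum_mul_sum, map_sum]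
  apply Finset.sum_congr rfl
  intro k hk
  rw [map_sum]
  have key : ∀ k' : ℤ, E (ι (c k) * upw U k * star (ι (c k') * upw U k')) =
      if k + -k' = 0 then c k * star (c k') else 0 := by
    intro k'
    have e1 : ι (c k) * upw U k * star (ι (c k') * upw U k') =
        ι (c k) * (upw U (k + -k') * ι (star (c k'))) := by
      rw [star_mul, upw_star, upw_add, ← map_star]
      noncomm_ring
    rw [e1, hE.ι_mul, hE.mul_ι, hE.pw]
    split_ifs <;> simp
  simp_rw [key]
  rw [Finset.sum_eq_single k]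
  · simp
  · intro k' _ hne
    rw [if_neg]
    intro h; apply hne; omega
  · intro h; exact absurd hk h

/-- The moving lemma. -/
theorem CP.move_left (h : CP α ι U) {E : B →L[ℂ] A} (hE : IsEx α ι U E)
    (hfaith : ∀ b, E (star b * b) = 0 → b = 0) {d : ℕ} (hR : Rok α d) (f hh : B)
    (hne : hh ≠ 0) (hf : hh * f = 0) :
    ∃ M : ℝ, 0 < M ∧ ∀ ε : ℝ, 0 < ε → ∃ (G : Bˣ) (H : B) (y : A),
      ‖((G⁻¹ : Bˣ) : B)‖ ≤ M ∧ ‖(G : B) * f - H * f‖ ≤ ε ∧ IsPos y ∧ y ≠ 0 ∧
        ι y * (H * f) = 0 := by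
  classical
  have ha0 : E (hh * star hh) ≠ 0 := by
    intro h0
    have h1 := hfaith (star hh) (by rwa [star_star])
    exact hne (star_eq_zero.1 h1)
  set N0 : ℝ := ‖E (hh * star hh)‖ with hN0def
  have hN0 : 0 < N0 := norm_pos_iff.2 ha0
  set D : ℝ := (d : ℝ) + 1 with hDdef
  have hD : 1 ≤ D := by rw [hDdef]; linarith [(Nat.cast_nonneg d : (0 : ℝ) ≤ d)]
  set δ : ℝ := N0 / (16 * D ^ 2) with hδdef
  have hδ : 0 < δ := by positivity
  refine ⟨2 * ((2 + ‖hh‖) * (1 + δ⁻¹ * (1 + ‖hh‖)) + 1), by positivity, ?_⟩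
  intro ε hε
  obtain ⟨η, hη0, hη1, hη2, hη3⟩ : ∃ η : ℝ, 0 < η ∧ η ≤ 1 ∧ δ⁻¹ * (η * ‖f‖) < ε ∧
      (2 * ‖hh‖ + 1) * η ≤ N0 / 2 := by
    refine ⟨min 1 (min (δ * ε / (2 * (‖f‖ + 1))) (N0 / (2 * (2 * ‖hh‖ + 1)))), ?_, min_le_left _ _,
      ?_, ?_⟩
    · have := norm_nonneg f
      have := norm_nonneg hh
      positivity
    · set η : ℝ := min 1 (min (δ * ε / (2 * (‖f‖ + 1))) (N0 / (2 * (2 * ‖hh‖ + 1)))) with hη
      have h1 : η ≤ δ * ε / (2 * (‖f‖ + 1)) := (min_le_right _ _).trans (min_le_left _ _)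
      have h2 : η * ‖f‖ ≤ δ * ε / (2 * (‖f‖ + 1)) * (‖f‖ + 1) := by
        apply mul_le_mul h1 (by linarith) (norm_nonneg _)
        have := norm_nonneg f
        positivity
      have h3 : δ * ε / (2 * (‖f‖ + 1)) * (‖f‖ + 1) = δ * ε / 2 := by
        have := norm_nonneg f
        field_simp
      rw [h3] at h2
      have h4 : δ⁻¹ * (η * ‖f‖) ≤ δ⁻¹ * (δ * ε / 2) :=
        mul_le_mul_of_nonneg_left h2 (inv_pos.2 hδ).le
      have h5 : δ⁻¹ * (δ * ε / 2) = ε / 2 := by field_simp
      linarith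
    · have h1 : min 1 (min (δ * ε / (2 * (‖f‖ + 1))) (N0 / (2 * (2 * ‖hh‖ + 1)))) ≤
          N0 / (2 * (2 * ‖hh‖ + 1)) := (min_le_right _ _).trans (min_le_right _ _)
      have hh0 := norm_nonneg hh
      calc (2 * ‖hh‖ + 1) * min 1 (min (δ * ε / (2 * (‖f‖ + 1))) (N0 / (2 * (2 * ‖hh‖ + 1))))
          ≤ (2 * ‖hh‖ + 1) * (N0 / (2 * (2 * ‖hh‖ + 1))) :=
            mul_le_mul_of_nonneg_left h1 (by positivity)
        _ = N0 / 2 := by field_simp
  obtain ⟨K, c, hKc⟩ := h.pol_dense hh η hη0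
  set p : B := pol ι U (Finset.Icc (-(K : ℤ)) K) c with hp
  set a' : A := E (p * star p) with ha'
  have ha'eq : a' = ∑ k ∈ Finset.Icc (-(K : ℤ)) K, c k * star (c k) := move_E_pol hE K c
  have hpnorm : ‖p‖ ≤ ‖hh‖ + η := by
    have : p = hh - (hh - p) := by abel
    rw [this]
    exact (norm_sub_le _ _).trans (by linarith)
  have hanorm : N0 / 2 ≤ ‖a'‖ := by
    have e1 : p * star p - hh * star hh = p * star (p - hh) + (p - hh) * star hh := by
      rw [star_sub]; noncomm_ring
    have e2 : ‖a' - E (hh * star hh)‖ ≤ (2 * ‖hh‖ + 1) * η := by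
      rw [ha', ← map_sub, e1]
      refine (hE.norm_le _).trans ?_
      refine (norm_add_le _ _).trans ?_
      have e3 : ‖p - hh‖ ≤ η := by rw [norm_sub_rev]; exact hKc.le
      have e4 : ‖p * star (p - hh)‖ ≤ (‖hh‖ + η) * η := by
        refine (norm_mul_le _ _).trans ?_
        rw [norm_star]
        exact mul_le_mul hpnorm e3 (norm_nonneg _) (by positivity)
      have e5 : ‖(p - hh) * star hh‖ ≤ η * ‖hh‖ := by
        refine (norm_mul_le _ _).trans ?_
        rw [norm_star]
        exact mul_le_mul_of_nonneg_right e3 (norm_nonneg _)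
      nlinarith
    have e3 : N0 ≤ ‖a'‖ + ‖a' - E (hh * star hh)‖ := by
      rw [hN0def]
      have : E (hh * star hh) = a' - (a' - E (hh * star hh)) := by abel
      calc ‖E (hh * star hh)‖ = ‖a' - (a' - E (hh * star hh))‖ := by rw [← this]
        _ ≤ _ := norm_sub_le _ _
    linarith
  have hapos : IsPos a' := by
    have := hE.pos (star p)
    rwa [star_star] at this
  obtain ⟨C, instC, mk, hm⟩ := exists_ultra B
  set q : ℕ := 2 * K + 1 with hq
  obtain ⟨X, hX1, hTow, hcomm⟩ := h.towers_ultra hR hm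
    (insert a' ((Finset.Icc (-(K : ℤ)) K).image c)) q
  have hisoι : ∀ a : A, ‖ι a‖ = ‖a‖ := fun a => NonUnitalStarAlgHom.norm_map ι h.inj a
  have hnormΦ : ∀ a : A, ‖mk (cst (ι a))‖ = ‖a‖ := fun a => by rw [hm.norm_cst, hisoι]
  obtain ⟨l, j, hlj⟩ := hTow.lower (mk (cst (ι a')))
    (move_isPos_map (mk.comp (cst.comp ι)) hapos)
    (fun l j => hcomm l j a' (Finset.mem_insert_self _ _))
  set T : ℕ →ᵇ A := X l j with hT
  set t : C := mk (seqMap ι T) with ht
  have htsa : IsSelfAdjoint t := move_isPos_sa (hTow.pos l j)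
  have htnorm : ‖t‖ ≤ 1 := hTow.norm_le l j
  have htc : ∀ k ∈ Finset.Icc (-(K : ℤ)) K, t * mk (cst (ι (c k))) = mk (cst (ι (c k))) * t :=
    fun k hk => hcomm l j (c k) (Finset.mem_insert_of_mem (Finset.mem_image_of_mem c hk))
  have htc' : ∀ k ∈ Finset.Icc (-(K : ℤ)) K,
      t * star (mk (cst (ι (c k)))) = star (mk (cst (ι (c k)))) * t := by
    intro k hk
    have h1 := congrArg star (htc k hk)
    rw [star_mul, star_mul, htsa.star_eq] at h1
    exact h1.symm
  set W : unitary C := uU mk U with hW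
  have hzero : ∀ k : ℤ, k ≠ 0 → |k| ≤ q → t * upw W k * t = 0 :=
    fun k hk hkq => move_tower_int hTow l j k hk hkq
  have hφp : mk (cst p) = ∑ k ∈ Finset.Icc (-(K : ℤ)) K, mk (cst (ι (c k))) * upw W k := by
    rw [hp, pol, map_sum, map_sum]
    apply Finset.sum_congr rfl
    intro k _
    rw [map_mul, map_mul, move_uU_pow]
  have hφa : mk (cst (ι a')) = ∑ k ∈ Finset.Icc (-(K : ℤ)) K,
      mk (cst (ι (c k))) * star (mk (cst (ι (c k)))) := by
    rw [ha'eq, map_sum, map_sum, map_sum]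
    apply Finset.sum_congr rfl
    intro k _
    rw [map_mul, map_mul, map_mul, map_star, map_star, map_star]
  have hcompr : t * (mk (cst p) * star (mk (cst p))) * t = t * mk (cst (ι a')) * t := by
    rw [hφp, hφa]
    exact move_compress K q (by omega) hzero _ htc htc'
  have hcompr0 : t * star (upw W ((K : ℤ) + 1)) * star (mk (cst p)) * t = 0 := by
    rw [hφp]
    exact move_compress_zero K q (by omega) hzero _ htc'
  -- sequence level
  set V : B := upw U ((K : ℤ) + 1) with hV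
  set Xs : ℕ →ᵇ B := cst (star p) * seqMap ι T * cst (star V) with hXs
  set αm : A →⋆ₐ[ℂ] A := ((α ^ ((K : ℤ) + 1) : A ≃⋆ₐ[ℂ] A) : A →⋆ₐ[ℂ] A) with hαm
  set ys : ℕ →ᵇ A := seqMap αm (T * cst a' * T) with hys
  have hmkV : mk (cst V) = upw W ((K : ℤ) + 1) := move_uU_pow mk U _
  have hmkX : mk Xs = star (mk (cst p)) * t * star (mk (cst V)) := by
    rw [hXs, map_mul, map_mul, map_star, map_star, map_star, map_star]
  clear_value Xs
  have hVV : V * star V = 1 := by
    rw [hV, upw_star, ← upw_add, add_neg_cancel, upw_zero]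
  have hVV' : star V * V = 1 := by
    rw [hV, upw_star, ← upw_add, neg_add_cancel, upw_zero]
  have hys_eq : seqMap ι ys = cst V * (seqMap ι T * cst (ι a') * seqMap ι T) * cst (star V) := by
    ext n
    have e1 : ι (αm (T n * a' * T n)) = V * ι (T n * a' * T n) * star V := by
      have := h.upw_mul_ι ((K : ℤ) + 1) (T n * a' * T n)
      rw [← hV] at this
      rw [this, mul_assoc _ V, hVV, mul_one]
      rfl
    change ι (αm (T n * a' * T n)) = V * (ι (T n) * ι a' * ι (T n)) * star V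
    rw [e1, map_mul, map_mul]
  set Y : C := mk (seqMap ι ys) with hY
  have hYeq : Y = mk (cst V) * (t * mk (cst (ι a')) * t) * star (mk (cst V)) := by
    rw [hY, hys_eq, map_mul, map_mul, map_mul, map_mul, map_star, map_star]
  have hφV : mk (cst V) * star (mk (cst V)) = 1 := by
    rw [← map_star, ← map_star, ← map_mul, ← map_mul, hVV, map_one, map_one]
  have hφV' : star (mk (cst V)) * mk (cst V) = 1 := by
    rw [← map_star, ← map_star, ← map_mul, ← map_mul, hVV', map_one, map_one]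
  have hXX : mk Xs * mk Xs = 0 := by
    rw [hmkX]
    have : star (mk (cst p)) * t * star (mk (cst V)) * (star (mk (cst p)) * t * star (mk (cst V)))
        = star (mk (cst p)) * (t * star (mk (cst V)) * star (mk (cst p)) * t) *
          star (mk (cst V)) := by noncomm_ring
    rw [this, hmkV, hcompr0, mul_zero, zero_mul]
  have hXsX : star (mk Xs) * mk Xs = Y := by
    rw [hmkX, hYeq, ← hcompr, star_mul, star_mul, star_star, star_star, htsa.star_eq]
    noncomm_ring
  obtain ⟨g1, g2, g3, g4, g5⟩ := gadget (mk Xs) Y hXX hXsX δ hδ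
  have hyspos : ∀ n, IsPos (ys n) := by
    intro n
    apply move_isPos_map αm
    exact move_isPos_conj hapos (move_isPos_sa (hX1 l j n).1)
  have hyssa : IsSelfAdjoint ys := by
    have : IsSelfAdjoint (T * cst a' * T) := by
      have h1 : star T = T := by
        ext n
        exact (move_isPos_sa (hX1 l j n).1).star_eq
      have h2 : star (cst a') = (cst a' : ℕ →ᵇ A) := by
        rw [← map_star, (move_isPos_sa hapos).star_eq]
      rw [isSelfAdjoint_iff, star_mul, star_mul, h1, h2, mul_assoc]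
    exact this.map (seqMap αm)
  have hcfcY : ∀ {F : ℝ → ℝ}, Continuous F → mk (seqMap ι (move_cfc F ys)) = cfc F Y := by
    intro F hF
    exact move_map_cfc (mk.comp (seqMap ι)) hF hyssa
  have hcfcn : ∀ {F : ℝ → ℝ}, Continuous F → ∀ n, (move_cfc F ys) n = cfc F (ys n) := by
    intro F hF n
    exact move_map_cfc (evl n) hF hyssa
  set Rs : ℕ →ᵇ B := seqMap ι (move_cfc (rrf δ) ys) with hRs
  have hmkR : mk Rs = cfc (rrf δ) Y := hcfcY (move_rrf_cont hδ)
  set Ps : ℕ →ᵇ B := seqMap ι (move_cfc (psi δ) ys) with hPs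
  have hmkP : mk Ps = cfc (psi δ) Y := hcfcY (move_psi_cont δ)
  set Gs : ℕ →ᵇ B := (1 + Rs * star Xs) * (1 - Xs) with hGs
  set Gs' : ℕ →ᵇ B := (1 + Xs) * (1 - Rs * star Xs) with hGs'
  have hmkG : mk Gs = (1 + cfc (rrf δ) Y * star (mk Xs)) * (1 - mk Xs) := by
    rw [hGs, map_mul, map_add, map_sub, map_mul, map_star, map_one, hmkR]
  have hmkG' : mk Gs' = (1 + mk Xs) * (1 - cfc (rrf δ) Y * star (mk Xs)) := by
    rw [hGs', map_mul, map_add, map_sub, map_mul, map_star, map_one, hmkR]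
  have hXnorm : ‖mk Xs‖ ≤ ‖hh‖ + 1 := by
    rw [hmkX]
    have e1 : ‖star (mk (cst p)) * t * star (mk (cst V))‖ ≤ ‖p‖ * 1 * 1 := by
      refine (norm_mul_le _ _).trans ?_
      apply mul_le_mul _ _ (norm_nonneg _) (by positivity)
      · refine (norm_mul_le _ _).trans ?_
        rw [norm_star, hm.norm_cst]
        exact mul_le_mul_of_nonneg_left htnorm (norm_nonneg _)
      · rw [norm_star, hmkV]
        exact move_norm_upw _ _
    linarith
  have hone : ‖(1 : C)‖ ≤ 1 := by
    have := move_norm_unitary (1 : unitary C)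
    simpa using this
  have hG'norm : ‖mk Gs'‖ < (2 + ‖hh‖) * (1 + δ⁻¹ * (1 + ‖hh‖)) + 1 := by
    rw [hmkG']
    have e1 : ‖1 + mk Xs‖ ≤ 2 + ‖hh‖ := (norm_add_le _ _).trans (by linarith)
    have e2 : ‖1 - cfc (rrf δ) Y * star (mk Xs)‖ ≤ 1 + δ⁻¹ * (1 + ‖hh‖) := by
      refine (norm_sub_le _ _).trans ?_
      apply add_le_add hone
      refine (norm_mul_le _ _).trans ?_
      rw [norm_star]
      exact mul_le_mul g4 (by linarith) (norm_nonneg _) (inv_pos.2 hδ).le
    have e3 := (norm_mul_le (1 + mk Xs) (1 - cfc (rrf δ) Y * star (mk Xs))).trans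
      (mul_le_mul e1 e2 (norm_nonneg _) (by positivity))
    linarith
  have ev1 := hm.eventually_unit Gs Gs' (by rw [hmkG, hmkG']; exact g1)
    (by rw [hmkG, hmkG']; exact g2) _ hG'norm
  -- the product with `f`
  have hpf : ‖p * f‖ ≤ η * ‖f‖ := by
    have : p * f = -((hh - p) * f) := by rw [sub_mul, hf]; abel
    rw [this, norm_neg]
    exact (norm_mul_le _ _).trans (mul_le_mul_of_nonneg_right hKc.le (norm_nonneg _))
  have hXf : ‖star (mk Xs) * mk (cst f)‖ ≤ η * ‖f‖ := by
    have e1 : star (mk Xs) * mk (cst f) = mk (cst V) * t * mk (cst (p * f)) := by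
      rw [hmkX, star_mul, star_mul, star_star, star_star, htsa.star_eq, map_mul, map_mul]
      noncomm_ring
    rw [e1]
    have e2 : ‖mk (cst V) * t * mk (cst (p * f))‖ ≤ 1 * 1 * (η * ‖f‖) := by
      refine (norm_mul_le _ _).trans ?_
      apply mul_le_mul _ _ (norm_nonneg _) (by positivity)
      · refine (norm_mul_le _ _).trans ?_
        apply mul_le_mul _ htnorm (norm_nonneg _) zero_le_one
        rw [hmkV]; exact move_norm_upw _ _
      · rw [hm.norm_cst]; exact hpf
    linarith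
  have hPGf : ‖mk (Ps * Gs * cst f)‖ < ε := by
    rw [map_mul, map_mul, hmkP, hmkG, g3, mul_assoc]
    have e1 : ‖cfc (psi δ) Y * cfc (rrf δ) Y * (star (mk Xs) * mk (cst f))‖ ≤
        1 * δ⁻¹ * (η * ‖f‖) := by
      refine (norm_mul_le _ _).trans ?_
      apply mul_le_mul _ hXf (norm_nonneg _) (by positivity)
      refine (norm_mul_le _ _).trans ?_
      exact mul_le_mul g5 g4 (norm_nonneg _) zero_le_one
    linarith
  have ev2 := hm.lt_of_norm _ _ hPGf
  have hYnorm : 3 * δ < ‖Y‖ := by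
    have e1 : t * mk (cst (ι a')) * t = star (mk (cst V)) * Y * mk (cst V) := by
      rw [hYeq]
      have : star (mk (cst V)) * (mk (cst V) * (t * mk (cst (ι a')) * t) * star (mk (cst V))) *
          mk (cst V) = (star (mk (cst V)) * mk (cst V)) * (t * mk (cst (ι a')) * t) *
          (star (mk (cst V)) * mk (cst V)) := by noncomm_ring
      rw [this, hφV', one_mul, mul_one]
    have e2 : ‖t * mk (cst (ι a')) * t‖ ≤ ‖Y‖ := by
      rw [e1]
      have hVn : ‖mk (cst V)‖ ≤ 1 := by rw [hmkV]; exact move_norm_upw _ _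
      have e3 : ‖star (mk (cst V)) * Y * mk (cst V)‖ ≤ 1 * ‖Y‖ * 1 := by
        refine (norm_mul_le _ _).trans ?_
        apply mul_le_mul _ hVn (norm_nonneg _) (by positivity)
        refine (norm_mul_le _ _).trans ?_
        apply mul_le_mul_of_nonneg_right _ (norm_nonneg _)
        rw [norm_star]; exact hVn
      linarith
    rw [hnormΦ] at hlj
    have e3 : N0 / 2 ≤ D ^ 2 * ‖Y‖ := hanorm.trans (hlj.trans
      (mul_le_mul_of_nonneg_left e2 (by positivity)))
    have e4 : 8 * δ * D ^ 2 = N0 / 2 := by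
      rw [hδdef]; field_simp; norm_num
    rw [← e4] at e3
    have e5 : 8 * δ ≤ ‖Y‖ := by
      have hD2 : 0 < D ^ 2 := by positivity
      have : D ^ 2 * (8 * δ) ≤ D ^ 2 * ‖Y‖ := by linarith
      exact le_of_mul_le_mul_left this hD2
    linarith
  have ev3 := hm.gt_of_norm (seqMap ι ys) (3 * δ) hYnorm
  obtain ⟨n, ⟨⟨g, hg1, hg2⟩, hn2⟩, hn3⟩ := ((ev1.and ev2).and ev3).exists
  refine ⟨g, (1 - ι (cfc (psi δ) (ys n))) * g, cfc (ptf δ) (ys n), hg2, ?_, ?_, ?_, ?_⟩
  · have e1 : (g : B) * f - (1 - ι (cfc (psi δ) (ys n))) * (g : B) * f =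
        ι (cfc (psi δ) (ys n)) * (g : B) * f := by noncomm_ring
    rw [e1]
    have e2 : (Ps * Gs * cst f) n = ι (cfc (psi δ) (ys n)) * (g : B) * f := by
      rw [hg1, ← hcfcn (move_psi_cont δ) n]
      rfl
    rw [← e2]
    exact hn2.le
  · apply move_isPos_cfc
    intro x
    exact le_max_left _ _
  · apply move_ptf_ne (hyspos n) hδ
    rw [seqMap_apply, hisoι] at hn3
    exact hn3
  · have e1 : ι (cfc (ptf δ) (ys n)) * ((1 - ι (cfc (psi δ) (ys n))) * (g : B) * f) =
        ι (cfc (ptf δ) (ys n) * (1 - cfc (psi δ) (ys n))) * ((g : B) * f) := by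
      rw [map_mul, map_sub, map_one]; noncomm_ring
    rw [e1, move_ptf_mul (hyspos n) hδ, map_zero, zero_mul]

end Pool.Agent.MPb9c6dd
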