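import Pool.Agent.Lib.MP_b9c6dd_an.Cuntz

set_option autoImplicit false

open scoped BoundedContinuousFunction

namespace Pool.Agent.MPb9c6dd

open Matrix

section aux

variable {A : Type} [CStarAlgebra A]

/-- sesquilinear sums over a block diagonal matrix -/
private lemma rcseq_block {L0 : ℕ} (k : Fin L0 → ℕ) (y : ∀ n, Matrix (Fin (k n)) (Fin (k n)) A)
    (a b : (Σ n, Fin (k n)) → A) :
    ∑ p, ∑ q, a p * blockDiagonal' y p q * b q =
      ∑ n, ∑ s, ∑ t, a ⟨n, s⟩ * y n s t * b ⟨n, t⟩ := by
  rw [Fintype.sum_sigma]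
  refine Finset.sum_congr rfl fun n _ => Finset.sum_congr rfl fun s _ => ?_
  rw [Fintype.sum_sigma, Finset.sum_eq_single n]
  · refine Finset.sum_congr rfl fun t _ => ?_
    rw [blockDiagonal'_apply_eq]
  · intro n' _ hn'
    refine Finset.sum_eq_zero fun t _ => ?_
    rw [blockDiagonal'_apply_ne y s t (Ne.symm hn'), mul_zero, zero_mul]
  · intro h
    exact absurd (Finset.mem_univ n) h

/-- the entries of `R* Y R` -/
private lemma rcseq_entry {I J : Type} [Fintype I] [Fintype J] (Y : Matrix J J A)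
    (R : Matrix J I A) (p q : I) :
    (Rᴴ * Y * R) p q = ∑ s, ∑ t, star (R s p) * Y s t * R t q := by
  rw [Matrix.mul_apply, Finset.sum_comm]
  refine Finset.sum_congr rfl fun t _ => ?_
  rw [Matrix.mul_apply, Finset.sum_mul]
  rfl

private lemma rcseq_reindex {I J : Type} [Fintype I] [Fintype J] (e : I ≃ J) (Y : Matrix I I A)
    (a b : J → A) :
    ∑ s, ∑ t, a s * Y.submatrix e.symm e.symm s t * b t = ∑ p, ∑ q, a (e p) * Y p q * b (e q) := by
  rw [← e.sum_comp]
  refine Finset.sum_congr rfl fun p _ => ?_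
  rw [← e.sum_comp]
  refine Finset.sum_congr rfl fun q _ => ?_
  rw [Matrix.submatrix_apply, e.symm_apply_apply, e.symm_apply_apply]

private lemma rcseq_mpos_block {L0 : ℕ} (k : Fin L0 → ℕ)
    (y : ∀ n, Matrix (Fin (k n)) (Fin (k n)) A) (hy : ∀ n, MPos (y n)) {J : Type} [Fintype J]
    (e : (Σ n, Fin (k n)) ≃ J) : MPos ((blockDiagonal' y).submatrix e.symm e.symm) := by
  choose g hg using hy
  refine ⟨(blockDiagonal' g).submatrix e.symm e.symm, ?_⟩
  rw [Matrix.conjTranspose_submatrix, Matrix.submatrix_mul_equiv, blockDiagonal'_conjTranspose,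
    ← blockDiagonal'_mul]
  congr 2
  funext n
  exact hg n

/-- normalisation of an approximate unit -/
private lemma rcseq_norm {J : Type} [Fintype J] (y : Matrix J J A) (hy : MPos y) (v : J → A)
    (hv : ‖∑ s, ∑ t, star (v s) * y s t * v t - 1‖ < 1 / 2) :
    ∃ c : A, ∑ s, ∑ t, star (v s * c) * y s t * (v t * c) = 1 := by
  let _ : PartialOrder A := CStarAlgebra.spectralOrder A
  have _ : StarOrderedRing A := CStarAlgebra.spectralOrderedRing A
  obtain ⟨g, rfl⟩ := hy
  set z : A := ∑ s, ∑ t, star (v s) * (gᴴ * g) s t * v t with hz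
  have hzpos : 0 ≤ z := by
    have h1 : z = ∑ u, star (∑ s, g u s * v s) * (∑ t, g u t * v t) := by
      rw [hz]
      have h2 : ∀ s t, star (v s) * (gᴴ * g) s t * v t =
          ∑ u, star (g u s * v s) * (g u t * v t) := by
        intro s t
        rw [Matrix.mul_apply, Finset.mul_sum, Finset.sum_mul]
        refine Finset.sum_congr rfl fun u _ => ?_
        rw [Matrix.conjTranspose_apply, star_mul]
        simp only [mul_assoc]
      simp only [h2, star_sum, Finset.sum_mul_sum]
      rw [Finset.sum_congr rfl fun s _ => Finset.sum_comm, Finset.sum_comm]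
    rw [h1]
    exact Finset.sum_nonneg fun u _ => star_mul_self_nonneg _
  have hsa : IsSelfAdjoint z := IsSelfAdjoint.of_nonneg hzpos
  have hunit : IsUnit z := by
    have h1 : ‖1 - z‖ < 1 := by
      rw [← norm_neg, neg_sub]
      linarith
    have h2 := isUnit_one_sub_of_norm_lt_one h1
    rwa [sub_sub_cancel] at h2
  have hspec : ∀ x ∈ spectrum ℝ z, 0 < x := by
    intro x hx
    have h1 : 0 ≤ x := spectrum_nonneg_of_nonneg hzpos hx
    refine lt_of_le_of_ne h1 ?_
    rintro rfl
    exact (spectrum.zero_notMem ℝ hunit) hx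
  set c : A := cfc (fun x : ℝ => (Real.sqrt x)⁻¹) z with hc
  have hcont : ContinuousOn (fun x : ℝ => (Real.sqrt x)⁻¹) (spectrum ℝ z) := by
    apply ContinuousOn.inv₀ Real.continuous_sqrt.continuousOn
    intro x hx
    exact (Real.sqrt_pos.2 (hspec x hx)).ne'
  have hcsa : star c = c := cfc_predicate (R := ℝ) (p := IsSelfAdjoint) _ z
  refine ⟨c, ?_⟩
  have h3 : ∑ s, ∑ t, star (v s * c) * (gᴴ * g) s t * (v t * c) = c * z * c := by
    rw [hz, Finset.mul_sum, Finset.sum_mul]
    refine Finset.sum_congr rfl fun s _ => ?_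
    rw [Finset.mul_sum, Finset.sum_mul]
    refine Finset.sum_congr rfl fun t _ => ?_
    rw [star_mul, hcsa]
    simp only [mul_assoc]
  rw [h3]
  have h4 : c * z * c = cfc (fun x : ℝ => (Real.sqrt x)⁻¹ * x * (Real.sqrt x)⁻¹) z := by
    rw [cfc_mul (fun x : ℝ => (Real.sqrt x)⁻¹ * x) (fun x : ℝ => (Real.sqrt x)⁻¹) z
      (hcont.mul continuousOn_id) hcont,
      cfc_mul (fun x : ℝ => (Real.sqrt x)⁻¹) (fun x : ℝ => x) z hcont continuousOn_id,
      cfc_id' ℝ z hsa]
  rw [h4, ← cfc_one ℝ z hsa]
  refine cfc_congr fun x hx => ?_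
  have h5 := hspec x hx
  have h6 : Real.sqrt x ≠ 0 := (Real.sqrt_pos.2 h5).ne'
  have h7 : Real.sqrt x * Real.sqrt x = x := Real.mul_self_sqrt h5.le
  show (Real.sqrt x)⁻¹ * x * (Real.sqrt x)⁻¹ = 1
  nth_rewrite 2 [← h7]
  field_simp

end aux

/-- Finite radius of comparison implies sequence comparison. -/
theorem SeqComp_of_FinRC {A : Type} [CStarAlgebra A] (hC : FinRC A) : SeqComp A := by
  obtain ⟨r, hr⟩ := hC
  intro N k y hy hρ
  choose ρ hρ using hρ
  rcases Nat.eq_zero_or_pos N with hN | hN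
  · subst hN
    refine ⟨0, fun _ _ => 0, ?_⟩
    have h1 := hρ 0
    simp only [Finset.univ_eq_empty, Finset.sum_empty] at h1
    rw [Finset.range_zero, Finset.sum_empty, h1]
  set L0 : ℕ := N + 1 + N * r with hL0
  set k' : Fin L0 → ℕ := fun n => k n with hk'
  set y' : ∀ n : Fin L0, Matrix (Fin (k' n)) (Fin (k' n)) A := fun n => y n with hy'
  set l : ℕ := Fintype.card (Σ n : Fin L0, Fin (k' n)) with hl
  set e : (Σ n : Fin L0, Fin (k' n)) ≃ Fin l := Fintype.equivFin _ with he
  set Y : Matrix (Fin l) (Fin l) A := (blockDiagonal' y').submatrix e.symm e.symm with hY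
  have hYpos : MPos Y := rcseq_mpos_block k' y' (fun n => hy n) e
  have hx : MPos (1 : Matrix (Fin 1) (Fin 1) A) := ⟨1, by simp⟩
  have hcle : Cle (Matrix.fromBlocks
      (Matrix.blockDiagonal fun _ : Fin (N + 1) => (1 : Matrix (Fin 1) (Fin 1) A)) 0 0
        (1 : Matrix (Fin (N * r)) (Fin (N * r)) A))
      (Matrix.blockDiagonal fun _ : Fin N => Y) := by
    intro ε hε
    have hcard : Fintype.card ((Fin 1 × Fin (N + 1)) ⊕ Fin (N * r)) = Fintype.card (Fin L0) := by
      simp [hL0]
    set c : ((Fin 1 × Fin (N + 1)) ⊕ Fin (N * r)) ≃ Fin L0 := Fintype.equivOfCardEq hcard with hc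
    set G : Fin N → ((Fin 1 × Fin (N + 1)) ⊕ Fin (N * r)) → (Σ n : Fin L0, Fin (k' n)) → A :=
      fun i p x => if x.1 = c p then ρ x.1 i x.2 else 0 with hG
    set R : Matrix (Fin l × Fin N) ((Fin 1 × Fin (N + 1)) ⊕ Fin (N * r)) A :=
      Matrix.of fun ti p => G ti.2 p (e.symm ti.1) with hR
    refine ⟨R, ?_⟩
    intro p q
    have hone : Matrix.fromBlocks
        (Matrix.blockDiagonal fun _ : Fin (N + 1) => (1 : Matrix (Fin 1) (Fin 1) A)) 0 0
        (1 : Matrix (Fin (N * r)) (Fin (N * r)) A) = 1 := by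
      have h1 : (Matrix.blockDiagonal fun _ : Fin (N + 1) => (1 : Matrix (Fin 1) (Fin 1) A)) = 1 :=
        Matrix.blockDiagonal_one
      rw [h1, Matrix.fromBlocks_one]
    have hmain : ∑ s : Fin l × Fin N, ∑ t : Fin l × Fin N,
        star (R s p) * (Matrix.blockDiagonal fun _ : Fin N => Y) s t * R t q =
        (1 : Matrix ((Fin 1 × Fin (N + 1)) ⊕ Fin (N * r)) ((Fin 1 × Fin (N + 1)) ⊕ Fin (N * r)) A)
          p q := by
      have h1 : ∀ (i : Fin N), ∑ s : Fin l, ∑ t : Fin l,
          star (G i p (e.symm s)) * Y s t * G i q (e.symm t) =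
          if p = q then ∑ s, ∑ t, star (ρ (c p) i s) * y (c p) s t * ρ (c p) i t else 0 := by
        intro i
        rw [hY, rcseq_reindex e (blockDiagonal' y') (fun s => star (G i p (e.symm s)))
          (fun t => G i q (e.symm t))]
        simp only [e.symm_apply_apply]
        rw [rcseq_block k' y' (fun x => star (G i p x)) (fun x => G i q x)]
        rw [Finset.sum_eq_single (c p)]
        · by_cases hpq : p = q
          · subst hpq
            rw [if_pos rfl]
            simp only [hG, if_true]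
            rfl
          · have hne : c p ≠ c q := fun h => hpq (c.injective h)
            simp only [hG, if_neg hne, if_neg hpq, mul_zero, Finset.sum_const_zero]
        · intro n _ hn
          simp only [hG, if_neg hn, star_zero, zero_mul, Finset.sum_const_zero]
        · intro h
          exact absurd (Finset.mem_univ _) h
      have h2 : ∑ s : Fin l × Fin N, ∑ t : Fin l × Fin N,
        star (R s p) * (Matrix.blockDiagonal fun _ : Fin N => Y) s t * R t q =
          ∑ i : Fin N, ∑ s : Fin l, ∑ t : Fin l,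
          star (G i p (e.symm s)) * Y s t * G i q (e.symm t) := by
        rw [Fintype.sum_prod_type, Finset.sum_comm]
        refine Finset.sum_congr rfl fun i _ => Finset.sum_congr rfl fun s _ => ?_
        rw [Fintype.sum_prod_type]
        refine Finset.sum_congr rfl fun t _ => ?_
        rw [Finset.sum_eq_single i]
        · rw [blockDiagonal_apply_eq]
          rfl
        · intro j _ hj
          rw [blockDiagonal_apply_ne _ _ _ (Ne.symm hj), mul_zero, zero_mul]
        · intro h
          exact absurd (Finset.mem_univ _) h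
      rw [h2, Finset.sum_congr rfl fun i _ => h1 i]
      by_cases hpq : p = q
      · subst hpq
        simp only [if_true]
        rw [Matrix.one_apply_eq]
        exact hρ (c p)
      · simp only [if_neg hpq, Finset.sum_const_zero]
        rw [Matrix.one_apply_ne hpq]
    rw [Matrix.sub_apply, hone, rcseq_entry]
    rw [hmain, sub_self, norm_zero]
    exact hε
  have hxy := hr N hN 1 l 1 Y hx hYpos hcle
  obtain ⟨R, hR⟩ := hxy (1 / 2) (by norm_num)
  have hR0 := hR 0 0
  rw [Matrix.sub_apply, rcseq_entry, Matrix.one_apply_eq] at hR0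
  obtain ⟨c, hc⟩ := rcseq_norm Y hYpos (fun s => R s 0) hR0
  refine ⟨L0, fun n s => if h : n < L0 then R (e ⟨⟨n, h⟩, s⟩) 0 * c else 0, ?_⟩
  rw [hY, rcseq_reindex e (blockDiagonal' y') (fun s => star (R s 0 * c)) (fun s => R s 0 * c),
    rcseq_block k' y' (fun x => star (R (e x) 0 * c)) (fun x => R (e x) 0 * c)] at hc
  rw [Finset.sum_range]
  refine Eq.trans ?_ hc
  refine Finset.sum_congr rfl fun n _ => Finset.sum_congr rfl fun s _ =>
    Finset.sum_congr rfl fun t _ => ?_
  simp only [n.2, dif_pos]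
  rfl

end Pool.Agent.MPb9c6dd
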