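import Pool.Agent.Lib.MP_b9c6dd_an.Cuntz

set_option autoImplicit false

open scoped BoundedContinuousFunction

namespace Pool.Agent.MPb9c6dd

section SeqDPaux

attribute [local instance] CStarAlgebra.spectralOrder CStarAlgebra.spectralOrderedRing

private theorem seqDP_add_sq {A : Type} [CStarAlgebra A] (x w : A) :
    star (x + w) * (x + w) ≤ (2 : ℝ) • (star x * x + star w * w) := by
  rw [← sub_nonneg]
  have h : (2 : ℝ) • (star x * x + star w * w) - star (x + w) * (x + w) =
      star (x - w) * (x - w) := by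
    rw [two_smul, star_add, star_sub]
    noncomm_ring
  rw [h]
  exact star_mul_self_nonneg _

private theorem seqDP_sum_sq {A : Type} [CStarAlgebra A] {I : Type} [DecidableEq I] (w : I → A)
    (s : Finset I) :
    star (∑ i ∈ s, w i) * (∑ i ∈ s, w i) ≤ ((2 : ℝ) ^ s.card) • ∑ i ∈ s, star (w i) * w i := by
  induction s using Finset.induction_on with
  | empty => simp
  | insert i s hi ih =>
    rw [Finset.sum_insert hi, Finset.sum_insert hi, Finset.card_insert_of_notMem hi]
    refine (seqDP_add_sq _ _).trans ?_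
    rw [pow_succ, mul_comm ((2 : ℝ) ^ s.card) 2, mul_smul]
    apply smul_le_smul_of_nonneg_left _ (by norm_num)
    rw [smul_add]
    apply add_le_add _ ih
    have h1 : (0 : A) ≤ star (w i) * w i := star_mul_self_nonneg _
    have h2 : (1 : ℝ) ≤ 2 ^ s.card := one_le_pow₀ (by norm_num)
    calc star (w i) * w i = (1 : ℝ) • (star (w i) * w i) := (one_smul _ _).symm
      _ ≤ _ := smul_le_smul_of_nonneg_right h2 h1

private theorem seqDP_prod_sq {A : Type} [CStarAlgebra A] (c d : A) :
    star (c * d) * (c * d) ≤ (‖c‖ ^ 2) • (star d * d) := by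
  have h1 := star_left_conjugate_le_conjugate
    (CStarAlgebra.star_mul_le_algebraMap_norm_sq (a := c)) d
  have h2 : star (c * d) * (c * d) = star d * (star c * c) * d := by
    rw [star_mul]; noncomm_ring
  have h3 : star d * (algebraMap ℝ A (‖c‖ ^ 2)) * d = (‖c‖ ^ 2) • (star d * d) := by
    rw [Algebra.algebraMap_eq_smul_one, mul_smul_comm, mul_one, smul_mul_assoc]
  rw [h2, ← h3]
  exact h1

private theorem seqDP_norm {A : Type} [CStarAlgebra A] {M : ℕ} (z a b : Fin M → A)
    (hz : ∀ i, IsPos (z i)) (h : ∑ i, a i * z i * b i = 1) :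
    ∃ v : Fin M → A, ∑ i, star (v i) * z i * v i = 1 := by
  choose g hg using hz
  set T : A := ∑ i, star (b i) * z i * b i with hT
  have hTi : ∀ i, star (b i) * z i * b i = star (g i * b i) * (g i * b i) := by
    intro i
    rw [hg i, star_mul]
    noncomm_ring
  have hT0 : 0 ≤ T := by
    rw [hT]
    apply Finset.sum_nonneg
    intro i _
    rw [hTi]
    exact star_mul_self_nonneg _
  set C : ℝ := ∑ i, ‖a i * star (g i)‖ ^ 2 with hC
  have hC0 : 0 ≤ C := Finset.sum_nonneg (fun _ _ => by positivity)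
  have h1 : (1 : A) ≤ ((2 : ℝ) ^ M * C + 1) • T := by
    have e1 : (1 : A) = ∑ i, (a i * star (g i)) * (g i * b i) := by
      rw [← h]
      apply Finset.sum_congr rfl
      intro i _
      rw [hg i]
      noncomm_ring
    have e2 : (1 : A) = star (∑ i, (a i * star (g i)) * (g i * b i)) *
        (∑ i, (a i * star (g i)) * (g i * b i)) := by
      rw [← e1, star_one, one_mul]
    rw [e2]
    refine (seqDP_sum_sq _ _).trans ?_
    rw [Finset.card_univ, Fintype.card_fin, add_smul, one_smul]
    have h2 : ((2 : ℝ) ^ M) • ∑ i, star ((a i * star (g i)) * (g i * b i)) *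
        ((a i * star (g i)) * (g i * b i)) ≤ ((2 : ℝ) ^ M * C) • T := by
      rw [mul_smul]
      apply smul_le_smul_of_nonneg_left _ (by positivity)
      rw [hT, Finset.smul_sum]
      apply Finset.sum_le_sum
      intro i _
      rw [hTi]
      refine (seqDP_prod_sq _ _).trans ?_
      apply smul_le_smul_of_nonneg_right _ (star_mul_self_nonneg _)
      exact Finset.single_le_sum (f := fun i => ‖a i * star (g i)‖ ^ 2)
        (fun _ _ => by positivity) (Finset.mem_univ i)
    exact h2.trans (le_add_of_nonneg_right hT0)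
  have h2 : IsUnit (((2 : ℝ) ^ M * C + 1) • T) := by
    apply CStarAlgebra.isUnit_of_le (1 : A) h1
  have hpos : (0 : ℝ) < (2 : ℝ) ^ M * C + 1 := by positivity
  have h3 : IsUnit T := by
    have h4 : T = ((2 : ℝ) ^ M * C + 1)⁻¹ • (((2 : ℝ) ^ M * C + 1) • T) := by
      rw [smul_smul, inv_mul_cancel₀ hpos.ne', one_smul]
    rw [h4]
    exact h2.smul (Units.mk0 ((2 : ℝ) ^ M * C + 1)⁻¹ (inv_ne_zero hpos.ne'))
  have h5 : IsUnit (CFC.sqrt T) := (CFC.isUnit_sqrt_iff T hT0).2 h3
  obtain ⟨u, hu⟩ := h5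
  have hus : star (u : A) = u := by
    rw [hu]
    exact (IsSelfAdjoint.of_nonneg (CFC.sqrt_nonneg T)).star_eq
  have huu : (u : A) * u = T := by
    rw [hu]
    exact CFC.sqrt_mul_sqrt_self T hT0
  have hus' : star ((u⁻¹ : Aˣ) : A) = ((u⁻¹ : Aˣ) : A) := by
    have h6 : star ((u⁻¹ : Aˣ) : A) * u = 1 := by
      conv_lhs => rw [← hus]
      rw [← star_mul, Units.mul_inv, star_one]
    calc star ((u⁻¹ : Aˣ) : A) = star ((u⁻¹ : Aˣ) : A) * ((u : A) * ((u⁻¹ : Aˣ) : A)) := by
          rw [Units.mul_inv, mul_one]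
      _ = ((u⁻¹ : Aˣ) : A) := by rw [← mul_assoc, h6, one_mul]
  refine ⟨fun i => b i * ((u⁻¹ : Aˣ) : A), ?_⟩
  have h7 : ∀ i, star (b i * ((u⁻¹ : Aˣ) : A)) * z i * (b i * ((u⁻¹ : Aˣ) : A)) =
      ((u⁻¹ : Aˣ) : A) * (star (b i) * z i * b i) * ((u⁻¹ : Aˣ) : A) := by
    intro i
    rw [star_mul, hus']
    noncomm_ring
  rw [Finset.sum_congr rfl (fun i _ => h7 i), ← Finset.sum_mul, ← Finset.mul_sum, ← hT, ← huu]
  rw [← mul_assoc, Units.inv_mul, one_mul, Units.mul_inv]

end SeqDPaux

variable {A : Type} [CStarAlgebra A] {α : A ≃⋆ₐ[ℂ] A}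

/-- Sequence comparison implies the domination property. -/
theorem DP_of_SeqComp (hs : ∀ y : A, y ≠ 0 → ∃ (M : ℕ) (m : Fin M → ℤ) (a b : Fin M → A),
      ∑ i, a i * (α ^ m i) y * b i = 1) (hC : SeqComp A) : DP α := by
  intro y hy hy0
  obtain ⟨g, hg⟩ := hy
  obtain ⟨M, m, a, b, hab⟩ := hs y hy0
  obtain ⟨v, hv⟩ := seqDP_norm (fun i => (α ^ m i) y) a b
    (fun i => ⟨(α ^ m i) g, by rw [hg, map_mul, map_star]⟩) hab
  -- a bound for the exponents
  obtain ⟨J, hJ⟩ : ∃ J : ℕ, ∀ i, (m i).natAbs ≤ J :=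
    ⟨∑ i, (m i).natAbs, fun i => Finset.single_le_sum (f := fun i => (m i).natAbs)
      (fun _ _ => Nat.zero_le _) (Finset.mem_univ i)⟩
  set k : ℕ := 2 * J + 1 with hk
  obtain ⟨L, r, hr⟩ := hC M (fun _ => k)
    (fun n => Matrix.diagonal (fun t : Fin k => (α ^ ((t : ℕ) + k * n)) y))
    (by
      intro n
      refine ⟨Matrix.diagonal (fun t : Fin k => (α ^ ((t : ℕ) + k * n)) g), ?_⟩
      rw [Matrix.diagonal_conjTranspose, Matrix.diagonal_mul_diagonal]
      congr 1
      funext t
      rw [hg, map_mul, map_star]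
      rfl)
    (by
      intro n
      have hlt : ∀ i, ((J : ℤ) + m i).toNat < k := by
        intro i
        have := hJ i
        omega
      refine ⟨fun i t => if t = ⟨((J : ℤ) + m i).toNat, hlt i⟩ then
        (α ^ (J + k * n)) (v i) else 0, ?_⟩
      have h1 : ∀ i : Fin M, ∑ s : Fin k, ∑ t : Fin k,
          star (if s = ⟨((J : ℤ) + m i).toNat, hlt i⟩ then (α ^ (J + k * n)) (v i) else 0) *
            (Matrix.diagonal (fun t : Fin k => (α ^ ((t : ℕ) + k * n)) y) :
              Matrix (Fin k) (Fin k) A) s t *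
            (if t = ⟨((J : ℤ) + m i).toNat, hlt i⟩ then (α ^ (J + k * n)) (v i) else 0) =
          (α ^ (J + k * n)) (star (v i) * (α ^ m i) y * v i) := by
        intro i
        set t₀ : Fin k := ⟨((J : ℤ) + m i).toNat, hlt i⟩ with ht₀
        rw [Finset.sum_eq_single t₀, Finset.sum_eq_single t₀]
        · rw [if_pos rfl, Matrix.diagonal_apply_eq, map_mul, map_mul, map_star]
          congr 2
          have h2 : α ^ ((t₀ : ℕ) + k * n) = α ^ (J + k * n) * α ^ m i := by
            rw [← zpow_natCast, ← zpow_natCast, ← zpow_add]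
            congr 1
            have h3 : ((t₀ : ℕ) : ℤ) = (J : ℤ) + m i := by
              rw [ht₀]
              have := hJ i
              simp only
              omega
            push_cast
            rw [h3]
            ring
          rw [h2]
          rfl
        · intro t _ ht
          rw [if_neg ht, mul_zero]
        · intro h
          exact absurd (Finset.mem_univ _) h
        · intro s _ hs'
          apply Finset.sum_eq_zero
          intro t _
          rw [if_neg hs', star_zero, zero_mul, zero_mul]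
        · intro h
          exact absurd (Finset.mem_univ _) h
      rw [Finset.sum_congr rfl (fun i _ => h1 i), ← map_sum, hv, map_one])
  refine ⟨L * k, fun j => star (r (finProdFinEquiv.symm j).1 (finProdFinEquiv.symm j).2),
    fun j => r (finProdFinEquiv.symm j).1 (finProdFinEquiv.symm j).2, ?_⟩
  rw [← finProdFinEquiv.sum_comp, Fintype.sum_prod_type]
  simp only [Equiv.symm_apply_apply, finProdFinEquiv_apply_val]
  rw [← hr, ← Fin.sum_univ_eq_sum_range (fun n => ∑ s, ∑ t, star (r n s) *
    (Matrix.diagonal (fun t : Fin k => (α ^ ((t : ℕ) + k * n)) y) : Matrix (Fin k) (Fin k) A) s t *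
      r n t)]
  apply Finset.sum_congr rfl
  intro n _
  apply Finset.sum_congr rfl
  intro s _
  rw [Finset.sum_eq_single s]
  · rw [Matrix.diagonal_apply_eq]
  · intro t _ ht
    rw [Matrix.diagonal_apply_ne _ ht.symm, mul_zero, zero_mul]
  · intro h
    exact absurd (Finset.mem_univ _) h

end Pool.Agent.MPb9c6dd
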