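import Pool.Agent.Lib.MP_b9c6dd_an.Final
import Pool.Agent.Lib.MP_b9c6dd_an.SeqDP
import Pool.Agent.Lib.MP_b9c6dd_an.RCSeq

set_option autoImplicit false

open scoped BoundedContinuousFunction

namespace Pool.Agent.MPb9c6dd

/-- Stable rank one for crossed products. -/
theorem stable_rank_one (A : Type) [CStarAlgebra A] (α : A ≃⋆ₐ[ℂ] A)
    (hd : Dense {x : A | IsUnit x}) (hR : ∃ d : ℕ, Rok α d)
    (hC : DP α ∨ SeqComp A ∨ FinRC A)
    (B : Type) [CStarAlgebra B] (ι : A →⋆ₐ[ℂ] B) (u : B) (hι : Function.Injective ι)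
    (hu : u ∈ unitary B) (hcov : ∀ a : A, u * ι a * star u = ι (α a))
    (hgen : (StarAlgebra.adjoin ℂ (Set.range (ι : A → B) ∪ {u})).topologicalClosure = ⊤)
    (hg : ∀ z : ℂ, ‖z‖ = 1 → ∃ γ : B →⋆ₐ[ℂ] B, (∀ a : A, γ (ι a) = ι a) ∧ γ u = z • u)
    (hs : IsSimpleRing B) : Dense {x : B | IsUnit x} := by
  obtain ⟨d, hR⟩ := hR
  have h : CP α ι (⟨u, hu⟩ : unitary B) := ⟨hι, hcov, hgen, hg⟩
  obtain ⟨E, hE⟩ := h.exists_E
  have hsim : ∀ y : A, y ≠ 0 → ∃ (M : ℕ) (m : Fin M → ℤ) (a b : Fin M → A),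
      ∑ i, a i * (α ^ m i) y * b i = 1 := fun y hy => h.alpha_simple hE y hy
  have hDP : DP α := by
    rcases hC with hC | hC | hC
    · exact hC
    · exact DP_of_SeqComp hsim hC
    · exact DP_of_SeqComp hsim (SeqComp_of_FinRC hC)
  exact h.dense_of_DP hd hR hDP

end Pool.Agent.MPb9c6dd
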