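import Pool.Agent.Lib.MP_b9c6dd_an.Ultra
import Pool.Agent.Lib.MP_b9c6dd_an.Towers
import Pool.Agent.Lib.MP_b9c6dd_an.Faithful

set_option autoImplicit false

open scoped BoundedContinuousFunction

namespace Pool.Agent.MPb9c6dd

variable {A B : Type} [CStarAlgebra A] [CStarAlgebra B] {α : A ≃⋆ₐ[ℂ] A}
  {ι : A →⋆ₐ[ℂ] B} {U : unitary B}

attribute [local instance] CStarAlgebra.spectralOrder CStarAlgebra.spectralOrderedRing

/-! Positive and negative parts through the functional calculus. -/

section parts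

variable {D : Type} [CStarAlgebra D]

private noncomputable def split_pf (s : ℝ) : ℝ := max s 0
private noncomputable def split_nf (s : ℝ) : ℝ := max (-s) 0

private theorem split_pf_cont : Continuous split_pf := continuous_id.max continuous_const
private theorem split_nf_cont : Continuous split_nf := continuous_neg.max continuous_const

private theorem split_pn (x : D) : cfc split_pf x * cfc split_nf x = 0 := by
  rw [← cfc_mul split_pf split_nf x split_pf_cont.continuousOn split_nf_cont.continuousOn]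
  have e : (fun s => split_pf s * split_nf s) = fun _ : ℝ => (0 : ℝ) := by
    funext s
    unfold split_pf split_nf
    rcases le_total s 0 with h | h
    · rw [max_eq_right h, zero_mul]
    · rw [max_eq_right (by linarith : -s ≤ 0), mul_zero]
  rw [e, cfc_const_zero]

private theorem split_sub {x : D} (hx : IsSelfAdjoint x) :
    cfc split_pf x - cfc split_nf x = x := by
  rw [← cfc_sub split_pf split_nf x split_pf_cont.continuousOn split_nf_cont.continuousOn]
  have e : (fun s => split_pf s - split_nf s) = fun s : ℝ => s := by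
    funext s
    unfold split_pf split_nf
    rcases le_total s 0 with h | h
    · rw [max_eq_right h, max_eq_left (by linarith : 0 ≤ -s)]
      ring
    · rw [max_eq_left h, max_eq_right (by linarith : -s ≤ 0)]
      ring
  rw [e, cfc_id' ℝ x hx]

private theorem split_pf_nonneg (x : D) : 0 ≤ cfc split_pf x :=
  cfc_nonneg fun _ _ => le_max_right _ _

private theorem split_nf_nonneg (x : D) : 0 ≤ cfc split_nf x :=
  cfc_nonneg fun _ _ => le_max_right _ _

private theorem split_comm (x : D) (f : ℝ → ℝ) : cfc f x * x = x * cfc f x :=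
  (Commute.cfc_real (show Commute x x from rfl) f).eq

/-- the cube of a positive part -/
private theorem split_cube {x : D} (hx : IsSelfAdjoint x) {f : ℝ → ℝ} (h0 : 0 ≤ cfc f x)
    (hne : cfc f x ≠ 0) (hxf : x * cfc f x = cfc f x * cfc f x ∨
      x * cfc f x = -(cfc f x * cfc f x)) :
    IsPos (x * cfc f x * x) ∧ x * cfc f x * x ≠ 0 := by
  have hsa : star x = x := hx
  obtain ⟨g, hg⟩ := CStarAlgebra.nonneg_iff_eq_star_mul_self.1 h0
  have e1 : x * cfc f x * x = star (g * x) * (g * x) := by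
    rw [star_mul, hsa, hg]
    simp only [mul_assoc]
  refine ⟨⟨g * x, e1⟩, fun h => hne ?_⟩
  rw [e1, CStarRing.star_mul_self_eq_zero_iff] at h
  have h1 : cfc f x * x = 0 := by
    rw [hg, mul_assoc, h, mul_zero]
  rw [split_comm] at h1
  have h2 : cfc f x * cfc f x = 0 := by
    rcases hxf with h3 | h3
    · rw [← h3, h1]
    · rw [h1] at h3
      exact neg_eq_zero.1 h3.symm
  have h4 : star (cfc f x) = cfc f x := (IsSelfAdjoint.of_nonneg h0).star_eq
  rw [← CStarRing.star_mul_self_eq_zero_iff, h4, h2]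

private theorem split_exists (w : D) (hw : IsSelfAdjoint w) (f : ℝ → ℝ)
    (hf : Continuous f) : ∃ v : D, ∀ (C : Type) (_ : CStarAlgebra C) (φ : D →⋆ₐ[ℂ] C),
      φ v = cfc f (φ w) := by
  refine ⟨cfc f w, fun C _ φ => ?_⟩
  have hφ : Continuous φ := AddMonoidHomClass.continuous_of_bound φ 1 fun x => by
    rw [one_mul]
    exact NonUnitalStarAlgHom.norm_apply_le φ x
  exact StarAlgHom.map_cfc φ f w hf.continuousOn hφ hw
    (by change star (φ w) = φ w; rw [← map_star, hw.star_eq])

end parts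

/-- the shift of the index -/
private def split_sh {q : ℕ} (n : ℕ) (j : Fin (q + 1)) : Fin (q + 1) := (fun i => i + 1)^[n] j

private theorem split_sh_val {q : ℕ} (n : ℕ) (j : Fin (q + 1)) :
    ((split_sh n j : Fin (q + 1)) : ℕ) = ((j : ℕ) + n) % (q + 1) := by
  induction n with
  | zero =>
    change (j : ℕ) = (j + 0) % (q + 1)
    rw [add_zero, Nat.mod_eq_of_lt j.2]
  | succ n ih =>
    have h1 : split_sh (n + 1) j = split_sh n j + 1 := by
      unfold split_sh
      rw [Function.iterate_succ_apply']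
    rw [h1, Fin.val_add, ih, Fin.val_one', ← Nat.add_mod, add_assoc]

private theorem split_sh_ne {q : ℕ} (n : ℕ) (j : Fin (q + 1)) (h0 : 0 < n) (h1 : n < q + 1) :
    split_sh n j ≠ j := by
  intro h
  have h2 := split_sh_val n j
  rw [h] at h2
  have h3 : (j : ℕ) ≡ j + n [MOD (q + 1)] := by
    unfold Nat.ModEq
    rw [← h2, Nat.mod_eq_of_lt j.2]
  have h4 : 0 ≡ n [MOD (q + 1)] := Nat.ModEq.add_left_cancel' (j : ℕ) (by simpa using h3)
  have h5 := (Nat.modEq_iff_dvd' (Nat.zero_le n)).1 h4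
  rw [Nat.sub_zero] at h5
  exact absurd (Nat.le_of_dvd h0 h5) (by omega)

private theorem split_sh_add {q : ℕ} (m n : ℕ) (j : Fin (q + 1)) :
    split_sh (m + n) j = split_sh m (split_sh n j) := by
  unfold split_sh
  rw [Function.iterate_add_apply]

private theorem split_sh_surj {q : ℕ} (i j : Fin (q + 1)) : ∃ n : ℕ, split_sh n i = j := by
  refine ⟨(j : ℕ) + (q + 1 - i), Fin.ext ?_⟩
  rw [split_sh_val]
  have h1 : (i : ℕ) + ((j : ℕ) + (q + 1 - i)) = j + (q + 1) := by
    have := i.2
    omega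
  rw [h1, Nat.add_mod_right, Nat.mod_eq_of_lt j.2]

private theorem split_W {C : Type} [CStarAlgebra C] {W : unitary C} {d q : ℕ}
    {x : Fin (d + 1) → Fin (q + 1) → C} (hx : Tower W d q x) (n : ℕ) (l : Fin (d + 1))
    (j : Fin (q + 1)) :
    (W : C) ^ n * x l j * star (W : C) ^ n = x l (split_sh n j) := by
  induction n with
  | zero =>
    rw [pow_zero, pow_zero, one_mul, mul_one]
    rfl
  | succ n ih =>
    have h1 : split_sh (n + 1) j = split_sh n j + 1 := by
      unfold split_sh
      rw [Function.iterate_succ_apply']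
    rw [h1, ← hx.shift, ← ih, pow_succ', pow_succ]
    simp only [mul_assoc]

private theorem split_WW {C : Type} [CStarAlgebra C] (W : unitary C) (n : ℕ) :
    star (W : C) ^ n * (W : C) ^ n = 1 := by
  have h := Unitary.coe_star_mul_self W
  have hc : Commute (star (W : C)) (W : C) := by
    change star (W : C) * (W : C) = (W : C) * star (W : C)
    exact (Unitary.coe_star_mul_self W).trans (Unitary.coe_mul_star_self W).symm
  rw [← hc.mul_pow, h, one_pow]

/-- nonnegative exponents in `alpha_simple` -/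
private theorem split_simple (h : CP α ι U) [IsSimpleRing B] {E : B →L[ℂ] A}
    (hE : IsEx α ι U E) (y : A) (hy : y ≠ 0) :
    ∃ (M N : ℕ) (m : Fin M → ℕ) (a b : Fin M → A), (∀ i, m i ≤ N) ∧
      ∑ i, a i * (α ^ (m i)) y * b i = 1 := by
  obtain ⟨M, m, a, b, hab⟩ := h.alpha_simple hE y hy
  obtain ⟨R, hR⟩ : ∃ R : ℕ, ∀ i, (m i).natAbs ≤ R := by
    refine ⟨Finset.univ.sup fun i => (m i).natAbs, fun i => ?_⟩
    exact Finset.le_sup (f := fun i => (m i).natAbs) (Finset.mem_univ i)
  refine ⟨M, 2 * R, fun i => (m i + R).toNat, fun i => (α ^ R) (a i), fun i => (α ^ R) (b i),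
    fun i => ?_, ?_⟩
  · have := hR i
    change (m i + R).toNat ≤ 2 * R
    omega
  · have h1 := congrArg (α ^ R) hab
    rw [map_sum, map_one] at h1
    rw [← h1]
    apply Finset.sum_congr rfl
    intro i _
    rw [map_mul, map_mul]
    congr 2
    have h2 := hR i
    have h3 : (α ^ R) ((α ^ m i) y) = (α ^ (R : ℤ) * α ^ m i) y := by
      rw [zpow_natCast]
      rfl
    rw [h3, ← zpow_add, ← zpow_natCast α ((m i + R).toNat)]
    congr 2
    rw [Int.toNat_of_nonneg (by omega)]
    ring

private theorem split_kappa (h : CP α ι U) {C : Type} [CStarAlgebra C]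
    (mk : (ℕ →ᵇ B) →⋆ₐ[ℂ] C) (n : ℕ) (a : A) :
    ((uU mk U : unitary C) : C) ^ n * mk (cst (ι a)) * star ((uU mk U : unitary C) : C) ^ n =
      mk (cst (ι ((α ^ n) a))) := by
  induction n with
  | zero =>
    rw [pow_zero, pow_zero, one_mul, mul_one, pow_zero]
    rfl
  | succ n ih =>
    have h1 : (α ^ (n + 1)) a = α ((α ^ n) a) := by
      rw [pow_succ']
      rfl
    rw [h1, ← h.cov, map_mul, map_mul, map_mul, map_mul, ← ih, pow_succ', pow_succ, uU_coe,
      map_star, map_star]
    simp only [mul_assoc]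

/-- two levels on which `y` does not vanish -/
private theorem split_levels (h : CP α ι U) [IsSimpleRing B] {E : B →L[ℂ] A}
    (hE : IsEx α ι U E) {d : ℕ} (hR : Rok α d) (y : A) (hy0 : y ≠ 0) :
    ∃ (C : Type) (_ : CStarAlgebra C) (mk : (ℕ →ᵇ B) →⋆ₐ[ℂ] C) (_ : IsUltra mk)
      (T1 T2 : ℕ →ᵇ A), (∀ n, IsPos (T1 n)) ∧ (∀ n, IsPos (T2 n)) ∧
      mk (seqMap ι T1) * mk (seqMap ι T2) = 0 ∧ mk (seqMap ι T2) * mk (seqMap ι T1) = 0 ∧
      mk (seqMap ι T1) * mk (cst (ι y)) = mk (cst (ι y)) * mk (seqMap ι T1) ∧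
      mk (seqMap ι T2) * mk (cst (ι y)) = mk (cst (ι y)) * mk (seqMap ι T2) ∧
      IsPos (mk (seqMap ι T1)) ∧ IsPos (mk (seqMap ι T2)) ∧
      mk (cst (ι y)) * mk (seqMap ι T1) ≠ 0 ∧ mk (cst (ι y)) * mk (seqMap ι T2) ≠ 0 := by
  classical
  obtain ⟨M, N, m, a, b, hmN, hab⟩ := split_simple h hE y hy0
  obtain ⟨C, _, mk, hm⟩ := exists_ultra B
  obtain ⟨X, hX1, hX2, hX3⟩ := h.towers_ultra hR hm
    (insert y (Finset.univ.image a ∪ Finset.univ.image b)) (N + 1)
  refine ⟨C, inferInstance, mk, hm, ?_⟩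
  set x : Fin (d + 1) → Fin (N + 1 + 1) → C := fun l j => mk (seqMap ι (X l j)) with hx
  set W : unitary C := uU mk U with hW
  have hκy : mk (cst (ι y)) ≠ 0 := by
    intro h0
    have h1 := hm.norm_cst (ι y)
    rw [h0, norm_zero] at h1
    exact hy0 (h.inj (by rw [map_zero]; exact norm_eq_zero.1 h1.symm))
  have hex : ∃ l, ∃ j1 j2, j1 ≠ j2 ∧ mk (cst (ι y)) * x l j1 ≠ 0 ∧
      mk (cst (ι y)) * x l j2 ≠ 0 := by
    by_contra hcon
    push Not at hcon
    have hone : ∀ l, ∃ j0, ∀ j, j ≠ j0 → mk (cst (ι y)) * x l j = 0 := by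
      intro l
      by_cases hj : ∃ j0, mk (cst (ι y)) * x l j0 ≠ 0
      · obtain ⟨j0, hj0⟩ := hj
        exact ⟨j0, fun j hj => hcon l j0 j hj.symm hj0⟩
      · push Not at hj
        exact ⟨0, fun j _ => hj j⟩
    have hzero : ∀ l, ∃ j, x l j = 0 := by
      intro l
      obtain ⟨j0, hj0⟩ := hone l
      refine ⟨split_sh (N + 1) j0, ?_⟩
      set j' := split_sh (N + 1) j0 with hj'
      have h1 : x l j' = ∑ i, mk (cst (ι (a i))) * (mk (cst (ι ((α ^ (m i)) y))) * x l j') *
          mk (cst (ι (b i))) := by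
        have h2 : mk (cst (ι (∑ i, a i * (α ^ (m i)) y * b i))) = 1 := by
          rw [hab, map_one, map_one, map_one]
        calc x l j' = mk (cst (ι (∑ i, a i * (α ^ (m i)) y * b i))) * x l j' := by
              rw [h2, one_mul]
          _ = _ := by
              rw [map_sum, map_sum, map_sum, Finset.sum_mul]
              apply Finset.sum_congr rfl
              intro i _
              have h3 : x l j' * mk (cst (ι (b i))) = mk (cst (ι (b i))) * x l j' := by
                apply hX3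
                exact Finset.mem_insert_of_mem (Finset.mem_union_right _
                  (Finset.mem_image_of_mem b (Finset.mem_univ i)))
              simp only [map_mul, mul_assoc]
              rw [h3]
      rw [h1]
      apply Finset.sum_eq_zero
      intro i _
      have h4 : j' = split_sh (m i) (split_sh (N + 1 - m i) j0) := by
        rw [← split_sh_add, hj']
        congr 1
        have := hmN i
        omega
      have h5 : split_sh (N + 1 - m i) j0 ≠ j0 := by
        apply split_sh_ne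
        · have := hmN i
          omega
        · omega
      have h6 : mk (cst (ι ((α ^ (m i)) y))) * x l j' = 0 := by
        rw [← split_kappa h mk, h4, ← split_W hX2]
        calc (W : C) ^ m i * mk (cst (ι y)) * star (W : C) ^ m i *
              ((W : C) ^ m i * x l (split_sh (N + 1 - m i) j0) * star (W : C) ^ m i)
            = (W : C) ^ m i * (mk (cst (ι y)) * ((star (W : C) ^ m i * (W : C) ^ m i) *
              x l (split_sh (N + 1 - m i) j0))) * star (W : C) ^ m i := by
              simp only [mul_assoc]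
          _ = 0 := by rw [split_WW, one_mul, hj0 _ h5, mul_zero, zero_mul]
      rw [h6, mul_zero, zero_mul]
    have hall : ∀ l j, x l j = 0 := by
      intro l j
      obtain ⟨j0, hj0⟩ := hzero l
      obtain ⟨n, hn⟩ := split_sh_surj j0 j
      rw [← hn]
      have := split_W hX2 n l j0
      rw [← this]
      change (W : C) ^ n * x l j0 * star (W : C) ^ n = 0
      rw [hj0, mul_zero, zero_mul]
    have h7 := hX2.sum
    have h8 : (1 : C) = 0 := by
      rw [← h7]
      exact Finset.sum_eq_zero fun l _ => Finset.sum_eq_zero fun j _ => hall l j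
    apply hκy
    calc mk (cst (ι y)) = 1 * mk (cst (ι y)) := (one_mul _).symm
      _ = 0 := by rw [h8, zero_mul]
  obtain ⟨l, j1, j2, hj, h1, h2⟩ := hex
  have hmem : y ∈ insert y (Finset.univ.image a ∪ Finset.univ.image b) :=
    Finset.mem_insert_self _ _
  exact ⟨X l j1, X l j2, fun n => (hX1 l j1 n).1, fun n => (hX1 l j2 n).1,
    hX2.orth l j1 j2 hj, hX2.orth l j2 j1 hj.symm, hX3 l j1 y hmem, hX3 l j2 y hmem,
    hX2.pos l j1, hX2.pos l j2, h1, h2⟩

/-- the positive part of `c (x₁ - x₂) c` does not vanish -/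
private theorem split_pos_part {C : Type} [CStarAlgebra C] {c x₁ x₂ : C}
    (hc : IsSelfAdjoint c) (h12 : x₁ * x₂ = 0) (h21 : x₂ * x₁ = 0)
    (hc1 : x₁ * c = c * x₁) (hc2 : x₂ * c = c * x₂) (hp1 : IsPos x₁) (hp2 : IsPos x₂)
    (h1 : c * x₁ ≠ 0) : cfc split_pf (c * (x₁ - x₂) * c) ≠ 0 := by
  intro h0
  have hx1 : 0 ≤ x₁ := by
    obtain ⟨g, rfl⟩ := hp1
    exact star_mul_self_nonneg g
  have hx2 : 0 ≤ x₂ := by
    obtain ⟨g, rfl⟩ := hp2
    exact star_mul_self_nonneg g
  have hs1 : star x₁ = x₁ := (IsSelfAdjoint.of_nonneg hx1).star_eq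
  have hs2 : star x₂ = x₂ := (IsSelfAdjoint.of_nonneg hx2).star_eq
  have hsc : star c = c := hc
  set z : C := c * (x₁ - x₂) * c with hz
  have hzsa : IsSelfAdjoint z := by
    change star z = z
    rw [hz, star_mul, star_mul, star_sub, hsc, hs1, hs2, mul_assoc]
  have h2 := split_sub hzsa
  rw [h0, zero_sub] at h2
  have hn : 0 ≤ -z := by
    rw [← h2, neg_neg]
    exact split_nf_nonneg z
  have e1 : x₁ * z * x₁ = c * x₁ * x₁ * (x₁ * c) := by
    have e2 : x₁ * z = c * (x₁ * x₁) * c := by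
      rw [hz]
      calc x₁ * (c * (x₁ - x₂) * c) = (x₁ * c) * (x₁ - x₂) * c := by simp only [mul_assoc]
        _ = c * (x₁ * x₁ - x₁ * x₂) * c := by
            rw [hc1, mul_assoc c x₁, mul_sub]
        _ = c * (x₁ * x₁) * c := by rw [h12, sub_zero]
    rw [e2]
    calc c * (x₁ * x₁) * c * x₁ = c * (x₁ * x₁) * (c * x₁) := by simp only [mul_assoc]
      _ = c * (x₁ * x₁) * (x₁ * c) := by rw [hc1]
      _ = c * x₁ * x₁ * (x₁ * c) := by simp only [mul_assoc]
  have hpos : 0 ≤ x₁ * z * x₁ := by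
    rw [e1]
    have e3 : c * x₁ * x₁ * (x₁ * c) = star (x₁ * c) * x₁ * (x₁ * c) := by
      rw [star_mul, hsc, hs1]
    rw [e3]
    exact star_left_conjugate_nonneg hx1 (x₁ * c)
  have hneg : 0 ≤ -(x₁ * z * x₁) := by
    have e4 : -(x₁ * z * x₁) = star x₁ * (-z) * x₁ := by
      rw [hs1, mul_neg, neg_mul]
    rw [e4]
    exact star_left_conjugate_nonneg hn x₁
  have h3 : x₁ * z * x₁ = 0 := le_antisymm (neg_nonneg.1 hneg) hpos
  have h4 : c * x₁ * x₁ = 0 := by
    have e5 : star (c * x₁ * x₁) * (c * x₁ * x₁) = 0 := by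
      rw [star_mul, star_mul, hsc, hs1]
      have e6 : c * x₁ * x₁ = x₁ * (x₁ * c) := by
        rw [← hc1, mul_assoc, ← hc1]
      calc x₁ * (x₁ * c) * (c * x₁ * x₁) = (c * x₁ * x₁) * (x₁ * (x₁ * c)) := by
            rw [← e6]
        _ = (c * x₁ * x₁) * ((x₁ * c) * x₁) := by rw [mul_assoc x₁ c x₁, ← hc1]
        _ = (c * x₁ * x₁ * (x₁ * c)) * x₁ := by simp only [mul_assoc]
        _ = 0 := by rw [← e1, h3, zero_mul]
    exact (CStarRing.star_mul_self_eq_zero_iff _).1 e5
  apply h1
  rw [← CStarRing.star_mul_self_eq_zero_iff]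
  rw [star_mul, hsc, hs1]
  calc x₁ * c * (c * x₁) = c * (c * x₁ * x₁) := by
        rw [hc1, mul_assoc, ← mul_assoc x₁ c x₁, hc1]
    _ = 0 := by rw [h4, mul_zero]

/-- Splitting a positive element. -/
theorem CP.split_two (h : CP α ι U) [IsSimpleRing B] {E : B →L[ℂ] A} (hE : IsEx α ι U E)
    {d : ℕ} (hR : Rok α d) (y : A) (hy : IsPos y) (hy0 : y ≠ 0) :
    ∃ y1 y2 : A, IsPos y1 ∧ IsPos y2 ∧ y1 ≠ 0 ∧ y2 ≠ 0 ∧ y1 * y2 = 0 ∧
      (∃ z, y1 = y * z * y) ∧ (∃ z, y2 = y * z * y) := by
  obtain ⟨C, _, mk, hm, T1, T2, hT1, hT2, h12, h21, hc1, hc2, hp1, hp2, h1, h2⟩ :=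
    split_levels h hE hR y hy0
  have hysa : star y = y := by
    obtain ⟨g, rfl⟩ := hy
    rw [star_mul, star_star]
  have hTsa : ∀ T : ℕ →ᵇ A, (∀ n, IsPos (T n)) → star T = T := by
    intro T hT
    ext n
    obtain ⟨g, hg⟩ := hT n
    change star (T n) = T n
    rw [hg, star_mul, star_star]
  set w : ℕ →ᵇ A := cst y * (T1 - T2) * cst y with hw
  have hwsa : IsSelfAdjoint w := by
    change star w = w
    rw [hw, star_mul, star_mul, star_sub, hTsa T1 hT1, hTsa T2 hT2, ← map_star, hysa, mul_assoc]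
  have hcst : seqMap ι (cst y) = cst (ι y) := rfl
  set ψ : (ℕ →ᵇ A) →⋆ₐ[ℂ] C := mk.comp (seqMap ι) with hψ
  have hψw : ψ w = mk (cst (ι y)) * (mk (seqMap ι T1) - mk (seqMap ι T2)) * mk (cst (ι y)) := by
    change mk (seqMap ι w) = _
    rw [hw]
    simp only [map_mul, map_sub, hcst]
  have hκsa : IsSelfAdjoint (mk (cst (ι y))) := by
    change star (mk (cst (ι y))) = _
    rw [← map_star, ← map_star, ← map_star, hysa]
  have hψsa : IsSelfAdjoint (ψ w) := by
    change star (ψ w) = ψ w
    rw [← map_star, hwsa.star_eq]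
  obtain ⟨wp, hwp⟩ := split_exists w hwsa split_pf split_pf_cont
  obtain ⟨wn, hwn'⟩ := split_exists w hwsa split_nf split_nf_cont
  have hP : ψ wp ≠ 0 := by
    rw [hwp C _ ψ, hψw]
    exact split_pos_part hκsa h12 h21 hc1 hc2 hp1 hp2 h1
  have hN : ψ wn ≠ 0 := by
    have e1 : cfc split_nf (ψ w) = cfc split_pf (-(ψ w)) := by
      rw [← cfc_comp_neg split_pf (ψ w) split_pf_cont.continuousOn hψsa]
      rfl
    rw [hwn' C _ ψ, e1, hψw]
    have e2 : -(mk (cst (ι y)) * (mk (seqMap ι T1) - mk (seqMap ι T2)) * mk (cst (ι y))) =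
        mk (cst (ι y)) * (mk (seqMap ι T2) - mk (seqMap ι T1)) * mk (cst (ι y)) := by
      noncomm_ring
    rw [e2]
    exact split_pos_part hκsa h21 h12 hc2 hc1 hp2 hp1 h2
  have hev : ∀ V : ℕ →ᵇ A, ψ V ≠ 0 → ∀ᶠ n in (Filter.hyperfilter ℕ : Filter ℕ), V n ≠ 0 := by
    intro V hV
    by_contra hcon
    rw [Ultrafilter.eventually_not, not_not] at hcon
    apply hV
    change mk (seqMap ι V) = 0
    rw [hm.eq_zero_iff]
    intro ε hε
    filter_upwards [hcon] with n hn
    rw [seqMap_apply, hn, map_zero, norm_zero]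
    exact hε
  obtain ⟨n, hn1, hn2⟩ := ((hev _ hP).and (hev _ hN)).exists
  have hwn : w n = y * (T1 n - T2 n) * y := rfl
  have hwnsa : IsSelfAdjoint (w n) := by
    change star (w n) = w n
    have := congrArg (fun V : ℕ →ᵇ A => V n) hwsa.star_eq
    exact this
  have e3 : wp n = cfc split_pf (w n) := hwp A _ (evl n)
  have e4 : wn n = cfc split_nf (w n) := hwn' A _ (evl n)
  rw [e3] at hn1
  rw [e4] at hn2
  set v : A := w n with hv
  have hpn := split_pn v
  have hnp : cfc split_nf v * cfc split_pf v = 0 := by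
    have := congrArg star hpn
    rw [star_mul, star_zero, (IsSelfAdjoint.of_nonneg (split_pf_nonneg v)).star_eq,
      (IsSelfAdjoint.of_nonneg (split_nf_nonneg v)).star_eq] at this
    exact this
  have hsub := split_sub hwnsa
  have hxp : v * cfc split_pf v = cfc split_pf v * cfc split_pf v := by
    calc v * cfc split_pf v = (cfc split_pf v - cfc split_nf v) * cfc split_pf v := by rw [hsub]
      _ = cfc split_pf v * cfc split_pf v := by rw [sub_mul, hnp, sub_zero]
  have hxn : v * cfc split_nf v = -(cfc split_nf v * cfc split_nf v) := by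
    calc v * cfc split_nf v = (cfc split_pf v - cfc split_nf v) * cfc split_nf v := by rw [hsub]
      _ = -(cfc split_nf v * cfc split_nf v) := by rw [sub_mul, hpn, zero_sub]
  obtain ⟨p1, p2⟩ := split_cube hwnsa (split_pf_nonneg v) hn1 (Or.inl hxp)
  obtain ⟨n1, n2⟩ := split_cube hwnsa (split_nf_nonneg v) hn2 (Or.inr hxn)
  refine ⟨v * cfc split_pf v * v, v * cfc split_nf v * v, p1, n1, p2, n2, ?_, ?_, ?_⟩
  · have e5 : cfc split_pf v * v = v * cfc split_pf v := split_comm v _
    have e6 : cfc split_nf v * v = v * cfc split_nf v := split_comm v _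
    calc v * cfc split_pf v * v * (v * cfc split_nf v * v)
        = v * ((cfc split_pf v * v) * (v * cfc split_nf v)) * v := by simp only [mul_assoc]
      _ = v * ((v * cfc split_pf v) * (cfc split_nf v * v)) * v := by rw [e5, e6]
      _ = v * (v * (cfc split_pf v * cfc split_nf v) * v) * v := by simp only [mul_assoc]
      _ = 0 := by rw [hpn, mul_zero, zero_mul, mul_zero, zero_mul]
  · refine ⟨(T1 n - T2 n) * y * cfc split_pf v * y * (T1 n - T2 n), ?_⟩
    calc v * cfc split_pf v * v
        = (y * (T1 n - T2 n) * y) * cfc split_pf v * (y * (T1 n - T2 n) * y) := by rw [← hwn]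
      _ = _ := by simp only [mul_assoc]
  · refine ⟨(T1 n - T2 n) * y * cfc split_nf v * y * (T1 n - T2 n), ?_⟩
    calc v * cfc split_nf v * v
        = (y * (T1 n - T2 n) * y) * cfc split_nf v * (y * (T1 n - T2 n) * y) := by rw [← hwn]
      _ = _ := by simp only [mul_assoc]

end Pool.Agent.MPb9c6dd
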