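import Pool.Agent.Lib.MP_b9c6dd_an.Basic

set_option autoImplicit false

open scoped BoundedContinuousFunction Topology
open Filter

namespace Pool.Agent.MPb9c6dd

section Ultra

/-- The limit of `‖X n‖` along the hyperfilter. -/
noncomputable def ultra_val {B : Type} [CStarAlgebra B] (X : ℕ →ᵇ B) : ℝ :=
  limUnder (hyperfilter ℕ : Filter ℕ) (fun n => ‖X n‖)

theorem ultra_tendsto {B : Type} [CStarAlgebra B] (X : ℕ →ᵇ B) :
    Tendsto (fun n => ‖X n‖) (hyperfilter ℕ : Filter ℕ) (𝓝 (ultra_val X)) := by
  apply tendsto_nhds_limUnder
  have h : Set.Icc (0 : ℝ) ‖X‖ ∈ ((hyperfilter ℕ).map (fun n => ‖X n‖)) := by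
    rw [Ultrafilter.mem_map]
    refine Filter.univ_mem' (f := (hyperfilter ℕ : Filter ℕ)) ?_
    intro n
    exact ⟨norm_nonneg _, X.norm_coe_le_norm n⟩
  obtain ⟨x, -, hx⟩ := isCompact_Icc.ultrafilter_le_nhds' _ h
  exact ⟨x, hx⟩

variable (B : Type) [CStarAlgebra B]

/-- Bounded sequences, to be given the ultrapower seminorm. -/
def UltraPre : Type := ℕ →ᵇ B

noncomputable instance : Ring (UltraPre B) := inferInstanceAs (Ring (ℕ →ᵇ B))
noncomputable instance : Algebra ℂ (UltraPre B) := inferInstanceAs (Algebra ℂ (ℕ →ᵇ B))
noncomputable instance : StarRing (UltraPre B) := inferInstanceAs (StarRing (ℕ →ᵇ B))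
instance : StarModule ℂ (UltraPre B) := inferInstanceAs (StarModule ℂ (ℕ →ᵇ B))

variable {B}

/-- A bounded sequence as an element of `UltraPre`. -/
def ultra_of (X : ℕ →ᵇ B) : UltraPre B := X

/-- An element of `UltraPre` as a bounded sequence. -/
def ultra_to (X : UltraPre B) : ℕ →ᵇ B := X

/-- The ultrapower seminorm. -/
noncomputable def ultra_semi : RingSeminorm (UltraPre B) where
  toFun X := ultra_val (ultra_to X)
  map_zero' := by
    refine tendsto_nhds_unique (ultra_tendsto (B := B) _) ?_
    have : (fun n : ℕ => ‖(ultra_to (0 : UltraPre B)) n‖) = fun _ => 0 := by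
      funext n
      exact norm_zero
    rw [this]
    exact tendsto_const_nhds
  add_le' X Y := by
    refine le_of_tendsto_of_tendsto (ultra_tendsto (ultra_to (X + Y)))
      ((ultra_tendsto (ultra_to X)).add (ultra_tendsto (ultra_to Y))) ?_
    exact Eventually.of_forall fun n => norm_add_le (ultra_to X n) (ultra_to Y n)
  neg' X := by
    refine tendsto_nhds_unique (ultra_tendsto (ultra_to (-X))) ?_
    have : (fun n : ℕ => ‖(ultra_to (-X)) n‖) = fun n => ‖(ultra_to X) n‖ := by
      funext n
      exact norm_neg (ultra_to X n)
    rw [this]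
    exact ultra_tendsto (ultra_to X)
  mul_le' X Y := by
    refine le_of_tendsto_of_tendsto (ultra_tendsto (ultra_to (X * Y)))
      ((ultra_tendsto (ultra_to X)).mul (ultra_tendsto (ultra_to Y))) ?_
    exact Eventually.of_forall fun n => norm_mul_le (ultra_to X n) (ultra_to Y n)

noncomputable instance : SeminormedRing (UltraPre B) := RingSeminorm.toSeminormedRing ultra_semi

theorem ultra_norm (X : UltraPre B) : ‖X‖ = ultra_val (ultra_to X) := rfl

theorem ultra_norm_tendsto (X : UltraPre B) :
    Tendsto (fun n => ‖ultra_to X n‖) (hyperfilter ℕ : Filter ℕ) (𝓝 ‖X‖) :=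
  ultra_tendsto (ultra_to X)

theorem ultra_norm_star (X : UltraPre B) : ‖star X‖ = ‖X‖ := by
  refine tendsto_nhds_unique (ultra_norm_tendsto (star X)) ?_
  have : (fun n : ℕ => ‖(ultra_to (star X)) n‖) = fun n => ‖(ultra_to X) n‖ := by
    funext n
    exact norm_star (ultra_to X n)
  rw [this]
  exact ultra_norm_tendsto X

theorem ultra_norm_star_mul (X : UltraPre B) : ‖star X * X‖ = ‖X‖ * ‖X‖ := by
  refine tendsto_nhds_unique (ultra_norm_tendsto (star X * X)) ?_
  have : (fun n : ℕ => ‖(ultra_to (star X * X)) n‖) =
      fun n => ‖(ultra_to X) n‖ * ‖(ultra_to X) n‖ := by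
    funext n
    exact CStarRing.norm_star_mul_self (x := ultra_to X n)
  rw [this]
  exact (ultra_norm_tendsto X).mul (ultra_norm_tendsto X)

theorem ultra_norm_smul (c : ℂ) (X : UltraPre B) : ‖c • X‖ ≤ ‖c‖ * ‖X‖ := by
  refine le_of_tendsto_of_tendsto (ultra_norm_tendsto (c • X))
      ((ultra_norm_tendsto X).const_mul ‖c‖) ?_
  exact Eventually.of_forall fun n => (norm_smul c (ultra_to X n)).le

noncomputable instance : NormedAlgebra ℂ (UltraPre B) where
  norm_smul_le := ultra_norm_smul

theorem ultra_isometry_star : Isometry (star : UltraPre B → UltraPre B) := by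
  refine Isometry.of_dist_eq fun X Y => ?_
  rw [dist_eq_norm, dist_eq_norm, ← star_sub, ultra_norm_star]

/-- The ultrapower. -/
abbrev UltraC (B : Type) [CStarAlgebra B] : Type := UniformSpace.Completion (UltraPre B)

noncomputable instance : NormedAlgebra ℂ (UltraC B) where
  norm_smul_le := norm_smul_le

noncomputable instance : Star (UltraC B) where
  star := UniformSpace.Completion.map star

theorem ultra_coe_star (X : UltraPre B) : star (X : UltraC B) = ((star X : UltraPre B) : UltraC B) :=
  UniformSpace.Completion.map_coe ultra_isometry_star.uniformContinuous X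

theorem ultra_continuous_star : Continuous (star : UltraC B → UltraC B) :=
  UniformSpace.Completion.continuous_map

noncomputable instance : StarRing (UltraC B) where
  star_involutive x := by
    refine UniformSpace.Completion.induction_on x
      (isClosed_eq (ultra_continuous_star.comp ultra_continuous_star) continuous_id) fun X => ?_
    rw [ultra_coe_star, ultra_coe_star, star_star]
  star_mul x y := by
    refine UniformSpace.Completion.induction_on₂ x y
      (isClosed_eq (ultra_continuous_star.comp continuous_mul)
        ((ultra_continuous_star.comp continuous_snd).mul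
          (ultra_continuous_star.comp continuous_fst))) fun X Y => ?_
    rw [← UniformSpace.Completion.coe_mul, ultra_coe_star, ultra_coe_star, ultra_coe_star,
      ← UniformSpace.Completion.coe_mul, star_mul]
  star_add x y := by
    refine UniformSpace.Completion.induction_on₂ x y
      (isClosed_eq (ultra_continuous_star.comp continuous_add)
        ((ultra_continuous_star.comp continuous_fst).add
          (ultra_continuous_star.comp continuous_snd))) fun X Y => ?_
    rw [← UniformSpace.Completion.coe_add, ultra_coe_star, ultra_coe_star, ultra_coe_star,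
      ← UniformSpace.Completion.coe_add, star_add]

instance : StarModule ℂ (UltraC B) where
  star_smul c x := by
    refine UniformSpace.Completion.induction_on x
      (isClosed_eq (ultra_continuous_star.comp (continuous_const_smul c))
        (ultra_continuous_star.const_smul (star c))) fun X => ?_
    rw [← UniformSpace.Completion.coe_smul, ultra_coe_star, ultra_coe_star,
      ← UniformSpace.Completion.coe_smul, star_smul]

instance : CStarRing (UltraC B) where
  norm_mul_self_le x := by
    refine UniformSpace.Completion.induction_on x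
      (isClosed_le (continuous_norm.mul continuous_norm)
        ((ultra_continuous_star.mul continuous_id).norm)) fun X => ?_
    change ‖(X : UltraC B)‖ * ‖(X : UltraC B)‖ ≤ ‖star (X : UltraC B) * (X : UltraC B)‖
    rw [ultra_coe_star, ← UniformSpace.Completion.coe_mul, UniformSpace.Completion.norm_coe,
      UniformSpace.Completion.norm_coe, ultra_norm_star_mul]

noncomputable instance : CStarAlgebra (UltraC B) where

/-- The canonical map to the ultrapower. -/
noncomputable def ultra_mk : (ℕ →ᵇ B) →⋆ₐ[ℂ] UltraC B where
  toFun X := ((ultra_of X : UltraPre B) : UltraC B)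
  map_one' := rfl
  map_mul' X Y := UniformSpace.Completion.coe_mul (ultra_of X) (ultra_of Y)
  map_zero' := rfl
  map_add' X Y := UniformSpace.Completion.coe_add (ultra_of X) (ultra_of Y)
  commutes' _ := rfl
  map_star' X := (ultra_coe_star (ultra_of X)).symm

theorem ultra_norm_mk (X : ℕ →ᵇ B) : ‖ultra_mk X‖ = ultra_val X :=
  UniformSpace.Completion.norm_coe (ultra_of X)

end Ultra

/-- Existence of an ultrapower. -/
theorem exists_ultra (B : Type) [CStarAlgebra B] :
    ∃ (C : Type) (_ : CStarAlgebra C) (mk : (ℕ →ᵇ B) →⋆ₐ[ℂ] C), IsUltra mk := by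
  refine ⟨UltraC B, inferInstance, ultra_mk, ⟨?_, ?_, ?_⟩⟩
  · exact (UniformSpace.Completion.denseRange_coe (α := UltraPre B))
  · intro X r h
    rw [ultra_norm_mk] at h
    exact (ultra_tendsto X).eventually_lt_const h
  · intro X r _ h
    rw [ultra_norm_mk]
    exact le_of_tendsto (ultra_tendsto X) h

end Pool.Agent.MPb9c6dd
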